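import Mathlib
import Pool.Agent.TH591.Sq.Flat

set_option autoImplicit false
set_option linter.unusedSectionVars false

/-!
# The flatness of a centrally symmetric body and its average modulus of smoothness
-/

namespace Pool.Agent.Run7.h924.Lat

open MeasureTheory Set Filter
open scoped ENNReal
open Pool.Agent.TH591.Sq

variable {E : Type*} [NormedAddCommGroup E] [InnerProductSpace ℝ E] [FiniteDimensional ℝ E]
  [MeasurableSpace E] [BorelSpace E]

/-- the unit ball -/
def UB (p : Seminorm ℝ E) : Set E := {x | p x ≤ 1}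

section
variable (p : Seminorm ℝ E) (c : ℝ)

theorem ub_meas : MeasurableSet (UB p) := (isClosed_le (semi_cont p) continuous_const).measurableSet

theorem ub_compact (hc : 0 < c) (hp : ∀ x, c * ‖x‖ ≤ p x) : IsCompact (UB p) := by
  refine Metric.isCompact_of_isClosed_isBounded (isClosed_le (semi_cont p) continuous_const) ?_
  refine (Metric.isBounded_closedBall (x := (0 : E)) (r := 1 / c)).subset fun x hx => ?_
  rw [mem_closedBall_zero_iff, le_div_iff₀ hc]
  have h1 : p x ≤ 1 := hx
  have h2 := hp x
  nlinarith

theorem ub_int (hc : 0 < c) (hp : ∀ x, c * ‖x‖ ≤ p x) {f : E → ℝ} (hf : Continuous f) :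
    IntegrableOn f (UB p) :=
  hf.continuousOn.integrableOn_compact (ub_compact p c hc hp)

theorem ub_neg (f : E → ℝ) : ∫ z in UB p, f (-z) = ∫ z in UB p, f z := by
  rw [← integral_indicator (ub_meas p), ← integral_indicator (ub_meas p)]
  rw [← integral_neg_eq_self ((UB p).indicator f)]
  congr 1
  funext z
  by_cases h : z ∈ UB p
  · have h' : -z ∈ UB p := by
      show p (-z) ≤ 1
      rw [map_neg_eq_map]; exact h
    rw [indicator_of_mem h, indicator_of_mem h']
  · have h' : -z ∉ UB p := by
      intro h2
      apply h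
      have h3 : p (-z) ≤ 1 := h2
      rw [map_neg_eq_map] at h3; exact h3
    rw [indicator_of_notMem h, indicator_of_notMem h']

theorem ub_mean (hc : 0 < c) (hp : ∀ x, c * ‖x‖ ≤ p x) :
    ∫ z in UB p, (1 - p z) = (volume (UB p)).toReal / (Module.finrank ℝ E + 1) := by
  have hfin : volume (UB p) ≠ ⊤ := (ub_compact p c hc hp).measure_lt_top.ne
  have h := radial p (fun _ => 1) measurable_const (fun _ _ _ => rfl) 1 one_pos
  have e1 : {x : E | p x ≤ 1} = UB p := rfl
  rw [e1] at h
  simp only [Real.rpow_one, mul_one, lintegral_const, Measure.restrict_apply, MeasurableSet.univ,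
    univ_inter, one_mul] at h
  have h2 : ∫⁻ x in UB p, ENNReal.ofReal (p x) = ENNReal.ofReal (∫ x in UB p, p x) :=
    (ofReal_integral_eq_lintegral_ofReal (ub_int p c hc hp (semi_cont p))
      (Eventually.of_forall fun x => apply_nonneg p x)).symm
  rw [h2] at h
  have h3 := congrArg ENNReal.toReal h
  rw [ENNReal.toReal_add ENNReal.ofReal_ne_top (ENNReal.mul_ne_top ENNReal.ofReal_ne_top hfin),
    ENNReal.toReal_mul, ENNReal.toReal_ofReal (integral_nonneg fun x => apply_nonneg p x),
    ENNReal.toReal_ofReal (by positivity)] at h3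
  rw [integral_sub (ub_int p c hc hp continuous_const) (ub_int p c hc hp (semi_cont p))]
  have h4 : ∫ _ in UB p, (1 : ℝ) = (volume (UB p)).toReal := by
    simp [Measure.real]
  rw [h4]
  have h5 : 1 / ((Module.finrank ℝ E : ℝ) + 1) * (volume (UB p)).toReal
      = (volume (UB p)).toReal / (Module.finrank ℝ E + 1) := by ring
  linarith

/-- mass which leaves the body -/
theorem ub_pos (hc : 0 < c) (hp : ∀ x, c * ‖x‖ ≤ p x) (v : E) :
    ∫ z in UB p, max (p (z + v) - 1) 0 ≤ ∫ z in UB p, (p (z + v) - p z) := by
  have hpc := semi_cont p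
  have hg1 : Continuous fun z => max (1 - p (z + v)) 0 := by fun_prop
  have hg2 : Continuous fun z => max (1 - p z) 0 := by fun_prop
  have e1 : ∫ z in UB p, max (p (z + v) - 1) 0
      = (∫ z in UB p, (p (z + v) - 1)) + ∫ z in UB p, max (1 - p (z + v)) 0 := by
    rw [← integral_add (ub_int p c hc hp (by fun_prop)) (ub_int p c hc hp hg1)]
    congr 1
    funext z
    rcases le_total (p (z + v)) 1 with h | h
    · rw [max_eq_right (by linarith), max_eq_left (by linarith)]; ring
    · rw [max_eq_left (by linarith), max_eq_right (by linarith)]; ring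
  have hi : Integrable fun z => max (1 - p z) 0 := by
    apply hg2.integrable_of_hasCompactSupport
    refine HasCompactSupport.intro (ub_compact p c hc hp) fun x hx => ?_
    have : 1 < p x := not_le.1 hx
    exact max_eq_right (by linarith)
  have e2 : ∫ z in UB p, max (1 - p (z + v)) 0 ≤ ∫ z in UB p, (1 - p z) := by
    calc ∫ z in UB p, max (1 - p (z + v)) 0
        ≤ ∫ z, max (1 - p (z + v)) 0 :=
          setIntegral_le_integral (hi.comp_add_right v)
            (Eventually.of_forall fun z => le_max_right _ _)
      _ = ∫ z, max (1 - p z) 0 := integral_add_right_eq_self (fun z => max (1 - p z) 0) v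
      _ = ∫ z in UB p, max (1 - p z) 0 := by
          rw [setIntegral_eq_integral_of_forall_compl_eq_zero]
          intro x hx
          have : 1 < p x := not_le.1 hx
          exact max_eq_right (by linarith)
      _ = ∫ z in UB p, (1 - p z) := by
          refine setIntegral_congr_fun (ub_meas p) fun z hz => ?_
          have : p z ≤ 1 := hz
          exact max_eq_left (by linarith)
  rw [e1]
  have e3 : ∫ z in UB p, (p (z + v) - p z)
      = (∫ z in UB p, (p (z + v) - 1)) + ∫ z in UB p, (1 - p z) := by
    rw [← integral_add (ub_int p c hc hp (by fun_prop)) (ub_int p c hc hp (by fun_prop))]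
    congr 1
    funext z
    ring
  rw [e3]
  linarith

/-- convexity -/
theorem ub_pt (s : ℝ) (z v : E) :
    p z - 1 + s * |fderiv ℝ p z v| ≤ max (p (z + s • v) - 1) 0 + max (p (z + -(s • v)) - 1) 0 := by
  have hsum : 2 * p z ≤ p (z + s • v) + p (z + -(s • v)) := by
    have h := map_add_le_add p (z + s • v) (z + -(s • v))
    have e : z + s • v + (z + -(s • v)) = (2 : ℝ) • z := by
      rw [two_smul]; abel
    rw [e, map_smul_eq_mul, Real.norm_of_nonneg (by norm_num)] at h
    exact h
  by_cases hd : DifferentiableAt ℝ p z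
  · -- slope inequality
    have key : ∀ w : E, p z + fderiv ℝ p z w ≤ p (z + w) := by
      intro w
      have hconv : ConvexOn ℝ univ p := p.convexOn
      have hline : ∀ t : ℝ, 0 < t → t ≤ 1 → (p (z + t • w) - p z) / t ≤ p (z + w) - p z := by
        intro t ht ht1
        rw [div_le_iff₀ ht]
        have h := hconv.2 (mem_univ z) (mem_univ (z + w)) (by linarith : (0 : ℝ) ≤ 1 - t) ht.le
          (by ring)
        have e : (1 - t) • z + t • (z + w) = z + t • w := by
          rw [smul_add, ← add_assoc, ← add_smul]
          congr 1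
          rw [sub_add_cancel, one_smul]
        rw [e, smul_eq_mul, smul_eq_mul] at h
        nlinarith
      have hder : HasDerivAt (fun t : ℝ => p (z + t • w)) (fderiv ℝ p z w) 0 := by
        have h1 : HasFDerivAt p (fderiv ℝ p z) (z + (0 : ℝ) • w) := by
          simpa using hd.hasFDerivAt
        have h2 : HasDerivAt (fun t : ℝ => z + t • w) w 0 := by
          simpa using ((hasDerivAt_id (0 : ℝ)).smul_const w).const_add z
        exact h1.comp_hasDerivAt (0 : ℝ) h2
      have hlim := hder.tendsto_slope_zero_right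
      have hle : fderiv ℝ p z w ≤ p (z + w) - p z := by
        refine le_of_tendsto hlim ?_
        have hmem : Ioc (0 : ℝ) 1 ∈ nhdsWithin 0 (Ioi (0 : ℝ)) := Ioc_mem_nhdsGT zero_lt_one
        filter_upwards [hmem] with t ht
        have := hline t ht.1 ht.2
        simp only [zero_add, zero_smul, add_zero, smul_eq_mul]
        rw [inv_mul_eq_div]
        exact this
      linarith
    have h1 := key (s • v)
    have h2 := key (-(s • v))
    rw [map_smul, smul_eq_mul] at h1
    rw [map_neg, map_smul, smul_eq_mul] at h2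
    have h3 := le_max_left (p (z + s • v) - 1) 0
    have h4 := le_max_left (p (z + -(s • v)) - 1) 0
    have h5 := le_max_right (p (z + s • v) - 1) 0
    have h6 := le_max_right (p (z + -(s • v)) - 1) 0
    rcases abs_cases (fderiv ℝ p z v) with ⟨h, _⟩ | ⟨h, _⟩ <;> rw [h] <;> nlinarith
  · rw [fderiv_zero_of_not_differentiableAt hd]
    simp only [zero_apply, abs_zero, mul_zero, add_zero]
    have h3 := le_max_left (p (z + s • v) - 1) 0
    have h4 := le_max_left (p (z + -(s • v)) - 1) 0
    have h5 := le_max_right (p (z + s • v) - 1) 0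
    have h6 := le_max_right (p (z + -(s • v)) - 1) 0
    rcases le_total (p (z + s • v)) (p (z + -(s • v))) with h | h <;> linarith

theorem df_int (hc : 0 < c) (hp : ∀ x, c * ‖x‖ ≤ p x) (v : E) :
    IntegrableOn (fun z => |fderiv ℝ p z v|) (UB p) := by
  obtain ⟨C, hC0, hC⟩ := df_bound p
  have hfin : volume (UB p) ≠ ⊤ := (ub_compact p c hc hp).measure_lt_top.ne
  refine Measure.integrableOn_of_bounded (M := C * ‖v‖) hfin ?_ ?_
  · exact (measurable_fderiv_apply_const ℝ p v).abs.aestronglyMeasurable
  · refine Eventually.of_forall fun z => ?_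
    rw [Real.norm_of_nonneg (abs_nonneg _)]
    exact hC z v

/-- the mean derivative in the direction `v` -/
theorem ub_one (hc : 0 < c) (hp : ∀ x, c * ‖x‖ ≤ p x) (s : ℝ) (hs : 0 < s) (v : E) :
    s * ∫ z in UB p, |fderiv ℝ p z v| ≤ 2 * (∫ z in UB p, (p (z + s • v) - p z))
      + (volume (UB p)).toReal / (Module.finrank ℝ E + 1) := by
  have hpc := semi_cont p
  have h1 : ∫ z in UB p, (p z - 1 + s * |fderiv ℝ p z v|)
      ≤ ∫ z in UB p, (max (p (z + s • v) - 1) 0 + max (p (z + -(s • v)) - 1) 0) := by
    refine setIntegral_mono_on ?_ ?_ (ub_meas p) fun z _ => ub_pt p s z v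
    · exact (ub_int p c hc hp (by fun_prop)).add ((df_int p c hc hp v).const_mul s)
    · exact ub_int p c hc hp (by fun_prop)
  have h2 : ∫ z in UB p, (p z - 1 + s * |fderiv ℝ p z v|)
      = -(volume (UB p)).toReal / (Module.finrank ℝ E + 1) + s * ∫ z in UB p, |fderiv ℝ p z v| := by
    rw [integral_add (ub_int p c hc hp (by fun_prop)) ((df_int p c hc hp v).const_mul s),
      integral_const_mul]
    congr 1
    rw [neg_div, ← ub_mean p c hc hp, ← integral_neg]
    congr 1
    funext z
    ring
  have h3 : ∫ z in UB p, (max (p (z + s • v) - 1) 0 + max (p (z + -(s • v)) - 1) 0)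
      = 2 * ∫ z in UB p, max (p (z + s • v) - 1) 0 := by
    rw [integral_add (ub_int p c hc hp (by fun_prop)) (ub_int p c hc hp (by fun_prop)), two_mul]
    congr 1
    rw [← ub_neg p (fun z => max (p (z + s • v) - 1) 0)]
    congr 1
    funext z
    have : p (z + -(s • v)) = p (-z + s • v) := by
      rw [← map_neg_eq_map p (z + -(s • v))]
      congr 1
      abel
    rw [this]
  have h4 := ub_pos p c hc hp (s • v)
  rw [h2, h3] at h1
  have h5 : -(volume (UB p)).toReal / (Module.finrank ℝ E + 1 : ℝ)
      = -((volume (UB p)).toReal / (Module.finrank ℝ E + 1)) := by ring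
  rw [h5] at h1
  linarith

end

end Pool.Agent.Run7.h924.Lat
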