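import Mathlib

set_option autoImplicit false
set_option linter.unusedSectionVars false

/-!
# The two-point mean of order `q`
-/

namespace Pool.Agent.Run7.h924.Lat

open Set Filter

/-- the mean of order `q` of `|a + b|` and `|a - b|` -/
noncomputable def mq (q a b : ℝ) : ℝ := ((|a + b| ^ q + |a - b| ^ q) / 2) ^ (1 / q)

theorem mean_rpow (q x y : ℝ) (hq : 1 ≤ q) (hx : 0 ≤ x) (hy : 0 ≤ y) :
    ((x + y) / 2) ^ q ≤ (x ^ q + y ^ q) / 2 := by
  have h := (convexOn_rpow hq).2 (mem_Ici.2 hx) (mem_Ici.2 hy) (by norm_num : (0 : ℝ) ≤ 1 / 2)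
    (by norm_num : (0 : ℝ) ≤ 1 / 2) (by norm_num)
  simp only [smul_eq_mul] at h
  have e1 : (x + y) / 2 = 1 / 2 * x + 1 / 2 * y := by ring
  have e2 : (x ^ q + y ^ q) / 2 = 1 / 2 * x ^ q + 1 / 2 * y ^ q := by ring
  rw [e1, e2]
  exact h

theorem mean_le_qmean (q x y : ℝ) (hq : 1 ≤ q) (hx : 0 ≤ x) (hy : 0 ≤ y) :
    (x + y) / 2 ≤ ((x ^ q + y ^ q) / 2) ^ (1 / q) := by
  have h := Real.rpow_le_rpow (by positivity) (mean_rpow q x y hq hx hy)
    (by positivity : (0 : ℝ) ≤ 1 / q)
  rwa [← Real.rpow_mul (by positivity), mul_one_div_cancel (by linarith), Real.rpow_one] at h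

theorem mq_nonneg (q a b : ℝ) : 0 ≤ mq q a b := by
  unfold mq; positivity

theorem mq_pow (q a b : ℝ) (hq : 1 ≤ q) : mq q a b ^ q = (|a + b| ^ q + |a - b| ^ q) / 2 := by
  unfold mq
  rw [← Real.rpow_mul (by positivity), one_div_mul_cancel (by linarith), Real.rpow_one]

theorem le_mq (q a b : ℝ) (hq : 1 ≤ q) : |a| ≤ mq q a b := by
  refine le_trans ?_ (mean_le_qmean q |a + b| |a - b| hq (abs_nonneg _) (abs_nonneg _))
  have h := abs_add_le (a + b) (a - b)
  have e : a + b + (a - b) = 2 * a := by ring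
  rw [e, abs_mul, abs_two] at h
  linarith

theorem mq_le (q a b : ℝ) (hq : 1 ≤ q) : mq q a b ≤ |a| + |b| := by
  have h1 : |a + b| ≤ |a| + |b| := abs_add_le _ _
  have h2 : |a - b| ≤ |a| + |b| := by
    have := abs_sub a b
    exact this
  have hs : 0 ≤ |a| + |b| := by positivity
  have h3 : (|a + b| ^ q + |a - b| ^ q) / 2 ≤ (|a| + |b|) ^ q := by
    have h4 := Real.rpow_le_rpow (abs_nonneg _) h1 (by linarith : 0 ≤ q)
    have h5 := Real.rpow_le_rpow (abs_nonneg _) h2 (by linarith : 0 ≤ q)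
    linarith
  have h4 := Real.rpow_le_rpow (by positivity) h3 (by positivity : (0 : ℝ) ≤ 1 / q)
  rwa [← Real.rpow_mul hs, mul_one_div_cancel (by linarith), Real.rpow_one] at h4

theorem exp_half (x : ℝ) (hx : 0 ≤ x) (hx1 : x ≤ 1 / 2) : Real.exp x ≤ 1 + 2 * x := by
  have h1 := Real.one_sub_le_exp_neg x
  rw [Real.exp_neg] at h1
  have h2 : 0 < 1 - x := by linarith
  have h3 : Real.exp x ≤ (1 - x)⁻¹ := by
    rw [le_inv_comm₀ (Real.exp_pos x) h2]
    exact h1
  refine h3.trans ?_
  rw [inv_le_iff_one_le_mul₀ h2]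
  nlinarith

theorem cosh_bd (q y : ℝ) (hq : 1 ≤ q) (hy : 0 ≤ y) (hy1 : y ≤ 1) :
    (((1 + y) ^ q + (1 - y) ^ q) / 2) ^ (1 / q) ≤ Real.exp (q * y ^ 2 / 2) := by
  have hq0 : 0 ≤ q := by linarith
  have h1 : (1 + y) ^ q ≤ Real.exp (q * y) := by
    have := Real.rpow_le_rpow (by linarith) (by linarith [Real.add_one_le_exp y] :
      1 + y ≤ Real.exp y) hq0
    rwa [← Real.exp_mul, mul_comm] at this
  have h2 : (1 - y) ^ q ≤ Real.exp (-(q * y)) := by
    have := Real.rpow_le_rpow (by linarith) (Real.one_sub_le_exp_neg y) hq0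
    rwa [← Real.exp_mul, neg_mul, mul_comm] at this
  have h3 : ((1 + y) ^ q + (1 - y) ^ q) / 2 ≤ Real.exp ((q * y) ^ 2 / 2) := by
    refine le_trans ?_ (Real.cosh_le_exp_half_sq (q * y))
    rw [Real.cosh_eq]
    linarith
  have h0 : 0 ≤ ((1 + y) ^ q + (1 - y) ^ q) / 2 := by
    have := Real.rpow_nonneg (by linarith : 0 ≤ 1 + y) q
    have := Real.rpow_nonneg (by linarith : 0 ≤ 1 - y) q
    linarith
  have h4 := Real.rpow_le_rpow h0 h3 (by positivity : (0 : ℝ) ≤ 1 / q)
  rw [← Real.exp_mul] at h4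
  refine h4.trans (Real.exp_le_exp.2 (le_of_eq ?_))
  field_simp

/-- second order bound -/
theorem mq_sub_mul (q a b : ℝ) (hq : 1 ≤ q) : (mq q a b - |a|) * |a| ≤ q * b ^ 2 := by
  have h0 := mq_le q a b hq
  have hb2 : |b| ^ 2 = b ^ 2 := sq_abs b
  rcases le_total |a| |b| with hab | hab
  · calc (mq q a b - |a|) * |a| ≤ |b| * |b| := by
          apply mul_le_mul (by linarith) hab (abs_nonneg _) (abs_nonneg _)
      _ = 1 * b ^ 2 := by rw [← hb2]; ring
      _ ≤ q * b ^ 2 := by gcongr
  · rcases (abs_nonneg a).eq_or_lt with ha | ha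
    · rw [← ha, mul_zero]; positivity
    set y : ℝ := |b| / |a| with hy
    have hy0 : 0 ≤ y := by positivity
    have hy1 : y ≤ 1 := by rw [hy, div_le_one ha]; exact hab
    have hby : |b| = y * |a| := by rw [hy]; field_simp
    -- the two numbers
    have hset : |a + b| ^ q + |a - b| ^ q = |a| ^ q * ((1 + y) ^ q + (1 - y) ^ q) := by
      have hp : ∀ u : ℝ, 0 ≤ u → |a| ^ q * u ^ q = (|a| * u) ^ q := fun u hu =>
        (Real.mul_rpow ha.le hu).symm
      rw [mul_add, hp _ (by linarith), hp _ (by linarith)]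
      have e1 : |a| * (1 + y) = |a| + |b| := by rw [hby]; ring
      have e2 : |a| * (1 - y) = |a| - |b| := by rw [hby]; ring
      rw [e1, e2]
      have hab' := abs_le.1 hab
      rcases le_total 0 a with ha' | ha' <;> rcases le_total 0 b with hb' | hb'
      · rw [abs_of_nonneg ha', abs_of_nonneg hb'] at *
        rw [abs_of_nonneg (by linarith), abs_of_nonneg (by linarith)]
      · rw [abs_of_nonneg ha', abs_of_nonpos hb'] at *
        rw [abs_of_nonneg (by linarith), abs_of_nonneg (by linarith), add_comm]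
        congr 2
        ring
      · rw [abs_of_nonpos ha', abs_of_nonneg hb'] at *
        rw [abs_of_nonpos (by linarith : a + b ≤ 0), abs_of_nonpos (by linarith : a - b ≤ 0),
          add_comm]
        congr 2 <;> ring
      · rw [abs_of_nonpos ha', abs_of_nonpos hb'] at *
        rw [abs_of_nonpos (by linarith : a + b ≤ 0), abs_of_nonpos (by linarith : a - b ≤ 0)]
        congr 2 <;> ring
    have hm : mq q a b = |a| * (((1 + y) ^ q + (1 - y) ^ q) / 2) ^ (1 / q) := by
      unfold mq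
      rw [hset, mul_div_assoc, Real.mul_rpow (by positivity), ← Real.rpow_mul ha.le,
        mul_one_div_cancel (by linarith), Real.rpow_one]
      have := Real.rpow_nonneg (by linarith : 0 ≤ 1 + y) q
      have := Real.rpow_nonneg (by linarith : 0 ≤ 1 - y) q
      linarith
    have key : mq q a b ≤ |a| * (1 + q * y ^ 2) := by
      by_cases hqy : q * y ^ 2 ≤ 1
      · rw [hm]
        refine mul_le_mul_of_nonneg_left ?_ ha.le
        refine (cosh_bd q y hq hy0 hy1).trans ?_
        have h := exp_half (q * y ^ 2 / 2) (by positivity) (by linarith)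
        linarith
      · rw [not_le] at hqy
        refine h0.trans ?_
        rw [hby]
        nlinarith
    have e3 : |a| * (|a| * (q * y ^ 2)) = q * b ^ 2 := by
      rw [← hb2, hby]; ring
    nlinarith

theorem mq_cont {X : Type*} [TopologicalSpace X] (q : ℝ) (hq : 1 ≤ q) {f g : X → ℝ}
    (hf : Continuous f) (hg : Continuous g) : Continuous fun x => mq q (f x) (g x) := by
  unfold mq
  have hq0 : 0 ≤ q := by linarith
  refine Continuous.rpow_const ?_ fun _ => Or.inr (by positivity)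
  refine Continuous.div_const (Continuous.add ?_ ?_) _
  · exact (hf.add hg).abs.rpow_const fun _ => Or.inr hq0
  · exact (hf.sub hg).abs.rpow_const fun _ => Or.inr hq0

theorem exc_cont {X : Type*} [TopologicalSpace X] (q : ℝ) (hq : 1 ≤ q) {f g : X → ℝ}
    (hf : Continuous f) (hg : Continuous g) : Continuous fun x => mq q (f x) (g x) - |f x| :=
  (mq_cont q hq hf hg).sub hf.abs

/-- power bound by an exponential -/
theorem pow_le_exp (p c x : ℝ) (hp : 0 < p) (hc : 0 < c) (hx : 0 ≤ x) :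
    x ^ p ≤ (p / (Real.exp 1 * c)) ^ p * Real.exp (c * x) := by
  have h1 := Real.add_one_le_exp (c * x / p - 1)
  have h2 : x ≤ p / (Real.exp 1 * c) * Real.exp (c * x / p) := by
    have h3 : Real.exp (c * x / p - 1) = Real.exp (c * x / p) / Real.exp 1 := Real.exp_sub _ _
    rw [h3, sub_add_cancel] at h1
    have he := Real.exp_pos 1
    rw [le_div_iff₀ he] at h1
    have e : p / (Real.exp 1 * c) * Real.exp (c * x / p)
        = p * Real.exp (c * x / p) / (Real.exp 1 * c) := by ring
    rw [e, le_div_iff₀ (by positivity)]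
    have e2 : c * x / p * Real.exp 1 * p = x * (Real.exp 1 * c) := by field_simp
    nlinarith
  have h4 := Real.rpow_le_rpow hx h2 hp.le
  rw [Real.mul_rpow (by positivity) (Real.exp_pos _).le, ← Real.exp_mul] at h4
  have e3 : c * x / p * p = c * x := by field_simp
  rwa [e3] at h4

end Pool.Agent.Run7.h924.Lat
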