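import Mathlib
import Pool.Agent.H815R2.FlatTail
import Pool.Agent.Run7.h924.LatA
import Pool.Agent.Run7.h924.LatB

set_option autoImplicit false
set_option linter.unusedSectionVars false

/-!
# Linear functionals on a centrally symmetric convex body: small balls and moments
-/

namespace Pool.Agent.Run7.h924.Lat

open MeasureTheory Set Filter
open scoped ENNReal
open Pool.Agent.TH591.Sq
open Pool.Agent.H815R2.Flat (bm_E expMoment)

variable {d : ℕ} (p : Seminorm ℝ (EuclideanSpace ℝ (Fin d))) (c : ℝ)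

/-- the uniform probability measure on the unit ball -/
noncomputable def nu : Measure (EuclideanSpace ℝ (Fin d)) :=
  (volume (UB p))⁻¹ • volume.restrict (UB p)

theorem ub_nhds : UB p ∈ nhds (0 : EuclideanSpace ℝ (Fin d)) := by
  have h : {x | p x < 1} ∈ nhds (0 : EuclideanSpace ℝ (Fin d)) :=
    (isOpen_lt (semi_cont p) continuous_const).mem_nhds (by simp)
  exact Filter.mem_of_superset h fun x hx => le_of_lt (show p x < 1 from hx)

theorem ub_ne0 : volume (UB p) ≠ 0 := (Measure.measure_pos_of_mem_nhds volume (ub_nhds p)).ne'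

theorem ub_fin (hc : 0 < c) (hp : ∀ x, c * ‖x‖ ≤ p x) : volume (UB p) ≠ ⊤ :=
  (ub_compact p c hc hp).measure_lt_top.ne

theorem nu_prob (hc : 0 < c) (hp : ∀ x, c * ‖x‖ ≤ p x) : IsProbabilityMeasure (nu p) := by
  constructor
  unfold nu
  rw [Measure.smul_apply, Measure.restrict_apply_univ, smul_eq_mul,
    ENNReal.inv_mul_cancel (ub_ne0 p) (ub_fin p c hc hp)]

theorem nu_int (hc : 0 < c) (hp : ∀ x, c * ‖x‖ ≤ p x) {F : Type*} [NormedAddCommGroup F]
    {f : EuclideanSpace ℝ (Fin d) → F} (hf : Continuous f) : Integrable f (nu p) := by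
  unfold nu
  refine Integrable.smul_measure ?_ (ENNReal.inv_ne_top.2 (ub_ne0 p))
  exact hf.continuousOn.integrableOn_compact (ub_compact p c hc hp)

theorem nu_integral (f : EuclideanSpace ℝ (Fin d) → ℝ) :
    ∫ z, f z ∂(nu p) = (volume (UB p)).toReal⁻¹ * ∫ z in UB p, f z := by
  unfold nu
  rw [integral_smul_measure, ENNReal.toReal_inv, smul_eq_mul]

theorem nu_real (f : EuclideanSpace ℝ (Fin d) → ℝ) (hc : 0 < c) (hp : ∀ x, c * ‖x‖ ≤ p x) :
    ∫ z in UB p, f z = (volume (UB p)).toReal * ∫ z, f z ∂(nu p) := by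
  have hV : 0 < (volume (UB p)).toReal := ENNReal.toReal_pos (ub_ne0 p) (ub_fin p c hc hp)
  rw [nu_integral, ← mul_assoc, mul_inv_cancel₀ hV.ne', one_mul]

theorem mean_pos (hc : 0 < c) (hp : ∀ x, c * ‖x‖ ≤ p x)
    (φ : EuclideanSpace ℝ (Fin d) →L[ℝ] ℝ) (hφ : φ ≠ 0) : 0 < ∫ z, |φ z| ∂(nu p) := by
  have hV : 0 < (volume (UB p)).toReal := ENNReal.toReal_pos (ub_ne0 p) (ub_fin p c hc hp)
  rw [nu_integral]
  refine mul_pos (inv_pos.2 hV) ?_
  rw [setIntegral_pos_iff_support_of_nonneg_ae (Eventually.of_forall fun _ => abs_nonneg _)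
    (ub_int p c hc hp φ.continuous.abs)]
  obtain ⟨z, hz⟩ : ∃ z, φ z ≠ 0 := by
    by_contra h
    push Not at h
    exact hφ (ContinuousLinearMap.ext h)
  have hopen : IsOpen ((Function.support fun x => |φ x|) ∩ interior (UB p)) := by
    refine IsOpen.inter ?_ isOpen_interior
    exact φ.continuous.abs.isOpen_support
  have hne : ((Function.support fun x => |φ x|) ∩ interior (UB p)).Nonempty := by
    have h0 : (0 : EuclideanSpace ℝ (Fin d)) ∈ interior (UB p) :=
      mem_interior_iff_mem_nhds.2 (ub_nhds p)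
    have hcont : Tendsto (fun t : ℝ => t • z) (nhdsWithin 0 (Ioi 0)) (nhds 0) := by
      have : Tendsto (fun t : ℝ => t • z) (nhds 0) (nhds ((0 : ℝ) • z)) :=
        (continuous_id.smul continuous_const).tendsto 0
      rw [zero_smul] at this
      exact this.mono_left nhdsWithin_le_nhds
    have h1 : ∀ᶠ t in nhdsWithin (0 : ℝ) (Ioi 0), t • z ∈ interior (UB p) :=
      hcont (isOpen_interior.mem_nhds h0)
    obtain ⟨t, ht, ht0⟩ := (h1.and self_mem_nhdsWithin).exists
    refine ⟨t • z, ?_, ht⟩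
    rw [Function.mem_support]
    have ht0' : (t : ℝ) ≠ 0 := (mem_Ioi.1 ht0).ne'
    simp [ht0', hz]
  refine lt_of_lt_of_le (hopen.measure_pos volume hne) (measure_mono ?_)
  exact inter_subset_inter_right _ interior_subset

theorem geomr (a : ℕ → ℝ) (r : ℝ) (ha : ∀ k, 0 ≤ a k) (hmono : ∀ k, a (k + 1) ≤ a k)
    (hlc : ∀ k, a k * a (k + 2) ≤ a (k + 1) ^ 2) (hr : 0 ≤ r) (h1 : a 1 ≤ r * a 0) (k : ℕ) :
    a k ≤ r ^ k * a 0 := by
  have h : ∀ k, a (k + 1) ≤ r * a k := by
    intro k
    induction k with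
    | zero => exact h1
    | succ k ih =>
      rcases (ha k).eq_or_lt with h0 | h0
      · have e1 : a (k + 1) = 0 := le_antisymm (by rw [h0]; exact hmono k) (ha _)
        have e2 : a (k + 1 + 1) = 0 := le_antisymm (by rw [← e1]; exact hmono _) (ha _)
        rw [e1, e2, mul_zero]
      · have h2 := hlc k
        have h3 : a (k + 1) ^ 2 ≤ a (k + 1) * (r * a k) := by
          rw [sq]
          exact mul_le_mul_of_nonneg_left ih (ha _)
        have h4 : a k * a (k + 2) ≤ a k * (r * a (k + 1)) := by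
          calc a k * a (k + 2) ≤ a (k + 1) * (r * a k) := h2.trans h3
            _ = a k * (r * a (k + 1)) := by ring
        exact le_of_mul_le_mul_left h4 h0
  induction k with
  | zero => simp
  | succ k ih =>
    calc a (k + 1) ≤ r * a k := h k
      _ ≤ r * (r ^ k * a 0) := mul_le_mul_of_nonneg_left ih hr
      _ = r ^ (k + 1) * a 0 := by ring

theorem small_ball_V (hc : 0 < c) (hp : ∀ x, c * ‖x‖ ≤ p x)
    (φ : EuclideanSpace ℝ (Fin d) →L[ℝ] ℝ) (u : ℝ) (hu : 0 < u) :
    (volume {z : EuclideanSpace ℝ (Fin d) | p z ≤ 1 ∧ |φ z| < u}).toReal * ∫ z in UB p, |φ z|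
      ≤ 2 * u * (volume (UB p)).toReal ^ 2 := by
  have hcont := semi_cont p
  have hfin := ub_fin p c hc hp
  have hV : 0 < (volume (UB p)).toReal := ENNReal.toReal_pos (ub_ne0 p) hfin
  set V := (volume (UB p)).toReal with hVdef
  set S : ℕ → Set (EuclideanSpace ℝ (Fin d)) := fun k => {z | p z ≤ 1 ∧ u * k ≤ φ z} with hS
  have hSm : ∀ k, MeasurableSet (S k) := fun k =>
    ((isClosed_le hcont continuous_const).inter
      (isClosed_le continuous_const φ.continuous)).measurableSet
  have hSK : ∀ k, S k ⊆ UB p := fun k z hz => hz.1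
  have hSfin : ∀ k, volume (S k) ≠ ⊤ := fun k => ne_top_of_le_ne_top hfin (measure_mono (hSK k))
  have hneg : ∀ k : ℕ, volume {z : EuclideanSpace ℝ (Fin d) | p z ≤ 1 ∧ u * k ≤ - φ z}
      = volume (S k) := by
    intro k
    rw [← Measure.measure_neg volume (S k)]
    congr 1
    ext z
    simp only [hS, Set.mem_neg, mem_ofPred_eq, map_neg_eq_map, map_neg]
  set T : ℕ → Set (EuclideanSpace ℝ (Fin d)) := fun k => {z | p z ≤ 1 ∧ u * k ≤ |φ z|} with hT
  have hTm : ∀ k, MeasurableSet (T k) := fun k =>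
    ((isClosed_le hcont continuous_const).inter
      (isClosed_le continuous_const φ.continuous.abs)).measurableSet
  have htwo : ∀ k : ℕ, volume (T k) ≤ 2 * volume (S k) := by
    intro k
    have hsub : T k ⊆ S k ∪ {z | p z ≤ 1 ∧ u * k ≤ - φ z} := by
      rintro z ⟨h1, h2⟩
      rcases le_abs.mp h2 with h | h
      · exact Or.inl ⟨h1, h⟩
      · exact Or.inr ⟨h1, h⟩
    calc _ ≤ _ := measure_mono hsub
      _ ≤ _ := measure_union_le _ _
      _ = 2 * volume (S k) := by rw [hneg, two_mul]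
  set a : ℕ → ℝ := fun k => (volume (S k)).toReal with ha
  have ha0 : ∀ k, 0 ≤ a k := fun k => ENNReal.toReal_nonneg
  have haV : a 0 ≤ V := ENNReal.toReal_mono hfin (measure_mono (hSK 0))
  have htwoR : ∀ k, (volume (T k)).toReal ≤ 2 * a k := by
    intro k
    have := ENNReal.toReal_mono (ENNReal.mul_ne_top (by norm_num) (hSfin k)) (htwo k)
    rwa [ENNReal.toReal_mul, ENNReal.toReal_ofNat] at this
  have hV2 : V ≤ 2 * a 0 := by
    refine le_trans ?_ (htwoR 0)
    have hTfin : volume (T 0) ≠ ⊤ :=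
      ne_top_of_le_ne_top hfin (measure_mono fun z hz => hz.1)
    refine ENNReal.toReal_mono hTfin (measure_mono fun z hz => ⟨hz, ?_⟩)
    simp
  set W : Set (EuclideanSpace ℝ (Fin d)) := {z | p z ≤ 1 ∧ |φ z| < u} with hW
  have hWm : MeasurableSet W := by
    have h1 : MeasurableSet {z : EuclideanSpace ℝ (Fin d) | |φ z| < u} :=
      (isOpen_lt φ.continuous.abs continuous_const).measurableSet
    exact (isClosed_le hcont continuous_const).measurableSet.inter h1
  set w := (volume W).toReal with hw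
  have hw0 : 0 ≤ w := ENNReal.toReal_nonneg
  have hdec : volume W + 2 * volume (S 1) ≤ volume (UB p) := by
    have hm2 : MeasurableSet {z : EuclideanSpace ℝ (Fin d) | p z ≤ 1 ∧ u * (1 : ℕ) ≤ - φ z} :=
      ((isClosed_le hcont continuous_const).inter
        (isClosed_le continuous_const φ.continuous.neg)).measurableSet
    have hdisj : Disjoint (S 1) {z | p z ≤ 1 ∧ u * (1 : ℕ) ≤ - φ z} := by
      rw [Set.disjoint_left]
      rintro z ⟨_, h1⟩ ⟨_, h2⟩
      push_cast at h1 h2
      linarith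
    have h1 : volume (S 1 ∪ {z | p z ≤ 1 ∧ u * (1 : ℕ) ≤ - φ z}) = 2 * volume (S 1) := by
      rw [measure_union hdisj hm2, hneg, two_mul]
    have hdisj2 : Disjoint W (S 1 ∪ {z | p z ≤ 1 ∧ u * (1 : ℕ) ≤ - φ z}) := by
      rw [Set.disjoint_left]
      rintro z ⟨_, h1⟩ (⟨_, h2⟩ | ⟨_, h2⟩)
      · push_cast at h2
        have := le_abs_self (φ z)
        linarith
      · push_cast at h2
        have := neg_le_abs (φ z)
        linarith
    rw [← h1, ← measure_union hdisj2 ((hSm 1).union hm2)]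
    refine measure_mono ?_
    rintro z (⟨h, _⟩ | ⟨h, _⟩ | ⟨h, _⟩) <;> exact h
  have hdecR : w + 2 * a 1 ≤ V := by
    have := ENNReal.toReal_mono hfin hdec
    have hWfin : volume W ≠ ⊤ := ne_top_of_le_ne_top hfin (measure_mono fun z hz => hz.1)
    rwa [ENNReal.toReal_add hWfin (ENNReal.mul_ne_top (by norm_num) (hSfin 1)),
      ENNReal.toReal_mul, ENNReal.toReal_ofNat] at this
  have hmono : ∀ k, a (k + 1) ≤ a k := by
    intro k
    refine ENNReal.toReal_mono (hSfin k) (measure_mono ?_)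
    rintro z ⟨h1, h2⟩
    refine ⟨h1, le_trans ?_ h2⟩
    push_cast
    nlinarith
  have hlc : ∀ k, a k * a (k + 2) ≤ a (k + 1) ^ 2 := by
    intro k
    have := bm_E (hSm k) (hSm (k + 2)) (hSm (k + 1)) (by
      rintro x ⟨hx1, hx2⟩ y ⟨hy1, hy2⟩
      constructor
      · rw [map_smul_eq_mul]
        have := map_add_le_add p x y
        have h3 : ‖(1 / 2 : ℝ)‖ = 1 / 2 := by norm_num
        rw [h3]
        linarith
      · rw [map_smul, map_add, smul_eq_mul]
        push_cast at hx2 hy2 ⊢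
        linarith)
    have h2 := ENNReal.toReal_mono (by
      exact ENNReal.pow_ne_top (hSfin _)) this
    rwa [ENNReal.toReal_mul, ENNReal.toReal_pow] at h2
  have hwV : w ≤ V := by linarith [ha0 1]
  set r : ℝ := 1 - w / V with hr
  have hr0 : 0 ≤ r := by
    have : w / V ≤ 1 := (div_le_one hV).2 hwV
    linarith
  have h1 : a 1 ≤ r * a 0 := by
    have e : r * V = V - w := by rw [hr]; field_simp
    have : r * V ≤ r * (2 * a 0) := mul_le_mul_of_nonneg_left hV2 hr0
    linarith
  have hg := geomr a r ha0 hmono hlc hr0 h1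
  -- the integral
  set M : ℝ := ‖φ‖ / c with hM
  have hφM : ∀ z ∈ UB p, |φ z| ≤ M := by
    intro z hz
    have h2 := φ.le_opNorm z
    rw [Real.norm_eq_abs] at h2
    have h3 := hp z
    have h4 : p z ≤ 1 := hz
    rw [hM, le_div_iff₀ hc]
    have h5 := norm_nonneg φ
    nlinarith [norm_nonneg z]
  obtain ⟨n, hn⟩ := exists_nat_gt (M / u)
  have hpt : ∀ z ∈ UB p, |φ z| ≤ ∑ k ∈ Finset.range n, u * (T k).indicator 1 z := by
    intro z hz
    set x : ℝ := |φ z| / u with hx
    have hx0 : 0 ≤ x := by positivity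
    have hxn : x < n := lt_of_le_of_lt (by rw [hx]; gcongr; exact hφM z hz) hn
    set j := ⌊x⌋₊ with hj
    have hjx : (j : ℝ) ≤ x := Nat.floor_le hx0
    have hxj : x < j + 1 := Nat.lt_floor_add_one x
    have hjn : j + 1 ≤ n := by
      have : (j : ℝ) < n := lt_of_le_of_lt hjx hxn
      have : j < n := by exact_mod_cast this
      omega
    calc |φ z| = u * x := by rw [hx]; field_simp
      _ ≤ u * (j + 1) := by gcongr
      _ = ∑ k ∈ Finset.range (j + 1), u * (T k).indicator (1 : EuclideanSpace ℝ (Fin d) → ℝ) z := by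
          have : ∀ k ∈ Finset.range (j + 1), u * (T k).indicator (1 : EuclideanSpace ℝ (Fin d) → ℝ) z = u := by
            intro k hk
            have hkj : (k : ℝ) ≤ j := by
              have := Finset.mem_range.mp hk
              exact_mod_cast (by omega : k ≤ j)
            have hmem : z ∈ T k := by
              refine ⟨hz, ?_⟩
              have : (k : ℝ) ≤ x := hkj.trans hjx
              rw [hx, le_div_iff₀ hu] at this
              linarith
            rw [indicator_of_mem hmem]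
            simp
          rw [Finset.sum_congr rfl this]
          simp
          ring
      _ ≤ ∑ k ∈ Finset.range n, u * (T k).indicator (1 : EuclideanSpace ℝ (Fin d) → ℝ) z := by
          refine Finset.sum_le_sum_of_subset_of_nonneg (Finset.range_mono hjn) fun k _ _ => ?_
          exact mul_nonneg hu.le (indicator_nonneg (fun _ _ => zero_le_one) _)
  have hint : ∫ z in UB p, |φ z| ≤ ∑ k ∈ Finset.range n, u * (volume (T k)).toReal := by
    have hI : ∀ k, IntegrableOn (fun z => u * (T k).indicator (1 : EuclideanSpace ℝ (Fin d) → ℝ) z) (UB p) := by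
      intro k
      refine Integrable.const_mul ?_ u
      have : IntegrableOn (fun _ : EuclideanSpace ℝ (Fin d) => (1 : ℝ)) (UB p) :=
        ub_int p c hc hp continuous_const
      exact this.indicator (hTm k)
    calc ∫ z in UB p, |φ z|
        ≤ ∫ z in UB p, ∑ k ∈ Finset.range n, u * (T k).indicator (1 : EuclideanSpace ℝ (Fin d) → ℝ) z :=
          setIntegral_mono_on (ub_int p c hc hp φ.continuous.abs)
            (integrable_finsetSum _ fun k _ => hI k) (ub_meas p) hpt
      _ = ∑ k ∈ Finset.range n, u * (volume (T k)).toReal := by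
          rw [integral_finsetSum _ fun k _ => hI k]
          refine Finset.sum_congr rfl fun k _ => ?_
          rw [integral_const_mul, integral_indicator_one (hTm k)]
          congr 1
          have : T k ∩ UB p = T k := inter_eq_left.2 fun z hz => hz.1
          rw [Measure.real, Measure.restrict_apply (hTm k), this]
  have hsum : ∑ k ∈ Finset.range n, u * (volume (T k)).toReal
      ≤ 2 * u * V * ∑ k ∈ Finset.range n, r ^ k := by
    rw [Finset.mul_sum]
    refine Finset.sum_le_sum fun k _ => ?_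
    calc u * (volume (T k)).toReal ≤ u * (2 * a k) := by gcongr; exact htwoR k
      _ ≤ u * (2 * (r ^ k * V)) := by
          have := hg k
          have : a k ≤ r ^ k * V := this.trans (by gcongr)
          gcongr
      _ = 2 * u * V * r ^ k := by ring
  have hgeo : w * ∑ k ∈ Finset.range n, r ^ k ≤ V := by
    have h2 := mul_neg_geom_sum r n
    have h3 : (1 - r) * V = w := by rw [hr]; field_simp; ring
    have h4 : 0 ≤ r ^ n := pow_nonneg hr0 n
    calc w * ∑ k ∈ Finset.range n, r ^ k = V * ((1 - r) * ∑ k ∈ Finset.range n, r ^ k) := by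
          rw [← h3]; ring
      _ = V * (1 - r ^ n) := by rw [h2]
      _ ≤ V * 1 := by gcongr; linarith
      _ = V := mul_one V
  calc w * ∫ z in UB p, |φ z| ≤ w * (2 * u * V * ∑ k ∈ Finset.range n, r ^ k) := by
        gcongr; exact hint.trans hsum
    _ = 2 * u * V * (w * ∑ k ∈ Finset.range n, r ^ k) := by ring
    _ ≤ 2 * u * V * V := by gcongr
    _ = 2 * u * V ^ 2 := by ring

/-- small balls -/
theorem small_ball (hc : 0 < c) (hp : ∀ x, c * ‖x‖ ≤ p x)
    (φ : EuclideanSpace ℝ (Fin d) →L[ℝ] ℝ) (u : ℝ) (hu : 0 < u) :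
    (nu p {z | |φ z| < u}).toReal * ∫ z, |φ z| ∂(nu p) ≤ 2 * u := by
  have hV : 0 < (volume (UB p)).toReal := ENNReal.toReal_pos (ub_ne0 p) (ub_fin p c hc hp)
  have h := small_ball_V p c hc hp φ u hu
  have e1 : (nu p {z | |φ z| < u}).toReal = (volume (UB p)).toReal⁻¹ *
      (volume {z : EuclideanSpace ℝ (Fin d) | p z ≤ 1 ∧ |φ z| < u}).toReal := by
    unfold nu
    have hm : MeasurableSet {z : EuclideanSpace ℝ (Fin d) | |φ z| < u} :=
      (isOpen_lt φ.continuous.abs continuous_const).measurableSet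
    rw [Measure.smul_apply, Measure.restrict_apply hm, smul_eq_mul, ENNReal.toReal_mul,
      ENNReal.toReal_inv]
    congr 3
    ext z
    simp only [mem_inter_iff, mem_ofPred_eq, UB]
    tauto
  rw [e1, nu_integral]
  have e2 : (volume (UB p)).toReal⁻¹ * (volume {z : EuclideanSpace ℝ (Fin d) | p z ≤ 1 ∧
      |φ z| < u}).toReal * ((volume (UB p)).toReal⁻¹ * ∫ z in UB p, |φ z|)
      = ((volume {z : EuclideanSpace ℝ (Fin d) | p z ≤ 1 ∧ |φ z| < u}).toReal *
        ∫ z in UB p, |φ z|) / (volume (UB p)).toReal ^ 2 := by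
    field_simp
  rw [e2, div_le_iff₀ (by positivity)]
  exact h

/-- moments -/
theorem moment (hc : 0 < c) (hp : ∀ x, c * ‖x‖ ≤ p x)
    (φ : EuclideanSpace ℝ (Fin d) →L[ℝ] ℝ) (s : ℝ) (hs : 0 < s) (hm : ∫ z, |φ z| ∂(nu p) ≤ s)
    (r : ℝ) (hr : 0 < r) : ∫ z, |φ z| ^ r ∂(nu p) ≤ 3 * (17 / 8 * r * s) ^ r := by
  have hV : 0 < (volume (UB p)).toReal := ENNReal.toReal_pos (ub_ne0 p) (ub_fin p c hc hp)
  have hfin := ub_fin p c hc hp
  have h1 : ∫ z in UB p, |φ z| ≤ s * (volume (UB p)).toReal := by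
    rw [nu_real p c _ hc hp, mul_comm s]
    gcongr
  have h2 : ∫⁻ z in {y : EuclideanSpace ℝ (Fin d) | p y ≤ 1}, ENNReal.ofReal |φ z|
      ≤ ENNReal.ofReal s * volume {y : EuclideanSpace ℝ (Fin d) | p y ≤ 1} := by
    have e : {y : EuclideanSpace ℝ (Fin d) | p y ≤ 1} = UB p := rfl
    rw [e, ← ofReal_integral_eq_lintegral_ofReal (ub_int p c hc hp φ.continuous.abs)
      (Eventually.of_forall fun _ => abs_nonneg _)]
    calc ENNReal.ofReal (∫ z in UB p, |φ z|) ≤ ENNReal.ofReal (s * (volume (UB p)).toReal) :=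
          ENNReal.ofReal_le_ofReal h1
      _ = ENNReal.ofReal s * volume (UB p) := by
          rw [ENNReal.ofReal_mul hs.le, ENNReal.ofReal_toReal hfin]
  have h3 := expMoment p (semi_cont p) hfin φ s hs h2
  set κ : ℝ := Real.log 2 / (4 * s) with hκ
  have hl2 := Real.log_two_gt_d9
  have hκ0 : 0 < κ := by positivity
  have hE : Continuous fun z => Real.exp (κ * |φ z|) :=
    Real.continuous_exp.comp (continuous_const.mul φ.continuous.abs)
  have h4 : ∫ z in UB p, Real.exp (κ * |φ z|) ≤ 3 * (volume (UB p)).toReal := by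
    have e : {y : EuclideanSpace ℝ (Fin d) | p y ≤ 1} = UB p := rfl
    rw [e, ← ofReal_integral_eq_lintegral_ofReal (ub_int p c hc hp hE)
      (Eventually.of_forall fun _ => (Real.exp_pos _).le)] at h3
    have h5 := ENNReal.toReal_mono (ENNReal.mul_ne_top (by norm_num) hfin) h3
    rw [ENNReal.toReal_ofReal (integral_nonneg fun _ => (Real.exp_pos _).le),
      ENNReal.toReal_mul, ENNReal.toReal_ofNat] at h5
    exact h5
  have h5 : ∫ z, Real.exp (κ * |φ z|) ∂(nu p) ≤ 3 := by
    rw [nu_integral, inv_mul_le_iff₀ hV, mul_comm]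
    exact h4
  have hpowc : Continuous fun z => |φ z| ^ r :=
    φ.continuous.abs.rpow_const fun _ => Or.inr hr.le
  have h6 : ∫ z, |φ z| ^ r ∂(nu p)
      ≤ ∫ z, (r / (Real.exp 1 * κ)) ^ r * Real.exp (κ * |φ z|) ∂(nu p) := by
    refine integral_mono (nu_int p c hc hp hpowc) ((nu_int p c hc hp hE).const_mul _) fun z => ?_
    exact pow_le_exp r κ |φ z| hr hκ0 (abs_nonneg _)
  rw [integral_const_mul] at h6
  have h7 : r / (Real.exp 1 * κ) ≤ 17 / 8 * r * s := by
    have he := Real.exp_one_gt_d9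
    rw [div_le_iff₀ (by positivity), hκ]
    have e : 17 / 8 * r * s * (Real.exp 1 * (Real.log 2 / (4 * s)))
        = r * (17 / 32 * (Real.exp 1 * Real.log 2)) := by
      field_simp
      ring
    rw [e]
    have h8 : 32 / 17 ≤ Real.exp 1 * Real.log 2 := by nlinarith
    nlinarith
  have h8 : (r / (Real.exp 1 * κ)) ^ r ≤ (17 / 8 * r * s) ^ r :=
    Real.rpow_le_rpow (by positivity) h7 hr.le
  have h9 : 0 ≤ ∫ z, Real.exp (κ * |φ z|) ∂(nu p) := integral_nonneg fun _ => (Real.exp_pos _).le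
  calc ∫ z, |φ z| ^ r ∂(nu p) ≤ (r / (Real.exp 1 * κ)) ^ r * ∫ z, Real.exp (κ * |φ z|) ∂(nu p) := h6
    _ ≤ (17 / 8 * r * s) ^ r * 3 := by
        apply mul_le_mul h8 h5 h9 (by positivity)
    _ = 3 * (17 / 8 * r * s) ^ r := mul_comm _ _

end Pool.Agent.Run7.h924.Lat
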