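import Mathlib
import Pool.Agent.Run7.h924.LatC

set_option autoImplicit false
set_option linter.unusedSectionVars false

/-!
# The mean second difference of order `q` of a linear functional
-/

namespace Pool.Agent.Run7.h924.Lat

open MeasureTheory Set Filter
open scoped ENNReal
open Pool.Agent.TH591.Sq

variable {d : ℕ} (p : Seminorm ℝ (EuclideanSpace ℝ (Fin d))) (c : ℝ)

theorem exc_nonneg (q a b : ℝ) (hq : 1 ≤ q) : 0 ≤ mq q a b - |a| := sub_nonneg.2 (le_mq q a b hq)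

theorem inner_pt (q a b : ℝ) (hq : 2 ≤ q) (hb : b ≠ 0) :
    ∃ k : ℕ, |a| < 2 ^ (k + 1) * (q * |b|) ∧
      (mq q a b - |a|) ^ q ≤ |b| ^ q * (1 / 4) ^ k := by
  have hb0 : 0 < |b| := abs_pos.2 hb
  have hT : 0 < q * |b| := by positivity
  have h0 := exc_nonneg q a b (by linarith)
  have h1 := mq_le q a b (by linarith)
  by_cases hx : |a| < q * |b|
  · refine ⟨0, by rw [zero_add, pow_one]; linarith, ?_⟩
    rw [pow_zero, mul_one]
    exact Real.rpow_le_rpow h0 (by linarith) (by linarith)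
  · rw [not_lt] at hx
    obtain ⟨k, hk1, hk2⟩ := exists_nat_pow_near (x := |a| / (q * |b|)) (y := (2 : ℝ))
      ((one_le_div hT).2 hx) one_lt_two
    rw [le_div_iff₀ hT] at hk1
    rw [div_lt_iff₀ hT] at hk2
    refine ⟨k, hk2, ?_⟩
    have ha : 0 < |a| := lt_of_lt_of_le hT hx
    have h2 := mq_sub_mul q a b (by linarith)
    have h3 : mq q a b - |a| ≤ |b| * (1 / 2) ^ k := by
      have h4 : (2 : ℝ) ^ k * (1 / 2) ^ k = 1 := by
        rw [← mul_pow]; norm_num
      have h5 : (mq q a b - |a|) * (2 ^ k * (q * |b|)) ≤ |b| * (q * |b|) := by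
        calc (mq q a b - |a|) * (2 ^ k * (q * |b|)) ≤ (mq q a b - |a|) * |a| := by gcongr
          _ ≤ q * b ^ 2 := h2
          _ = |b| * (q * |b|) := by rw [← sq_abs b]; ring
      have h6 : (mq q a b - |a|) * 2 ^ k ≤ |b| := by
        rw [← mul_assoc] at h5
        exact le_of_mul_le_mul_right h5 hT
      calc mq q a b - |a| = (mq q a b - |a|) * 2 ^ k * (1 / 2) ^ k := by
            rw [mul_assoc, h4, mul_one]
        _ ≤ |b| * (1 / 2) ^ k := by gcongr
    calc (mq q a b - |a|) ^ q ≤ (|b| * (1 / 2) ^ k) ^ q := Real.rpow_le_rpow h0 h3 (by linarith)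
      _ = |b| ^ q * ((1 / 2 : ℝ) ^ k) ^ q := Real.mul_rpow hb0.le (by positivity)
      _ ≤ |b| ^ q * ((1 / 2 : ℝ) ^ k) ^ (2 : ℝ) := by
          gcongr ?_ * ?_
          exact Real.rpow_le_rpow_of_exponent_ge (by positivity)
            (pow_le_one₀ (by norm_num) (by norm_num)) hq
      _ = |b| ^ q * (1 / 4) ^ k := by
          rw [Real.rpow_two, ← pow_mul, mul_comm k 2, pow_mul]
          norm_num

theorem tsum_calc (α t : ℝ) (hα : 0 ≤ α) (ht : 0 ≤ t) :
    ∑' k : ℕ, ENNReal.ofReal (α * (1 / 4) ^ k) * ENNReal.ofReal (2 * (2 ^ (k + 1) * t))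
      = ENNReal.ofReal (8 * α * t) := by
  have h : ∀ k : ℕ, ENNReal.ofReal (α * (1 / 4) ^ k) * ENNReal.ofReal (2 * (2 ^ (k + 1) * t))
      = ENNReal.ofReal (4 * α * t) * (2 : ℝ≥0∞)⁻¹ ^ k := by
    intro k
    have e1 : (2 : ℝ≥0∞)⁻¹ ^ k = ENNReal.ofReal ((1 / 2) ^ k) := by
      rw [ENNReal.ofReal_pow (by norm_num)]
      congr 1
      rw [one_div, ENNReal.ofReal_inv_of_pos two_pos]
      norm_num
    rw [e1, ← ENNReal.ofReal_mul (by positivity), ← ENNReal.ofReal_mul (by positivity)]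
    congr 1
    have e2 : (1 / 4 : ℝ) ^ k * 2 ^ k = (1 / 2) ^ k := by
      rw [← mul_pow]; norm_num
    calc α * (1 / 4) ^ k * (2 * (2 ^ (k + 1) * t))
        = 4 * α * t * ((1 / 4 : ℝ) ^ k * 2 ^ k) := by ring
      _ = _ := by rw [e2]
  rw [tsum_congr h, ENNReal.tsum_mul_left, ENNReal.tsum_geometric, ENNReal.one_sub_inv_two,
    inv_inv]
  have e3 : (2 : ℝ≥0∞) = ENNReal.ofReal 2 := by norm_num
  rw [e3, ← ENNReal.ofReal_mul (by positivity)]
  congr 1
  ring

theorem lint_dyadic {X : Type*} [MeasurableSpace X] (μ : Measure X) (g : X → ℝ≥0∞) (a : ℕ → ℝ≥0∞)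
    (A : ℕ → Set X) (hA : ∀ k, MeasurableSet (A k)) (m : ℝ≥0∞) (β : ℕ → ℝ≥0∞)
    (hg : ∀ z, ∃ k, z ∈ A k ∧ g z ≤ a k) (hm : ∀ k, μ (A k) * m ≤ β k) :
    (∫⁻ z, g z ∂μ) * m ≤ ∑' k, a k * β k := by
  have h1 : ∫⁻ z, g z ∂μ ≤ ∑' k, a k * μ (A k) := by
    calc ∫⁻ z, g z ∂μ ≤ ∫⁻ z, ∑' k, a k * (A k).indicator 1 z ∂μ := by
          refine lintegral_mono fun z => ?_
          obtain ⟨k, hk1, hk2⟩ := hg z
          refine le_trans ?_ (ENNReal.le_tsum k)
          rw [indicator_of_mem hk1]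
          simpa using hk2
      _ = ∑' k, a k * μ (A k) := by
          rw [lintegral_tsum fun k =>
            ((measurable_one.indicator (hA k)).const_mul _).aemeasurable]
          refine tsum_congr fun k => ?_
          rw [lintegral_const_mul _ (measurable_one.indicator (hA k)),
            lintegral_indicator_one (hA k)]
  calc (∫⁻ z, g z ∂μ) * m ≤ (∑' k, a k * μ (A k)) * m := mul_le_mul_left h1 m
    _ = ∑' k, a k * (μ (A k) * m) := by
        rw [← ENNReal.tsum_mul_right]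
        exact tsum_congr fun k => mul_assoc _ _ _
    _ ≤ ∑' k, a k * β k := ENNReal.tsum_le_tsum fun k => mul_le_mul_right (hm k) _

theorem inner_zero (q : ℝ) (hq : 2 ≤ q) (a : ℝ) : (mq q a 0 - |a|) ^ q = 0 := by
  have h2 := le_mq q a 0 (by linarith)
  have h3 := mq_le q a 0 (by linarith)
  rw [abs_zero, add_zero] at h3
  have h4 : mq q a 0 - |a| = 0 := by linarith
  rw [h4, Real.zero_rpow (by linarith)]

theorem inner_bound (hc : 0 < c) (hp : ∀ x, c * ‖x‖ ≤ p x) (q : ℝ) (hq : 2 ≤ q)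
    (φ : EuclideanSpace ℝ (Fin d) →L[ℝ] ℝ) (b : ℝ) :
    (∫ z, (mq q (φ z) b - |φ z|) ^ q ∂(nu p)) * ∫ z, |φ z| ∂(nu p) ≤ 8 * q * |b| ^ (q + 1) := by
  have := nu_prob p c hc hp
  have hm0 : 0 ≤ ∫ z, |φ z| ∂(nu p) := integral_nonneg fun _ => abs_nonneg _
  rcases eq_or_ne b 0 with rfl | hb
  · simp only [inner_zero q hq, integral_zero, zero_mul, abs_zero]
    positivity
  have hb0 : 0 < |b| := abs_pos.2 hb
  have hT0 : 0 < q * |b| := by positivity
  have hfc : Continuous fun z => (mq q (φ z) b - |φ z|) ^ q :=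
    (exc_cont q (by linarith) φ.continuous continuous_const).rpow_const
      fun _ => Or.inr (by linarith)
  have hf0 : ∀ z, 0 ≤ (mq q (φ z) b - |φ z|) ^ q := fun z =>
    Real.rpow_nonneg (exc_nonneg q _ _ (by linarith)) _
  have h1 := lint_dyadic (nu p) (fun z => ENNReal.ofReal ((mq q (φ z) b - |φ z|) ^ q))
    (fun k => ENNReal.ofReal (|b| ^ q * (1 / 4) ^ k)) (fun k => {z | |φ z| < 2 ^ (k + 1) * (q * |b|)})
    (fun k => (isOpen_lt φ.continuous.abs continuous_const).measurableSet)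
    (ENNReal.ofReal (∫ z, |φ z| ∂(nu p)))
    (fun k => ENNReal.ofReal (2 * (2 ^ (k + 1) * (q * |b|))))
    (fun z => by
      obtain ⟨k, h1, h2⟩ := inner_pt q (φ z) b hq hb
      exact ⟨k, h1, ENNReal.ofReal_le_ofReal h2⟩)
    (fun k => by
      have h := small_ball p c hc hp φ (2 ^ (k + 1) * (q * |b|)) (by positivity)
      have h2 := ENNReal.ofReal_le_ofReal h
      rw [ENNReal.ofReal_mul ENNReal.toReal_nonneg, ENNReal.ofReal_toReal (measure_ne_top _ _)] at h2
      exact h2)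
  rw [tsum_calc _ _ (by positivity) hT0.le,
    ← ofReal_integral_eq_lintegral_ofReal (nu_int p c hc hp hfc) (Eventually.of_forall hf0),
    ← ENNReal.ofReal_mul (integral_nonneg hf0)] at h1
  have h2 := (ENNReal.ofReal_le_ofReal_iff (by positivity)).1 h1
  refine h2.trans (le_of_eq ?_)
  rw [Real.rpow_add hb0, Real.rpow_one]
  ring

/-- the constant -/
noncomputable def cq (q : ℝ) : ℝ := 24 * q * (17 / 8 * (q + 1)) ^ (q + 1)

theorem double_bound (hc : 0 < c) (hp : ∀ x, c * ‖x‖ ≤ p x) (q : ℝ) (hq : 2 ≤ q)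
    (φ : EuclideanSpace ℝ (Fin d) →L[ℝ] ℝ) (s : ℝ) (hs : 0 < s) :
    ∫ v, ∫ z, (mq q (φ z) (s * φ v) - |φ z|) ^ q ∂(nu p) ∂(nu p)
      ≤ cq q * s ^ (q + 1) * (∫ z, |φ z| ∂(nu p)) ^ q := by
  have := nu_prob p c hc hp
  rcases eq_or_ne φ 0 with h0 | h0
  · have h1 : ∀ v z : EuclideanSpace ℝ (Fin d), (mq q (φ z) (s * φ v) - |φ z|) ^ q = 0 := by
      intro v z
      rw [h0]
      simp only [zero_apply, mul_zero, abs_zero]
      have h2 := le_mq q 0 0 (by linarith)
      have h3 := mq_le q 0 0 (by linarith)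
      rw [abs_zero] at h2 h3
      have : mq q 0 0 = 0 := by linarith
      rw [this, sub_zero, Real.zero_rpow (by linarith)]
    simp only [h1, integral_zero]
    have : 0 ≤ ∫ z, |φ z| ∂(nu p) := integral_nonneg fun _ => abs_nonneg _
    unfold cq
    positivity
  · have hm := mean_pos p c hc hp φ h0
    set m := ∫ z, |φ z| ∂(nu p) with hmdef
    have hin : ∀ v, ∫ z, (mq q (φ z) (s * φ v) - |φ z|) ^ q ∂(nu p)
        ≤ 8 * q * s ^ (q + 1) / m * |φ v| ^ (q + 1) := by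
      intro v
      have h := inner_bound p c hc hp q hq φ (s * φ v)
      rw [← le_div_iff₀ hm] at h
      refine h.trans (le_of_eq ?_)
      rw [abs_mul, abs_of_pos hs, Real.mul_rpow hs.le (abs_nonneg _)]
      ring
    have hpc : Continuous fun v => |φ v| ^ (q + 1) :=
      φ.continuous.abs.rpow_const fun _ => Or.inr (by linarith)
    have hnn : ∀ v, 0 ≤ ∫ z, (mq q (φ z) (s * φ v) - |φ z|) ^ q ∂(nu p) := fun v =>
      integral_nonneg fun z => Real.rpow_nonneg (exc_nonneg q _ _ (by linarith)) _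
    have h1 : ∫ v, ∫ z, (mq q (φ z) (s * φ v) - |φ z|) ^ q ∂(nu p) ∂(nu p)
        ≤ ∫ v, 8 * q * s ^ (q + 1) / m * |φ v| ^ (q + 1) ∂(nu p) :=
      integral_mono_of_nonneg (Eventually.of_forall hnn)
        ((nu_int p c hc hp hpc).const_mul _) (Eventually.of_forall hin)
    rw [integral_const_mul] at h1
    have h2 := moment p c hc hp φ m hm le_rfl (q + 1) (by linarith)
    calc ∫ v, ∫ z, (mq q (φ z) (s * φ v) - |φ z|) ^ q ∂(nu p) ∂(nu p)
        ≤ 8 * q * s ^ (q + 1) / m * ∫ v, |φ v| ^ (q + 1) ∂(nu p) := h1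
      _ ≤ 8 * q * s ^ (q + 1) / m * (3 * (17 / 8 * (q + 1) * m) ^ (q + 1)) := by
          gcongr
      _ = cq q * s ^ (q + 1) * m ^ q := by
          unfold cq
          rw [Real.mul_rpow (by positivity) hm.le, Real.rpow_add hm q 1, Real.rpow_one]
          field_simp
          ring

end Pool.Agent.Run7.h924.Lat
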