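import Mathlib
import Pool.Agent.Run7.h924.LatD

set_option autoImplicit false
set_option linter.unusedSectionVars false

/-!
# Lattice norms on `C(Ω)` which are `q`-concave with constant one
-/

namespace Pool.Agent.Run7.h924.Lat

open MeasureTheory Set Filter
open scoped ENNReal
open Pool.Agent.TH591.Sq

/-- `N` is a lattice (semi)norm on `C(Ω, ℝ)` which is `q`-concave with constant one. -/
structure IsQLat {Ω : Type*} [TopologicalSpace Ω] [CompactSpace Ω] (q : ℝ) (N : C(Ω, ℝ) → ℝ) :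
    Prop where
  mono : ∀ f g : C(Ω, ℝ), (∀ ω, |f ω| ≤ |g ω|) → N f ≤ N g
  add : ∀ f g : C(Ω, ℝ), N (f + g) ≤ N f + N g
  smul : ∀ (a : ℝ) (f : C(Ω, ℝ)), N (a • f) = |a| * N f
  concave : ∀ f g h : C(Ω, ℝ), (∀ ω, |f ω| ^ q + |g ω| ^ q = |h ω| ^ q) →
    N f ^ q + N g ^ q ≤ N h ^ q

variable {Ω : Type*} [TopologicalSpace Ω] [CompactSpace Ω] {q : ℝ} {N : C(Ω, ℝ) → ℝ}

theorem IsQLat.zero (H : IsQLat q N) : N 0 = 0 := by
  have h := H.smul 0 0
  simpa using h

theorem IsQLat.nonneg (H : IsQLat q N) (f : C(Ω, ℝ)) : 0 ≤ N f := by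
  rw [← H.zero]
  exact H.mono _ _ fun ω => by simp

theorem IsQLat.neg (H : IsQLat q N) (f : C(Ω, ℝ)) : N (-f) = N f := by
  have h := H.smul (-1) f
  simpa using h

theorem IsQLat.le_norm (H : IsQLat q N) (f : C(Ω, ℝ)) : N f ≤ ‖f‖ * N 1 := by
  have h : N f ≤ N (‖f‖ • (1 : C(Ω, ℝ))) := by
    refine H.mono _ _ fun ω => ?_
    simp only [ContinuousMap.smul_apply, ContinuousMap.one_apply, smul_eq_mul, mul_one, abs_norm]
    rw [← Real.norm_eq_abs]
    exact f.norm_coe_le_norm ω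
  rw [H.smul, abs_norm] at h
  exact h

theorem IsQLat.sub_le (H : IsQLat q N) (f g : C(Ω, ℝ)) : |N f - N g| ≤ N (f - g) := by
  have h1 := H.add (f - g) g
  have h2 := H.add (g - f) f
  have h3 : N (g - f) = N (f - g) := by rw [← H.neg, neg_sub]
  rw [sub_add_cancel] at h1 h2
  rw [h3] at h2
  exact abs_le.2 ⟨by linarith, by linarith⟩

theorem IsQLat.cont (H : IsQLat q N) : Continuous N := by
  have hL : LipschitzWith ⟨N 1, H.nonneg 1⟩ N := by
    refine LipschitzWith.of_dist_le_mul fun f g => ?_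
    rw [Real.dist_eq, dist_eq_norm]
    refine (H.sub_le f g).trans ((H.le_norm _).trans (le_of_eq ?_))
    rw [mul_comm]
    rfl
  exact hL.continuous

theorem IsQLat.convex (H : IsQLat q N) : ConvexOn ℝ univ N := by
  refine ⟨convex_univ, fun f _ g _ a b ha hb _ => ?_⟩
  refine (H.add _ _).trans (le_of_eq ?_)
  rw [H.smul, H.smul, abs_of_nonneg ha, abs_of_nonneg hb, smul_eq_mul, smul_eq_mul]

/-- the `q`-th root of a function -/
noncomputable def root (q : ℝ) (hq : 1 ≤ q) (Y : C(Ω, ℝ)) : C(Ω, ℝ) :=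
  (⟨fun t : ℝ => |t| ^ (1 / q), continuous_abs.rpow_const fun _ => Or.inr (by positivity)⟩ :
    C(ℝ, ℝ)).comp Y

theorem root_apply (hq : 1 ≤ q) (Y : C(Ω, ℝ)) (ω : Ω) : root q hq Y ω = |Y ω| ^ (1 / q) := rfl

theorem root_cont (hq : 1 ≤ q) : Continuous (root (Ω := Ω) q hq) :=
  ContinuousMap.continuous_postcomp _

/-- `Y ↦ N(Y^(1/q))^q` -/
noncomputable def Th (N : C(Ω, ℝ) → ℝ) (q : ℝ) (hq : 1 ≤ q) (Y : C(Ω, ℝ)) : ℝ := N (root q hq Y) ^ q

theorem Th_cont (H : IsQLat q N) (hq : 1 ≤ q) : Continuous (Th N q hq) := by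
  unfold Th
  exact (H.cont.comp (root_cont hq)).rpow_const fun _ => Or.inr (by linarith)

theorem Th_concave (H : IsQLat q N) (hq : 1 ≤ q) :
    ConcaveOn ℝ {Y : C(Ω, ℝ) | ∀ ω, 0 ≤ Y ω} (Th N q hq) := by
  have hq0 : q ≠ 0 := by linarith
  refine ⟨?_, ?_⟩
  · intro Y hY Z hZ a b ha hb _ ω
    have h1 : 0 ≤ Y ω := hY ω
    have h2 : 0 ≤ Z ω := hZ ω
    simp only [ContinuousMap.add_apply, ContinuousMap.smul_apply, smul_eq_mul]
    positivity
  · intro Y hY Z hZ a b ha hb _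
    have key := H.concave (a ^ (1 / q) • root q hq Y) (b ^ (1 / q) • root q hq Z)
      (root q hq (a • Y + b • Z)) (by
        intro ω
        have h1 : 0 ≤ Y ω := hY ω
        have h2 : 0 ≤ Z ω := hZ ω
        simp only [ContinuousMap.add_apply, ContinuousMap.smul_apply, smul_eq_mul, root_apply]
        have h3 : 0 ≤ a * Y ω + b * Z ω := by positivity
        rw [abs_of_nonneg h1, abs_of_nonneg h2, abs_of_nonneg h3]
        have hp : ∀ t : ℝ, 0 ≤ t → (t ^ (1 / q)) ^ q = t := by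
          intro t ht
          rw [← Real.rpow_mul ht, one_div_mul_cancel hq0, Real.rpow_one]
        rw [abs_of_nonneg (by positivity), abs_of_nonneg (by positivity),
          abs_of_nonneg (by positivity), Real.mul_rpow (by positivity) (by positivity),
          Real.mul_rpow (by positivity) (by positivity), hp a ha, hp b hb, hp _ h1, hp _ h2,
          hp _ h3])
    rw [H.smul, H.smul, abs_of_nonneg (by positivity), abs_of_nonneg (by positivity),
      Real.mul_rpow (by positivity) (H.nonneg _), Real.mul_rpow (by positivity) (H.nonneg _),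
      ← Real.rpow_mul ha, ← Real.rpow_mul hb, one_div_mul_cancel hq0, Real.rpow_one,
      Real.rpow_one] at key
    exact key

theorem nonneg_closed : IsClosed {Y : C(Ω, ℝ) | ∀ ω, 0 ≤ Y ω} := by
  have : {Y : C(Ω, ℝ) | ∀ ω, 0 ≤ Y ω} = ⋂ ω, {Y : C(Ω, ℝ) | 0 ≤ Y ω} := by
    ext Y; simp
  rw [this]
  exact isClosed_iInter fun ω =>
    isClosed_le continuous_const (continuous_eval_const ω)

variable {d : ℕ}

/-- the element with the coordinates `z` -/
noncomputable def lc (F : Fin d → C(Ω, ℝ)) (z : EuclideanSpace ℝ (Fin d)) : C(Ω, ℝ) :=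
  ∑ i, z i • F i

theorem lc_apply (F : Fin d → C(Ω, ℝ)) (z : EuclideanSpace ℝ (Fin d)) (ω : Ω) :
    lc F z ω = ∑ i, z i * F i ω := by
  unfold lc
  simp [ContinuousMap.sum_apply]

theorem lc_add (F : Fin d → C(Ω, ℝ)) (z w : EuclideanSpace ℝ (Fin d)) :
    lc F (z + w) = lc F z + lc F w := by
  ext ω
  simp [lc_apply, add_mul, Finset.sum_add_distrib]

theorem lc_smul (F : Fin d → C(Ω, ℝ)) (a : ℝ) (z : EuclideanSpace ℝ (Fin d)) :
    lc F (a • z) = a • lc F z := by
  ext ω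
  simp [lc_apply, Finset.mul_sum, mul_assoc]

/-- the norm on `ℝ^d` -/
noncomputable def IsQLat.semi (H : IsQLat q N) (F : Fin d → C(Ω, ℝ)) :
    Seminorm ℝ (EuclideanSpace ℝ (Fin d)) :=
  Seminorm.of (fun z => N (lc F z))
    (fun z w => by rw [lc_add]; exact H.add _ _)
    (fun a z => by rw [lc_smul, H.smul, Real.norm_eq_abs])

theorem IsQLat.semi_apply (H : IsQLat q N) (F : Fin d → C(Ω, ℝ)) (z : EuclideanSpace ℝ (Fin d)) :
    H.semi F z = N (lc F z) := rfl

/-- evaluation at `ω` -/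
noncomputable def ev (F : Fin d → C(Ω, ℝ)) (ω : Ω) : EuclideanSpace ℝ (Fin d) →L[ℝ] ℝ :=
  LinearMap.toContinuousLinearMap
    { toFun := fun z => lc F z ω
      map_add' := fun z w => by rw [lc_add]; rfl
      map_smul' := fun a z => by rw [lc_smul]; rfl }

theorem ev_apply (F : Fin d → C(Ω, ℝ)) (ω : Ω) (z : EuclideanSpace ℝ (Fin d)) :
    ev F ω z = lc F z ω := rfl

theorem lc_joint (F : Fin d → C(Ω, ℝ)) :
    Continuous fun x : EuclideanSpace ℝ (Fin d) × Ω => lc F x.1 x.2 := by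
  simp only [lc_apply]
  refine continuous_finsetSum _ fun i _ => Continuous.mul ?_ ?_
  · exact (EuclideanSpace.proj i : EuclideanSpace ℝ (Fin d) →L[ℝ] ℝ).continuous.comp continuous_fst
  · exact (F i).continuous.comp continuous_snd

/-- the mean of order `q` of `z + s v` and `z - s v` -/
noncomputable def Mq (F : Fin d → C(Ω, ℝ)) (q : ℝ) (hq : 1 ≤ q) (s : ℝ)
    (x : EuclideanSpace ℝ (Fin d) × EuclideanSpace ℝ (Fin d)) : C(Ω, ℝ) :=
  ⟨fun ω => mq q (lc F x.2 ω) (s * lc F x.1 ω),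
    mq_cont q hq (lc F x.2).continuous ((lc F x.1).continuous.const_mul s)⟩

/-- its excess -/
noncomputable def Gq (F : Fin d → C(Ω, ℝ)) (q : ℝ) (hq : 1 ≤ q) (s : ℝ)
    (x : EuclideanSpace ℝ (Fin d) × EuclideanSpace ℝ (Fin d)) : C(Ω, ℝ) :=
  ⟨fun ω => mq q (lc F x.2 ω) (s * lc F x.1 ω) - |lc F x.2 ω|,
    exc_cont q hq (lc F x.2).continuous ((lc F x.1).continuous.const_mul s)⟩

/-- the power of the excess -/
noncomputable def Hq (F : Fin d → C(Ω, ℝ)) (q : ℝ) (hq : 1 ≤ q) (s : ℝ)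
    (x : EuclideanSpace ℝ (Fin d) × EuclideanSpace ℝ (Fin d)) : C(Ω, ℝ) :=
  ⟨fun ω => (mq q (lc F x.2 ω) (s * lc F x.1 ω) - |lc F x.2 ω|) ^ q,
    (exc_cont q hq (lc F x.2).continuous
      ((lc F x.1).continuous.const_mul s)).rpow_const fun _ => Or.inr (by linarith)⟩

theorem Gq_cont (F : Fin d → C(Ω, ℝ)) (hq : 1 ≤ q) (s : ℝ) : Continuous (Gq F q hq s) := by
  refine ContinuousMap.continuous_of_continuous_uncurry _ ?_
  have h1 : Continuous fun x : (EuclideanSpace ℝ (Fin d) × EuclideanSpace ℝ (Fin d)) × Ω =>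
      lc F x.1.2 x.2 :=
    (lc_joint F).comp ((continuous_snd.comp continuous_fst).prodMk continuous_snd)
  have h2 : Continuous fun x : (EuclideanSpace ℝ (Fin d) × EuclideanSpace ℝ (Fin d)) × Ω =>
      lc F x.1.1 x.2 :=
    (lc_joint F).comp ((continuous_fst.comp continuous_fst).prodMk continuous_snd)
  exact exc_cont q hq h1 (h2.const_mul s)

theorem Hq_cont (F : Fin d → C(Ω, ℝ)) (hq : 1 ≤ q) (s : ℝ) : Continuous (Hq F q hq s) := by
  refine ContinuousMap.continuous_of_continuous_uncurry _ ?_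
  have h1 : Continuous fun x : (EuclideanSpace ℝ (Fin d) × EuclideanSpace ℝ (Fin d)) × Ω =>
      lc F x.1.2 x.2 :=
    (lc_joint F).comp ((continuous_snd.comp continuous_fst).prodMk continuous_snd)
  have h2 : Continuous fun x : (EuclideanSpace ℝ (Fin d) × EuclideanSpace ℝ (Fin d)) × Ω =>
      lc F x.1.1 x.2 :=
    (lc_joint F).comp ((continuous_fst.comp continuous_fst).prodMk continuous_snd)
  exact (exc_cont q hq h1 (h2.const_mul s)).rpow_const fun _ => Or.inr (by linarith)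

theorem root_Hq (F : Fin d → C(Ω, ℝ)) (hq : 1 ≤ q) (s : ℝ)
    (x : EuclideanSpace ℝ (Fin d) × EuclideanSpace ℝ (Fin d)) :
    root q hq (Hq F q hq s x) = Gq F q hq s x := by
  ext ω
  have h0 := exc_nonneg q (lc F x.2 ω) (s * lc F x.1 ω) hq
  show |(mq q (lc F x.2 ω) (s * lc F x.1 ω) - |lc F x.2 ω|) ^ q| ^ (1 / q)
    = mq q (lc F x.2 ω) (s * lc F x.1 ω) - |lc F x.2 ω|
  rw [abs_of_nonneg (Real.rpow_nonneg h0 _), ← Real.rpow_mul h0, mul_one_div_cancel (by linarith),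
    Real.rpow_one]

/-- the pointwise second difference -/
theorem IsQLat.second (H : IsQLat q N) (F : Fin d → C(Ω, ℝ)) (hq : 1 ≤ q) (s : ℝ)
    (x : EuclideanSpace ℝ (Fin d) × EuclideanSpace ℝ (Fin d)) :
    (N (lc F (x.2 + s • x.1)) + N (lc F (x.2 - s • x.1))) / 2 - N (lc F x.2)
      ≤ N (Gq F q hq s x) := by
  have hq0 : 0 < q := by linarith
  obtain ⟨v, z⟩ := x
  simp only
  set c2 : ℝ := (1 / 2) ^ (1 / q) with hc2
  have hc20 : 0 ≤ c2 := by positivity
  have hc2q : c2 ^ q = 1 / 2 := by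
    rw [hc2, ← Real.rpow_mul (by norm_num), one_div_mul_cancel hq0.ne', Real.rpow_one]
  have h1 := H.concave (c2 • lc F (z + s • v)) (c2 • lc F (z - s • v)) (Mq F q hq s (v, z)) (by
    intro ω
    have e1 : (c2 • lc F (z + s • v)) ω = c2 * (lc F z ω + s * lc F v ω) := by
      rw [lc_add, lc_smul]; rfl
    have e2 : (c2 • lc F (z - s • v)) ω = c2 * (lc F z ω - s * lc F v ω) := by
      rw [sub_eq_add_neg, ← neg_smul, lc_add, lc_smul]
      show c2 * (lc F z ω + -s * lc F v ω) = _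
      ring
    have e3 : Mq F q hq s (v, z) ω = mq q (lc F z ω) (s * lc F v ω) := rfl
    rw [e1, e2, e3, abs_mul, abs_mul, abs_of_nonneg hc20, abs_of_nonneg (mq_nonneg _ _ _),
      mq_pow _ _ _ hq, Real.mul_rpow hc20 (abs_nonneg _), Real.mul_rpow hc20 (abs_nonneg _), hc2q]
    ring)
  rw [H.smul, H.smul, abs_of_nonneg hc20, Real.mul_rpow hc20 (H.nonneg _),
    Real.mul_rpow hc20 (H.nonneg _), hc2q] at h1
  have h2 := mean_le_qmean q _ _ hq (H.nonneg (lc F (z + s • v))) (H.nonneg (lc F (z - s • v)))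
  have h3 : (N (lc F (z + s • v)) ^ q + N (lc F (z - s • v)) ^ q) / 2
      ≤ N (Mq F q hq s (v, z)) ^ q := by linarith
  have h4 : 0 ≤ (N (lc F (z + s • v)) ^ q + N (lc F (z - s • v)) ^ q) / 2 := by
    have := Real.rpow_nonneg (H.nonneg (lc F (z + s • v))) q
    have := Real.rpow_nonneg (H.nonneg (lc F (z - s • v))) q
    linarith
  have h5 := Real.rpow_le_rpow h4 h3 (by positivity : 0 ≤ 1 / q)
  rw [← Real.rpow_mul (H.nonneg _), mul_one_div_cancel hq0.ne', Real.rpow_one] at h5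
  -- triangle inequality
  let A : C(Ω, ℝ) := ⟨fun ω => |lc F z ω|, (lc F z).continuous.abs⟩
  have h6 : N (Mq F q hq s (v, z)) ≤ N A + N (Gq F q hq s (v, z)) := by
    have e : Mq F q hq s (v, z) = A + Gq F q hq s (v, z) := by
      ext ω
      show mq q (lc F z ω) (s * lc F v ω)
        = |lc F z ω| + (mq q (lc F z ω) (s * lc F v ω) - |lc F z ω|)
      ring
    rw [e]
    exact H.add _ _
  have h7 : N A ≤ N (lc F z) := H.mono _ _ fun ω => by
    show |(|lc F z ω|)| ≤ |lc F z ω|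
    rw [abs_abs]
  linarith

end Pool.Agent.Run7.h924.Lat
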