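import Mathlib
import Pool.Agent.Results.MP_eba1ef_gt.ThinSlabs
import Pool.Agent.Run7.h924.LatE

set_option autoImplicit false
set_option linter.unusedSectionVars false

/-!
# The average modulus of smoothness and the flatness
-/

namespace Pool.Agent.Run7.h924.Lat

open MeasureTheory Set Filter
open scoped ENNReal
open Pool.Agent.TH591.Sq
open Pool.Agent.Results.MP_eba1ef_gt.ThinSlabs (flatness balanced_of_symm)

section
variable {d : ℕ} (p : Seminorm ℝ (EuclideanSpace ℝ (Fin d))) (c : ℝ)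

theorem nu_restrict : (nu p).restrict (UB p) = nu p := by
  unfold nu
  rw [Measure.restrict_smul, Measure.restrict_restrict (ub_meas p), inter_self]

theorem prod_int (hc : 0 < c) (hp : ∀ x, c * ‖x‖ ≤ p x) {G : Type*} [NormedAddCommGroup G]
    {f : EuclideanSpace ℝ (Fin d) × EuclideanSpace ℝ (Fin d) → G} (hf : Continuous f) :
    Integrable f ((nu p).prod (nu p)) := by
  have := nu_prob p c hc hp
  have h1 : (nu p).prod (nu p) = ((nu p).prod (nu p)).restrict (UB p ×ˢ UB p) := by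
    rw [← Measure.prod_restrict, nu_restrict]
  rw [h1]
  exact hf.continuousOn.integrableOn_compact ((ub_compact p c hc hp).prod (ub_compact p c hc hp))

theorem nu_mean_le (hc : 0 < c) (hp : ∀ x, c * ‖x‖ ≤ p x) : ∫ z, p z ∂(nu p) ≤ 1 := by
  have := nu_prob p c hc hp
  have hV : 0 < (volume (UB p)).toReal := ENNReal.toReal_pos (ub_ne0 p) (ub_fin p c hc hp)
  have h := ub_mean p c hc hp
  rw [nu_real p c _ hc hp, integral_sub (nu_int p c hc hp continuous_const)
    (nu_int p c hc hp (semi_cont p))] at h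
  have h2 : 0 ≤ (volume (UB p)).toReal * ((∫ _, (1 : ℝ) ∂(nu p)) - ∫ z, p z ∂(nu p)) := by
    rw [h]; positivity
  have h3 := nonneg_of_mul_nonneg_right h2 hV
  simp only [integral_const, probReal_univ, smul_eq_mul, mul_one] at h3
  linarith

theorem nu_one (hc : 0 < c) (hp : ∀ x, c * ‖x‖ ≤ p x) (s : ℝ) (hs : 0 < s)
    (v : EuclideanSpace ℝ (Fin d)) :
    s * ∫ z, |fderiv ℝ p z v| ∂(nu p)
      ≤ 2 * (∫ z, (p (z + s • v) - p z) ∂(nu p)) + 1 / (d + 1) := by
  have hV : 0 < (volume (UB p)).toReal := ENNReal.toReal_pos (ub_ne0 p) (ub_fin p c hc hp)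
  have h := ub_one p c hc hp s hs v
  rw [nu_real p c _ hc hp, nu_real p c _ hc hp] at h
  have hfr : Module.finrank ℝ (EuclideanSpace ℝ (Fin d)) = d := by simp
  rw [hfr] at h
  have e1 : s * ((volume (UB p)).toReal * ∫ z, |fderiv ℝ p z v| ∂(nu p))
      = (volume (UB p)).toReal * (s * ∫ z, |fderiv ℝ p z v| ∂(nu p)) := by ring
  have e2 : 2 * ((volume (UB p)).toReal * ∫ z, (p (z + s • v) - p z) ∂(nu p))
      + (volume (UB p)).toReal / (d + 1)
      = (volume (UB p)).toReal * (2 * (∫ z, (p (z + s • v) - p z) ∂(nu p)) + 1 / (d + 1)) := by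
    ring
  rw [e1, e2] at h
  exact le_of_mul_le_mul_left h hV

theorem df_prod_int (hc : 0 < c) (hp : ∀ x, c * ‖x‖ ≤ p x) :
    Integrable (fun x : EuclideanSpace ℝ (Fin d) × EuclideanSpace ℝ (Fin d) =>
      |fderiv ℝ p x.1 x.2|) ((nu p).prod (nu p)) := by
  obtain ⟨C, hC0, hC⟩ := df_bound p
  have h1 : Integrable (fun x : EuclideanSpace ℝ (Fin d) × EuclideanSpace ℝ (Fin d) =>
      C * ‖x.2‖) ((nu p).prod (nu p)) :=
    prod_int p c hc hp (continuous_const.mul continuous_snd.norm)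
  refine h1.mono (measurable_abs.comp (df_meas p)).aestronglyMeasurable
    (Eventually.of_forall fun x => ?_)
  rw [Real.norm_of_nonneg (abs_nonneg _), Real.norm_of_nonneg (by positivity)]
  exact hC _ _

/-- the double mean of the derivative -/
theorem nu_two (hc : 0 < c) (hp : ∀ x, c * ‖x‖ ≤ p x) (s : ℝ) (hs : 0 < s) :
    s * ∫ x, |fderiv ℝ p x.1 x.2| ∂((nu p).prod (nu p))
      ≤ 2 * (∫ x, (p (x.2 + s • x.1) - p x.2) ∂((nu p).prod (nu p))) + 1 / (d + 1) := by
  have := nu_prob p c hc hp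
  have hpc := semi_cont p
  have hi := df_prod_int p c hc hp
  have hc2 : Continuous fun x : EuclideanSpace ℝ (Fin d) × EuclideanSpace ℝ (Fin d) =>
      p (x.2 + s • x.1) - p x.2 := by fun_prop
  have e1 : ∫ x, |fderiv ℝ p x.1 x.2| ∂((nu p).prod (nu p))
      = ∫ v, ∫ z, |fderiv ℝ p z v| ∂(nu p) ∂(nu p) := by
    have h1 : Integrable (fun x : EuclideanSpace ℝ (Fin d) × EuclideanSpace ℝ (Fin d) =>
      |fderiv ℝ p x.2 x.1|) ((nu p).prod (nu p)) := hi.swap
    have h2 : ∫ x : EuclideanSpace ℝ (Fin d) × EuclideanSpace ℝ (Fin d),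
        |fderiv ℝ p x.2 x.1| ∂((nu p).prod (nu p))
        = ∫ x : EuclideanSpace ℝ (Fin d) × EuclideanSpace ℝ (Fin d),
        |fderiv ℝ p x.1 x.2| ∂((nu p).prod (nu p)) :=
      integral_prod_swap (μ := nu p) (ν := nu p)
        (fun x : EuclideanSpace ℝ (Fin d) × EuclideanSpace ℝ (Fin d) => |fderiv ℝ p x.1 x.2|)
    rw [← h2, integral_prod _ h1]
  have e2 : ∫ x, (p (x.2 + s • x.1) - p x.2) ∂((nu p).prod (nu p))
      = ∫ v, ∫ z, (p (z + s • v) - p z) ∂(nu p) ∂(nu p) := by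
    rw [integral_prod _ (prod_int p c hc hp hc2)]
  rw [e1, e2, ← integral_const_mul, ← integral_const_mul]
  have h1 : Integrable (fun v => ∫ z, |fderiv ℝ p z v| ∂(nu p)) (nu p) :=
    (hi.swap).integral_prod_left
  have h2 : Integrable (fun v => ∫ z, (p (z + s • v) - p z) ∂(nu p)) (nu p) :=
    (prod_int p c hc hp hc2).integral_prod_left
  have h3 : ∫ v, s * ∫ z, |fderiv ℝ p z v| ∂(nu p) ∂(nu p)
      ≤ ∫ v, (2 * (∫ z, (p (z + s • v) - p z) ∂(nu p)) + 1 / (d + 1)) ∂(nu p) := by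
    refine integral_mono (h1.const_mul s) ((h2.const_mul 2).add (integrable_const _)) fun v => ?_
    exact nu_one p c hc hp s hs v
  refine h3.trans (le_of_eq ?_)
  rw [integral_add (h2.const_mul 2) (integrable_const _)]
  simp

theorem gauge_ub (x : EuclideanSpace ℝ (Fin d)) : gauge (UB p) x = p x := by
  have habs : Absorbent ℝ (UB p) := absorbent_nhds_zero (ub_nhds p)
  apply le_antisymm
  · refine le_of_forall_pos_le_add fun ε hε => ?_
    have hr : 0 < p x + ε := by have := apply_nonneg p x; linarith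
    refine gauge_le_of_mem hr.le ?_
    refine ⟨(p x + ε)⁻¹ • x, ?_, ?_⟩
    · show p ((p x + ε)⁻¹ • x) ≤ 1
      rw [map_smul_eq_mul, Real.norm_of_nonneg (inv_pos.2 hr).le, inv_mul_le_iff₀ hr]
      linarith
    · show (p x + ε) • ((p x + ε)⁻¹ • x) = x
      rw [smul_smul, mul_inv_cancel₀ hr.ne', one_smul]
  · refine le_of_forall_gt_imp_ge_of_dense fun r hr => ?_
    obtain ⟨b, hb0, hb1, y, hy, hxy⟩ := exists_lt_of_gauge_lt habs hr
    have h1 : p y ≤ 1 := hy
    rw [← hxy]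
    show p (b • y) ≤ r
    rw [map_smul_eq_mul, Real.norm_of_nonneg hb0.le]
    nlinarith

theorem flat_nu (hc : 0 < c) (hp : ∀ x, c * ‖x‖ ≤ p x) :
    flatness (UB p) = ∫ x, |fderiv ℝ p x.1 x.2| ∂((nu p).prod (nu p)) := by
  have := nu_prob p c hc hp
  have hV : 0 < (volume (UB p)).toReal := ENNReal.toReal_pos (ub_ne0 p) (ub_fin p c hc hp)
  have hg : gauge (UB p) = p := funext (gauge_ub p)
  unfold flatness
  rw [hg, integral_prod _ (df_prod_int p c hc hp)]
  have e1 : ∀ z, ∫ z' in UB p, |fderiv ℝ p z z'|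
      = (volume (UB p)).toReal * ∫ z', |fderiv ℝ p z z'| ∂(nu p) := fun z =>
    nu_real p c _ hc hp
  simp only [e1]
  rw [nu_real p c _ hc hp, integral_const_mul]
  field_simp

/-- **The criterion** -/
theorem flat_crit (hc : 0 < c) (hp : ∀ x, c * ‖x‖ ≤ p x) (s : ℝ) (hs : 0 < s) :
    flatness (UB p) ≤ (2 * (∫ x, (p (x.2 + s • x.1) - p x.2) ∂((nu p).prod (nu p)))
      + 1 / (d + 1)) / s := by
  rw [flat_nu p c hc hp, le_div_iff₀ hs, mul_comm]
  exact nu_two p c hc hp s hs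

end

section
variable {Ω : Type*} [TopologicalSpace Ω] [CompactSpace Ω] {q : ℝ} {N : C(Ω, ℝ) → ℝ} {d : ℕ}

/-- the absolute value -/
noncomputable def ab (F : Fin d → C(Ω, ℝ)) (z : EuclideanSpace ℝ (Fin d)) : C(Ω, ℝ) :=
  ⟨fun ω => |lc F z ω|, (lc F z).continuous.abs⟩

theorem ab_cont (F : Fin d → C(Ω, ℝ)) : Continuous (ab F) :=
  ContinuousMap.continuous_of_continuous_uncurry _ (lc_joint F).abs

/-- the average of the norm of the excess -/
theorem IsQLat.avg (H : IsQLat q N) (F : Fin d → C(Ω, ℝ)) (hq : 2 ≤ q) (c : ℝ) (hc : 0 < c)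
    (hp : ∀ x, c * ‖x‖ ≤ H.semi F x) (s : ℝ) (hs : 0 < s) :
    ∫ x, N (Gq F q (by linarith) s x) ∂((nu (H.semi F)).prod (nu (H.semi F)))
      ≤ (cq q * s ^ (q + 1)) ^ (1 / q) := by
  have hq1 : 1 ≤ q := by linarith
  have hq0 : 0 < q := by linarith
  have := nu_prob (H.semi F) c hc hp
  set ν := nu (H.semi F) with hν
  have hcq : 0 ≤ cq q := by unfold cq; positivity
  set κ : ℝ := (cq q * s ^ (q + 1)) ^ (1 / q) with hκ
  have hκ0 : 0 ≤ κ := by positivity
  have hGc : Continuous fun x => N (Gq F q hq1 s x) := H.cont.comp (Gq_cont F hq1 s)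
  -- the mean of the absolute value
  set M : C(Ω, ℝ) := ∫ z, ab F z ∂ν with hM
  have hMi : Integrable (ab F) ν := nu_int (H.semi F) c hc hp (ab_cont F)
  have hMω : ∀ ω, M ω = ∫ z, |lc F z ω| ∂ν := fun ω => ContinuousMap.integral_apply hMi ω
  have hNM : N M ≤ 1 := by
    have h1 : N M ≤ ∫ z, N (ab F z) ∂ν :=
      H.convex.map_integral_le H.cont.continuousOn isClosed_univ
        (Eventually.of_forall fun _ => mem_univ _) hMi
        (nu_int (H.semi F) c hc hp (H.cont.comp (ab_cont F)))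
    have h2 : ∫ z, N (ab F z) ∂ν ≤ ∫ z, H.semi F z ∂ν := by
      refine integral_mono (nu_int (H.semi F) c hc hp (H.cont.comp (ab_cont F)))
        (nu_int (H.semi F) c hc hp (semi_cont _)) fun z => ?_
      refine H.mono _ _ fun ω => ?_
      show |(|lc F z ω|)| ≤ |lc F z ω|
      rw [abs_abs]
    exact h1.trans (h2.trans (nu_mean_le (H.semi F) c hc hp))
  -- Jensen
  have hHi : Integrable (Hq F q hq1 s) (ν.prod ν) := prod_int (H.semi F) c hc hp (Hq_cont F hq1 s)
  set I : C(Ω, ℝ) := ∫ x, Hq F q hq1 s x ∂(ν.prod ν) with hI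
  have hIω : ∀ ω, I ω ≤ cq q * s ^ (q + 1) * (M ω) ^ q := by
    intro ω
    have h1 : I ω = ∫ x, Hq F q hq1 s x ω ∂(ν.prod ν) := ContinuousMap.integral_apply hHi ω
    have h2 : Integrable (fun x => Hq F q hq1 s x ω) (ν.prod ν) :=
      prod_int (H.semi F) c hc hp ((continuous_eval_const ω).comp (Hq_cont F hq1 s))
    rw [h1, integral_prod _ h2, hMω]
    exact double_bound (H.semi F) c hc hp q hq (ev F ω) s hs
  have hI0 : ∀ ω, 0 ≤ I ω := by
    intro ω
    have h1 : I ω = ∫ x, Hq F q hq1 s x ω ∂(ν.prod ν) := ContinuousMap.integral_apply hHi ω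
    rw [h1]
    exact integral_nonneg fun x => Real.rpow_nonneg (exc_nonneg q _ _ hq1) _
  have hJ2 : ∫ x, Th N q hq1 (Hq F q hq1 s x) ∂(ν.prod ν) ≤ Th N q hq1 I := by
    refine (Th_concave H hq1).le_map_integral (Th_cont H hq1).continuousOn nonneg_closed
      (Eventually.of_forall fun x ω => ?_) hHi
      (prod_int (H.semi F) c hc hp ((Th_cont H hq1).comp (Hq_cont F hq1 s)))
    exact Real.rpow_nonneg (exc_nonneg q _ _ hq1) _
  have hTh : ∀ x, Th N q hq1 (Hq F q hq1 s x) = N (Gq F q hq1 s x) ^ q := by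
    intro x
    unfold Th
    rw [root_Hq]
  simp only [hTh] at hJ2
  have hroot : N (root q hq1 I) ≤ κ := by
    have h1 : N (root q hq1 I) ≤ N (κ • M) := by
      refine H.mono _ _ fun ω => ?_
      have hM0 : 0 ≤ M ω := by
        rw [hMω]; exact integral_nonneg fun _ => abs_nonneg _
      rw [root_apply, ContinuousMap.smul_apply, smul_eq_mul, abs_of_nonneg (hI0 ω),
        abs_of_nonneg (Real.rpow_nonneg (hI0 ω) _), abs_of_nonneg (mul_nonneg hκ0 hM0)]
      have h2 := Real.rpow_le_rpow (hI0 ω) (hIω ω) (by positivity : 0 ≤ 1 / q)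
      rwa [Real.mul_rpow (by positivity) (by positivity), ← Real.rpow_mul hM0,
        mul_one_div_cancel hq0.ne', Real.rpow_one] at h2
    refine h1.trans ?_
    rw [H.smul, abs_of_nonneg hκ0]
    exact mul_le_of_le_one_right hκ0 hNM
  have hJ1 : (∫ x, N (Gq F q hq1 s x) ∂(ν.prod ν)) ^ q
      ≤ ∫ x, N (Gq F q hq1 s x) ^ q ∂(ν.prod ν) := by
    refine (convexOn_rpow hq1).map_integral_le ?_ isClosed_Ici
      (Eventually.of_forall fun x => H.nonneg _) (prod_int (H.semi F) c hc hp hGc)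
      (prod_int (H.semi F) c hc hp (hGc.rpow_const fun _ => Or.inr hq0.le))
    exact (continuous_id.rpow_const fun _ => Or.inr hq0.le).continuousOn
  have hfin : (∫ x, N (Gq F q hq1 s x) ∂(ν.prod ν)) ^ q ≤ κ ^ q := by
    refine hJ1.trans (hJ2.trans ?_)
    exact Real.rpow_le_rpow (H.nonneg _) hroot hq0.le
  exact (Real.rpow_le_rpow_iff (integral_nonneg fun x => H.nonneg _) hκ0 hq0).1 hfin

/-- the average increase of the norm -/
theorem IsQLat.smooth (H : IsQLat q N) (F : Fin d → C(Ω, ℝ)) (hq : 2 ≤ q) (c : ℝ) (hc : 0 < c)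
    (hp : ∀ x, c * ‖x‖ ≤ H.semi F x) (s : ℝ) (hs : 0 < s) :
    ∫ x, (H.semi F (x.2 + s • x.1) - H.semi F x.2) ∂((nu (H.semi F)).prod (nu (H.semi F)))
      ≤ (cq q * s ^ (q + 1)) ^ (1 / q) := by
  have hq1 : 1 ≤ q := by linarith
  have := nu_prob (H.semi F) c hc hp
  have hpc := semi_cont (H.semi F)
  refine le_trans ?_ (H.avg F hq c hc hp s hs)
  have hc1 : Continuous fun x : EuclideanSpace ℝ (Fin d) × EuclideanSpace ℝ (Fin d) =>
      H.semi F (x.2 + s • x.1) - H.semi F x.2 := by fun_prop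
  have hc2 : Continuous fun x : EuclideanSpace ℝ (Fin d) × EuclideanSpace ℝ (Fin d) =>
      (H.semi F (x.2 + s • x.1) + H.semi F (x.2 - s • x.1)) / 2 - H.semi F x.2 := by fun_prop
  have hGc : Continuous fun x => N (Gq F q hq1 s x) := H.cont.comp (Gq_cont F hq1 s)
  have e : ∫ x, (H.semi F (x.2 + s • x.1) - H.semi F x.2) ∂((nu (H.semi F)).prod (nu (H.semi F)))
      = ∫ x, ((H.semi F (x.2 + s • x.1) + H.semi F (x.2 - s • x.1)) / 2 - H.semi F x.2)
        ∂((nu (H.semi F)).prod (nu (H.semi F))) := by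
    rw [integral_prod _ (prod_int _ c hc hp hc1), integral_prod _ (prod_int _ c hc hp hc2)]
    congr 1
    funext v
    simp only
    have i1 : Integrable (fun z => H.semi F (z + s • v)) (nu (H.semi F)) :=
      nu_int _ c hc hp (by fun_prop)
    have i2 : Integrable (fun z => H.semi F (z - s • v)) (nu (H.semi F)) :=
      nu_int _ c hc hp (by fun_prop)
    have i3 : Integrable (fun z => H.semi F z) (nu (H.semi F)) := nu_int _ c hc hp hpc
    have i12 : Integrable (fun z => (H.semi F (z + s • v) + H.semi F (z - s • v)) / 2)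
      (nu (H.semi F)) := (i1.add i2).div_const 2
    rw [integral_sub i1 i3, integral_sub i12 i3, integral_div, integral_add i1 i2]
    have i4 : ∫ z, H.semi F (z - s • v) ∂(nu (H.semi F))
        = ∫ z, H.semi F (z + s • v) ∂(nu (H.semi F)) := by
      rw [nu_integral, nu_integral, ← ub_neg _ (fun z => H.semi F (z - s • v))]
      congr 2
      funext z
      rw [← map_neg_eq_map (H.semi F) (-z - s • v)]
      congr 1
      abel
    rw [i4]
    ring
  rw [e]
  refine integral_mono (prod_int _ c hc hp hc2) (prod_int _ c hc hp hGc) fun x => ?_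
  exact H.second F hq1 s x

theorem cq_le (q : ℝ) (hq : 2 ≤ q) : cq q ^ (1 / q) ≤ 68 * (q + 1) := by
  have hq0 : 0 < q := by linarith
  have h1 : q + 1 ≤ 2 ^ q := by
    have := one_add_mul_self_le_rpow_one_add (by norm_num : (-1 : ℝ) ≤ 1) (by linarith : 1 ≤ q)
    norm_num at this
    linarith
  have h2 : (51 : ℝ) ≤ 8 ^ q := by
    calc (51 : ℝ) ≤ 8 ^ (2 : ℝ) := by norm_num
      _ ≤ 8 ^ q := Real.rpow_le_rpow_of_exponent_le (by norm_num) hq
  have h3 : cq q ≤ (68 * (q + 1)) ^ q := by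
    unfold cq
    have e1 : (17 / 8 * (q + 1)) ^ (q + 1) = (17 / 8 * (q + 1)) ^ q * (17 / 8 * (q + 1)) := by
      rw [Real.rpow_add (by positivity), Real.rpow_one]
    have e2 : (68 * (q + 1)) ^ q = 2 ^ q * 2 ^ q * 8 ^ q * (17 / 8 * (q + 1)) ^ q := by
      rw [← Real.mul_rpow (by norm_num) (by norm_num), ← Real.mul_rpow (by norm_num) (by norm_num),
        ← Real.mul_rpow (by norm_num) (by positivity)]
      congr 1
      ring
    rw [e1, e2]
    have h4 : 24 * q * (17 / 8 * (q + 1)) ≤ 2 ^ q * 2 ^ q * 8 ^ q := by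
      calc 24 * q * (17 / 8 * (q + 1)) = q * (q + 1) * 51 := by ring
        _ ≤ (q + 1) * (q + 1) * 51 := by gcongr; linarith
        _ ≤ 2 ^ q * 2 ^ q * 8 ^ q := by gcongr
    have h5 : 0 ≤ (17 / 8 * (q + 1)) ^ q := by positivity
    calc 24 * q * ((17 / 8 * (q + 1)) ^ q * (17 / 8 * (q + 1)))
        = 24 * q * (17 / 8 * (q + 1)) * (17 / 8 * (q + 1)) ^ q := by ring
      _ ≤ 2 ^ q * 2 ^ q * 8 ^ q * (17 / 8 * (q + 1)) ^ q := by gcongr
  have h0 : 0 ≤ cq q := by unfold cq; positivity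
  have h4 := Real.rpow_le_rpow h0 h3 (by positivity : 0 ≤ 1 / q)
  rwa [← Real.rpow_mul (by positivity), mul_one_div_cancel hq0.ne', Real.rpow_one] at h4

/-- flatness of the unit balls of subspaces of `q`-concave lattices -/
theorem IsQLat.flat (H : IsQLat q N) (F : Fin d → C(Ω, ℝ)) (hd : 1 ≤ d) (hq : 2 ≤ q) (c : ℝ)
    (hc : 0 < c) (hp : ∀ x, c * ‖x‖ ≤ H.semi F x) :
    flatness (UB (H.semi F)) ≤ 137 * (q + 1) * (d : ℝ) ^ (-(1 / (q + 1))) := by
  have hq0 : 0 < q := by linarith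
  have hd0 : (0 : ℝ) < d := by exact_mod_cast (by omega : 0 < d)
  set s : ℝ := (d : ℝ) ^ (-(q / (q + 1))) with hs
  have hs0 : 0 < s := Real.rpow_pos_of_pos hd0 _
  have h1 := flat_crit (H.semi F) c hc hp s hs0
  have h2 := H.smooth F hq c hc hp s hs0
  have hcq0 : 0 ≤ cq q := by unfold cq; positivity
  have e1 : (cq q * s ^ (q + 1)) ^ (1 / q) = cq q ^ (1 / q) * (d : ℝ)⁻¹ := by
    rw [Real.mul_rpow hcq0 (by positivity), hs, ← Real.rpow_mul hd0.le, ← Real.rpow_mul hd0.le,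
      ← Real.rpow_neg_one]
    congr 2
    field_simp
  rw [e1] at h2
  have h3 := cq_le q hq
  have h4 : 1 / ((d : ℝ) + 1) ≤ (d : ℝ)⁻¹ := by
    rw [one_div]
    exact inv_anti₀ hd0 (by linarith)
  have h5 : (d : ℝ)⁻¹ / s = (d : ℝ) ^ (-(1 / (q + 1))) := by
    rw [hs, ← Real.rpow_neg_one, ← Real.rpow_sub hd0]
    congr 1
    field_simp
    ring
  have hdi : 0 < (d : ℝ)⁻¹ := inv_pos.2 hd0
  calc flatness (UB (H.semi F)) ≤ _ := h1
    _ ≤ (2 * (68 * (q + 1) * (d : ℝ)⁻¹) + (d : ℝ)⁻¹) / s := by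
        gcongr
        refine h2.trans ?_
        gcongr
    _ = (136 * (q + 1) + 1) * ((d : ℝ)⁻¹ / s) := by ring
    _ ≤ 137 * (q + 1) * ((d : ℝ)⁻¹ / s) := by
        gcongr ?_ * _
        linarith
    _ = _ := by rw [h5]

end

end Pool.Agent.Run7.h924.Lat
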