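import Mathlib
import Pool.Agent.TH591.Sq.Body
import Pool.Agent.Run7.h924.LatF

set_option autoImplicit false
set_option linter.unusedSectionVars false

/-!
# Covering the unit balls of subspaces of `q`-concave lattices
-/

namespace Pool.Agent.Run7.h924.Lat

open MeasureTheory Set Filter
open scoped ENNReal
open Pool.Agent.TH591.Sq
open Pool.Agent.Results.MP_eba1ef_gt.ThinSlabs (flatness balanced_of_symm)

theorem cover_ub {d : ℕ} (hd : 2 ≤ d) (p : Seminorm ℝ (EuclideanSpace ℝ (Fin d))) (c : ℝ)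
    (hc : 0 < c) (hp : ∀ x, c * ‖x‖ ≤ p x) (ρ : ℝ) (hρ : 0 < ρ) (hfl : flatness (UB p) ≤ ρ) :
    ∃ T : Finset (EuclideanSpace ℝ (Fin d)),
      UB p ⊆ ⋃ t ∈ T, (fun x => t + x) '' interior (UB p) ∧
      (T.card : ℝ) ≤ 1 + 13 * d * Real.log (4 * d + 1) * 2 ^ d * Real.exp (-1 / (740 * ρ)) := by
  have hconv : Convex ℝ (UB p) := by
    intro x hx y hy a b ha hb hab
    have hx' : p x ≤ 1 := hx
    have hy' : p y ≤ 1 := hy
    show p (a • x + b • y) ≤ 1
    refine (map_add_le_add p _ _).trans ?_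
    rw [map_smul_eq_mul, map_smul_eq_mul, Real.norm_of_nonneg ha, Real.norm_of_nonneg hb]
    nlinarith
  have hsymm : ∀ x ∈ UB p, -x ∈ UB p := by
    intro x hx
    show p (-x) ≤ 1
    rw [map_neg_eq_map]; exact hx
  have hint : (interior (UB p)).Nonempty := ⟨0, mem_interior_iff_mem_nhds.2 (ub_nhds p)⟩
  obtain ⟨T, h1, h2, -⟩ :=
    (Pool.Agent.Results.MP_eba1ef_gt.ThinSlabs.result d hd (UB p) hconv (ub_compact p c hc hp) hint
      hsymm).2.1 ρ hρ hfl
  exact ⟨T, h1, h2⟩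

theorem bdd_const {d : ℕ} (p : Seminorm ℝ (EuclideanSpace ℝ (Fin d)))
    (hb : Bornology.IsBounded (UB p)) : ∃ c : ℝ, 0 < c ∧ ∀ x, c * ‖x‖ ≤ p x := by
  obtain ⟨R, hR⟩ := hb.subset_closedBall (0 : EuclideanSpace ℝ (Fin d))
  set R' : ℝ := max R 1 with hR'
  have hR1 : 0 < R' := lt_of_lt_of_le one_pos (le_max_right _ _)
  have hRR : ∀ x, p x ≤ 1 → ‖x‖ ≤ R' := by
    intro x hx
    have := hR (show x ∈ UB p from hx)
    rw [mem_closedBall_zero_iff] at this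
    exact this.trans (le_max_left _ _)
  refine ⟨1 / R', by positivity, fun x => ?_⟩
  rcases (apply_nonneg p x).eq_or_lt with h0 | h0
  · have hx : x = 0 := by
      by_contra hne
      have hn : 0 < ‖x‖ := norm_pos_iff.2 hne
      have h1 := hRR (((R' + 1) / ‖x‖) • x) (by
        rw [map_smul_eq_mul, ← h0, mul_zero]; norm_num)
      rw [norm_smul, Real.norm_of_nonneg (by positivity), div_mul_cancel₀ _ hn.ne'] at h1
      linarith
    rw [hx]; simp
  · have h1 := hRR ((p x)⁻¹ • x) (by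
      rw [map_smul_eq_mul, Real.norm_of_nonneg (inv_pos.2 h0).le, inv_mul_cancel₀ h0.ne'])
    rw [norm_smul, Real.norm_of_nonneg (inv_pos.2 h0).le, inv_mul_le_iff₀ h0] at h1
    rw [one_div, inv_mul_le_iff₀ hR1, mul_comm]
    exact h1

/-- The covering theorem, for lattice norms on `C(Ω)`. -/
theorem cover_lat {Ω : Type*} [TopologicalSpace Ω] [CompactSpace Ω] {q : ℝ} {N : C(Ω, ℝ) → ℝ}
    (H : IsQLat q N) {d : ℕ} (F : Fin d → C(Ω, ℝ)) (hd : 2 ≤ d) (hq : 2 ≤ q)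
    (K : Set (EuclideanSpace ℝ (Fin d))) (hKdef : K = {x | N (∑ i, x i • F i) ≤ 1})
    (hb : Bornology.IsBounded K) (s : ℝ) (hs : s = (d : ℝ) ^ (1 / (q + 1)) / (202760 * (q + 1))) :
    ∃ T : Finset (EuclideanSpace ℝ (Fin d)),
      K ⊆ ⋃ t ∈ T, (fun x => t + x) '' interior K ∧
      (T.card : ℝ) ≤ 1 + 13 * d * Real.log (4 * d + 1) * 2 ^ d * Real.exp (-(2 * s)) ∧
      (5 ≤ s → Real.log d ≤ s → T.card < 2 ^ d) := by
  have hK : K = UB (H.semi F) := hKdef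
  rw [hK] at hb ⊢
  obtain ⟨c, hc, hp⟩ := bdd_const (H.semi F) hb
  have hd0 : (0 : ℝ) < d := by exact_mod_cast (by omega : 0 < d)
  have hfl := H.flat F (by omega) hq c hc hp
  obtain ⟨T, h1, h2⟩ := cover_ub hd (H.semi F) c hc hp _ (by positivity) hfl
  have e : -1 / (740 * (137 * (q + 1) * (d : ℝ) ^ (-(1 / (q + 1))))) = -(2 * s) := by
    rw [hs, Real.rpow_neg hd0.le]
    field_simp
    norm_num
  rw [e] at h2
  refine ⟨T, h1, h2, fun hs5 hds => ?_⟩
  have hd1 : (1 : ℝ) ≤ d := by exact_mod_cast (by omega : 1 ≤ d)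
  have h4 := Pool.Agent.TH591.Lie.strict_of_exp d hd1 s hs5 hds
  have h5 : (4 : ℝ) ≤ 2 ^ d := by
    calc (4 : ℝ) = 2 ^ 2 := by norm_num
      _ ≤ 2 ^ d := pow_le_pow_right₀ (by norm_num) hd
  have h6 : (T.card : ℝ) < ((2 ^ d : ℕ) : ℝ) := by
    push_cast
    calc (T.card : ℝ) ≤ 1 + 13 * d * Real.log (4 * d + 1) * 2 ^ d * Real.exp (-(2 * s)) := h2
      _ = 1 + 13 / 18 * 2 ^ d * (18 * d * Real.log (4 * d + 1) * Real.exp (-(2 * s))) := by ring
      _ ≤ 1 + 13 / 18 * 2 ^ d * 1 := by gcongr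
      _ < 2 ^ d := by linarith
  exact_mod_cast h6

theorem exists_dim' (q : ℝ) (hq : 2 ≤ q) : ∃ d₀ : ℕ, ∀ d : ℕ, d₀ ≤ d →
    5 ≤ (d : ℝ) ^ (1 / (q + 1)) / (202760 * (q + 1)) ∧
      Real.log d ≤ (d : ℝ) ^ (1 / (q + 1)) / (202760 * (q + 1)) := by
  set C : ℝ := 202760 * (q + 1) with hC
  have hC0 : 0 < C := by positivity
  have ha : 0 < 1 / (q + 1) := by positivity
  have h1 : Tendsto (fun d : ℕ => (d : ℝ) ^ (1 / (q + 1))) atTop atTop :=
    (tendsto_rpow_atTop ha).comp tendsto_natCast_atTop_atTop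
  have h2 : ∀ᶠ d : ℕ in atTop, 5 * C ≤ (d : ℝ) ^ (1 / (q + 1)) := h1.eventually_ge_atTop _
  have h3 : ∀ᶠ x : ℝ in atTop, ‖Real.log x‖ ≤ C⁻¹ * ‖x ^ (1 / (q + 1))‖ :=
    (isLittleO_log_rpow_atTop ha).bound (inv_pos.2 hC0)
  have h4 : ∀ᶠ d : ℕ in atTop, ‖Real.log (d : ℝ)‖ ≤ C⁻¹ * ‖(d : ℝ) ^ (1 / (q + 1))‖ :=
    tendsto_natCast_atTop_atTop.eventually h3
  obtain ⟨d₀, hd₀⟩ := (h2.and h4).exists_forall_of_atTop
  refine ⟨d₀, fun d hd => ?_⟩
  obtain ⟨h5, h6⟩ := hd₀ d hd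
  refine ⟨by rw [le_div_iff₀ hC0]; exact h5, ?_⟩
  rw [Real.norm_of_nonneg (by positivity : (0 : ℝ) ≤ (d : ℝ) ^ (1 / (q + 1)))] at h6
  calc Real.log d ≤ ‖Real.log (d : ℝ)‖ := Real.le_norm_self _
    _ ≤ C⁻¹ * (d : ℝ) ^ (1 / (q + 1)) := h6
    _ = (d : ℝ) ^ (1 / (q + 1)) / C := by ring

/-- The criterion, for a general centrally symmetric convex body. -/
theorem crit_body {d : ℕ} (K : Set (EuclideanSpace ℝ (Fin d))) (hK : Convex ℝ K)
    (hKc : IsCompact K) (hKi : (interior K).Nonempty) (hKs : ∀ x ∈ K, -x ∈ K) (s η : ℝ)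
    (hs : 0 < s) (hη : (∫ z in K, ∫ v in K, (gauge K (z + s • v) - gauge K z))
      ≤ η * (volume K).toReal ^ 2) :
    flatness K ≤ (2 * η + 1 / (d + 1)) / s := by
  obtain ⟨z, hz⟩ := hKi
  have hnegK : -K = K := by
    ext x
    rw [Set.mem_neg]
    exact ⟨fun h => by simpa using hKs _ h, fun h => hKs x h⟩
  have hz' : -z ∈ interior K := by
    have h1 : -z ∈ -(interior K) := by simpa using hz
    have h2 : -(interior K) = interior (-K) := by
      rw [← Set.image_neg_eq_neg, ← Set.image_neg_eq_neg]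
      exact (Homeomorph.neg _).image_interior K
    rw [h2, hnegK] at h1
    exact h1
  have h0i : (0 : EuclideanSpace ℝ (Fin d)) ∈ interior K := by
    have h := hK.interior hz hz' (show (0 : ℝ) ≤ 1 / 2 by norm_num)
      (show (0 : ℝ) ≤ 1 / 2 by norm_num) (by norm_num)
    have e : (1 / 2 : ℝ) • z + (1 / 2 : ℝ) • (-z) = 0 := by
      rw [smul_neg, add_neg_cancel]
    rwa [e] at h
  have hnhds : K ∈ nhds (0 : EuclideanSpace ℝ (Fin d)) := mem_interior_iff_mem_nhds.mp h0i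
  have habs : Absorbent ℝ K := absorbent_nhds_zero hnhds
  let p : Seminorm ℝ (EuclideanSpace ℝ (Fin d)) :=
    gaugeSeminorm (balanced_of_symm hK hKs) hK habs
  have hp : ∀ x, p x = gauge K x := fun x => rfl
  have hball : UB p = K := by
    ext y
    show p y ≤ 1 ↔ y ∈ K
    rw [hp, gauge_le_one_iff_mem_closure hK hnhds, hKc.isClosed.closure_eq]
  obtain ⟨c, hc, hpc⟩ := bdd_const p (by rw [hball]; exact hKc.isBounded)
  have h := flat_crit p c hc hpc s hs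
  have := nu_prob p c hc hpc
  have hV : 0 < (volume (UB p)).toReal := ENNReal.toReal_pos (ub_ne0 p) (ub_fin p c hc hpc)
  have hcont := semi_cont p
  have hc1 : Continuous fun x : EuclideanSpace ℝ (Fin d) × EuclideanSpace ℝ (Fin d) =>
      p (x.2 + s • x.1) - p x.2 := by fun_prop
  have hc2 : Continuous fun x : EuclideanSpace ℝ (Fin d) × EuclideanSpace ℝ (Fin d) =>
      p (x.1 + s • x.2) - p x.1 := by fun_prop
  have e1 : ∫ x : EuclideanSpace ℝ (Fin d) × EuclideanSpace ℝ (Fin d),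
      (p (x.2 + s • x.1) - p x.2) ∂((nu p).prod (nu p))
      = ∫ z, ∫ v, (p (z + s • v) - p z) ∂(nu p) ∂(nu p) := by
    have h2 : ∫ x : EuclideanSpace ℝ (Fin d) × EuclideanSpace ℝ (Fin d),
        (p (x.2 + s • x.1) - p x.2) ∂((nu p).prod (nu p))
        = ∫ x : EuclideanSpace ℝ (Fin d) × EuclideanSpace ℝ (Fin d),
        (p (x.1 + s • x.2) - p x.1) ∂((nu p).prod (nu p)) :=
      integral_prod_swap (μ := nu p) (ν := nu p)
        (fun x : EuclideanSpace ℝ (Fin d) × EuclideanSpace ℝ (Fin d) => p (x.1 + s • x.2) - p x.1)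
    rw [h2, integral_prod _ (prod_int p c hc hpc hc2)]
  have e2 : ∫ z in K, ∫ v in K, (gauge K (z + s • v) - gauge K z)
      = (volume (UB p)).toReal ^ 2 * ∫ z, ∫ v, (p (z + s • v) - p z) ∂(nu p) ∂(nu p) := by
    have e3 : ∀ z, ∫ v in K, (gauge K (z + s • v) - gauge K z)
        = (volume (UB p)).toReal * ∫ v, (p (z + s • v) - p z) ∂(nu p) := by
      intro z
      rw [← hball, ← nu_real p c _ hc hpc, hball]
      rfl
    simp only [e3]
    have e4 : ∫ z in K, (volume (UB p)).toReal * ∫ v, (p (z + s • v) - p z) ∂(nu p)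
        = ∫ z in UB p, (volume (UB p)).toReal * ∫ v, (p (z + s • v) - p z) ∂(nu p) := by
      rw [hball]
    rw [e4, nu_real p c _ hc hpc, integral_const_mul]
    ring
  rw [e2, ← hball, mul_comm] at hη
  have hη' := le_of_mul_le_mul_right hη (by positivity)
  rw [e1, hball] at h
  refine h.trans ?_
  gcongr

end Pool.Agent.Run7.h924.Lat
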