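import Mathlib
import Pool.Agent.Run7.h924.LatG

set_option autoImplicit false
set_option linter.unusedSectionVars false

/-!
# Function norms on measurable spaces
-/

namespace Pool.Agent.Run7.h924.Lat

open MeasureTheory Set Filter
open scoped ENNReal

/-- `N` is a function norm (possibly infinite), defined on the measurable functions on `Ω`, which
is `q`-concave with constant one. -/
structure IsFunNorm {Ω : Type*} [MeasurableSpace Ω] (q : ℝ) (N : (Ω → ℝ) → ℝ≥0∞) : Prop where
  mono : ∀ f g : Ω → ℝ, Measurable f → Measurable g → (∀ ω, |f ω| ≤ |g ω|) → N f ≤ N g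
  add : ∀ f g : Ω → ℝ, Measurable f → Measurable g → N (fun ω => f ω + g ω) ≤ N f + N g
  smul : ∀ (a : ℝ) (f : Ω → ℝ), Measurable f → N (fun ω => a * f ω) = ENNReal.ofReal |a| * N f
  concave : ∀ f g h : Ω → ℝ, Measurable f → Measurable g → Measurable h →
    (∀ ω, |f ω| ^ q + |g ω| ^ q = |h ω| ^ q) → N f ^ q + N g ^ q ≤ N h ^ q

variable {Ω : Type*} [MeasurableSpace Ω] {q : ℝ} {N : (Ω → ℝ) → ℝ≥0∞} {d : ℕ}

theorem IsFunNorm.sum_le (H : IsFunNorm q N) (f : Fin d → Ω → ℝ) (hf : ∀ i, Measurable (f i))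
    (S : Finset (Fin d)) : N (fun ω => ∑ i ∈ S, |f i ω|) ≤ ∑ i ∈ S, N (f i) := by
  classical
  induction S using Finset.induction_on with
  | empty =>
    have h := H.smul 0 (fun _ => 0) measurable_const
    simp only [zero_mul, abs_zero, ENNReal.ofReal_zero] at h
    simp only [Finset.sum_empty]
    rw [h]
  | insert i S hi ih =>
    have h1 := H.add (fun ω => |f i ω|) (fun ω => ∑ j ∈ S, |f j ω|) (hf i).abs
      (Finset.measurable_sum _ fun j _ => (hf j).abs)
    have h2 : N (fun ω => |f i ω|) ≤ N (f i) :=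
      H.mono _ _ (hf i).abs (hf i) fun ω => by rw [abs_abs]
    simp only [Finset.sum_insert hi]
    exact h1.trans (add_le_add h2 ih)

/-- the vector of the values -/
noncomputable def vec (f : Fin d → Ω → ℝ) (ω : Ω) : EuclideanSpace ℝ (Fin d) :=
  WithLp.toLp 2 fun i => f i ω

theorem vec_apply (f : Fin d → Ω → ℝ) (ω : Ω) (i : Fin d) : vec f ω i = f i ω := rfl

theorem vec_meas (f : Fin d → Ω → ℝ) (hf : ∀ i, Measurable (f i)) : Measurable (vec f) := by
  unfold vec
  exact (WithLp.measurable_toLp 2 _).comp (measurable_pi_lambda _ hf)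

theorem vec_norm_le (f : Fin d → Ω → ℝ) (ω : Ω) : ‖vec f ω‖ ≤ ∑ i, |f i ω| := by
  rw [EuclideanSpace.norm_eq]
  apply Real.sqrt_le_iff.2
  refine ⟨Finset.sum_nonneg fun i _ => abs_nonneg _, ?_⟩
  have h : ∀ i, ‖vec f ω i‖ ^ 2 = |f i ω| * |f i ω| := by
    intro i
    rw [vec_apply, Real.norm_eq_abs]; ring
  simp only [h]
  rw [sq, Finset.sum_mul]
  refine Finset.sum_le_sum fun i hi => ?_
  exact mul_le_mul_of_nonneg_left
    (Finset.single_le_sum (f := fun j => |f j ω|) (fun j _ => abs_nonneg _) hi) (abs_nonneg _)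

/-- the closed unit ball of `ℝ^d`, a compact space -/
abbrev CB (d : ℕ) : Type := Metric.closedBall (0 : EuclideanSpace ℝ (Fin d)) 1

instance : CompactSpace (CB d) := isCompact_iff_compactSpace.1 (isCompact_closedBall _ _)

/-- the direction of the vector of the values -/
noncomputable def dir (f : Fin d → Ω → ℝ) (ω : Ω) : CB d :=
  ⟨‖vec f ω‖⁻¹ • vec f ω, by
    rw [mem_closedBall_zero_iff, norm_smul, norm_inv, norm_norm]
    exact inv_mul_le_one⟩

theorem dir_meas (f : Fin d → Ω → ℝ) (hf : ∀ i, Measurable (f i)) : Measurable (dir f) := by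
  unfold dir
  exact Measurable.subtype_mk (((vec_meas f hf).norm.inv).smul (vec_meas f hf))

/-- the function on `Ω` given by a continuous function on the unit ball -/
noncomputable def lift (f : Fin d → Ω → ℝ) (h : C(CB d, ℝ)) (ω : Ω) : ℝ := ‖vec f ω‖ * h (dir f ω)

theorem lift_meas (f : Fin d → Ω → ℝ) (hf : ∀ i, Measurable (f i)) (h : C(CB d, ℝ)) :
    Measurable (lift f h) :=
  (vec_meas f hf).norm.mul (h.continuous.measurable.comp (dir_meas f hf))

theorem lift_fin (H : IsFunNorm q N) (f : Fin d → Ω → ℝ) (hf : ∀ i, Measurable (f i))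
    (hN : ∀ i, N (f i) ≠ ⊤) (h : C(CB d, ℝ)) : N (lift f h) ≠ ⊤ := by
  have h1 : N (lift f h) ≤ N (fun ω => ‖h‖ * ∑ i, |f i ω|) := by
    refine H.mono _ _ (lift_meas f hf h)
      (measurable_const.mul (Finset.measurable_sum _ fun j _ => (hf j).abs)) fun ω => ?_
    unfold lift
    have h2 : |h (dir f ω)| ≤ ‖h‖ := by
      rw [← Real.norm_eq_abs]; exact h.norm_coe_le_norm _
    rw [abs_mul, abs_norm, abs_mul, abs_norm,
      abs_of_nonneg (Finset.sum_nonneg fun i _ => abs_nonneg (f i ω)), mul_comm]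
    exact mul_le_mul h2 (vec_norm_le f ω) (norm_nonneg _) (norm_nonneg _)
  rw [H.smul _ _ (Finset.measurable_sum _ fun j _ => (hf j).abs)] at h1
  refine ne_top_of_le_ne_top ?_ h1
  refine ENNReal.mul_ne_top ENNReal.ofReal_ne_top (ne_top_of_le_ne_top ?_ (H.sum_le f hf _))
  exact (ENNReal.sum_ne_top).2 fun i _ => hN i

/-- the lattice norm on `C(CB d)` -/
noncomputable def NC (N : (Ω → ℝ) → ℝ≥0∞) (f : Fin d → Ω → ℝ) (h : C(CB d, ℝ)) : ℝ :=
  (N (lift f h)).toReal

theorem IsFunNorm.isQLat (H : IsFunNorm q N) (hq : 0 ≤ q) (f : Fin d → Ω → ℝ)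
    (hf : ∀ i, Measurable (f i)) (hN : ∀ i, N (f i) ≠ ⊤) : IsQLat q (NC N f) where
  mono := by
    intro g h hgh
    refine ENNReal.toReal_mono (lift_fin H f hf hN h) ?_
    refine H.mono _ _ (lift_meas f hf g) (lift_meas f hf h) fun ω => ?_
    unfold lift
    rw [abs_mul, abs_mul]
    exact mul_le_mul_of_nonneg_left (hgh _) (abs_nonneg _)
  add := by
    intro g h
    unfold NC
    rw [← ENNReal.toReal_add (lift_fin H f hf hN g) (lift_fin H f hf hN h)]
    refine ENNReal.toReal_mono
      (ENNReal.add_ne_top.2 ⟨lift_fin H f hf hN g, lift_fin H f hf hN h⟩) ?_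
    have e : lift f (g + h) = fun ω => lift f g ω + lift f h ω := by
      funext ω
      unfold lift
      rw [ContinuousMap.add_apply, mul_add]
    rw [e]
    exact H.add _ _ (lift_meas f hf g) (lift_meas f hf h)
  smul := by
    intro a g
    unfold NC
    have e : lift f (a • g) = fun ω => a * lift f g ω := by
      funext ω
      unfold lift
      rw [ContinuousMap.smul_apply, smul_eq_mul]
      ring
    rw [e, H.smul _ _ (lift_meas f hf g), ENNReal.toReal_mul, ENNReal.toReal_ofReal (abs_nonneg _)]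
  concave := by
    intro g h k hk
    unfold NC
    have h1 := H.concave (lift f g) (lift f h) (lift f k) (lift_meas f hf g) (lift_meas f hf h)
      (lift_meas f hf k) (by
        intro ω
        unfold lift
        rw [abs_mul, abs_mul, abs_mul, abs_norm, Real.mul_rpow (norm_nonneg _) (abs_nonneg _),
          Real.mul_rpow (norm_nonneg _) (abs_nonneg _), Real.mul_rpow (norm_nonneg _) (abs_nonneg _),
          ← mul_add, hk])
    have h2 := ENNReal.toReal_mono
      (ENNReal.rpow_ne_top_of_nonneg hq (lift_fin H f hf hN k)) h1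
    rw [ENNReal.toReal_add (ENNReal.rpow_ne_top_of_nonneg hq (lift_fin H f hf hN g))
      (ENNReal.rpow_ne_top_of_nonneg hq (lift_fin H f hf hN h))] at h2
    rwa [← ENNReal.toReal_rpow, ← ENNReal.toReal_rpow, ← ENNReal.toReal_rpow] at h2

/-- the coordinate functions on the unit ball -/
noncomputable def crd (i : Fin d) : C(CB d, ℝ) :=
  ⟨fun y => (y : EuclideanSpace ℝ (Fin d)) i,
    (EuclideanSpace.proj i : EuclideanSpace ℝ (Fin d) →L[ℝ] ℝ).continuous.comp
      continuous_subtype_val⟩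

theorem lift_crd (f : Fin d → Ω → ℝ) (x : EuclideanSpace ℝ (Fin d)) :
    lift f (∑ i, x i • crd i) = fun ω => ∑ i, x i * f i ω := by
  funext ω
  unfold lift
  have e : (∑ i, x i • crd i : C(CB d, ℝ)) (dir f ω) = ∑ i, x i * (‖vec f ω‖⁻¹ * f i ω) := by
    rw [ContinuousMap.sum_apply]
    refine Finset.sum_congr rfl fun i _ => ?_
    rw [ContinuousMap.smul_apply, smul_eq_mul]
    rfl
  rw [e, Finset.mul_sum]
  refine Finset.sum_congr rfl fun i _ => ?_
  by_cases h0 : ‖vec f ω‖ = 0
  · have h1 : vec f ω = 0 := norm_eq_zero.1 h0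
    have h2 : f i ω = 0 := by
      rw [← vec_apply f ω i, h1]; rfl
    rw [h0, h2]; simp
  · field_simp

/-- the unit ball in terms of `C(CB d)` -/
theorem eq_ball (H : IsFunNorm q N) (f : Fin d → Ω → ℝ)
    (hf : ∀ i, Measurable (f i)) (hN : ∀ i, N (f i) ≠ ⊤) (K : Set (EuclideanSpace ℝ (Fin d)))
    (hKdef : K = {x | N (fun ω => ∑ i, x i * f i ω) ≤ 1}) :
    K = {x | NC N f (∑ i, x i • crd i) ≤ 1} := by
  rw [hKdef]
  ext x
  rw [mem_ofPred_eq, mem_ofPred_eq]
  have e : NC N f (∑ i, x i • crd i) = (N (fun ω => ∑ i, x i * f i ω)).toReal := by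
    unfold NC
    rw [lift_crd]
  rw [e]
  have hfin : N (fun ω => ∑ i, x i * f i ω) ≠ ⊤ := by
    rw [← lift_crd]
    exact lift_fin H f hf hN _
  constructor
  · intro h
    have := ENNReal.toReal_mono ENNReal.one_ne_top h
    simpa using this
  · intro h
    rw [← ENNReal.ofReal_toReal hfin]
    calc ENNReal.ofReal (N (fun ω => ∑ i, x i * f i ω)).toReal ≤ ENNReal.ofReal 1 :=
          ENNReal.ofReal_le_ofReal h
      _ = 1 := ENNReal.ofReal_one

end Pool.Agent.Run7.h924.Lat
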