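import Mathlib
import Pool.Agent.Run7.h924.LatH

set_option autoImplicit false
set_option linter.unusedSectionVars false

/-!
# Musielak-Orlicz spaces
-/

namespace Pool.Agent.Run7.h924.Lat

open MeasureTheory Set Filter
open scoped ENNReal

/-- A measurable family of Young functions (on `[0, ∞)`): `φ_ω` is convex and nonnegative,
`φ_ω(0) = 0`, and `t ↦ φ_ω(t^(1/q))` is concave. -/
structure IsYoung {Ω : Type*} [MeasurableSpace Ω] (q : ℝ) (φ : Ω → ℝ → ℝ) : Prop where
  meas : Measurable (fun z : Ω × ℝ => φ z.1 z.2)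
  zero : ∀ ω, φ ω 0 = 0
  nonneg : ∀ ω t, 0 ≤ t → 0 ≤ φ ω t
  convex : ∀ ω, ConvexOn ℝ (Ici 0) (φ ω)
  concave : ∀ ω, ConcaveOn ℝ (Ici 0) (fun t => φ ω (t ^ (1 / q)))

variable {Ω : Type*} [MeasurableSpace Ω] {q : ℝ} {φ : Ω → ℝ → ℝ}

theorem IsYoung.scale_le (Y : IsYoung q φ) (ω : Ω) (t a : ℝ) (ht : 0 ≤ t) (ha : 0 ≤ a)
    (ha1 : a ≤ 1) : φ ω (a * t) ≤ a * φ ω t := by
  have h := (Y.convex ω).2 (mem_Ici.2 ht) (mem_Ici.2 le_rfl) ha (by linarith : 0 ≤ 1 - a) (by ring)
  simp only [smul_eq_mul, mul_zero, add_zero, Y.zero ω] at h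
  exact h

theorem IsYoung.mono (Y : IsYoung q φ) (ω : Ω) (s t : ℝ) (hs : 0 ≤ s) (hst : s ≤ t) :
    φ ω s ≤ φ ω t := by
  rcases (hs.trans hst).eq_or_lt with h0 | h0
  · have : s = t := by linarith
    rw [this]
  · have h1 := Y.scale_le ω t (s / t) h0.le (by positivity) ((div_le_one h0).2 hst)
    rw [div_mul_cancel₀ _ h0.ne'] at h1
    have h2 := Y.nonneg ω t h0.le
    have h3 : s / t ≤ 1 := (div_le_one h0).2 hst
    nlinarith

theorem IsYoung.le_scale (Y : IsYoung q φ) (hq : 1 ≤ q) (ω : Ω) (t l : ℝ) (ht : 0 ≤ t)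
    (hl : 1 ≤ l) : φ ω t ≤ l ^ q * φ ω (t / l) := by
  have hl0 : 0 < l := by linarith
  have hlq : 1 ≤ l ^ q := Real.one_le_rpow hl (by linarith)
  have hlq0 : 0 < l ^ q := by linarith
  have hq0 : q ≠ 0 := by linarith
  have h := (Y.concave ω).2 (mem_Ici.2 (by positivity : 0 ≤ t ^ q)) (mem_Ici.2 le_rfl)
    (inv_pos.2 hlq0).le (by linarith [inv_le_one_of_one_le₀ hlq] : 0 ≤ 1 - (l ^ q)⁻¹) (by ring)
  simp only [smul_eq_mul, mul_zero, add_zero] at h
  rw [Real.zero_rpow (by positivity), Y.zero ω, mul_zero, add_zero, ← Real.rpow_mul ht,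
    mul_one_div_cancel hq0, Real.rpow_one] at h
  have e : ((l ^ q)⁻¹ * t ^ q) ^ (1 / q) = t / l := by
    rw [← Real.inv_rpow hl0.le, ← Real.mul_rpow (by positivity) ht, ← Real.rpow_mul (by positivity),
      mul_one_div_cancel hq0, Real.rpow_one]
    ring
  rw [e, inv_mul_le_iff₀ hlq0] at h
  exact h

/-- the modular -/
noncomputable def modu (φ : Ω → ℝ → ℝ) (μ : Measure Ω) (g : Ω → ℝ) : ℝ≥0∞ :=
  ∫⁻ ω, ENNReal.ofReal (φ ω |g ω|) ∂μ

/-- `l` is admissible for `g` -/
def Ad (φ : Ω → ℝ → ℝ) (μ : Measure Ω) (g : Ω → ℝ) (l : ℝ) : Prop :=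
  0 < l ∧ modu φ μ (fun ω => g ω / l) ≤ 1

/-- the Luxemburg norm -/
noncomputable def lux (φ : Ω → ℝ → ℝ) (μ : Measure Ω) (g : Ω → ℝ) : ℝ≥0∞ :=
  ⨅ (l : ℝ) (_ : Ad φ μ g l), ENNReal.ofReal l

variable {μ : Measure Ω}

theorem lux_le {g : Ω → ℝ} {l : ℝ} (h : Ad φ μ g l) : lux φ μ g ≤ ENNReal.ofReal l :=
  iInf₂_le l h

theorem le_lux {g : Ω → ℝ} {a : ℝ≥0∞} (h : ∀ l, Ad φ μ g l → a ≤ ENNReal.ofReal l) :
    a ≤ lux φ μ g := le_iInf₂ h

theorem comp_meas (Y : IsYoung q φ) {g : Ω → ℝ} (hg : Measurable g) :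
    Measurable fun ω => ENNReal.ofReal (φ ω |g ω|) :=
  (Y.meas.comp (measurable_id.prodMk hg.abs)).ennreal_ofReal

theorem modu_mono (Y : IsYoung q φ) {f g : Ω → ℝ} (h : ∀ ω, |f ω| ≤ |g ω|) :
    modu φ μ f ≤ modu φ μ g :=
  lintegral_mono fun ω => ENNReal.ofReal_le_ofReal (Y.mono ω _ _ (abs_nonneg _) (h ω))

theorem ad_mono (Y : IsYoung q φ) {f g : Ω → ℝ} (h : ∀ ω, |f ω| ≤ |g ω|) {l : ℝ}
    (hl : Ad φ μ g l) : Ad φ μ f l := by
  refine ⟨hl.1, (modu_mono Y fun ω => ?_).trans hl.2⟩
  rw [abs_div, abs_div]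
  exact div_le_div_of_nonneg_right (h ω) (abs_nonneg _)

theorem lux_mono (Y : IsYoung q φ) {f g : Ω → ℝ} (h : ∀ ω, |f ω| ≤ |g ω|) :
    lux φ μ f ≤ lux φ μ g := le_lux fun _ hl => lux_le (ad_mono Y h hl)

theorem ad_add (Y : IsYoung q φ) {f g : Ω → ℝ} (hf : Measurable f) {l m : ℝ} (hl : Ad φ μ f l)
    (hm : Ad φ μ g m) : Ad φ μ (fun ω => f ω + g ω) (l + m) := by
  have hl0 := hl.1
  have hm0 := hm.1
  refine ⟨by linarith, ?_⟩
  set a : ℝ := l / (l + m) with ha
  set b : ℝ := m / (l + m) with hb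
  have hab : a + b = 1 := by rw [ha, hb]; field_simp
  have ha0 : 0 ≤ a := by positivity
  have hb0 : 0 ≤ b := by positivity
  have hpt : ∀ ω, ENNReal.ofReal (φ ω |(f ω + g ω) / (l + m)|)
      ≤ ENNReal.ofReal a * ENNReal.ofReal (φ ω |f ω / l|)
        + ENNReal.ofReal b * ENNReal.ofReal (φ ω |g ω / m|) := by
    intro ω
    have h1 := Y.nonneg ω |f ω / l| (abs_nonneg _)
    have h2 := Y.nonneg ω |g ω / m| (abs_nonneg _)
    rw [← ENNReal.ofReal_mul ha0, ← ENNReal.ofReal_mul hb0,
      ← ENNReal.ofReal_add (by positivity) (by positivity)]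
    refine ENNReal.ofReal_le_ofReal ?_
    have h3 : |(f ω + g ω) / (l + m)| ≤ a * |f ω / l| + b * |g ω / m| := by
      have e : (f ω + g ω) / (l + m) = a * (f ω / l) + b * (g ω / m) := by
        rw [ha, hb]; field_simp
      rw [e]
      refine (abs_add_le _ _).trans ?_
      rw [abs_mul, abs_mul, abs_of_nonneg ha0, abs_of_nonneg hb0]
    refine (Y.mono ω _ _ (abs_nonneg _) h3).trans ?_
    have h4 := (Y.convex ω).2 (mem_Ici.2 (abs_nonneg (f ω / l))) (mem_Ici.2 (abs_nonneg (g ω / m)))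
      ha0 hb0 hab
    simpa only [smul_eq_mul] using h4
  have hfm : Measurable fun ω => ENNReal.ofReal (φ ω |f ω / l|) := comp_meas Y (hf.div_const l)
  calc modu φ μ (fun ω => (f ω + g ω) / (l + m))
      ≤ ∫⁻ ω, (ENNReal.ofReal a * ENNReal.ofReal (φ ω |f ω / l|)
        + ENNReal.ofReal b * ENNReal.ofReal (φ ω |g ω / m|)) ∂μ := lintegral_mono hpt
    _ = ENNReal.ofReal a * modu φ μ (fun ω => f ω / l)
        + ENNReal.ofReal b * modu φ μ (fun ω => g ω / m) := by
        rw [lintegral_add_left (hfm.const_mul _), lintegral_const_mul' _ _ ENNReal.ofReal_ne_top,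
          lintegral_const_mul' _ _ ENNReal.ofReal_ne_top]
        rfl
    _ ≤ ENNReal.ofReal a * 1 + ENNReal.ofReal b * 1 := by
        gcongr
        · exact hl.2
        · exact hm.2
    _ = 1 := by
        rw [mul_one, mul_one, ← ENNReal.ofReal_add ha0 hb0, hab, ENNReal.ofReal_one]

theorem lux_smul_le (g : Ω → ℝ) (a : ℝ) (ha : a ≠ 0) :
    ENNReal.ofReal |a| * lux φ μ g ≤ lux φ μ (fun ω => a * g ω) := by
  have ha0 : 0 < |a| := abs_pos.2 ha
  refine le_lux fun l hl => ?_
  have h1 : Ad φ μ g (l / |a|) := by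
    refine ⟨div_pos hl.1 ha0, le_trans (le_of_eq ?_) hl.2⟩
    unfold modu
    refine lintegral_congr fun ω => ?_
    congr 2
    show |g ω / (l / |a|)| = |a * g ω / l|
    rw [abs_div, abs_div, abs_abs, abs_div, abs_mul]
    field_simp
  calc ENNReal.ofReal |a| * lux φ μ g ≤ ENNReal.ofReal |a| * ENNReal.ofReal (l / |a|) := by
        gcongr
        exact lux_le h1
    _ = ENNReal.ofReal l := by
        rw [← ENNReal.ofReal_mul ha0.le]
        congr 1
        field_simp

theorem lux_isFunNorm (Y : IsYoung q φ) (hq : 1 ≤ q) : IsFunNorm q (lux φ μ) where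
  mono := fun f g _ _ h => lux_mono Y h
  add := by
    intro f g hf hg
    have h1 : ∀ l m, Ad φ μ f l → Ad φ μ g m →
        lux φ μ (fun ω => f ω + g ω) ≤ ENNReal.ofReal l + ENNReal.ofReal m := by
      intro l m hl hm
      rw [← ENNReal.ofReal_add hl.1.le hm.1.le]
      exact lux_le (ad_add Y hf hl hm)
    have h2 : ∀ l, Ad φ μ f l →
        lux φ μ (fun ω => f ω + g ω) - ENNReal.ofReal l ≤ lux φ μ g := by
      intro l hl
      refine le_lux fun m hm => ?_
      rw [tsub_le_iff_left]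
      exact h1 l m hl hm
    have h3 : lux φ μ (fun ω => f ω + g ω) - lux φ μ g ≤ lux φ μ f := by
      refine le_lux fun l hl => ?_
      rw [tsub_le_iff_left, add_comm, ← tsub_le_iff_left]
      exact h2 l hl
    exact tsub_le_iff_right.1 h3
  smul := by
    intro a f hf
    rcases eq_or_ne a 0 with rfl | ha
    · simp only [zero_mul, abs_zero, ENNReal.ofReal_zero]
      have h1 : ∀ l : ℝ, 0 < l → Ad φ μ (fun _ => (0 : ℝ)) l := by
        intro l hl
        refine ⟨hl, ?_⟩
        unfold modu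
        simp only [zero_div, abs_zero, Y.zero, ENNReal.ofReal_zero, lintegral_zero, zero_le]
      by_contra hne
      have hpos : 0 < lux φ μ (fun _ : Ω => (0 : ℝ)) := pos_iff_ne_zero.2 hne
      obtain ⟨r, -, hr1, hr2⟩ := ENNReal.lt_iff_exists_real_btwn.1 hpos
      have hr0 : 0 < r := ENNReal.ofReal_pos.1 hr1
      exact absurd (lux_le (h1 r hr0)) (not_le.2 hr2)
    · apply le_antisymm
      · have h := lux_smul_le (φ := φ) (μ := μ) (fun ω => a * f ω) a⁻¹ (inv_ne_zero ha)
        have e : (fun ω => a⁻¹ * (a * f ω)) = f := by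
          funext ω
          rw [← mul_assoc, inv_mul_cancel₀ ha, one_mul]
        rw [e] at h
        have ha0 : 0 < |a| := abs_pos.2 ha
        calc lux φ μ (fun ω => a * f ω)
            = ENNReal.ofReal |a| * (ENNReal.ofReal |a⁻¹| * lux φ μ (fun ω => a * f ω)) := by
              rw [← mul_assoc, ← ENNReal.ofReal_mul (abs_nonneg _), ← abs_mul, mul_inv_cancel₀ ha,
                abs_one, ENNReal.ofReal_one, one_mul]
          _ ≤ ENNReal.ofReal |a| * lux φ μ f := by gcongr
      · exact lux_smul_le f a ha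
  concave := by
    intro f g h hf hg hh hfg
    have hq0 : 0 < q := by linarith
    have hfh : ∀ ω, |f ω| ≤ |h ω| := by
      intro ω
      have h1 := hfg ω
      have h2 : 0 ≤ |g ω| ^ q := by positivity
      exact (Real.rpow_le_rpow_iff (abs_nonneg _) (abs_nonneg _) hq0).1 (by linarith)
    have hgh : ∀ ω, |g ω| ≤ |h ω| := by
      intro ω
      have h1 := hfg ω
      have h2 : 0 ≤ |f ω| ^ q := by positivity
      exact (Real.rpow_le_rpow_iff (abs_nonneg _) (abs_nonneg _) hq0).1 (by linarith)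
    have key : ∀ l, Ad φ μ h l → lux φ μ f ^ q + lux φ μ g ^ q ≤ ENNReal.ofReal l ^ q := by
      intro l hl
      have hl0 := hl.1
      have hfl := lux_le (ad_mono Y hfh hl)
      have hgl := lux_le (ad_mono Y hgh hl)
      have hft : lux φ μ f ≠ ⊤ := ne_top_of_le_ne_top ENNReal.ofReal_ne_top hfl
      have hgt : lux φ μ g ≠ ⊤ := ne_top_of_le_ne_top ENNReal.ofReal_ne_top hgl
      set a := (lux φ μ f).toReal with ha
      set b := (lux φ μ g).toReal with hb
      have hfa : lux φ μ f = ENNReal.ofReal a := (ENNReal.ofReal_toReal hft).symm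
      have hgb : lux φ μ g = ENNReal.ofReal b := (ENNReal.ofReal_toReal hgt).symm
      have ha0 : 0 ≤ a := ENNReal.toReal_nonneg
      have hb0 : 0 ≤ b := ENNReal.toReal_nonneg
      rw [hfa, ENNReal.ofReal_le_ofReal_iff hl0.le] at hfl
      rw [hgb, ENNReal.ofReal_le_ofReal_iff hl0.le] at hgl
      rw [hfa, hgb, ENNReal.ofReal_rpow_of_nonneg ha0 hq0.le,
        ENNReal.ofReal_rpow_of_nonneg hb0 hq0.le, ENNReal.ofReal_rpow_of_nonneg hl0.le hq0.le,
        ← ENNReal.ofReal_add (by positivity) (by positivity)]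
      refine ENNReal.ofReal_le_ofReal ?_
      by_contra hcon
      rw [not_le] at hcon
      have ha1 : 0 < a := by
        rcases ha0.eq_or_lt with h0 | h0
        · exfalso
          rw [← h0, Real.zero_rpow hq0.ne', zero_add] at hcon
          exact absurd (Real.rpow_le_rpow hb0 hgl hq0.le) (not_le.2 hcon)
        · exact h0
      have hb1 : 0 < b := by
        rcases hb0.eq_or_lt with h0 | h0
        · exfalso
          rw [← h0, Real.zero_rpow hq0.ne', add_zero] at hcon
          exact absurd (Real.rpow_le_rpow ha0 hfl hq0.le) (not_le.2 hcon)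
        · exact h0
      set R : ℝ := (a ^ q + b ^ q) ^ (1 / q) with hR
      have hsum : 0 < a ^ q + b ^ q := by positivity
      have hR0 : 0 < R := Real.rpow_pos_of_pos hsum _
      have hRq : R ^ q = a ^ q + b ^ q := by
        rw [hR, ← Real.rpow_mul hsum.le, one_div_mul_cancel hq0.ne', Real.rpow_one]
      have hlR : l < R := by
        rw [← hRq] at hcon
        exact (Real.rpow_lt_rpow_iff hl0.le hR0.le hq0).1 hcon
      have hlR1 : l / R < 1 := (div_lt_one hR0).2 hlR
      have hlR0 : 0 < l / R := by positivity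
      set a' : ℝ := l / R * a with ha'
      set b' : ℝ := l / R * b with hb'
      have ha'0 : 0 < a' := by positivity
      have hb'0 : 0 < b' := by positivity
      have haa : a' < a := by nlinarith
      have hbb : b' < b := by nlinarith
      have hρf : 1 < modu φ μ (fun ω => f ω / a') := by
        by_contra hle
        have h1 := lux_le (φ := φ) (μ := μ) (g := f) ⟨ha'0, not_lt.1 hle⟩
        rw [hfa, ENNReal.ofReal_le_ofReal_iff ha'0.le] at h1
        linarith
      have hρg : 1 < modu φ μ (fun ω => g ω / b') := by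
        by_contra hle
        have h1 := lux_le (φ := φ) (μ := μ) (g := g) ⟨hb'0, not_lt.1 hle⟩
        rw [hgb, ENNReal.ofReal_le_ofReal_iff hb'0.le] at h1
        linarith
      set α : ℝ := (a' / l) ^ q with hα
      set β : ℝ := (b' / l) ^ q with hβ
      have hα0 : 0 < α := by positivity
      have hβ0 : 0 < β := by positivity
      have e1 : a' / l = a / R := by rw [ha']; field_simp
      have e2 : b' / l = b / R := by rw [hb']; field_simp
      have hαβ : α + β = 1 := by
        rw [hα, hβ, e1, e2, Real.div_rpow ha0 hR0.le, Real.div_rpow hb0 hR0.le, hRq, ← add_div,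
          div_self hsum.ne']
      have hpt : ∀ ω, ENNReal.ofReal α * ENNReal.ofReal (φ ω |f ω / a'|)
          + ENNReal.ofReal β * ENNReal.ofReal (φ ω |g ω / b'|)
          ≤ ENNReal.ofReal (φ ω |h ω / l|) := by
        intro ω
        have h1 := Y.nonneg ω |f ω / a'| (abs_nonneg _)
        have h2 := Y.nonneg ω |g ω / b'| (abs_nonneg _)
        rw [← ENNReal.ofReal_mul hα0.le, ← ENNReal.ofReal_mul hβ0.le,
          ← ENNReal.ofReal_add (by positivity) (by positivity)]
        refine ENNReal.ofReal_le_ofReal ?_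
        have h3 := (Y.concave ω).2 (mem_Ici.2 (by positivity : 0 ≤ |f ω / a'| ^ q))
          (mem_Ici.2 (by positivity : 0 ≤ |g ω / b'| ^ q)) hα0.le hβ0.le hαβ
        simp only [smul_eq_mul] at h3
        have hp : ∀ t : ℝ, 0 ≤ t → (t ^ q) ^ (1 / q) = t := by
          intro t ht
          rw [← Real.rpow_mul ht, mul_one_div_cancel hq0.ne', Real.rpow_one]
        rw [hp _ (abs_nonneg _), hp _ (abs_nonneg _)] at h3
        have e3 : α * |f ω / a'| ^ q + β * |g ω / b'| ^ q = |h ω / l| ^ q := by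
          rw [abs_div, abs_div, abs_div, abs_of_pos ha'0, abs_of_pos hb'0, abs_of_pos hl0, hα, hβ,
            Real.div_rpow (abs_nonneg _) ha'0.le, Real.div_rpow (abs_nonneg _) hb'0.le,
            Real.div_rpow (abs_nonneg _) hl0.le, Real.div_rpow ha'0.le hl0.le,
            Real.div_rpow hb'0.le hl0.le, ← hfg ω]
          have h4 : 0 < a' ^ q := by positivity
          have h5 : 0 < b' ^ q := by positivity
          field_simp
        rw [e3, hp _ (abs_nonneg _)] at h3
        exact h3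
      have hfm : Measurable fun ω => ENNReal.ofReal (φ ω |f ω / a'|) :=
        comp_meas Y (hf.div_const a')
      have hbig : ENNReal.ofReal α * modu φ μ (fun ω => f ω / a')
          + ENNReal.ofReal β * modu φ μ (fun ω => g ω / b') ≤ 1 := by
        calc ENNReal.ofReal α * modu φ μ (fun ω => f ω / a')
              + ENNReal.ofReal β * modu φ μ (fun ω => g ω / b')
            = ∫⁻ ω, (ENNReal.ofReal α * ENNReal.ofReal (φ ω |f ω / a'|)
              + ENNReal.ofReal β * ENNReal.ofReal (φ ω |g ω / b'|)) ∂μ := by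
              rw [lintegral_add_left (hfm.const_mul _),
                lintegral_const_mul' _ _ ENNReal.ofReal_ne_top,
                lintegral_const_mul' _ _ ENNReal.ofReal_ne_top]
              rfl
          _ ≤ modu φ μ (fun ω => h ω / l) := lintegral_mono hpt
          _ ≤ 1 := hl.2
      have hsm : 1 < ENNReal.ofReal α * modu φ μ (fun ω => f ω / a')
          + ENNReal.ofReal β * modu φ μ (fun ω => g ω / b') := by
        calc (1 : ℝ≥0∞) = ENNReal.ofReal α * 1 + ENNReal.ofReal β * 1 := by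
              rw [mul_one, mul_one, ← ENNReal.ofReal_add hα0.le hβ0.le, hαβ, ENNReal.ofReal_one]
          _ < _ := by
              refine ENNReal.add_lt_add ?_ ?_
              · exact ENNReal.mul_lt_mul_right (ENNReal.ofReal_pos.2 hα0).ne'
                  ENNReal.ofReal_ne_top hρf
              · exact ENNReal.mul_lt_mul_right (ENNReal.ofReal_pos.2 hβ0).ne'
                  ENNReal.ofReal_ne_top hρg
      exact absurd hbig (not_le.2 hsm)
    have h1 : (lux φ μ f ^ q + lux φ μ g ^ q) ^ (1 / q) ≤ lux φ μ h := by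
      refine le_lux fun l hl => ?_
      rw [one_div, ENNReal.rpow_inv_le_iff hq0]
      exact key l hl
    rwa [one_div, ENNReal.rpow_inv_le_iff hq0] at h1

/-- the unit ball -/
theorem lux_le_one (Y : IsYoung q φ) (hq : 1 ≤ q) (g : Ω → ℝ) :
    lux φ μ g ≤ 1 ↔ modu φ μ g ≤ 1 := by
  constructor
  · intro h
    have h1 : ∀ l : ℝ, 1 < l → modu φ μ g ≤ ENNReal.ofReal (l ^ q) := by
      intro l hl
      have hl0 : 0 < l := by linarith
      have h2 : lux φ μ g < ENNReal.ofReal l := by
        refine lt_of_le_of_lt h ?_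
        rw [← ENNReal.ofReal_one]
        exact (ENNReal.ofReal_lt_ofReal_iff hl0).2 hl
      unfold lux at h2
      simp only [iInf_lt_iff] at h2
      obtain ⟨m, hm, hml⟩ := h2
      have hml' : m ≤ l := ((ENNReal.ofReal_lt_ofReal_iff hl0).1 hml).le
      have hm0 := hm.1
      calc modu φ μ g ≤ ∫⁻ ω, ENNReal.ofReal (l ^ q) * ENNReal.ofReal (φ ω |g ω / m|) ∂μ := by
            refine lintegral_mono fun ω => ?_
            rw [← ENNReal.ofReal_mul (by positivity)]
            refine ENNReal.ofReal_le_ofReal ?_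
            refine (Y.le_scale hq ω |g ω| l (abs_nonneg _) hl.le).trans ?_
            gcongr
            refine Y.mono ω _ _ (by positivity) ?_
            rw [abs_div, abs_of_pos hm0]
            gcongr
        _ = ENNReal.ofReal (l ^ q) * modu φ μ (fun ω => g ω / m) :=
            lintegral_const_mul' _ _ ENNReal.ofReal_ne_top
        _ ≤ ENNReal.ofReal (l ^ q) * 1 := by
            gcongr
            exact hm.2
        _ = ENNReal.ofReal (l ^ q) := mul_one _
    have hlim : Tendsto (fun l : ℝ => ENNReal.ofReal (l ^ q)) (nhdsWithin 1 (Ioi 1)) (nhds 1) := by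
      have h2 : Continuous fun l : ℝ => ENNReal.ofReal (l ^ q) :=
        ENNReal.continuous_ofReal.comp (continuous_id.rpow_const fun _ => Or.inr (by linarith))
      have h3 := (h2.tendsto 1).mono_left (nhdsWithin_le_nhds (s := Ioi 1))
      simpa using h3
    refine ge_of_tendsto hlim ?_
    filter_upwards [self_mem_nhdsWithin] with l hl
    exact h1 l hl
  · intro h
    have h1 : Ad φ μ g 1 := ⟨one_pos, by simpa using h⟩
    simpa using lux_le h1

theorem lux_ne_top (Y : IsYoung q φ) (g : Ω → ℝ)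
    (hg : Integrable (fun ω => φ ω |g ω|) μ) : lux φ μ g ≠ ⊤ := by
  set c : ℝ := ∫ ω, φ ω |g ω| ∂μ with hc
  have hc0 : 0 ≤ c := integral_nonneg fun ω => Y.nonneg ω _ (abs_nonneg _)
  have h1 : modu φ μ g = ENNReal.ofReal c :=
    (ofReal_integral_eq_lintegral_ofReal hg
      (Eventually.of_forall fun ω => Y.nonneg ω _ (abs_nonneg _))).symm
  have hl : 0 < c + 1 := by linarith
  have h2 : Ad φ μ g (c + 1) := by
    refine ⟨hl, ?_⟩
    calc modu φ μ (fun ω => g ω / (c + 1))
        ≤ ∫⁻ ω, ENNReal.ofReal (c + 1)⁻¹ * ENNReal.ofReal (φ ω |g ω|) ∂μ := by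
          refine lintegral_mono fun ω => ?_
          rw [← ENNReal.ofReal_mul (by positivity)]
          refine ENNReal.ofReal_le_ofReal ?_
          have h3 := Y.scale_le ω |g ω| (c + 1)⁻¹ (abs_nonneg _) (by positivity)
            (inv_le_one_of_one_le₀ (by linarith))
          refine le_trans (le_of_eq ?_) h3
          rw [abs_div, abs_of_pos hl, div_eq_inv_mul]
      _ = ENNReal.ofReal (c + 1)⁻¹ * ENNReal.ofReal c := by
          rw [lintegral_const_mul' _ _ ENNReal.ofReal_ne_top, ← h1]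
          rfl
      _ ≤ 1 := by
          rw [← ENNReal.ofReal_mul (by positivity), ← ENNReal.ofReal_one]
          refine ENNReal.ofReal_le_ofReal ?_
          rw [inv_mul_le_iff₀ hl]
          linarith
  exact ne_top_of_le_ne_top ENNReal.ofReal_ne_top (lux_le h2)

/-- modular bodies are unit balls -/
theorem eq_young (Y : IsYoung q φ) {d : ℕ} (hq : 1 ≤ q) (f : Fin d → Ω → ℝ)
    (hint : ∀ x : EuclideanSpace ℝ (Fin d), Integrable (fun ω => φ ω |∑ i, x i * f i ω|) μ)
    (K : Set (EuclideanSpace ℝ (Fin d)))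
    (hKdef : K = {x | ∫ ω, φ ω |∑ i, x i * f i ω| ∂μ ≤ 1}) :
    K = {x | lux φ μ (fun ω => ∑ i, x i * f i ω) ≤ 1} := by
  rw [hKdef]
  ext x
  rw [mem_ofPred_eq, mem_ofPred_eq, lux_le_one Y hq]
  have h1 : modu φ μ (fun ω => ∑ i, x i * f i ω)
      = ENNReal.ofReal (∫ ω, φ ω |∑ i, x i * f i ω| ∂μ) :=
    (ofReal_integral_eq_lintegral_ofReal (hint x)
      (Eventually.of_forall fun ω => Y.nonneg ω _ (abs_nonneg _))).symm
  rw [h1, ← ENNReal.ofReal_one, ENNReal.ofReal_le_ofReal_iff one_pos.le]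

end Pool.Agent.Run7.h924.Lat
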