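import Mathlib
import Pool.Agent.Run7.h924.LatI

set_option autoImplicit false
set_option linter.unusedSectionVars false

/-!
# `q`-concave lattices are `r`-concave for `r ≥ q`; the class of bodies
-/

namespace Pool.Agent.Run7.h924.Lat

open MeasureTheory Set Filter
open scoped ENNReal

/-- Hölder's inequality for two terms -/
theorem holder_two (q r A B u v : ℝ) (hq : 0 < q) (hqr : q < r) (hA : 0 ≤ A) (hB : 0 ≤ B)
    (hu : 0 ≤ u) (hv : 0 ≤ v) :
    A ^ (r - q) * u ^ q + B ^ (r - q) * v ^ q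
      ≤ (A ^ r + B ^ r) ^ ((r - q) / r) * (u ^ r + v ^ r) ^ (q / r) := by
  have hr : 0 < r := by linarith
  have hrq : 0 < r - q := by linarith
  have hconj : (r / (r - q)).HolderConjugate (r / q) := by
    rw [Real.holderConjugate_iff]
    constructor
    · rw [lt_div_iff₀ hrq]; linarith
    · field_simp
      ring
  have h := Real.inner_le_Lp_mul_Lq (Finset.univ : Finset (Fin 2)) ![A ^ (r - q), B ^ (r - q)]
    ![u ^ q, v ^ q] hconj
  simp only [Fin.sum_univ_two, Matrix.cons_val_zero, Matrix.cons_val_one] at h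
  have e1 : ∀ t : ℝ, 0 ≤ t → |t ^ (r - q)| ^ (r / (r - q)) = t ^ r := by
    intro t ht
    rw [abs_of_nonneg (by positivity), ← Real.rpow_mul ht]
    congr 1
    field_simp
  have e2 : ∀ t : ℝ, 0 ≤ t → |t ^ q| ^ (r / q) = t ^ r := by
    intro t ht
    rw [abs_of_nonneg (by positivity), ← Real.rpow_mul ht]
    congr 1
    field_simp
  rw [e1 A hA, e1 B hB, e2 u hu, e2 v hv] at h
  have e3 : 1 / (r / (r - q)) = (r - q) / r := by field_simp
  have e4 : 1 / (r / q) = q / r := by field_simp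
  rwa [e3, e4] at h

theorem IsQLat.up {Ω : Type*} [TopologicalSpace Ω] [CompactSpace Ω] {q r : ℝ} {N : C(Ω, ℝ) → ℝ}
    (H : IsQLat q N) (hq : 0 < q) (hqr : q ≤ r) : IsQLat r N := by
  rcases hqr.eq_or_lt with rfl | hlt
  · exact H
  have hr : 0 < r := by linarith
  have hrq : 0 < r - q := by linarith
  refine ⟨H.mono, H.add, H.smul, fun f g h hfg => ?_⟩
  set A := N f with hA
  set B := N g with hB
  have hA0 : 0 ≤ A := H.nonneg f
  have hB0 : 0 ≤ B := H.nonneg g
  set S : ℝ := A ^ r + B ^ r with hS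
  have hS0 : 0 ≤ S := by positivity
  rcases hS0.eq_or_lt with h0 | hSpos
  · rw [← h0]
    exact Real.rpow_nonneg (H.nonneg h) _
  -- the auxiliary function
  let k : C(Ω, ℝ) := ⟨fun ω => (A ^ (r - q) * |f ω| ^ q + B ^ (r - q) * |g ω| ^ q) ^ (1 / q), by
    refine Continuous.rpow_const ?_ fun _ => Or.inr (by positivity)
    exact (continuous_const.mul (f.continuous.abs.rpow_const fun _ => Or.inr hq.le)).add
      (continuous_const.mul (g.continuous.abs.rpow_const fun _ => Or.inr hq.le))⟩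
  have hk0 : ∀ ω, 0 ≤ A ^ (r - q) * |f ω| ^ q + B ^ (r - q) * |g ω| ^ q := fun ω => by positivity
  have hkω : ∀ ω, |k ω| ^ q = A ^ (r - q) * |f ω| ^ q + B ^ (r - q) * |g ω| ^ q := by
    intro ω
    show |(A ^ (r - q) * |f ω| ^ q + B ^ (r - q) * |g ω| ^ q) ^ (1 / q)| ^ q = _
    rw [abs_of_nonneg (Real.rpow_nonneg (hk0 ω) _), ← Real.rpow_mul (hk0 ω),
      one_div_mul_cancel hq.ne', Real.rpow_one]
  have hpq : ∀ t : ℝ, 0 ≤ t → (t ^ ((r - q) / q)) ^ q = t ^ (r - q) := by
    intro t ht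
    rw [← Real.rpow_mul ht]
    congr 1
    field_simp
  have h1 := H.concave (A ^ ((r - q) / q) • f) (B ^ ((r - q) / q) • g) k (by
    intro ω
    rw [hkω, ContinuousMap.smul_apply, ContinuousMap.smul_apply, smul_eq_mul, smul_eq_mul, abs_mul,
      abs_mul, abs_of_nonneg (Real.rpow_nonneg hA0 _), abs_of_nonneg (Real.rpow_nonneg hB0 _),
      Real.mul_rpow (Real.rpow_nonneg hA0 _) (abs_nonneg _),
      Real.mul_rpow (Real.rpow_nonneg hB0 _) (abs_nonneg _), hpq A hA0, hpq B hB0])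
  rw [H.smul, H.smul, abs_of_nonneg (Real.rpow_nonneg hA0 _),
    abs_of_nonneg (Real.rpow_nonneg hB0 _),
    Real.mul_rpow (Real.rpow_nonneg hA0 _) (H.nonneg _),
    Real.mul_rpow (Real.rpow_nonneg hB0 _) (H.nonneg _), hpq A hA0, hpq B hB0, ← hA, ← hB] at h1
  have hcomb : ∀ t : ℝ, 0 ≤ t → t ^ (r - q) * t ^ q = t ^ r := by
    intro t ht
    rcases ht.eq_or_lt with h0 | h0
    · rw [← h0, Real.zero_rpow hrq.ne', Real.zero_rpow hr.ne', zero_mul]
    · rw [← Real.rpow_add h0]
      congr 1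
      ring
  rw [hcomb A hA0, hcomb B hB0, ← hS] at h1
  -- `N k ≤ S^((r-q)/(rq)) N h`
  set κ : ℝ := S ^ ((r - q) / r / q) with hκ
  have hκ0 : 0 ≤ κ := by positivity
  have h2 : N k ≤ κ * N h := by
    have h3 : N k ≤ N (κ • h) := by
      refine H.mono _ _ fun ω => ?_
      rw [ContinuousMap.smul_apply, smul_eq_mul, abs_mul, abs_of_nonneg hκ0]
      have h4 := holder_two q r A B |f ω| |g ω| hq hlt hA0 hB0 (abs_nonneg _) (abs_nonneg _)
      rw [hfg ω, ← hS, ← hkω, ← Real.rpow_mul (abs_nonneg _)] at h4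
      have e5 : r * (q / r) = q := by field_simp
      have e6 : S ^ ((r - q) / r) = κ ^ q := by
        rw [hκ, ← Real.rpow_mul hS0]
        congr 1
        field_simp
      rw [e5, e6, ← Real.mul_rpow hκ0 (abs_nonneg _)] at h4
      exact (Real.rpow_le_rpow_iff (abs_nonneg _) (by positivity) hq).1 h4
    rwa [H.smul, abs_of_nonneg hκ0] at h3
  have h3 : S ≤ S ^ ((r - q) / r) * N h ^ q := by
    have h4 := Real.rpow_le_rpow (H.nonneg k) h2 hq.le
    rw [Real.mul_rpow hκ0 (H.nonneg _)] at h4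
    have e6 : κ ^ q = S ^ ((r - q) / r) := by
      rw [hκ, ← Real.rpow_mul hS0]
      congr 1
      field_simp
    rw [e6] at h4
    exact h1.trans h4
  have h4 : S ^ (q / r) ≤ N h ^ q := by
    have e7 : S = S ^ ((r - q) / r) * S ^ (q / r) := by
      rw [← Real.rpow_add hSpos]
      have : (r - q) / r + q / r = 1 := by field_simp; ring
      rw [this, Real.rpow_one]
    have h5 : S ^ ((r - q) / r) * S ^ (q / r) ≤ S ^ ((r - q) / r) * N h ^ q := by
      rw [← e7]; exact h3
    exact le_of_mul_le_mul_left h5 (Real.rpow_pos_of_pos hSpos _)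
  have h5 := Real.rpow_le_rpow (by positivity) h4 (by positivity : 0 ≤ r / q)
  rw [← Real.rpow_mul hS0, ← Real.rpow_mul (H.nonneg h)] at h5
  have e8 : q / r * (r / q) = 1 := by field_simp
  have e9 : q * (r / q) = r := by field_simp
  rwa [e8, e9, Real.rpow_one] at h5

end Pool.Agent.Run7.h924.Lat
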