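import Mathlib
import Pool.Agent.TH591.Ns.Flat

set_option autoImplicit false
set_option linter.unusedSectionVars false

/-!
# The flatness of a convex body and its average modulus of smoothness (no symmetry)
-/

namespace Pool.Agent.Run7.h924.As

open MeasureTheory Set Filter
open scoped ENNReal
open Pool.Agent.TH591.Ns

variable {d : ℕ}

/-- the unit ball of the gauge -/
def GB (g : EuclideanSpace ℝ (Fin d) → ℝ) : Set (EuclideanSpace ℝ (Fin d)) := {x | g x ≤ 1}

section
variable {g : EuclideanSpace ℝ (Fin d) → ℝ} {c : ℝ}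

theorem gb_meas (hg : IsG g) : MeasurableSet (GB g) := hg.ms 1

theorem gb_compact (hg : IsG g) (hc : 0 < c) (hp : ∀ x, c * ‖x‖ ≤ g x) : IsCompact (GB g) := by
  refine Metric.isCompact_of_isClosed_isBounded (isClosed_le hg.cont continuous_const) ?_
  refine (Metric.isBounded_closedBall (x := (0 : EuclideanSpace ℝ (Fin d))) (r := 1 / c)).subset
    fun x hx => ?_
  rw [mem_closedBall_zero_iff, le_div_iff₀ hc]
  have h1 : g x ≤ 1 := hx
  have h2 := hp x
  nlinarith

theorem gb_int (hg : IsG g) (hc : 0 < c) (hp : ∀ x, c * ‖x‖ ≤ g x)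
    {f : EuclideanSpace ℝ (Fin d) → ℝ} (hf : Continuous f) : IntegrableOn f (GB g) :=
  hf.continuousOn.integrableOn_compact (gb_compact hg hc hp)

theorem gb_nhds (hg : IsG g) : GB g ∈ nhds (0 : EuclideanSpace ℝ (Fin d)) := by
  have h : {x | g x < 1} ∈ nhds (0 : EuclideanSpace ℝ (Fin d)) :=
    (isOpen_lt hg.cont continuous_const).mem_nhds (by
      show g 0 < 1
      rw [hg.zero]; norm_num)
  exact Filter.mem_of_superset h fun x hx => le_of_lt (show g x < 1 from hx)

theorem gb_ne0 (hg : IsG g) : volume (GB g) ≠ 0 :=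
  (Measure.measure_pos_of_mem_nhds volume (gb_nhds hg)).ne'

theorem gb_fin (hg : IsG g) (hc : 0 < c) (hp : ∀ x, c * ‖x‖ ≤ g x) : volume (GB g) ≠ ⊤ :=
  (gb_compact hg hc hp).measure_lt_top.ne

theorem gb_pos (hg : IsG g) (hc : 0 < c) (hp : ∀ x, c * ‖x‖ ≤ g x) :
    0 < (volume (GB g)).toReal := ENNReal.toReal_pos (gb_ne0 hg) (gb_fin hg hc hp)

theorem lint_pow (n : ℕ) :
    ∫⁻ t in Ioo (0 : ℝ) 1, ENNReal.ofReal ((1 - t) ^ n) = ENNReal.ofReal (1 / (n + 1)) := by
  have h1 : IntegrableOn (fun t : ℝ => (1 - t) ^ n) (Ioc 0 1) := by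
    have : ContinuousOn (fun t : ℝ => (1 - t) ^ n) (Icc 0 1) := by fun_prop
    exact this.integrableOn_Icc.mono_set Ioc_subset_Icc_self
  have h2 : ∫⁻ t in Ioc (0 : ℝ) 1, ENNReal.ofReal ((1 - t) ^ n)
      = ENNReal.ofReal (∫ t in Ioc (0 : ℝ) 1, (1 - t) ^ n) := by
    refine (ofReal_integral_eq_lintegral_ofReal h1 ?_).symm
    filter_upwards [ae_restrict_mem measurableSet_Ioc] with t ht
    have : 0 ≤ 1 - t := by linarith [ht.2]
    positivity
  rw [restrict_Ioo_eq_restrict_Ioc, h2]
  congr 1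
  rw [← intervalIntegral.integral_of_le zero_le_one]
  have h3 := intervalIntegral.integral_comp_sub_left (fun t : ℝ => t ^ n) (1 : ℝ) (a := 0) (b := 1)
  rw [h3, integral_pow]
  simp

theorem gb_mean (hg : IsG g) (hc : 0 < c) (hp : ∀ x, c * ‖x‖ ≤ g x) :
    ∫ z in GB g, (1 - g z) ≤ (volume (GB g)).toReal / (d + 1) := by
  have hfin := gb_fin hg hc hp
  have hc1 : Continuous fun z => max (1 - g z) 0 := (continuous_const.sub hg.cont).max
    continuous_const
  have e0 : ∫ z in GB g, (1 - g z) = ∫ z in GB g, max (1 - g z) 0 := by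
    refine setIntegral_congr_fun (gb_meas hg) fun z hz => ?_
    have : g z ≤ 1 := hz
    exact (max_eq_left (by linarith)).symm
  have h1 : ∫⁻ z in GB g, ENNReal.ofReal (max (1 - g z) 0)
      ≤ ENNReal.ofReal (1 / (d + 1)) * volume (GB g) := by
    calc ∫⁻ z in GB g, ENNReal.ofReal (max (1 - g z) 0)
        ≤ ∫⁻ z, ENNReal.ofReal (max (1 - g z) 0) := setLIntegral_le_lintegral _ _
      _ = ∫⁻ t in Ioi (0 : ℝ), volume {z | t < max (1 - g z) 0} :=
          lintegral_eq_lintegral_meas_lt volume (Eventually.of_forall fun z => le_max_right _ _)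
            hc1.aemeasurable
      _ ≤ ∫⁻ t in Ioi (0 : ℝ), (Ioo (0 : ℝ) 1).indicator
            (fun t => ENNReal.ofReal ((1 - t) ^ d) * volume (GB g)) t := by
          refine setLIntegral_mono' measurableSet_Ioi fun t ht => ?_
          have ht0 : 0 < t := ht
          by_cases ht1 : t < 1
          · rw [indicator_of_mem (show t ∈ Ioo (0 : ℝ) 1 from ⟨ht0, ht1⟩)]
            have h2 := vol_ball hg (1 - t) (by linarith)
            have e : volume (GB g) = volume {y : EuclideanSpace ℝ (Fin d) | g y ≤ 1} := rfl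
            rw [e, ← h2]
            refine measure_mono fun z hz => ?_
            have h3 : t < max (1 - g z) 0 := hz
            rcases lt_max_iff.1 h3 with h4 | h4
            · show g z ≤ 1 - t
              linarith
            · linarith
          · rw [indicator_of_notMem (fun h => ht1 h.2)]
            have : {z | t < max (1 - g z) 0} = ∅ := by
              ext z
              simp only [mem_ofPred_eq, mem_empty_iff_false, iff_false, not_lt]
              have := hg.nonneg z
              exact max_le (by linarith) ht0.le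
            rw [this, measure_empty]
      _ = ∫⁻ t in Ioo (0 : ℝ) 1, ENNReal.ofReal ((1 - t) ^ d) * volume (GB g) := by
          rw [lintegral_indicator measurableSet_Ioo, Measure.restrict_restrict measurableSet_Ioo,
            inter_eq_left.2 (fun t ht => ht.1)]
      _ = ENNReal.ofReal (1 / (d + 1)) * volume (GB g) := by
          rw [lintegral_mul_const' _ _ hfin, lint_pow]
  have h2 : ∫⁻ z in GB g, ENNReal.ofReal (max (1 - g z) 0)
      = ENNReal.ofReal (∫ z in GB g, max (1 - g z) 0) :=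
    (ofReal_integral_eq_lintegral_ofReal (gb_int hg hc hp hc1)
      (Eventually.of_forall fun z => le_max_right _ _)).symm
  rw [h2] at h1
  have h3 := ENNReal.toReal_mono (ENNReal.mul_ne_top ENNReal.ofReal_ne_top hfin) h1
  have h4 : 0 ≤ ∫ z in GB g, max (1 - g z) 0 := integral_nonneg fun z => le_max_right _ _
  rw [ENNReal.toReal_ofReal h4, ENNReal.toReal_mul,
    ENNReal.toReal_ofReal (by positivity)] at h3
  rw [e0]
  refine h3.trans (le_of_eq ?_)
  ring

/-- mass which leaves the body -/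
theorem gb_leave (hg : IsG g) (hc : 0 < c) (hp : ∀ x, c * ‖x‖ ≤ g x)
    (v : EuclideanSpace ℝ (Fin d)) :
    ∫ z in GB g, max (g (z + v) - 1) 0 ≤ ∫ z in GB g, (g (z + v) - g z) := by
  have hgc := hg.cont
  have hg1 : Continuous fun z => max (1 - g (z + v)) 0 := by fun_prop
  have hg2 : Continuous fun z => max (1 - g z) 0 := by fun_prop
  have e1 : ∫ z in GB g, max (g (z + v) - 1) 0
      = (∫ z in GB g, (g (z + v) - 1)) + ∫ z in GB g, max (1 - g (z + v)) 0 := by
    rw [← integral_add (gb_int hg hc hp (by fun_prop)) (gb_int hg hc hp hg1)]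
    congr 1
    funext z
    rcases le_total (g (z + v)) 1 with h | h
    · rw [max_eq_right (by linarith), max_eq_left (by linarith)]; ring
    · rw [max_eq_left (by linarith), max_eq_right (by linarith)]; ring
  have hi : Integrable fun z => max (1 - g z) 0 := by
    apply hg2.integrable_of_hasCompactSupport
    refine HasCompactSupport.intro (gb_compact hg hc hp) fun x hx => ?_
    have : 1 < g x := not_le.1 hx
    exact max_eq_right (by linarith)
  have e2 : ∫ z in GB g, max (1 - g (z + v)) 0 ≤ ∫ z in GB g, (1 - g z) := by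
    calc ∫ z in GB g, max (1 - g (z + v)) 0
        ≤ ∫ z, max (1 - g (z + v)) 0 :=
          setIntegral_le_integral (hi.comp_add_right v)
            (Eventually.of_forall fun z => le_max_right _ _)
      _ = ∫ z, max (1 - g z) 0 := integral_add_right_eq_self (fun z => max (1 - g z) 0) v
      _ = ∫ z in GB g, max (1 - g z) 0 := by
          rw [setIntegral_eq_integral_of_forall_compl_eq_zero]
          intro x hx
          have : 1 < g x := not_le.1 hx
          exact max_eq_right (by linarith)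
      _ = ∫ z in GB g, (1 - g z) := by
          refine setIntegral_congr_fun (gb_meas hg) fun z hz => ?_
          have : g z ≤ 1 := hz
          exact max_eq_left (by linarith)
  rw [e1]
  have e3 : ∫ z in GB g, (g (z + v) - g z)
      = (∫ z in GB g, (g (z + v) - 1)) + ∫ z in GB g, (1 - g z) := by
    rw [← integral_add (gb_int hg hc hp (by fun_prop)) (gb_int hg hc hp (by fun_prop))]
    congr 1
    funext z
    ring
  rw [e3]
  linarith

theorem gb_pt (hg : IsG g) (s : ℝ) (z v : EuclideanSpace ℝ (Fin d)) (hz : g z ≤ 1) :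
    g z - 1 + s * |fderiv ℝ g z v| ≤ max (g (z + s • v) - 1) 0 + max (g (z + -(s • v)) - 1) 0 := by
  have h3 := le_max_left (g (z + s • v) - 1) 0
  have h4 := le_max_left (g (z + -(s • v)) - 1) 0
  have h5 := le_max_right (g (z + s • v) - 1) 0
  have h6 := le_max_right (g (z + -(s • v)) - 1) 0
  by_cases hd : DifferentiableAt ℝ g z
  · have h1 := fderiv_le hg z (s • v) hd
    have h2 := fderiv_le hg z (-(s • v)) hd
    rw [map_smul, smul_eq_mul] at h1
    rw [map_neg, map_smul, smul_eq_mul] at h2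
    rcases abs_cases (fderiv ℝ g z v) with ⟨h, _⟩ | ⟨h, _⟩ <;> rw [h] <;> nlinarith
  · rw [fderiv_zero_of_not_differentiableAt hd]
    simp only [zero_apply, abs_zero, mul_zero, add_zero]
    linarith

theorem g_lip (hg : IsG g) : ∃ C : ℝ, 0 < C ∧ (∀ x, g x ≤ C * ‖x‖) ∧
    LipschitzWith (Real.toNNReal C) g := by
  have hb : BddAbove (g '' Metric.sphere (0 : EuclideanSpace ℝ (Fin d)) 1) :=
    (isCompact_sphere _ _).bddAbove_image hg.cont.continuousOn
  obtain ⟨M, hM⟩ := hb
  have hMx : ∀ x, g x ≤ max M 1 * ‖x‖ := by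
    intro x
    rcases eq_or_ne x 0 with rfl | hx
    · rw [hg.zero]; simp
    · have hn : 0 < ‖x‖ := norm_pos_iff.2 hx
      have h1 : g (‖x‖⁻¹ • x) ≤ M := hM ⟨_, by
        rw [mem_sphere_zero_iff_norm, norm_smul, norm_inv, norm_norm, inv_mul_cancel₀ hn.ne'], rfl⟩
      rw [hg.smul _ (by positivity), inv_mul_le_iff₀ hn] at h1
      calc g x ≤ ‖x‖ * M := h1
        _ ≤ ‖x‖ * max M 1 := by gcongr; exact le_max_left _ _
        _ = _ := mul_comm _ _
  have hC : 0 < max M 1 := lt_of_lt_of_le one_pos (le_max_right _ _)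
  refine ⟨max M 1, hC, hMx, LipschitzWith.of_dist_le_mul fun x y => ?_⟩
  rw [Real.dist_eq, dist_eq_norm, Real.coe_toNNReal _ hC.le, abs_le]
  have h1 := hg.add (x - y) y
  have h2 := hg.add (y - x) x
  rw [sub_add_cancel] at h1 h2
  have h3 := hMx (x - y)
  have h4 := hMx (y - x)
  rw [norm_sub_rev y x] at h4
  constructor <;> linarith

theorem dfg_bound (hg : IsG g) : ∃ C : ℝ, 0 ≤ C ∧ ∀ x v, |fderiv ℝ g x v| ≤ C * ‖v‖ := by
  obtain ⟨C, hC0, -, hL⟩ := g_lip hg
  refine ⟨C, hC0.le, fun x v => ?_⟩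
  have h := norm_fderiv_le_of_lipschitz ℝ hL (x₀ := x)
  rw [Real.coe_toNNReal _ hC0.le] at h
  rw [← Real.norm_eq_abs]
  exact ((fderiv ℝ g x).le_opNorm v).trans (mul_le_mul_of_nonneg_right h (norm_nonneg _))

theorem dfg_int (hg : IsG g) (hc : 0 < c) (hp : ∀ x, c * ‖x‖ ≤ g x)
    (v : EuclideanSpace ℝ (Fin d)) : IntegrableOn (fun z => |fderiv ℝ g z v|) (GB g) := by
  obtain ⟨C, hC0, hC⟩ := dfg_bound hg
  refine Measure.integrableOn_of_bounded (M := C * ‖v‖) (gb_fin hg hc hp) ?_ ?_
  · exact (measurable_fderiv_apply_const ℝ g v).abs.aestronglyMeasurable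
  · refine Eventually.of_forall fun z => ?_
    rw [Real.norm_of_nonneg (abs_nonneg _)]
    exact hC z v

/-- the mean derivative in the direction `v` -/
theorem gb_one (hg : IsG g) (hc : 0 < c) (hp : ∀ x, c * ‖x‖ ≤ g x) (s : ℝ)
    (v : EuclideanSpace ℝ (Fin d)) :
    s * ∫ z in GB g, |fderiv ℝ g z v| ≤ (∫ z in GB g, (g (z + s • v) + g (z - s • v) - 2 * g z))
      + (volume (GB g)).toReal / (d + 1) := by
  have hgc := hg.cont
  have i1 : IntegrableOn (fun z => g z - 1) (GB g) := gb_int hg hc hp (by fun_prop)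
  have h1 : ∫ z in GB g, (g z - 1 + s * |fderiv ℝ g z v|)
      ≤ ∫ z in GB g, (max (g (z + s • v) - 1) 0 + max (g (z + -(s • v)) - 1) 0) := by
    refine setIntegral_mono_on ?_ ?_ (gb_meas hg) fun z hz => gb_pt hg s z v hz
    · exact i1.add ((dfg_int hg hc hp v).const_mul s)
    · exact gb_int hg hc hp (by fun_prop)
  have h2 : ∫ z in GB g, (g z - 1 + s * |fderiv ℝ g z v|)
      = (∫ z in GB g, (g z - 1)) + s * ∫ z in GB g, |fderiv ℝ g z v| := by
    rw [integral_add i1 ((dfg_int hg hc hp v).const_mul s), integral_const_mul]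
  have h3 : ∫ z in GB g, (max (g (z + s • v) - 1) 0 + max (g (z + -(s • v)) - 1) 0)
      = (∫ z in GB g, max (g (z + s • v) - 1) 0) + ∫ z in GB g, max (g (z + -(s • v)) - 1) 0 :=
    integral_add (gb_int hg hc hp (by fun_prop)) (gb_int hg hc hp (by fun_prop))
  have h4 := gb_leave hg hc hp (s • v)
  have h5 := gb_leave hg hc hp (-(s • v))
  have h6 : ∫ z in GB g, (g z - 1) = -∫ z in GB g, (1 - g z) := by
    rw [← integral_neg]
    congr 1
    funext z
    ring
  have h7 := gb_mean hg hc hp
  have h8 : ∫ z in GB g, (g (z + s • v) + g (z - s • v) - 2 * g z)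
      = (∫ z in GB g, (g (z + s • v) - g z)) + ∫ z in GB g, (g (z + -(s • v)) - g z) := by
    rw [← integral_add (gb_int hg hc hp (by fun_prop)) (gb_int hg hc hp (by fun_prop))]
    congr 1
    funext z
    rw [sub_eq_add_neg z]
    ring
  rw [h2, h3, h6] at h1
  rw [h8]
  linarith

end

end Pool.Agent.Run7.h924.As
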