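import Mathlib
import Pool.Agent.Results.MP_eba1ef_gt.AsymmetricThinSlabs
import Pool.Agent.Run7.h924.AsA

set_option autoImplicit false
set_option linter.unusedSectionVars false

/-!
# The criterion: the average modulus of smoothness bounds the flatness (no symmetry)
-/

namespace Pool.Agent.Run7.h924.As

open MeasureTheory Set Filter
open scoped ENNReal
open Pool.Agent.TH591.Ns
open Pool.Agent.Results.MP_eba1ef_gt.AsymmetricThinSlabs (flatness)

variable {d : ℕ} {g : EuclideanSpace ℝ (Fin d) → ℝ} {c : ℝ}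

/-- the uniform probability measure on the unit ball -/
noncomputable def mu (g : EuclideanSpace ℝ (Fin d) → ℝ) : Measure (EuclideanSpace ℝ (Fin d)) :=
  (volume (GB g))⁻¹ • volume.restrict (GB g)

theorem mu_prob (hg : IsG g) (hc : 0 < c) (hp : ∀ x, c * ‖x‖ ≤ g x) :
    IsProbabilityMeasure (mu g) := by
  constructor
  unfold mu
  rw [Measure.smul_apply, Measure.restrict_apply_univ, smul_eq_mul,
    ENNReal.inv_mul_cancel (gb_ne0 hg) (gb_fin hg hc hp)]

theorem mu_int (hg : IsG g) (hc : 0 < c) (hp : ∀ x, c * ‖x‖ ≤ g x) {F : Type*}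
    [NormedAddCommGroup F] {f : EuclideanSpace ℝ (Fin d) → F} (hf : Continuous f) :
    Integrable f (mu g) := by
  unfold mu
  refine Integrable.smul_measure ?_ (ENNReal.inv_ne_top.2 (gb_ne0 hg))
  exact hf.continuousOn.integrableOn_compact (gb_compact hg hc hp)

theorem mu_integral (f : EuclideanSpace ℝ (Fin d) → ℝ) :
    ∫ z, f z ∂(mu g) = (volume (GB g)).toReal⁻¹ * ∫ z in GB g, f z := by
  unfold mu
  rw [integral_smul_measure, ENNReal.toReal_inv, smul_eq_mul]

theorem mu_real (hg : IsG g) (hc : 0 < c) (hp : ∀ x, c * ‖x‖ ≤ g x)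
    (f : EuclideanSpace ℝ (Fin d) → ℝ) :
    ∫ z in GB g, f z = (volume (GB g)).toReal * ∫ z, f z ∂(mu g) := by
  rw [mu_integral, ← mul_assoc, mul_inv_cancel₀ (gb_pos hg hc hp).ne', one_mul]

theorem mu_restrict (hg : IsG g) : (mu g).restrict (GB g) = mu g := by
  unfold mu
  rw [Measure.restrict_smul, Measure.restrict_restrict (gb_meas hg), inter_self]

theorem mu_prod_int (hg : IsG g) (hc : 0 < c) (hp : ∀ x, c * ‖x‖ ≤ g x) {G : Type*}
    [NormedAddCommGroup G] {f : EuclideanSpace ℝ (Fin d) × EuclideanSpace ℝ (Fin d) → G}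
    (hf : Continuous f) : Integrable f ((mu g).prod (mu g)) := by
  have := mu_prob hg hc hp
  have h1 : (mu g).prod (mu g) = ((mu g).prod (mu g)).restrict (GB g ×ˢ GB g) := by
    rw [← Measure.prod_restrict, mu_restrict hg]
  rw [h1]
  exact hf.continuousOn.integrableOn_compact ((gb_compact hg hc hp).prod (gb_compact hg hc hp))

theorem mu_mean_le (hg : IsG g) (hc : 0 < c) (hp : ∀ x, c * ‖x‖ ≤ g x) :
    ∫ z, g z ∂(mu g) ≤ 1 := by
  have := mu_prob hg hc hp
  have h1 : ∫ z in GB g, g z ≤ ∫ z in GB g, (1 : ℝ) := by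
    refine setIntegral_mono_on (gb_int hg hc hp hg.cont) (gb_int hg hc hp continuous_const)
      (gb_meas hg) fun z hz => hz
  rw [mu_real hg hc hp, mu_real hg hc hp] at h1
  have h2 := le_of_mul_le_mul_left h1 (gb_pos hg hc hp)
  simpa using h2

theorem mu_one (hg : IsG g) (hc : 0 < c) (hp : ∀ x, c * ‖x‖ ≤ g x) (s : ℝ)
    (v : EuclideanSpace ℝ (Fin d)) :
    s * ∫ z, |fderiv ℝ g z v| ∂(mu g)
      ≤ (∫ z, (g (z + s • v) + g (z - s • v) - 2 * g z) ∂(mu g)) + 1 / (d + 1) := by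
  have hV := gb_pos hg hc hp
  have h := gb_one hg hc hp s v
  rw [mu_real hg hc hp, mu_real hg hc hp] at h
  have e1 : s * ((volume (GB g)).toReal * ∫ z, |fderiv ℝ g z v| ∂(mu g))
      = (volume (GB g)).toReal * (s * ∫ z, |fderiv ℝ g z v| ∂(mu g)) := by ring
  have e2 : (volume (GB g)).toReal * (∫ z, (g (z + s • v) + g (z - s • v) - 2 * g z) ∂(mu g))
      + (volume (GB g)).toReal / (d + 1) = (volume (GB g)).toReal
      * ((∫ z, (g (z + s • v) + g (z - s • v) - 2 * g z) ∂(mu g)) + 1 / (d + 1)) := by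
    ring
  rw [e1, e2] at h
  exact le_of_mul_le_mul_left h hV

theorem dfg_prod_int (hg : IsG g) (hc : 0 < c) (hp : ∀ x, c * ‖x‖ ≤ g x) :
    Integrable (fun x : EuclideanSpace ℝ (Fin d) × EuclideanSpace ℝ (Fin d) =>
      |fderiv ℝ g x.1 x.2|) ((mu g).prod (mu g)) := by
  obtain ⟨C, hC0, hC⟩ := dfg_bound hg
  have h1 : Integrable (fun x : EuclideanSpace ℝ (Fin d) × EuclideanSpace ℝ (Fin d) =>
      C * ‖x.2‖) ((mu g).prod (mu g)) :=
    mu_prod_int hg hc hp (continuous_const.mul continuous_snd.norm)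
  refine h1.mono (measurable_joint g).abs.aestronglyMeasurable
    (Eventually.of_forall fun x => ?_)
  rw [Real.norm_of_nonneg (abs_nonneg _), Real.norm_of_nonneg (by positivity)]
  exact hC _ _

/-- the double mean of the derivative -/
theorem mu_two (hg : IsG g) (hc : 0 < c) (hp : ∀ x, c * ‖x‖ ≤ g x) (s : ℝ) :
    s * ∫ x, |fderiv ℝ g x.1 x.2| ∂((mu g).prod (mu g))
      ≤ (∫ x, (g (x.2 + s • x.1) + g (x.2 - s • x.1) - 2 * g x.2) ∂((mu g).prod (mu g)))
        + 1 / (d + 1) := by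
  have := mu_prob hg hc hp
  have hgc := hg.cont
  have hi := dfg_prod_int hg hc hp
  have hc2 : Continuous fun x : EuclideanSpace ℝ (Fin d) × EuclideanSpace ℝ (Fin d) =>
      g (x.2 + s • x.1) + g (x.2 - s • x.1) - 2 * g x.2 := by fun_prop
  have h0 : Integrable (fun x : EuclideanSpace ℝ (Fin d) × EuclideanSpace ℝ (Fin d) =>
    |fderiv ℝ g x.2 x.1|) ((mu g).prod (mu g)) := hi.swap
  have e1 : ∫ x, |fderiv ℝ g x.1 x.2| ∂((mu g).prod (mu g))
      = ∫ v, ∫ z, |fderiv ℝ g z v| ∂(mu g) ∂(mu g) := by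
    have h2 : ∫ x : EuclideanSpace ℝ (Fin d) × EuclideanSpace ℝ (Fin d),
        |fderiv ℝ g x.2 x.1| ∂((mu g).prod (mu g))
        = ∫ x : EuclideanSpace ℝ (Fin d) × EuclideanSpace ℝ (Fin d),
        |fderiv ℝ g x.1 x.2| ∂((mu g).prod (mu g)) :=
      integral_prod_swap (μ := mu g) (ν := mu g)
        (fun x : EuclideanSpace ℝ (Fin d) × EuclideanSpace ℝ (Fin d) => |fderiv ℝ g x.1 x.2|)
    rw [← h2, integral_prod _ h0]
  have e2 : ∫ x, (g (x.2 + s • x.1) + g (x.2 - s • x.1) - 2 * g x.2) ∂((mu g).prod (mu g))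
      = ∫ v, ∫ z, (g (z + s • v) + g (z - s • v) - 2 * g z) ∂(mu g) ∂(mu g) := by
    rw [integral_prod _ (mu_prod_int hg hc hp hc2)]
  rw [e1, e2, ← integral_const_mul]
  have h1 : Integrable (fun v => ∫ z, |fderiv ℝ g z v| ∂(mu g)) (mu g) := h0.integral_prod_left
  have h2 : Integrable (fun v => ∫ z, (g (z + s • v) + g (z - s • v) - 2 * g z) ∂(mu g)) (mu g) :=
    (mu_prod_int hg hc hp hc2).integral_prod_left
  have h3 : ∫ v, s * ∫ z, |fderiv ℝ g z v| ∂(mu g) ∂(mu g)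
      ≤ ∫ v, ((∫ z, (g (z + s • v) + g (z - s • v) - 2 * g z) ∂(mu g)) + 1 / (d + 1)) ∂(mu g) := by
    refine integral_mono (h1.const_mul s) (h2.add (integrable_const _)) fun v => ?_
    exact mu_one hg hc hp s v
  refine h3.trans (le_of_eq ?_)
  rw [integral_add h2 (integrable_const _)]
  simp

theorem gauge_gb (hg : IsG g) (x : EuclideanSpace ℝ (Fin d)) : gauge (GB g) x = g x := by
  have habs : Absorbent ℝ (GB g) := absorbent_nhds_zero (gb_nhds hg)
  apply le_antisymm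
  · refine le_of_forall_pos_le_add fun ε hε => ?_
    have hr : 0 < g x + ε := by have := hg.nonneg x; linarith
    refine gauge_le_of_mem hr.le ?_
    refine ⟨(g x + ε)⁻¹ • x, ?_, ?_⟩
    · show g ((g x + ε)⁻¹ • x) ≤ 1
      rw [hg.smul _ (inv_pos.2 hr).le, inv_mul_le_iff₀ hr]
      linarith
    · show (g x + ε) • ((g x + ε)⁻¹ • x) = x
      rw [smul_smul, mul_inv_cancel₀ hr.ne', one_smul]
  · refine le_of_forall_gt_imp_ge_of_dense fun r hr => ?_
    obtain ⟨b, hb0, hb1, y, hy, hxy⟩ := exists_lt_of_gauge_lt habs hr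
    have h1 : g y ≤ 1 := hy
    rw [← hxy]
    show g (b • y) ≤ r
    rw [hg.smul _ hb0.le]
    nlinarith

theorem flat_mu (hg : IsG g) (hc : 0 < c) (hp : ∀ x, c * ‖x‖ ≤ g x) :
    flatness (GB g) = ∫ x, |fderiv ℝ g x.1 x.2| ∂((mu g).prod (mu g)) := by
  have := mu_prob hg hc hp
  have hV := gb_pos hg hc hp
  have hgg : gauge (GB g) = g := funext (gauge_gb hg)
  unfold flatness
  rw [hgg, integral_prod _ (dfg_prod_int hg hc hp)]
  have e1 : ∀ z, ∫ z' in GB g, |fderiv ℝ g z z'|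
      = (volume (GB g)).toReal * ∫ z', |fderiv ℝ g z z'| ∂(mu g) := fun z =>
    mu_real hg hc hp _
  simp only [e1]
  rw [mu_real hg hc hp, integral_const_mul]
  field_simp

/-- **The criterion** -/
theorem flat_crit (hg : IsG g) (hc : 0 < c) (hp : ∀ x, c * ‖x‖ ≤ g x) (s : ℝ) (hs : 0 < s) :
    flatness (GB g) ≤
      ((∫ x, (g (x.2 + s • x.1) + g (x.2 - s • x.1) - 2 * g x.2) ∂((mu g).prod (mu g)))
        + 1 / (d + 1)) / s := by
  rw [flat_mu hg hc hp, le_div_iff₀ hs, mul_comm]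
  exact mu_two hg hc hp s

theorem bdd_const (hg : IsG g) (hb : Bornology.IsBounded (GB g)) :
    ∃ c : ℝ, 0 < c ∧ ∀ x, c * ‖x‖ ≤ g x := by
  obtain ⟨R, hR⟩ := hb.subset_closedBall (0 : EuclideanSpace ℝ (Fin d))
  set R' : ℝ := max R 1 with hR'
  have hR1 : 0 < R' := lt_of_lt_of_le one_pos (le_max_right _ _)
  have hRR : ∀ x, g x ≤ 1 → ‖x‖ ≤ R' := by
    intro x hx
    have := hR (show x ∈ GB g from hx)
    rw [mem_closedBall_zero_iff] at this
    exact this.trans (le_max_left _ _)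
  refine ⟨1 / R', by positivity, fun x => ?_⟩
  rcases (hg.nonneg x).eq_or_lt with h0 | h0
  · have hx : x = 0 := by
      by_contra hne
      have hn : 0 < ‖x‖ := norm_pos_iff.2 hne
      have h1 := hRR (((R' + 1) / ‖x‖) • x) (by
        rw [hg.smul _ (by positivity), ← h0, mul_zero]; norm_num)
      rw [norm_smul, Real.norm_of_nonneg (by positivity), div_mul_cancel₀ _ hn.ne'] at h1
      linarith
    rw [hx, hg.zero]; simp
  · have h1 := hRR ((g x)⁻¹ • x) (by
      rw [hg.smul _ (inv_pos.2 h0).le, inv_mul_cancel₀ h0.ne'])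
    rw [norm_smul, Real.norm_of_nonneg (inv_pos.2 h0).le, inv_mul_le_iff₀ h0] at h1
    rw [one_div, inv_mul_le_iff₀ hR1, mul_comm]
    exact h1

theorem gb_convex (hg : IsG g) : Convex ℝ (GB g) := by
  intro x hx y hy a b ha hb hab
  have hx' : g x ≤ 1 := hx
  have hy' : g y ≤ 1 := hy
  show g (a • x + b • y) ≤ 1
  refine (hg.add _ _).trans ?_
  rw [hg.smul _ ha, hg.smul _ hb]
  nlinarith

theorem cover_gb (hd : 2 ≤ d) (hg : IsG g) (hc : 0 < c) (hp : ∀ x, c * ‖x‖ ≤ g x) (ρ : ℝ)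
    (hρ : 0 < ρ) (hfl : flatness (GB g) ≤ ρ) :
    ∃ T : Finset (EuclideanSpace ℝ (Fin d)),
      GB g ⊆ ⋃ t ∈ T, (fun x => t + x) '' interior (GB g) ∧
      (T.card : ℝ) ≤ 1 + 13 * d * Real.log (2 * d ^ 2 + 2 * d + 1) * 2 ^ d
        * Real.exp (-(1 / (7680 * ρ))) ∧
      (19 * d * Real.log (2 * d ^ 2 + 2 * d + 1) * Real.exp (-(1 / (7680 * ρ))) ≤ 1 →
        T.card < 2 ^ d) :=
  (Pool.Agent.Results.MP_eba1ef_gt.AsymmetricThinSlabs.result d hd (GB g) (gb_convex hg)
    (gb_compact hg hc hp) (mem_interior_iff_mem_nhds.2 (gb_nhds hg))).2.1 ρ hρ hfl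

/-- The criterion, for a general convex body with the origin in its interior. -/
theorem crit_body {d : ℕ} (K : Set (EuclideanSpace ℝ (Fin d))) (hK : Convex ℝ K)
    (hKc : IsCompact K) (hKi : 0 ∈ interior K) (s η : ℝ) (hs : 0 < s)
    (hη : (∫ z in K, ∫ v in K, (gauge K (z + s • v) + gauge K (z - s • v) - 2 * gauge K z))
      ≤ η * (volume K).toReal ^ 2) :
    flatness K ≤ (η + 1 / (d + 1)) / s := by
  have hnhds : K ∈ nhds (0 : EuclideanSpace ℝ (Fin d)) := mem_interior_iff_mem_nhds.mp hKi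
  have hg := isG_gauge hK hnhds
  set p : EuclideanSpace ℝ (Fin d) → ℝ := gauge K with hpdef
  have hball : GB p = K := by
    ext y
    show gauge K y ≤ 1 ↔ y ∈ K
    rw [gauge_le_one_iff_mem_closure hK hnhds, hKc.isClosed.closure_eq]
  obtain ⟨c, hc, hpc⟩ := bdd_const hg (by rw [hball]; exact hKc.isBounded)
  have h := flat_crit hg hc hpc s hs
  have := mu_prob hg hc hpc
  have hV := gb_pos hg hc hpc
  have hcont := hg.cont
  have hc2 : Continuous fun x : EuclideanSpace ℝ (Fin d) × EuclideanSpace ℝ (Fin d) =>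
      p (x.1 + s • x.2) + p (x.1 - s • x.2) - 2 * p x.1 := by fun_prop
  have e1 : ∫ x : EuclideanSpace ℝ (Fin d) × EuclideanSpace ℝ (Fin d),
      (p (x.2 + s • x.1) + p (x.2 - s • x.1) - 2 * p x.2) ∂((mu p).prod (mu p))
      = ∫ z, ∫ v, (p (z + s • v) + p (z - s • v) - 2 * p z) ∂(mu p) ∂(mu p) := by
    have h2 : ∫ x : EuclideanSpace ℝ (Fin d) × EuclideanSpace ℝ (Fin d),
        (p (x.2 + s • x.1) + p (x.2 - s • x.1) - 2 * p x.2) ∂((mu p).prod (mu p))
        = ∫ x : EuclideanSpace ℝ (Fin d) × EuclideanSpace ℝ (Fin d),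
        (p (x.1 + s • x.2) + p (x.1 - s • x.2) - 2 * p x.1) ∂((mu p).prod (mu p)) :=
      integral_prod_swap (μ := mu p) (ν := mu p)
        (fun x : EuclideanSpace ℝ (Fin d) × EuclideanSpace ℝ (Fin d) =>
          p (x.1 + s • x.2) + p (x.1 - s • x.2) - 2 * p x.1)
    rw [h2, integral_prod _ (mu_prod_int hg hc hpc hc2)]
  have e2 : ∫ z in K, ∫ v in K, (p (z + s • v) + p (z - s • v) - 2 * p z)
      = (volume K).toReal ^ 2
        * ∫ z, ∫ v, (p (z + s • v) + p (z - s • v) - 2 * p z) ∂(mu p) ∂(mu p) := by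
    have e3 : ∀ z, ∫ v in K, (p (z + s • v) + p (z - s • v) - 2 * p z)
        = (volume K).toReal * ∫ v, (p (z + s • v) + p (z - s • v) - 2 * p z) ∂(mu p) := by
      intro z
      have := mu_real hg hc hpc (fun v => p (z + s • v) + p (z - s • v) - 2 * p z)
      rwa [hball] at this
    simp only [e3]
    have e4 := mu_real hg hc hpc (fun z => (volume K).toReal *
      ∫ v, (p (z + s • v) + p (z - s • v) - 2 * p z) ∂(mu p))
    rw [hball] at e4
    rw [e4, integral_const_mul]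
    ring
  rw [e2, mul_comm] at hη
  rw [hball] at hV h
  have hη' := le_of_mul_le_mul_right hη (by positivity)
  rw [e1] at h
  refine h.trans ?_
  gcongr

end Pool.Agent.Run7.h924.As
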