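import Mathlib
import Pool.Agent.TH591.Sq.Marg

set_option autoImplicit false
set_option linter.unusedSectionVars false

/-!
# Marginals of convex bodies: the shift inequality
-/

namespace Pool.Agent.Run7.h924.Sm

open MeasureTheory Set Filter
open scoped ENNReal
open Pool.Agent.TH591.Sq (exists_kappa)

theorem lint_aff {F : Type*} [NormedAddCommGroup F] [NormedSpace ℝ F] [FiniteDimensional ℝ F]
    [MeasurableSpace F] [BorelSpace F] (μ : Measure F) [μ.IsAddHaarMeasure] (f : F → ℝ≥0∞)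
    (hf : Measurable f) (c : ℝ) (hc : 0 < c) (b : F) :
    ∫⁻ x, f (c • x + b) ∂μ = ENNReal.ofReal ((c ^ Module.finrank ℝ F)⁻¹) * ∫⁻ x, f x ∂μ := by
  have h1 : ∫⁻ x, f (c • x + b) ∂μ = ∫⁻ y, f (y + b) ∂(Measure.map (fun x => c • x) μ) := by
    exact (lintegral_map (hf.comp (measurable_add_const b)) (measurable_const_smul c)).symm
  rw [h1, Measure.map_addHaar_smul μ hc.ne', lintegral_smul_measure, lintegral_add_right_eq_self,
    abs_of_pos (by positivity), smul_eq_mul]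

section
variable {E : Type*} [NormedAddCommGroup E] [InnerProductSpace ℝ E] [FiniteDimensional ℝ E]
  [MeasurableSpace E] [BorelSpace E] {a b : ℕ} (K : Set E)
  (L : ((Fin a → ℝ) × (Fin b → ℝ)) ≃ₗ[ℝ] E)

/-- the volume of the fibre -/
noncomputable def fib (y : Fin a → ℝ) : ℝ≥0∞ := ∫⁻ k : Fin b → ℝ, K.indicator 1 (L (y, k))

theorem Lcont : Continuous L := L.toLinearMap.continuous_of_finiteDimensional

theorem fib_meas (hK : MeasurableSet K) : Measurable (fib K L) := by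
  have h : Measurable fun z : (Fin a → ℝ) × (Fin b → ℝ) => K.indicator (1 : E → ℝ≥0∞) (L z) :=
    (measurable_one.indicator hK).comp (Lcont L).measurable
  exact h.lintegral_prod_right'

theorem fib_logc (hK : Convex ℝ K) (hKm : MeasurableSet K) (u v : Fin a → ℝ) (s : ℝ) (hs : 0 < s)
    (hs1 : s < 1) : fib K L u ^ s * fib K L v ^ (1 - s) ≤ fib K L (s • u + (1 - s) • v) := by
  unfold fib
  have hm : ∀ y : Fin a → ℝ, Measurable fun k : Fin b → ℝ => K.indicator (1 : E → ℝ≥0∞) (L (y, k)) :=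
    fun y => ((measurable_one.indicator hKm).comp (Lcont L).measurable).comp measurable_prodMk_left
  refine Pool.Agent.TH264.MP.pl b s hs hs1 _ _ _ (hm u) (hm v) (hm _) fun k l => ?_
  by_cases h1 : L (u, k) ∈ K
  · by_cases h2 : L (v, l) ∈ K
    · have h3 : L (s • u + (1 - s) • v, s • k + (1 - s) • l) ∈ K := by
        have h4 := hK h1 h2 hs.le (by linarith : 0 ≤ 1 - s) (by ring)
        rw [← map_smul, ← map_smul, ← map_add] at h4
        simpa using h4
      rw [indicator_of_mem h1, indicator_of_mem h2, indicator_of_mem h3]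
      simp
    · rw [indicator_of_notMem h2, ENNReal.zero_rpow_of_pos (by linarith), mul_zero]
      exact zero_le
  · rw [indicator_of_notMem h1, ENNReal.zero_rpow_of_pos hs, zero_mul]
    exact zero_le

theorem fib_bdd (hKc : IsCompact K) : ∃ C : ℝ≥0∞, C ≠ ⊤ ∧ ∀ y, fib K L y ≤ C := by
  have hLs : Continuous L.symm := L.symm.toLinearMap.continuous_of_finiteDimensional
  have hC : IsCompact (Prod.snd '' (L.symm '' K)) := (hKc.image hLs).image continuous_snd
  refine ⟨volume (Prod.snd '' (L.symm '' K)), hC.measure_lt_top.ne, fun y => ?_⟩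
  unfold fib
  rw [← lintegral_indicator_one hC.measurableSet]
  refine lintegral_mono fun k => ?_
  by_cases h1 : L (y, k) ∈ K
  · have h2 : k ∈ Prod.snd '' (L.symm '' K) :=
      ⟨(y, k), ⟨L (y, k), h1, L.symm_apply_apply _⟩, rfl⟩
    rw [indicator_of_mem h1, indicator_of_mem h2]
    simp
  · rw [indicator_of_notMem h1]
    exact zero_le

/-- integrals over `K` of functions of the first coordinate -/
theorem lint_fib (hKm : MeasurableSet K) (κ : ℝ≥0∞)
    (hκ : ∀ f : E → ℝ≥0∞, Measurable f →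
      ∫⁻ x, f x = κ * ∫⁻ y : Fin a → ℝ, ∫⁻ k : Fin b → ℝ, f (L (y, k)))
    (G : E → ℝ≥0∞) (g : (Fin a → ℝ) → ℝ≥0∞) (hG : Measurable G)
    (hg : ∀ y k, G (L (y, k)) = g y) :
    ∫⁻ x in K, G x = κ * ∫⁻ y, fib K L y * g y := by
  have hi : Measurable (K.indicator (1 : E → ℝ≥0∞)) := measurable_one.indicator hKm
  have e : ∫⁻ x in K, G x = ∫⁻ x, K.indicator 1 x * G x := by
    rw [← lintegral_indicator hKm]
    refine lintegral_congr fun x => ?_
    by_cases hx : x ∈ K
    · rw [indicator_of_mem hx, indicator_of_mem hx, Pi.one_apply, one_mul]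
    · rw [indicator_of_notMem hx, indicator_of_notMem hx, zero_mul]
  rw [e, hκ (fun x => K.indicator 1 x * G x) (hi.mul hG)]
  congr 1
  refine lintegral_congr fun y => ?_
  simp only [hg]
  rw [lintegral_mul_const]
  · rfl
  · exact (hi.comp (Lcont L).measurable).comp measurable_prodMk_left

theorem ratio_le (rv r2 r M : ℝ≥0∞) (s : ℝ) (hs : 0 < s) (hs1 : s < 1) (hM0 : M ≠ 0) (hMt : M ≠ ⊤)
    (h2 : r2 ≤ M) (h : rv ^ s * r2 ^ (1 - s) ≤ r) : (rv / M) ^ s * r2 ≤ r := by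
  refine le_trans ?_ h
  have e2 : r2 = r2 ^ s * r2 ^ (1 - s) := by
    rw [← ENNReal.rpow_add_of_nonneg _ _ hs.le (by linarith), add_sub_cancel, ENNReal.rpow_one]
  have hMs0 : M ^ s ≠ 0 := by
    intro h0
    rcases ENNReal.rpow_eq_zero_iff.1 h0 with ⟨h1, _⟩ | ⟨h1, _⟩
    · exact hM0 h1
    · exact hMt h1
  have hMst : M ^ s ≠ ⊤ := ENNReal.rpow_ne_top_of_nonneg hs.le hMt
  rw [ENNReal.div_rpow_of_nonneg _ _ hs.le]
  calc rv ^ s / M ^ s * r2 = rv ^ s / M ^ s * (r2 ^ s * r2 ^ (1 - s)) := by rw [← e2]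
    _ ≤ rv ^ s / M ^ s * (M ^ s * r2 ^ (1 - s)) := by gcongr
    _ = rv ^ s * r2 ^ (1 - s) := by
        rw [← mul_assoc, ENNReal.div_mul_cancel hMs0 hMst]

theorem neg_pow_le (r rm r' M : ℝ≥0∞) (θ : ℝ) (hθ : 0 < θ) (hθ1 : θ < 1) (hM0 : M ≠ 0)
    (hMt : M ≠ ⊤) (hr : r ≤ M) (hm : M ≤ 2 * rm) (h : rm ^ θ * r ^ (1 - θ) ≤ r') :
    r * (r / M) ^ (-θ) ≤ 2 * r' := by
  rcases eq_or_ne r 0 with h0 | h0
  · rw [h0, zero_mul]; exact zero_le
  have hrt : r ≠ ⊤ := ne_top_of_le_ne_top hMt hr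
  have e1 : (r / M) ^ (-θ) = M ^ θ / r ^ θ := by
    rw [ENNReal.rpow_neg, ← ENNReal.inv_rpow, ENNReal.inv_div (Or.inl hMt) (Or.inl hM0),
      ENNReal.div_rpow_of_nonneg _ _ hθ.le]
  have e2 : r = r ^ (1 - θ) * r ^ θ := by
    rw [← ENNReal.rpow_add_of_nonneg _ _ (by linarith) hθ.le, sub_add_cancel, ENNReal.rpow_one]
  have hrθ0 : r ^ θ ≠ 0 := by
    intro h1
    rcases ENNReal.rpow_eq_zero_iff.1 h1 with ⟨h1, _⟩ | ⟨h1, _⟩
    · exact h0 h1
    · exact hrt h1
  have hrθt : r ^ θ ≠ ⊤ := ENNReal.rpow_ne_top_of_nonneg hθ.le hrt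
  have h3 : M ^ θ ≤ 2 * rm ^ θ := by
    calc M ^ θ ≤ (2 * rm) ^ θ := ENNReal.rpow_le_rpow hm hθ.le
      _ = 2 ^ θ * rm ^ θ := ENNReal.mul_rpow_of_nonneg _ _ hθ.le
      _ ≤ 2 ^ (1 : ℝ) * rm ^ θ := by
          gcongr
          norm_num
      _ = 2 * rm ^ θ := by rw [ENNReal.rpow_one]
  calc r * (r / M) ^ (-θ) = r ^ (1 - θ) * r ^ θ * (M ^ θ / r ^ θ) := by rw [e1, ← e2]
    _ = r ^ (1 - θ) * M ^ θ := by
        rw [mul_assoc, ENNReal.mul_div_cancel hrθ0 hrθt]
    _ ≤ r ^ (1 - θ) * (2 * rm ^ θ) := by gcongr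
    _ = 2 * (rm ^ θ * r ^ (1 - θ)) := by ring
    _ ≤ 2 * r' := by gcongr

/-- **The shift inequality** for functions of `n` coordinates. -/
theorem marg (hK : Convex ℝ K) (hKc : IsCompact K) (hV : volume K ≠ 0) (W : Submodule ℝ E) (n : ℕ)
    (hn : Module.finrank ℝ E ≤ Module.finrank ℝ W + n) :
    ∃ κ : E → ℝ≥0∞, Measurable κ ∧ (∀ v, κ v ≤ 1) ∧
      (∀ f : E → ℝ≥0∞, Measurable f → (∀ x, ∀ w ∈ W, f (x + w) = f x) →
        ∀ (v : E) (s : ℝ), 0 ≤ s → s < 1 →
          ENNReal.ofReal ((1 - s) ^ n) * κ v ^ s * ∫⁻ z in K, f ((1 - s) • z + s • v)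
            ≤ ∫⁻ z in K, f z) ∧
      (∀ θ : ℝ, 0 < θ → θ < 1 →
        ∫⁻ v in K, κ v ^ (-θ) ≤ ENNReal.ofReal (2 / (1 - θ) ^ n) * volume K) := by
  have hKm : MeasurableSet K := hKc.measurableSet
  obtain ⟨W', hW'⟩ := Submodule.exists_isCompl W
  set a := Module.finrank ℝ W' with ha
  set b := Module.finrank ℝ W with hb
  have hab : a ≤ n := by
    have h1 := Submodule.finrank_add_eq_of_isCompl hW'
    omega
  let e1 : (Fin a → ℝ) ≃ₗ[ℝ] W' := LinearEquiv.ofFinrankEq _ _ (by rw [Module.finrank_fin_fun])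
  let e2 : (Fin b → ℝ) ≃ₗ[ℝ] W := LinearEquiv.ofFinrankEq _ _ (by rw [Module.finrank_fin_fun])
  let L : ((Fin a → ℝ) × (Fin b → ℝ)) ≃ₗ[ℝ] E :=
    (LinearEquiv.prodCongr e1 e2).trans (Submodule.prodEquivOfIsCompl W' W hW'.symm)
  have hL : ∀ y k, L (y, k) = (e1 y : E) + (e2 k : E) := by
    intro y k
    simp [L]
  obtain ⟨κ, hκ0, hκt, hκ⟩ := exists_kappa L
  set r : (Fin a → ℝ) → ℝ≥0∞ := fib K L with hr
  have hrm : Measurable r := fib_meas K L hKm
  obtain ⟨C, hCt, hC⟩ := fib_bdd K L hKc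
  set M : ℝ≥0∞ := ⨆ y, r y with hM
  have hMt : M ≠ ⊤ := ne_top_of_le_ne_top hCt (iSup_le hC)
  have hle : ∀ y, r y ≤ M := fun y => le_iSup r y
  have hvol : volume K = κ * ∫⁻ y, r y := by
    have h := lint_fib K L hKm κ hκ (fun _ => 1) (fun _ => 1) measurable_const (fun _ _ => rfl)
    simp only [mul_one] at h
    rw [← h, setLIntegral_one]
  have hM0 : M ≠ 0 := by
    intro h0
    have h1 : ∀ y, r y = 0 := fun y => le_antisymm ((hle y).trans (le_of_eq h0)) zero_le
    rw [hvol] at hV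
    apply hV
    simp only [h1]
    simp
  obtain ⟨m, hm⟩ : ∃ m, M ≤ 2 * r m := by
    by_contra hcon
    push Not at hcon
    have h1 : M ≤ M / 2 := by
      refine iSup_le fun y => ?_
      rw [ENNReal.le_div_iff_mul_le (Or.inl two_ne_zero) (Or.inl ENNReal.ofNat_ne_top), mul_comm]
      exact (hcon y).le
    have h2 : M / 2 < M := ENNReal.half_lt_self hM0 hMt
    exact absurd h1 (not_le.2 h2)
  let py : E → (Fin a → ℝ) := fun v => (L.symm v).1
  have hpy : Measurable py := by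
    have : Continuous L.symm := L.symm.toLinearMap.continuous_of_finiteDimensional
    exact measurable_fst.comp this.measurable
  have hpyL : ∀ y k, py (L (y, k)) = y := fun y k => by
    show (L.symm (L (y, k))).1 = y
    rw [L.symm_apply_apply]
  refine ⟨fun v => r (py v) / M, (hrm.comp hpy).div_const M, fun v => ?_, ?_, ?_⟩
  · exact ENNReal.div_le_of_le_mul (by rw [one_mul]; exact hle _)
  · intro f hf hinv v s hs0 hs1
    rcases hs0.eq_or_lt with h0 | hs
    · rw [← h0]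
      simp
    have h1s : 0 < 1 - s := by linarith
    -- the function on the first factor
    let ft : (Fin a → ℝ) → ℝ≥0∞ := fun y => f (e1 y)
    have hft : ∀ y k, f (L (y, k)) = ft y := by
      intro y k
      rw [hL]
      exact hinv _ _ (e2 k).2
    have hftm : Measurable ft := by
      have h3 : Continuous fun y : Fin a → ℝ => ((e1 y : W') : E) :=
        (W'.subtype.comp e1.toLinearMap).continuous_of_finiteDimensional
      exact hf.comp h3.measurable
    obtain ⟨⟨yv, kv⟩, hv⟩ : ∃ z, L z = v := ⟨L.symm v, L.apply_symm_apply v⟩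
    have hpv : py v = yv := by rw [← hv]; exact hpyL _ _
    have hf2 : ∀ y k, (fun z => f ((1 - s) • z + s • v)) (L (y, k)) = ft ((1 - s) • y + s • yv) := by
      intro y k
      show f ((1 - s) • L (y, k) + s • v) = _
      rw [← hv, ← map_smul, ← map_smul, ← map_add]
      exact hft _ _
    have hf2m : Measurable fun z : E => f ((1 - s) • z + s • v) :=
      hf.comp ((measurable_const_smul (1 - s)).add_const _)
    show ENNReal.ofReal ((1 - s) ^ n) * (r (py v) / M) ^ s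
      * ∫⁻ z in K, (fun z => f ((1 - s) • z + s • v)) z ≤ _
    rw [lint_fib K L hKm κ hκ _ _ hf2m hf2, lint_fib K L hKm κ hκ f ft hf hft, hpv]
    let G : (Fin a → ℝ) → ℝ≥0∞ := fun u => r ((1 - s)⁻¹ • (u - s • yv)) * ft u
    have hGm : Measurable G :=
      (hrm.comp ((measurable_const_smul _).comp (measurable_id.sub_const _))).mul hftm
    have h4 : ∫⁻ y, r y * ft ((1 - s) • y + s • yv)
        = ENNReal.ofReal (((1 - s) ^ a)⁻¹) * ∫⁻ u, G u := by
      have h5 := lint_aff volume G hGm (1 - s) h1s (s • yv)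
      rw [Module.finrank_fin_fun] at h5
      rw [← h5]
      refine lintegral_congr fun y => ?_
      show _ = r ((1 - s)⁻¹ • ((1 - s) • y + s • yv - s • yv)) * ft ((1 - s) • y + s • yv)
      rw [add_sub_cancel_right, smul_smul, inv_mul_cancel₀ h1s.ne', one_smul]
    have h6 : ∀ u, (r yv / M) ^ s * G u ≤ r u * ft u := by
      intro u
      show (r yv / M) ^ s * (r ((1 - s)⁻¹ • (u - s • yv)) * ft u) ≤ _
      rw [← mul_assoc]
      gcongr
      refine ratio_le _ _ _ M s hs hs1 hM0 hMt (hle _) ?_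
      have h7 := fib_logc K L hK hKm yv ((1 - s)⁻¹ • (u - s • yv)) s hs hs1
      rwa [smul_smul, mul_inv_cancel₀ h1s.ne', one_smul, add_sub_cancel] at h7
    have h8 : ENNReal.ofReal ((1 - s) ^ n) * ENNReal.ofReal (((1 - s) ^ a)⁻¹) ≤ 1 := by
      rw [← ENNReal.ofReal_mul (by positivity), ← ENNReal.ofReal_one]
      apply ENNReal.ofReal_le_ofReal
      rw [← div_eq_mul_inv, div_le_one (by positivity)]
      exact pow_le_pow_of_le_one h1s.le (by linarith) hab
    rw [h4]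
    calc ENNReal.ofReal ((1 - s) ^ n) * (r yv / M) ^ s
          * (κ * (ENNReal.ofReal (((1 - s) ^ a)⁻¹) * ∫⁻ u, G u))
        = (ENNReal.ofReal ((1 - s) ^ n) * ENNReal.ofReal (((1 - s) ^ a)⁻¹))
          * (κ * ((r yv / M) ^ s * ∫⁻ u, G u)) := by ring
      _ ≤ 1 * (κ * ((r yv / M) ^ s * ∫⁻ u, G u)) := by gcongr
      _ = κ * ∫⁻ u, (r yv / M) ^ s * G u := by
          rw [one_mul, lintegral_const_mul _ hGm]
      _ ≤ κ * ∫⁻ u, r u * ft u := mul_le_mul' le_rfl (lintegral_mono h6)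
  · intro θ hθ hθ1
    have h1θ : 0 < 1 - θ := by linarith
    have hκm : Measurable fun v : E => (r (py v) / M) ^ (-θ) :=
      ((hrm.comp hpy).div_const M).pow_const _
    rw [lint_fib K L hKm κ hκ _ (fun y => (r y / M) ^ (-θ)) hκm (fun y k => by rw [hpyL])]
    have h1 : ∀ y, r y * (r y / M) ^ (-θ) ≤ 2 * r ((1 - θ) • y + θ • m) := by
      intro y
      refine neg_pow_le _ (r m) _ M θ hθ hθ1 hM0 hMt (hle _) hm ?_
      have h7 := fib_logc K L hK hKm m y θ hθ hθ1
      rwa [add_comm] at h7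
    have h2 := lint_aff volume r hrm (1 - θ) h1θ (θ • m)
    rw [Module.finrank_fin_fun] at h2
    calc κ * ∫⁻ y, r y * (r y / M) ^ (-θ)
        ≤ κ * ∫⁻ y, 2 * r ((1 - θ) • y + θ • m) := mul_le_mul' le_rfl (lintegral_mono h1)
      _ = κ * (2 * (ENNReal.ofReal (((1 - θ) ^ a)⁻¹) * ∫⁻ y, r y)) := by
          rw [lintegral_const_mul' _ _ ENNReal.ofNat_ne_top, h2]
      _ = (2 * ENNReal.ofReal (((1 - θ) ^ a)⁻¹)) * volume K := by
          rw [hvol]; ring
      _ ≤ ENNReal.ofReal (2 / (1 - θ) ^ n) * volume K := by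
          gcongr
          rw [← ENNReal.ofReal_ofNat, ← ENNReal.ofReal_mul (by norm_num)]
          apply ENNReal.ofReal_le_ofReal
          rw [div_eq_mul_inv]
          refine mul_le_mul_of_nonneg_left ?_ (by norm_num)
          exact inv_anti₀ (by positivity) (pow_le_pow_of_le_one h1θ.le (by linarith) hab)

end

end Pool.Agent.Run7.h924.Sm
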