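import Mathlib
import Pool.Agent.Run7.h924.LatB

set_option autoImplicit false
set_option linter.unusedSectionVars false

/-!
# Means of order `q` along a line: a bound for convex sequences
-/

namespace Pool.Agent.Run7.h924.Sm

open Set Filter
open Pool.Agent.Run7.h924.Lat (mq mean_rpow mean_le_qmean mq_nonneg mq_pow le_mq mq_le mq_sub_mul)

/-- the mean of order `q` of two nonnegative numbers -/
noncomputable def mp (q A B : ℝ) : ℝ := ((A ^ q + B ^ q) / 2) ^ (1 / q)

theorem mp_nonneg (q A B : ℝ) (hA : 0 ≤ A) (hB : 0 ≤ B) : 0 ≤ mp q A B := by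
  unfold mp; positivity

theorem mp_pow (q A B : ℝ) (hq : 1 ≤ q) (hA : 0 ≤ A) (hB : 0 ≤ B) :
    mp q A B ^ q = (A ^ q + B ^ q) / 2 := by
  unfold mp
  rw [← Real.rpow_mul (by positivity), one_div_mul_cancel (by linarith), Real.rpow_one]

theorem mp_comm (q A B : ℝ) : mp q A B = mp q B A := by
  unfold mp; rw [add_comm]

theorem mp_eq_mq (q A B : ℝ) (hA : 0 ≤ A) (hB : 0 ≤ B) :
    mp q A B = mq q ((A + B) / 2) ((A - B) / 2) := by
  unfold mp mq
  rw [show (A + B) / 2 + (A - B) / 2 = A by ring, show (A + B) / 2 - (A - B) / 2 = B by ring,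
    abs_of_nonneg hA, abs_of_nonneg hB]

theorem mean_le_mp (q A B : ℝ) (hq : 1 ≤ q) (hA : 0 ≤ A) (hB : 0 ≤ B) :
    (A + B) / 2 ≤ mp q A B := mean_le_qmean q A B hq hA hB

theorem mp_le_of (q A B C : ℝ) (hq : 1 ≤ q) (hA : 0 ≤ A) (hB : 0 ≤ B) (hC : 0 ≤ C)
    (h : A ^ q + B ^ q ≤ 2 * C ^ q) : mp q A B ≤ C := by
  have hq0 : 0 < q := by linarith
  have h1 : (A ^ q + B ^ q) / 2 ≤ C ^ q := by linarith
  have h2 := Real.rpow_le_rpow (by positivity) h1 (by positivity : 0 ≤ 1 / q)
  rwa [← Real.rpow_mul hC, mul_one_div_cancel hq0.ne', Real.rpow_one] at h2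

theorem mp_le_max (q A B : ℝ) (hq : 1 ≤ q) (hA : 0 ≤ A) (hB : 0 ≤ B) : mp q A B ≤ max A B := by
  have hq0 : 0 ≤ q := by linarith
  refine mp_le_of q A B _ hq hA hB (hA.trans (le_max_left _ _)) ?_
  have h1 := Real.rpow_le_rpow hA (le_max_left A B) hq0
  have h2 := Real.rpow_le_rpow hB (le_max_right A B) hq0
  linarith

/-- a bounded increasing function -/
noncomputable def psi (g x : ℝ) : ℝ := x / (x + g)

theorem psi_nonneg (g x : ℝ) (hg : 0 < g) (hx : 0 ≤ x) : 0 ≤ psi g x := by
  unfold psi; positivity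

theorem psi_le_one (g x : ℝ) (hg : 0 < g) (hx : 0 ≤ x) : psi g x ≤ 1 := by
  unfold psi
  rw [div_le_one (by linarith)]
  linarith

theorem psi_sub (g x y : ℝ) (hg : 0 < g) (hx : 0 ≤ x) (hy : 0 ≤ y) :
    psi g x - psi g y = g * (x - y) / ((x + g) * (y + g)) := by
  unfold psi
  have h1 : x + g ≠ 0 := by positivity
  have h2 : y + g ≠ 0 := by positivity
  field_simp
  ring

theorem psi_mono (g x y : ℝ) (hg : 0 < g) (hx : 0 ≤ x) (hxy : x ≤ y) : psi g x ≤ psi g y := by
  have h := psi_sub g y x hg (hx.trans hxy) hx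
  have h1 : 0 ≤ g * (y - x) / ((y + g) * (x + g)) := by
    have : 0 ≤ y - x := by linarith
    have : 0 ≤ y := hx.trans hxy
    positivity
  linarith

theorem psi_abs (g x y : ℝ) (hg : 0 < g) (hx : 0 ≤ x) (hy : 0 ≤ y) :
    g * |x - y| = |psi g x - psi g y| * ((x + g) * (y + g)) := by
  have h3 : 0 < (x + g) * (y + g) := by positivity
  rw [psi_sub g x y hg hx hy, abs_div, abs_mul, abs_of_pos hg, abs_of_pos h3]
  field_simp

/-- the variation of `psi` along a convex sequence -/
theorem variation (g : ℝ) (hg : 0 < g) (H : ℕ → ℝ) (h0 : ∀ j, 0 ≤ H j)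
    (hcv : ∀ j, 2 * H (j + 1) ≤ H j + H (j + 2)) (M : ℕ) :
    ∑ j ∈ Finset.range M, |psi g (H (j + 1)) - psi g (H j)| ≤ 2 := by
  have Q : ∀ M : ℕ, H (M + 1) ≤ H M →
      ∑ j ∈ Finset.range (M + 1), |psi g (H (j + 1)) - psi g (H j)|
        = psi g (H 0) - psi g (H (M + 1)) := by
    intro M
    induction M with
    | zero =>
      intro h
      rw [Finset.sum_range_one]
      have := psi_mono g _ _ hg (h0 1) h
      rw [abs_of_nonpos (by linarith)]
      ring
    | succ M ih =>
      intro h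
      have h1 := hcv M
      have h2 : H (M + 1) ≤ H M := by
        have : H (M + 1 + 1) ≤ H (M + 1) := h
        linarith
      rw [Finset.sum_range_succ, ih h2]
      have := psi_mono g _ _ hg (h0 (M + 1 + 1)) h
      rw [abs_of_nonpos (by linarith)]
      ring
  have P : ∀ M : ℕ, ∑ j ∈ Finset.range M, |psi g (H (j + 1)) - psi g (H j)|
      ≤ psi g (H 0) + psi g (H M) := by
    intro M
    induction M with
    | zero =>
      simp only [Finset.range_zero, Finset.sum_empty]
      have := psi_nonneg g _ hg (h0 0)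
      linarith
    | succ M ih =>
      rcases le_total (H (M + 1)) (H M) with h | h
      · rw [Q M h]
        have := psi_nonneg g _ hg (h0 (M + 1))
        linarith
      · rw [Finset.sum_range_succ]
        have := psi_mono g _ _ hg (h0 M) h
        rw [abs_of_nonneg (by linarith)]
        linarith
  have h1 := psi_le_one g _ hg (h0 0)
  have h2 := psi_le_one g _ hg (h0 M)
  linarith [P M]

/-- the excess of the mean at a point -/
theorem excess_pt (q g a b c : ℝ) (hq : 2 ≤ q) (hg : 0 < g) (ha : 0 ≤ a) (hb : 0 ≤ b) (hc : 0 ≤ c)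
    (hcv : 2 * b ≤ a + c) (h1 : |b - a| ≤ g) (h2 : |c - b| ≤ g) :
    0 ≤ mp q a c - b ∧ mp q a c - b ≤ g ∧
      (mp q a c - b) ^ 2 ≤ g * (a + c - 2 * b)
        + 6 * q ^ 2 * g ^ 2 * (|psi g b - psi g a| + |psi g c - psi g b|) := by
  have hq1 : 1 ≤ q := by linarith
  obtain ⟨h1a, h1b⟩ := abs_le.1 h1
  obtain ⟨h2a, h2b⟩ := abs_le.1 h2
  have e0 : 0 ≤ mp q a c - b := by
    have := mean_le_mp q a c hq1 ha hc
    linarith
  have hmax : mp q a c - b ≤ |b - a| + |c - b| := by
    have h := mp_le_max q a c hq1 ha hc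
    rcases max_cases a c with ⟨h3, _⟩ | ⟨h3, _⟩
    · rw [h3] at h
      have := neg_abs_le (b - a)
      have := abs_nonneg (c - b)
      linarith
    · rw [h3] at h
      have := le_abs_self (c - b)
      have := abs_nonneg (b - a)
      linarith
  have e1 : mp q a c - b ≤ g := by
    have h := mp_le_max q a c hq1 ha hc
    have h3 : max a c ≤ b + g := max_le (by linarith) (by linarith)
    linarith
  refine ⟨e0, e1, ?_⟩
  set u := |psi g b - psi g a| with hu
  set w := |psi g c - psi g b| with hw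
  have hu0 : 0 ≤ u := abs_nonneg _
  have hw0 : 0 ≤ w := abs_nonneg _
  have hu1 : g * |b - a| = u * ((b + g) * (a + g)) := psi_abs g b a hg hb ha
  have hw1 : g * |c - b| = w * ((c + g) * (b + g)) := psi_abs g c b hg hc hb
  rcases le_total g b with hgb | hgb
  · -- away from zero
    set m := (a + c) / 2 with hm
    set D := (a - c) / 2 with hD
    have hmb : b ≤ m := by rw [hm]; linarith
    have hm0 : 0 < m := by linarith
    set T := mp q a c - m with hT
    have hT0 : 0 ≤ T := by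
      have := mean_le_mp q a c hq1 ha hc
      rw [hT]; linarith
    have hTm : T * m ≤ q * D ^ 2 := by
      have h := mq_sub_mul q m D hq1
      rw [abs_of_pos hm0, hm, hD, ← mp_eq_mq q a c ha hc] at h
      exact h
    have hTb : T * b ≤ q * D ^ 2 := (mul_le_mul_of_nonneg_left hmb hT0).trans hTm
    have hDabs : 2 * |D| ≤ |b - a| + |c - b| := by
      have h := abs_sub_le a b c
      rw [abs_sub_comm a b, abs_sub_comm b c] at h
      have e : |a - c| = 2 * |D| := by
        rw [hD, abs_div, abs_two]; ring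
      rw [e] at h
      exact h
    have hDg : |D| ≤ g := by linarith
    have hD0 : 0 ≤ |D| := abs_nonneg _
    -- `D^4 ≤ 3 g^2 b^2 (u + w)`
    have hub : g * |b - a| ≤ u * (6 * b ^ 2) := by
      rw [hu1]
      refine mul_le_mul_of_nonneg_left ?_ hu0
      have h3 : b + g ≤ 2 * b := by linarith
      have h4 : a + g ≤ 3 * b := by linarith
      calc (b + g) * (a + g) ≤ (2 * b) * (3 * b) := mul_le_mul h3 h4 (by linarith) (by linarith)
        _ = 6 * b ^ 2 := by ring
    have hwb : g * |c - b| ≤ w * (6 * b ^ 2) := by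
      rw [hw1]
      refine mul_le_mul_of_nonneg_left ?_ hw0
      have h3 : b + g ≤ 2 * b := by linarith
      have h4 : c + g ≤ 3 * b := by linarith
      calc (c + g) * (b + g) ≤ (3 * b) * (2 * b) := mul_le_mul h4 h3 (by linarith) (by linarith)
        _ = 6 * b ^ 2 := by ring
    have hDb : g * |D| ≤ 3 * b ^ 2 * (u + w) := by
      have h3 := mul_le_mul_of_nonneg_left hDabs hg.le
      have h4 : g * (|b - a| + |c - b|) = g * |b - a| + g * |c - b| := by ring
      have h5 : g * (2 * |D|) = 2 * (g * |D|) := by ring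
      rw [h4, h5] at h3
      linarith
    have hD4 : (D ^ 2) ^ 2 ≤ g ^ 2 * (3 * b ^ 2 * (u + w)) := by
      have h3 : (D ^ 2) ^ 2 = |D| ^ 3 * |D| := by
        rw [← sq_abs D]; ring
      rw [h3]
      have h4 : |D| ^ 3 ≤ g ^ 3 := pow_le_pow_left₀ hD0 hDg 3
      calc |D| ^ 3 * |D| ≤ g ^ 3 * |D| := mul_le_mul_of_nonneg_right h4 hD0
        _ = g ^ 2 * (g * |D|) := by ring
        _ ≤ g ^ 2 * (3 * b ^ 2 * (u + w)) := mul_le_mul_of_nonneg_left hDb (by positivity)
    have hb0 : 0 < b := by linarith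
    have hT2 : T ^ 2 ≤ 3 * q ^ 2 * g ^ 2 * (u + w) := by
      have h3 : (T * b) ^ 2 ≤ (q * D ^ 2) ^ 2 := pow_le_pow_left₀ (by positivity) hTb 2
      have h4 : T ^ 2 * b ^ 2 ≤ 3 * q ^ 2 * g ^ 2 * (u + w) * b ^ 2 := by
        calc T ^ 2 * b ^ 2 = (T * b) ^ 2 := by ring
          _ ≤ (q * D ^ 2) ^ 2 := h3
          _ = q ^ 2 * (D ^ 2) ^ 2 := by ring
          _ ≤ q ^ 2 * (g ^ 2 * (3 * b ^ 2 * (u + w))) :=
            mul_le_mul_of_nonneg_left hD4 (by positivity)
          _ = _ := by ring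
      exact le_of_mul_le_mul_right h4 (by positivity)
    set Δ := m - b with hΔ
    have hΔ0 : 0 ≤ Δ := by rw [hΔ]; linarith
    have hΔg : Δ ≤ g := by rw [hΔ, hm]; linarith
    have e2 : mp q a c - b = T + Δ := by rw [hT, hΔ]; ring
    rw [e2]
    have h5 : (T + Δ) ^ 2 ≤ 2 * T ^ 2 + 2 * Δ ^ 2 := by nlinarith [sq_nonneg (T - Δ)]
    have h6 : 2 * Δ ^ 2 ≤ g * (a + c - 2 * b) := by
      have e3 : a + c - 2 * b = 2 * Δ := by rw [hΔ, hm]; ring
      rw [e3]
      have h7 : Δ * Δ ≤ g * Δ := mul_le_mul_of_nonneg_right hΔg hΔ0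
      linarith
    linarith
  · -- near zero
    have hub : g * |b - a| ≤ 6 * g ^ 2 * u := by
      rw [hu1]
      have h3 : (b + g) * (a + g) ≤ 6 * g ^ 2 := by
        have h4 : b + g ≤ 2 * g := by linarith
        have h5 : a + g ≤ 3 * g := by linarith
        calc (b + g) * (a + g) ≤ (2 * g) * (3 * g) := mul_le_mul h4 h5 (by linarith) (by linarith)
          _ = 6 * g ^ 2 := by ring
      calc u * ((b + g) * (a + g)) ≤ u * (6 * g ^ 2) := mul_le_mul_of_nonneg_left h3 hu0
        _ = 6 * g ^ 2 * u := by ring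
    have hwb : g * |c - b| ≤ 6 * g ^ 2 * w := by
      rw [hw1]
      have h3 : (c + g) * (b + g) ≤ 6 * g ^ 2 := by
        have h4 : b + g ≤ 2 * g := by linarith
        have h5 : c + g ≤ 3 * g := by linarith
        calc (c + g) * (b + g) ≤ (3 * g) * (2 * g) := mul_le_mul h5 h4 (by linarith) (by linarith)
          _ = 6 * g ^ 2 := by ring
      calc w * ((c + g) * (b + g)) ≤ w * (6 * g ^ 2) := mul_le_mul_of_nonneg_left h3 hw0
        _ = 6 * g ^ 2 * w := by ring
    have h3 : (mp q a c - b) ^ 2 ≤ g * (|b - a| + |c - b|) := by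
      rw [sq]
      exact mul_le_mul e1 hmax e0 hg.le
    have h4 : 6 * g ^ 2 * (u + w) ≤ 6 * q ^ 2 * g ^ 2 * (u + w) := by
      have h5 : 1 ≤ q ^ 2 := by nlinarith
      have h6 : 0 ≤ 6 * g ^ 2 * (u + w) := by positivity
      calc 6 * g ^ 2 * (u + w) = 1 * (6 * g ^ 2 * (u + w)) := by ring
        _ ≤ q ^ 2 * (6 * g ^ 2 * (u + w)) := mul_le_mul_of_nonneg_right h5 h6
        _ = 6 * q ^ 2 * g ^ 2 * (u + w) := by ring
    have h5 : 0 ≤ g * (a + c - 2 * b) := mul_nonneg hg.le (by linarith)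
    linarith

/-- **The sum of the excesses along a convex sequence.** -/
theorem excess_sum (q g : ℝ) (hq : 2 ≤ q) (hg : 0 ≤ g) (H : ℕ → ℝ) (h0 : ∀ j, 0 ≤ H j)
    (hcv : ∀ j, 2 * H (j + 1) ≤ H j + H (j + 2)) (hs : ∀ j, |H (j + 1) - H j| ≤ g) (N : ℕ) :
    ∑ j ∈ Finset.range N, (mp q (H j) (H (j + 2)) - H (j + 1)) ^ q ≤ 25 * q ^ 2 * g ^ q := by
  have hq0 : 0 < q := by linarith
  rcases hg.eq_or_lt with hg0 | hgp
  · -- the slope is zero
    have hz : ∀ j, (mp q (H j) (H (j + 2)) - H (j + 1)) ^ q = 0 := by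
      intro j
      have h1 : H (j + 1) = H j := by
        have := hs j
        rw [← hg0] at this
        have := abs_nonpos_iff.1 this
        linarith
      have h2 : H (j + 2) = H (j + 1) := by
        have := hs (j + 1)
        rw [← hg0] at this
        have := abs_nonpos_iff.1 this
        linarith
      have h3 := mp_le_max q (H j) (H (j + 2)) (by linarith) (h0 _) (h0 _)
      have h4 := mean_le_mp q (H j) (H (j + 2)) (by linarith) (h0 _) (h0 _)
      rw [h2, h1] at h3 h4
      rw [max_self] at h3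
      rw [h2, h1]
      have h5 : mp q (H j) (H j) - H j = 0 := by linarith
      rw [h5, Real.zero_rpow hq0.ne']
    rw [Finset.sum_congr rfl fun j _ => hz j]
    simp only [Finset.sum_const_zero]
    positivity
  · have hpt := fun j => excess_pt q g (H j) (H (j + 1)) (H (j + 2)) hq hgp (h0 _) (h0 _) (h0 _)
      (hcv j) (hs j) (hs (j + 1))
    have h1 : ∀ j, (mp q (H j) (H (j + 2)) - H (j + 1)) ^ q
        ≤ g ^ (q - 2) * (g * (H j + H (j + 2) - 2 * H (j + 1))
        + 6 * q ^ 2 * g ^ 2 * (|psi g (H (j + 1)) - psi g (H j)|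
          + |psi g (H (j + 2)) - psi g (H (j + 1))|)) := by
      intro j
      obtain ⟨e0, e1, e2⟩ := hpt j
      set e := mp q (H j) (H (j + 2)) - H (j + 1) with he
      have h3 : e ^ q ≤ g ^ (q - 2) * e ^ 2 := by
        rcases e0.eq_or_lt with h4 | h4
        · rw [← h4, Real.zero_rpow hq0.ne']
          simp
        · have h5 : e ^ q = e ^ (q - 2) * e ^ 2 := by
            rw [← Real.rpow_natCast, ← Real.rpow_add h4]
            congr 1
            push_cast
            ring
          rw [h5]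
          exact mul_le_mul_of_nonneg_right (Real.rpow_le_rpow e0 e1 (by linarith)) (by positivity)
      exact h3.trans (mul_le_mul_of_nonneg_left e2 (by positivity))
    have h2 : ∑ j ∈ Finset.range N, (H j + H (j + 2) - 2 * H (j + 1)) ≤ 2 * g := by
      have e : ∑ j ∈ Finset.range N, (H j + H (j + 2) - 2 * H (j + 1))
          = (H (N + 1) - H N) - (H (0 + 1) - H 0) := by
        rw [← Finset.sum_range_sub (fun j => H (j + 1) - H j) N]
        exact Finset.sum_congr rfl fun j _ => by ring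
      rw [e]
      have h3 := (abs_le.1 (hs N)).2
      have h4 := (abs_le.1 (hs 0)).1
      linarith
    have h3 := variation g hgp H h0 hcv N
    have h4 : ∑ j ∈ Finset.range N, |psi g (H (j + 2)) - psi g (H (j + 1))| ≤ 2 := by
      have h5 := variation g hgp H h0 hcv (N + 1)
      rw [Finset.sum_range_succ'] at h5
      have := abs_nonneg (psi g (H (0 + 1)) - psi g (H 0))
      linarith
    calc ∑ j ∈ Finset.range N, (mp q (H j) (H (j + 2)) - H (j + 1)) ^ q
        ≤ ∑ j ∈ Finset.range N, g ^ (q - 2) * (g * (H j + H (j + 2) - 2 * H (j + 1))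
        + 6 * q ^ 2 * g ^ 2 * (|psi g (H (j + 1)) - psi g (H j)|
          + |psi g (H (j + 2)) - psi g (H (j + 1))|)) := Finset.sum_le_sum fun j _ => h1 j
      _ = g ^ (q - 2) * (g * (∑ j ∈ Finset.range N, (H j + H (j + 2) - 2 * H (j + 1)))
        + 6 * q ^ 2 * g ^ 2 * ((∑ j ∈ Finset.range N, |psi g (H (j + 1)) - psi g (H j)|)
          + ∑ j ∈ Finset.range N, |psi g (H (j + 2)) - psi g (H (j + 1))|)) := by
          rw [← Finset.mul_sum, Finset.sum_add_distrib, ← Finset.mul_sum, ← Finset.mul_sum,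
            Finset.sum_add_distrib]
      _ ≤ g ^ (q - 2) * (g * (2 * g) + 6 * q ^ 2 * g ^ 2 * (2 + 2)) := by gcongr
      _ ≤ g ^ (q - 2) * (25 * q ^ 2 * g ^ 2) := by
          refine mul_le_mul_of_nonneg_left ?_ (by positivity)
          have h5 : 4 ≤ q ^ 2 := by nlinarith
          have h6 : 0 ≤ g ^ 2 := by positivity
          nlinarith
      _ = 25 * q ^ 2 * g ^ q := by
          have h5 : g ^ q = g ^ (q - 2) * g ^ 2 := by
            rw [← Real.rpow_natCast, ← Real.rpow_add hgp]
            congr 1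
            push_cast
            ring
          rw [h5]
          ring

end Pool.Agent.Run7.h924.Sm
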