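import Mathlib
import Pool.Agent.TH591.Ns.Basic
import Pool.Agent.Run7.h924.SmA

set_option autoImplicit false
set_option linter.unusedSectionVars false

/-!
# The excess of the mean of order `q` for a sublinear function
-/

namespace Pool.Agent.Run7.h924.Sm

open Set Filter
open Pool.Agent.TH591.Ns (IsG)

variable {d : ℕ} {h : EuclideanSpace ℝ (Fin d) → ℝ} {q : ℝ}

/-- the excess of the mean of order `q` of `h (y + w)` and `h (y - w)` over `h y` -/
noncomputable def ex (q : ℝ) (h : EuclideanSpace ℝ (Fin d) → ℝ) (y w : EuclideanSpace ℝ (Fin d)) :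
    ℝ := mp q (h (y + w)) (h (y - w)) - h y

theorem mp_smul (q l A B : ℝ) (hq : 1 ≤ q) (hl : 0 ≤ l) (hA : 0 ≤ A) (hB : 0 ≤ B) :
    mp q (l * A) (l * B) = l * mp q A B := by
  have hq0 : 0 < q := by linarith
  unfold mp
  rw [Real.mul_rpow hl hA, Real.mul_rpow hl hB, show (l ^ q * A ^ q + l ^ q * B ^ q) / 2
    = l ^ q * ((A ^ q + B ^ q) / 2) by ring, Real.mul_rpow (by positivity) (by positivity),
    ← Real.rpow_mul hl, mul_one_div_cancel hq0.ne', Real.rpow_one]

theorem mp_cont {X : Type*} [TopologicalSpace X] (q : ℝ) (hq : 1 ≤ q) {f g : X → ℝ}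
    (hf : Continuous f) (hg : Continuous g) : Continuous fun x => mp q (f x) (g x) := by
  unfold mp
  have hq0 : 0 ≤ q := by linarith
  refine Continuous.rpow_const ?_ fun _ => Or.inr (by positivity)
  exact ((hf.rpow_const fun _ => Or.inr hq0).add (hg.rpow_const fun _ => Or.inr hq0)).div_const 2

theorem ex_cont {X : Type*} [TopologicalSpace X] (hq : 1 ≤ q) {a b c : X → ℝ}
    (ha : Continuous a) (hb : Continuous b) (hc : Continuous c) :
    Continuous fun x => mp q (a x) (b x) - c x :=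
  (mp_cont q hq ha hb).sub hc

theorem two_mul_le (hh : IsG h) (y w : EuclideanSpace ℝ (Fin d)) :
    2 * h y ≤ h (y + w) + h (y - w) := by
  have h1 := hh.add (y + w) (y - w)
  have e : y + w + (y - w) = (2 : ℝ) • y := by rw [two_smul]; abel
  rw [e, hh.smul 2 (by norm_num)] at h1
  exact h1

theorem ex_nonneg (hh : IsG h) (hq : 1 ≤ q) (y w : EuclideanSpace ℝ (Fin d)) :
    0 ≤ ex q h y w := by
  unfold ex
  have h1 := two_mul_le hh y w
  have h2 := mean_le_mp q (h (y + w)) (h (y - w)) hq (hh.nonneg _) (hh.nonneg _)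
  linarith

theorem comb_le (hh : IsG h) (a b : ℝ) (ha : 0 ≤ a) (hb : 0 ≤ b) (x y : EuclideanSpace ℝ (Fin d)) :
    h (a • x + b • y) ≤ a * h x + b * h y := by
  refine (hh.add _ _).trans ?_
  rw [hh.smul a ha, hh.smul b hb]

theorem ex_scale (hh : IsG h) (hq : 1 ≤ q) (l : ℝ) (hl0 : 0 ≤ l) (hl1 : l ≤ 1)
    (y w : EuclideanSpace ℝ (Fin d)) : l * ex q h y w ≤ ex q h (l • y) w := by
  have hq0 : 0 < q := by linarith
  have e1 : l * ex q h y w = mp q (h (l • y + l • w)) (h (l • y - l • w)) - h (l • y) := by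
    unfold ex
    rw [← smul_add, ← smul_sub, hh.smul l hl0, hh.smul l hl0, hh.smul l hl0,
      mp_smul q l _ _ hq hl0 (hh.nonneg _) (hh.nonneg _)]
    ring
  rw [e1]
  unfold ex
  refine sub_le_sub_right ?_ _
  set A := h (l • y + w) with hA
  set B := h (l • y - w) with hB
  have hA0 : 0 ≤ A := hh.nonneg _
  have hB0 : 0 ≤ B := hh.nonneg _
  set α := (1 + l) / 2 with hα
  set β := (1 - l) / 2 with hβ
  have hα0 : 0 ≤ α := by rw [hα]; linarith
  have hβ0 : 0 ≤ β := by rw [hβ]; linarith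
  have hαβ : α + β = 1 := by rw [hα, hβ]; ring
  have c1 : h (l • y + l • w) ≤ α * A + β * B := by
    have := comb_le hh α β hα0 hβ0 (l • y + w) (l • y - w)
    have e : α • (l • y + w) + β • (l • y - w) = l • y + l • w := by
      rw [hα, hβ]; module
    rwa [e] at this
  have c2 : h (l • y - l • w) ≤ β * A + α * B := by
    have := comb_le hh β α hβ0 hα0 (l • y + w) (l • y - w)
    have e : β • (l • y + w) + α • (l • y - w) = l • y - l • w := by
      rw [hα, hβ]; module
    rwa [e] at this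
  refine mp_le_of q _ _ _ hq (hh.nonneg _) (hh.nonneg _) (mp_nonneg q A B hA0 hB0) ?_
  rw [mp_pow q A B hq hA0 hB0]
  have p1 := Real.rpow_le_rpow (hh.nonneg _) c1 hq0.le
  have p2 := Real.rpow_le_rpow (hh.nonneg _) c2 hq0.le
  have p3 := (convexOn_rpow hq).2 (mem_Ici.2 hA0) (mem_Ici.2 hB0) hα0 hβ0 hαβ
  have p4 := (convexOn_rpow hq).2 (mem_Ici.2 hA0) (mem_Ici.2 hB0) hβ0 hα0 (by rw [add_comm]; exact hαβ)
  simp only [smul_eq_mul] at p3 p4
  have e2 : α * A ^ q + β * B ^ q + (β * A ^ q + α * B ^ q) = (α + β) * (A ^ q + B ^ q) := by ring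
  rw [hαβ, one_mul] at e2
  linarith

theorem ex_line (hh : IsG h) (hq : 2 ≤ q) (y w : EuclideanSpace ℝ (Fin d)) (N : ℕ) :
    ∑ j ∈ Finset.range N, (ex q h (y - (j : ℝ) • w) w) ^ q
      ≤ 25 * q ^ 2 * (max (h w) (h (-w))) ^ q := by
  set H : ℕ → ℝ := fun i => h (y + w - (i : ℝ) • w) with hH
  have e1 : ∀ j : ℕ, H j = h (y - (j : ℝ) • w + w) := by
    intro j
    simp only [hH]
    congr 1
    abel
  have e2 : ∀ j : ℕ, H (j + 1) = h (y - (j : ℝ) • w) := by
    intro j
    simp only [hH]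
    congr 1
    push_cast
    module
  have e3 : ∀ j : ℕ, H (j + 2) = h (y - (j : ℝ) • w - w) := by
    intro j
    simp only [hH]
    congr 1
    push_cast
    module
  have key := excess_sum q (max (h w) (h (-w))) hq ((hh.nonneg w).trans (le_max_left _ _)) H
    (fun j => hh.nonneg _) (fun j => by
      rw [e1 j, e2 j, e3 j]
      have := two_mul_le hh (y - (j : ℝ) • w) w
      linarith) (fun j => by
      rw [e1 j, e2 j, abs_le]
      have h1 := hh.add (y - (j : ℝ) • w) w
      have h2 := hh.add (y - (j : ℝ) • w + w) (-w)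
      have e : y - (j : ℝ) • w + w + -w = y - (j : ℝ) • w := by abel
      rw [e] at h2
      have h3 := le_max_left (h w) (h (-w))
      have h4 := le_max_right (h w) (h (-w))
      constructor <;> linarith) N
  refine le_trans (le_of_eq ?_) key
  refine Finset.sum_congr rfl fun j _ => ?_
  unfold ex
  rw [e1 j, e2 j, e3 j]

end Pool.Agent.Run7.h924.Sm
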