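import Mathlib
import Pool.Agent.Run7.h924.SmB

set_option autoImplicit false
set_option linter.unusedSectionVars false

/-!
# The mean excess for a sublinear function of `n` coordinates
-/

namespace Pool.Agent.Run7.h924.Sm

open MeasureTheory Set Filter
open scoped ENNReal
open Pool.Agent.TH591.Ns (IsG)

variable {d : ℕ}

/-- `k` is a shift function for the functions of `n` coordinates (the functions which are invariant
under `W`) -/
structure Shift (μ : Measure (EuclideanSpace ℝ (Fin d))) (W : Submodule ℝ (EuclideanSpace ℝ (Fin d)))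
    (n : ℕ) (k : EuclideanSpace ℝ (Fin d) → ℝ) : Prop where
  nonneg : ∀ v, 0 ≤ k v
  le_one : ∀ v, k v ≤ 1
  meas : Measurable k
  int : ∀ f : EuclideanSpace ℝ (Fin d) → ℝ, Continuous f → Integrable f μ
  shift : ∀ f : EuclideanSpace ℝ (Fin d) → ℝ, Continuous f → (∀ x, 0 ≤ f x) →
    (∀ x, ∀ w ∈ W, f (x + w) = f x) → ∀ (v : EuclideanSpace ℝ (Fin d)) (s : ℝ), 0 ≤ s → s < 1 →
      (1 - s) ^ n * k v ^ s * ∫ z, f ((1 - s) • z + s • v) ∂μ ≤ ∫ z, f z ∂μ
  neg : ∀ θ : ℝ, 0 < θ → θ < 1 →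
    ∫⁻ v, ENNReal.ofReal (k v) ^ (-θ) ∂μ ≤ ENNReal.ofReal (2 / (1 - θ) ^ n)

/-- Hahn-Banach -/
theorem exists_supp {h : EuclideanSpace ℝ (Fin d) → ℝ} (hh : IsG h) (z : EuclideanSpace ℝ (Fin d)) :
    ∃ φ : EuclideanSpace ℝ (Fin d) →L[ℝ] ℝ, φ z = h z ∧ ∀ x, φ x ≤ h x := by
  rcases eq_or_ne z 0 with rfl | hz
  · exact ⟨0, by simp [hh.zero], fun x => by simpa using hh.nonneg x⟩
  let f : EuclideanSpace ℝ (Fin d) →ₗ.[ℝ] ℝ := LinearPMap.mkSpanSingleton z (h z) hz
  obtain ⟨g, hg1, hg2⟩ := exists_extension_of_le_sublinear f h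
    (fun c hc x => hh.smul c hc.le x) hh.add (by
      rintro ⟨x, hx⟩
      obtain ⟨t, rfl⟩ := Submodule.mem_span_singleton.mp hx
      have e : f ⟨t • z, hx⟩ = t • h z :=
        LinearPMap.mkSpanSingleton'_apply _ _ _ _ _
      rw [e, smul_eq_mul]
      rcases le_or_gt 0 t with ht | ht
      · exact le_of_eq (hh.smul t ht z).symm
      · exact (mul_nonpos_of_nonpos_of_nonneg ht.le (hh.nonneg _)).trans (hh.nonneg _))
  refine ⟨LinearMap.toContinuousLinearMap g, ?_, fun x => hg2 x⟩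
  have h1 := hg1 ⟨z, Submodule.mem_span_singleton_self z⟩
  have e : f ⟨z, Submodule.mem_span_singleton_self z⟩ = h z :=
    LinearPMap.mkSpanSingleton_apply ℝ ℝ hz (h z)
  rw [e] at h1
  exact h1

variable {μ : Measure (EuclideanSpace ℝ (Fin d))} {W : Submodule ℝ (EuclideanSpace ℝ (Fin d))}
  {n : ℕ} {k : EuclideanSpace ℝ (Fin d) → ℝ} {h : EuclideanSpace ℝ (Fin d) → ℝ} {q : ℝ}

theorem inv_of_zero (hh : IsG h) (hW : ∀ w ∈ W, h w = 0) (x w : EuclideanSpace ℝ (Fin d))
    (hw : w ∈ W) : h (x + w) = h x := by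
  apply le_antisymm
  · have := hh.add x w
    rw [hW w hw, add_zero] at this
    exact this
  · have := hh.add (x + w) (-w)
    rw [hW _ (W.neg_mem hw), add_zero, add_neg_cancel_right] at this
    exact this

/-- the mean of `h` plus its value at the opposite of the centroid -/
noncomputable def bb (μ : Measure (EuclideanSpace ℝ (Fin d))) (h : EuclideanSpace ℝ (Fin d) → ℝ) :
    ℝ := (∫ z, h z ∂μ) + h (-∫ z, z ∂μ)

theorem bb_nonneg (hh : IsG h) : 0 ≤ bb μ h :=
  add_nonneg (integral_nonneg fun z => hh.nonneg z) (hh.nonneg _)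

/-- the value at a point and at the opposite point -/
theorem Shift.value [IsProbabilityMeasure μ] (S : Shift μ W n k) (hid : Integrable (fun z => z) μ)
    (hh : IsG h) (hW : ∀ w ∈ W, h w = 0) (v : EuclideanSpace ℝ (Fin d)) (τ : ℝ) (hτ : 0 < τ)
    (hτ1 : τ < 1) : (1 - τ) ^ n * k v ^ τ * τ * max (h v) (h (-v)) ≤ bb μ h := by
  have h1τ : 0 < 1 - τ := by linarith
  set x0 : EuclideanSpace ℝ (Fin d) := ∫ z, z ∂μ with hx0
  have hφint : ∀ φ : EuclideanSpace ℝ (Fin d) →L[ℝ] ℝ, ∫ z, φ z ∂μ = φ x0 := fun φ =>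
    φ.integral_comp_comm hid
  have hφ2 : ∀ φ : EuclideanSpace ℝ (Fin d) →L[ℝ] ℝ, ∫ z, φ ((1 - τ) • z + τ • v) ∂μ
      = (1 - τ) * φ x0 + τ * φ v := by
    intro φ
    have e : ∀ z, φ ((1 - τ) • z + τ • v) = (1 - τ) * φ z + τ * φ v := by
      intro z
      rw [map_add, map_smul, map_smul, smul_eq_mul, smul_eq_mul]
    simp only [e]
    rw [integral_add ((S.int _ φ.continuous).const_mul _) (integrable_const _), integral_const_mul,
      hφint]
    simp
  have hk0 : 0 ≤ k v ^ τ := Real.rpow_nonneg (S.nonneg v) _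
  have hk1 : k v ^ τ ≤ 1 := Real.rpow_le_one (S.nonneg v) (S.le_one v) hτ.le
  have hn0 : 0 ≤ (1 - τ) ^ n := by positivity
  have hn1 : (1 - τ) ^ n ≤ 1 := pow_le_one₀ h1τ.le (by linarith)
  set C : ℝ := (1 - τ) ^ n * k v ^ τ with hC
  have hC0 : 0 ≤ C := mul_nonneg hn0 hk0
  have hC1 : C ≤ 1 := by
    calc C ≤ 1 * 1 := mul_le_mul hn1 hk1 hk0 zero_le_one
      _ = 1 := one_mul 1
  have hcomp : Continuous fun z : EuclideanSpace ℝ (Fin d) => (1 - τ) • z + τ • v := by fun_prop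
  have hx : 0 ≤ h (-x0) := hh.nonneg _
  unfold bb
  rw [← hx0]
  -- the value at `v`
  have c1 : C * (τ * h v) ≤ (∫ z, h z ∂μ) + h (-x0) := by
    obtain ⟨φ, hφv, hφ⟩ := exists_supp hh v
    have h1 := S.shift h hh.cont hh.nonneg (inv_of_zero hh hW) v τ hτ.le hτ1
    have h2 : (1 - τ) * φ x0 + τ * φ v ≤ ∫ z, h ((1 - τ) • z + τ • v) ∂μ := by
      rw [← hφ2]
      exact integral_mono (S.int _ (φ.continuous.comp hcomp)) (S.int _ (hh.cont.comp hcomp))
        fun z => hφ _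
    have h3 : -φ x0 ≤ h (-x0) := by rw [← map_neg]; exact hφ _
    rw [hφv] at h2
    have h4 : C * ((1 - τ) * φ x0 + τ * h v) ≤ ∫ z, h z ∂μ :=
      (mul_le_mul_of_nonneg_left h2 hC0).trans h1
    have h5 : C * (1 - τ) * (-φ x0) ≤ h (-x0) := by
      have h6 : C * (1 - τ) ≤ 1 := by nlinarith
      have h7 : 0 ≤ C * (1 - τ) := mul_nonneg hC0 h1τ.le
      calc C * (1 - τ) * (-φ x0) ≤ C * (1 - τ) * h (-x0) := mul_le_mul_of_nonneg_left h3 h7
        _ ≤ 1 * h (-x0) := mul_le_mul_of_nonneg_right h6 hx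
        _ = h (-x0) := one_mul _
    nlinarith
  -- the value at `-v`
  have c2 : C * (τ * h (-v)) ≤ (∫ z, h z ∂μ) + h (-x0) := by
    obtain ⟨φ, hφv, hφ⟩ := exists_supp hh (-v)
    have hφW : ∀ w ∈ W, φ w = 0 := by
      intro w hw
      have h1 := hφ w
      have h2 := hφ (-w)
      rw [hW w hw] at h1
      rw [hW _ (W.neg_mem hw), map_neg] at h2
      linarith
    have h1 := S.shift (fun z => h z - φ z) (hh.cont.sub φ.continuous)
      (fun x => by have := hφ x; linarith)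
      (fun x w hw => by
        rw [inv_of_zero hh hW x w hw, map_add, hφW w hw, add_zero]) v τ hτ.le hτ1
    have h2 : ∫ z, (-φ) ((1 - τ) • z + τ • v) ∂μ
        ≤ ∫ z, (h ((1 - τ) • z + τ • v) - φ ((1 - τ) • z + τ • v)) ∂μ := by
      refine integral_mono (S.int _ ((-φ).continuous.comp hcomp))
        (S.int _ ((hh.cont.sub φ.continuous).comp hcomp)) fun z => ?_
      show -φ ((1 - τ) • z + τ • v) ≤ _
      have := hh.nonneg ((1 - τ) • z + τ • v)
      linarith
    rw [hφ2 (-φ)] at h2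
    have e1 : (-φ) x0 = -φ x0 := rfl
    have e2 : (-φ) v = h (-v) := by
      rw [← hφv, map_neg]; rfl
    rw [e1, e2] at h2
    have h3 : ∫ z, (h z - φ z) ∂μ = (∫ z, h z ∂μ) - φ x0 := by
      rw [integral_sub (S.int _ hh.cont) (S.int _ φ.continuous), hφint]
    rw [h3] at h1
    have h4 : C * ((1 - τ) * -φ x0 + τ * h (-v)) ≤ (∫ z, h z ∂μ) - φ x0 :=
      (mul_le_mul_of_nonneg_left h2 hC0).trans h1
    have h5 : -φ x0 ≤ h (-x0) := by rw [← map_neg]; exact hφ _
    have h6 : 0 ≤ 1 - C * (1 - τ) := by nlinarith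
    have h7 : (1 - C * (1 - τ)) * (-φ x0) ≤ h (-x0) := by
      calc (1 - C * (1 - τ)) * (-φ x0) ≤ (1 - C * (1 - τ)) * h (-x0) :=
            mul_le_mul_of_nonneg_left h5 h6
        _ ≤ 1 * h (-x0) := by
            refine mul_le_mul_of_nonneg_right ?_ hx
            have := mul_nonneg hC0 h1τ.le
            linarith
        _ = h (-x0) := one_mul _
    nlinarith
  rcases max_cases (h v) (h (-v)) with ⟨h1, _⟩ | ⟨h1, _⟩
  · rw [h1, mul_assoc]; exact c1
  · rw [h1, mul_assoc]; exact c2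

theorem ex_inv (hh : IsG h) (hW : ∀ w ∈ W, h w = 0) (x w u : EuclideanSpace ℝ (Fin d))
    (hw : w ∈ W) : ex q h (x + w) u = ex q h x u := by
  unfold ex
  rw [inv_of_zero hh hW x w hw, show x + w + u = (x + u) + w by abel,
    show x + w - u = (x - u) + w by abel, inv_of_zero hh hW _ w hw, inv_of_zero hh hW _ w hw]

/-- the mean excess in a fixed direction -/
theorem Shift.dir [IsProbabilityMeasure μ] (S : Shift μ W n k) (hq : 2 ≤ q)
    (hh : IsG h) (hW : ∀ w ∈ W, h w = 0) (v : EuclideanSpace ℝ (Fin d)) (t : ℝ) (ht : 0 < t)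
    (ht1 : t < 1) (N : ℕ) (hN : 0 < N) :
    N * ((1 - t) ^ n * (1 - t) ^ q * k v ^ t * ∫ z, ex q h z ((t / N) • v) ^ q ∂μ)
      ≤ 25 * q ^ 2 * (t / N * max (h v) (h (-v))) ^ q := by
  have hq1 : 1 ≤ q := by linarith
  have hq0 : 0 < q := by linarith
  have hhc := hh.cont
  have hN' : (0 : ℝ) < N := by exact_mod_cast hN
  set δ : ℝ := t / N with hδ
  have hδ0 : 0 < δ := by positivity
  have h1t : 0 < 1 - t := by linarith
  set I : ℝ := ∫ z, ex q h z (δ • v) ^ q ∂μ with hI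
  have hI0 : 0 ≤ I := integral_nonneg fun z => Real.rpow_nonneg (ex_nonneg hh hq1 _ _) _
  have hexc : ∀ y : EuclideanSpace ℝ (Fin d) → EuclideanSpace ℝ (Fin d), Continuous y →
      Continuous fun z => ex q h (y z) (δ • v) ^ q := by
    intro y hy
    have : Continuous fun z => ex q h (y z) (δ • v) :=
      ex_cont hq1 (hhc.comp (hy.add continuous_const)) (hhc.comp (hy.sub continuous_const))
        (hhc.comp hy)
    exact this.rpow_const fun _ => Or.inr hq0.le
  have key : ∀ j ∈ Finset.range N, (1 - t) ^ n * (1 - t) ^ q * k v ^ t * I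
      ≤ ∫ z, ex q h (z - (j : ℝ) • (δ • v)) (δ • v) ^ q ∂μ := by
    intro j hj
    have hj' : (j : ℝ) + 1 ≤ N := by exact_mod_cast Finset.mem_range.1 hj
    set s : ℝ := j * δ with hs
    have hs0 : 0 ≤ s := by positivity
    have hst : s ≤ t := by
      have h1 : (j : ℝ) * δ ≤ N * δ := mul_le_mul_of_nonneg_right (by linarith) hδ0.le
      have h2 : (N : ℝ) * δ = t := by rw [hδ]; field_simp
      rw [h2] at h1
      exact h1
    have hs1 : s < 1 := by linarith
    have h1 := S.shift (fun z => ex q h (z - s • v) (δ • v) ^ q)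
      (hexc _ (continuous_id.sub continuous_const))
      (fun x => Real.rpow_nonneg (ex_nonneg hh hq1 _ _) _)
      (fun x w hw => by
        rw [show x + w - s • v = x - s • v + w by abel, ex_inv hh hW _ w _ hw]) v s hs0 hs1
    have e1 : ∀ z : EuclideanSpace ℝ (Fin d), z - (j : ℝ) • (δ • v) = z - s • v := by
      intro z; rw [smul_smul]
    simp only [e1]
    refine le_trans ?_ h1
    have h2 : ∀ z, (1 - s) ^ q * ex q h z (δ • v) ^ q
        ≤ ex q h ((1 - s) • z + s • v - s • v) (δ • v) ^ q := by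
      intro z
      rw [add_sub_cancel_right, ← Real.mul_rpow (by linarith) (ex_nonneg hh hq1 _ _)]
      refine Real.rpow_le_rpow (mul_nonneg (by linarith) (ex_nonneg hh hq1 _ _)) ?_ hq0.le
      exact ex_scale hh hq1 (1 - s) (by linarith) (by linarith) z (δ • v)
    have h3 : (1 - s) ^ q * I ≤ ∫ z, ex q h ((1 - s) • z + s • v - s • v) (δ • v) ^ q ∂μ := by
      rw [hI, ← integral_const_mul]
      refine integral_mono ((S.int _ (hexc _ continuous_id)).const_mul _)
        (S.int _ (hexc _ ?_)) h2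
      fun_prop
    have a1 : (1 - t) ^ n ≤ (1 - s) ^ n := pow_le_pow_left₀ h1t.le (by linarith) n
    have a2 : (1 - t) ^ q ≤ (1 - s) ^ q := Real.rpow_le_rpow h1t.le (by linarith) hq0.le
    have a3 : k v ^ t ≤ k v ^ s :=
      Real.rpow_le_rpow_of_exponent_ge' (S.nonneg v) (S.le_one v) hs0 hst
    have b1 : 0 ≤ (1 - t) ^ n := by positivity
    have b2 : 0 ≤ (1 - t) ^ q := by positivity
    have b3 : 0 ≤ k v ^ t := Real.rpow_nonneg (S.nonneg v) _
    have b4 : 0 ≤ (1 - s) ^ n := b1.trans a1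
    have b5 : 0 ≤ k v ^ s := b3.trans a3
    calc (1 - t) ^ n * (1 - t) ^ q * k v ^ t * I
        = (1 - t) ^ n * k v ^ t * ((1 - t) ^ q * I) := by ring
      _ ≤ (1 - s) ^ n * k v ^ s * ((1 - s) ^ q * I) := by
          refine mul_le_mul (mul_le_mul a1 a3 b3 b4) (mul_le_mul_of_nonneg_right a2 hI0)
            (mul_nonneg b2 hI0) (mul_nonneg b4 b5)
      _ ≤ (1 - s) ^ n * k v ^ s
          * ∫ z, ex q h ((1 - s) • z + s • v - s • v) (δ • v) ^ q ∂μ :=
          mul_le_mul_of_nonneg_left h3 (mul_nonneg b4 b5)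
  have hsum := Finset.sum_le_sum key
  rw [Finset.sum_const, Finset.card_range, nsmul_eq_mul] at hsum
  refine hsum.trans ?_
  have hji : ∀ j : ℕ, Integrable (fun z => ex q h (z - (j : ℝ) • (δ • v)) (δ • v) ^ q) μ :=
    fun j => S.int _ (hexc _ (continuous_id.sub continuous_const))
  rw [← integral_finsetSum _ fun j _ => hji j]
  have hline : ∀ z, ∑ j ∈ Finset.range N, ex q h (z - (j : ℝ) • (δ • v)) (δ • v) ^ q
      ≤ 25 * q ^ 2 * (δ * max (h v) (h (-v))) ^ q := by
    intro z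
    have h1 := ex_line hh hq z (δ • v) N
    have e : max (h (δ • v)) (h (-(δ • v))) = δ * max (h v) (h (-v)) := by
      rw [← smul_neg, hh.smul δ hδ0.le, hh.smul δ hδ0.le, mul_max_of_nonneg _ _ hδ0.le]
    rwa [e] at h1
  calc ∫ z, ∑ j ∈ Finset.range N, ex q h (z - (j : ℝ) • (δ • v)) (δ • v) ^ q ∂μ
      ≤ ∫ _, 25 * q ^ 2 * (δ * max (h v) (h (-v))) ^ q ∂μ := by
        refine integral_mono ?_ (integrable_const _) hline
        exact integrable_finsetSum _ fun j _ => hji j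
    _ = _ := by simp

end Pool.Agent.Run7.h924.Sm
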