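import Mathlib
import Pool.Agent.Run7.h924.AsB
import Pool.Agent.Run7.h924.SmC
import Pool.Agent.Run7.h924.SmD

set_option autoImplicit false
set_option linter.unusedSectionVars false

/-!
# The double mean of the excess
-/

namespace Pool.Agent.Run7.h924.Sm

open MeasureTheory Set Filter
open scoped ENNReal
open Pool.Agent.TH591.Ns (IsG)
open Pool.Agent.Run7.h924.As

variable {d : ℕ}

section
variable {μ : Measure (EuclideanSpace ℝ (Fin d))} {W : Submodule ℝ (EuclideanSpace ℝ (Fin d))}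
  {n : ℕ} {k : EuclideanSpace ℝ (Fin d) → ℝ} {h : EuclideanSpace ℝ (Fin d) → ℝ} {q : ℝ}

/-- the constant -/
noncomputable def lam (p q δ B : ℝ) : ℝ := 100 * p * q ^ 2 * δ ^ (q + 1) * (8 / 3 * p * q * B) ^ q

theorem pow_half (p : ℝ) (hp : 2 ≤ p) : 1 / 4 ≤ (1 - 1 / p) ^ p := by
  have hp0 : 0 < p := by linarith
  have h1 := one_add_mul_self_le_rpow_one_add (s := -(1 / p)) (by
    have : 1 / p ≤ 1 := by rw [div_le_one hp0]; linarith
    linarith) (p := p / 2) (by linarith)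
  have e1 : 1 + p / 2 * -(1 / p) = 1 / 2 := by
    field_simp; norm_num
  rw [e1, ← sub_eq_add_neg] at h1
  have h2 : 0 ≤ 1 - 1 / p := by
    have : 1 / p ≤ 1 := by rw [div_le_one hp0]; linarith
    linarith
  have e2 : (1 - 1 / p) ^ p = ((1 - 1 / p) ^ (p / 2)) ^ 2 := by
    rw [← Real.rpow_natCast, ← Real.rpow_mul h2]
    congr 1
    push_cast
    ring
  rw [e2]
  calc (1 / 4 : ℝ) = (1 / 2) ^ 2 := by norm_num
    _ ≤ _ := pow_le_pow_left₀ (by norm_num) h1 2

theorem Shift.combine [IsProbabilityMeasure μ] (S : Shift μ W n k)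
    (hid : Integrable (fun z => z) μ) (hq : 2 ≤ q) (hh : IsG h) (hW : ∀ w ∈ W, h w = 0)
    (p : ℝ) (hp : p = n + q) (N : ℕ) (hN : 0 < N) (v : EuclideanSpace ℝ (Fin d)) :
    k v ^ (1 / p) * ∫ z, ex q h z ((1 / (2 * p) / N) • v) ^ q ∂μ
      ≤ lam p q (1 / (2 * p) / N) (bb μ h) := by
  have hq1 : 1 ≤ q := by linarith
  have hq0 : 0 < q := by linarith
  have hn0 : (0 : ℝ) ≤ n := Nat.cast_nonneg n
  have hp2 : 2 ≤ p := by rw [hp]; linarith
  have hp0 : 0 < p := by linarith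
  have hN' : (0 : ℝ) < N := by exact_mod_cast hN
  set t : ℝ := 1 / (2 * p) with ht
  set τ : ℝ := 1 / (2 * p * q) with hτ
  have ht0 : 0 < t := by positivity
  have hτ0 : 0 < τ := by positivity
  have ht1 : t < 1 := by
    rw [ht, div_lt_one (by positivity)]; linarith
  have hτt : τ * q = t := by
    rw [hτ, ht]; field_simp
  have hτ1 : τ < 1 := by
    have : τ * 1 ≤ τ * q := mul_le_mul_of_nonneg_left hq1 hτ0.le
    rw [hτt] at this
    linarith
  set δ : ℝ := t / N with hδ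
  have hδ0 : 0 < δ := by positivity
  set G : ℝ := max (h v) (h (-v)) with hG
  have hG0 : 0 ≤ G := (hh.nonneg v).trans (le_max_left _ _)
  set B : ℝ := bb μ h with hB
  have hB0 : 0 ≤ B := bb_nonneg hh
  set I : ℝ := ∫ z, ex q h z (δ • v) ^ q ∂μ with hI
  have hI0 : 0 ≤ I := integral_nonneg fun z => Real.rpow_nonneg (ex_nonneg hh hq1 _ _) _
  have hk := S.nonneg v
  have h1 := S.value hid hh hW v τ hτ0 hτ1
  have h2 := S.dir hq hh hW v t ht0 ht1 N hN
  rw [← hG, ← hB] at h1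
  rw [← hG, ← hδ, ← hI] at h2
  -- constants
  have b1 : 3 / 4 ≤ (1 - τ) ^ n := by
    have h3 := one_add_mul_le_pow (a := -τ) (by linarith) n
    rw [← sub_eq_add_neg] at h3
    refine le_trans ?_ h3
    have h4 : (n : ℝ) * τ ≤ 1 / 4 := by
      have h5 : (n : ℝ) ≤ p := by rw [hp]; linarith
      calc (n : ℝ) * τ ≤ p * τ := mul_le_mul_of_nonneg_right h5 hτ0.le
        _ = 1 / (2 * q) := by rw [hτ]; field_simp
        _ ≤ 1 / 4 := by
            apply one_div_le_one_div_of_le (by norm_num); linarith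
    linarith
  have b2 : 1 / 2 ≤ (1 - t) ^ n * (1 - t) ^ q := by
    have h1t : 0 < 1 - t := by linarith
    rw [← Real.rpow_natCast, ← Real.rpow_add h1t, ← hp]
    have h3 := one_add_mul_self_le_rpow_one_add (s := -t) (by linarith) (p := p) (by linarith)
    rw [← sub_eq_add_neg] at h3
    refine le_trans (le_of_eq ?_) h3
    rw [ht]
    field_simp
    norm_num
  -- the value
  have c1 : k v ^ τ * G ≤ 8 / 3 * p * q * B := by
    have h3 : 0 ≤ k v ^ τ * G := mul_nonneg (Real.rpow_nonneg hk _) hG0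
    have h4 : 3 / 4 * τ * (k v ^ τ * G) ≤ B := by
      calc 3 / 4 * τ * (k v ^ τ * G) = 3 / 4 * (τ * (k v ^ τ * G)) := by ring
        _ ≤ (1 - τ) ^ n * (τ * (k v ^ τ * G)) :=
            mul_le_mul_of_nonneg_right b1 (mul_nonneg hτ0.le h3)
        _ = (1 - τ) ^ n * k v ^ τ * τ * G := by ring
        _ ≤ B := h1
    have h5 : k v ^ τ * G ≤ B / (3 / 4 * τ) := by
      rw [le_div_iff₀ (by positivity), mul_comm]
      exact h4
    refine h5.trans (le_of_eq ?_)
    rw [hτ]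
    field_simp
    ring
  have c2 : k v ^ t * G ^ q ≤ (8 / 3 * p * q * B) ^ q := by
    have h3 : (k v ^ τ * G) ^ q = k v ^ t * G ^ q := by
      rw [Real.mul_rpow (Real.rpow_nonneg hk _) hG0, ← Real.rpow_mul hk, hτt]
    rw [← h3]
    exact Real.rpow_le_rpow (mul_nonneg (Real.rpow_nonneg hk _) hG0) c1 hq0.le
  have hkt : 0 ≤ k v ^ t := Real.rpow_nonneg hk _
  have c3 : N * (1 / 2) * (k v ^ t * I) ≤ 25 * q ^ 2 * (δ ^ q * G ^ q) := by
    rw [← Real.mul_rpow hδ0.le hG0]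
    refine le_trans ?_ h2
    have h3 : 0 ≤ k v ^ t * I := mul_nonneg hkt hI0
    calc N * (1 / 2) * (k v ^ t * I) = N * (1 / 2 * (k v ^ t * I)) := by ring
      _ ≤ N * ((1 - t) ^ n * (1 - t) ^ q * (k v ^ t * I)) :=
          mul_le_mul_of_nonneg_left (mul_le_mul_of_nonneg_right b2 h3) hN'.le
      _ = _ := by ring
  have c4 : N * (1 / 2) * (k v ^ (1 / p) * I)
      ≤ 25 * q ^ 2 * (δ ^ q * (8 / 3 * p * q * B) ^ q) := by
    have h3 : k v ^ (1 / p) = k v ^ t * k v ^ t := by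
      rw [← Real.rpow_add_of_nonneg hk ht0.le ht0.le]
      congr 1
      rw [ht]; field_simp; norm_num
    calc N * (1 / 2) * (k v ^ (1 / p) * I) = k v ^ t * (N * (1 / 2) * (k v ^ t * I)) := by
          rw [h3]; ring
      _ ≤ k v ^ t * (25 * q ^ 2 * (δ ^ q * G ^ q)) := mul_le_mul_of_nonneg_left c3 hkt
      _ = 25 * q ^ 2 * (δ ^ q * (k v ^ t * G ^ q)) := by ring
      _ ≤ 25 * q ^ 2 * (δ ^ q * (8 / 3 * p * q * B) ^ q) := by
          refine mul_le_mul_of_nonneg_left ?_ (by positivity)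
          exact mul_le_mul_of_nonneg_left c2 (by positivity)
  have hNδ : (N : ℝ) = t / δ := by
    rw [hδ]; field_simp
  unfold lam
  have h6 : δ ^ (q + 1) = δ ^ q * δ := by
    rw [Real.rpow_add hδ0, Real.rpow_one]
  rw [hNδ] at c4
  have h7 : t / δ * (1 / 2) * (k v ^ (1 / p) * I) = (k v ^ (1 / p) * I) / (4 * p * δ) := by
    rw [ht]; field_simp; ring
  rw [h7, div_le_iff₀ (by positivity)] at c4
  refine c4.trans (le_of_eq ?_)
  rw [h6]
  ring

/-- **The double mean of the excess.** -/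
theorem Shift.total [IsProbabilityMeasure μ] (S : Shift μ W n k)
    (hid : Integrable (fun z => z) μ) (hq : 2 ≤ q) (hh : IsG h) (hW : ∀ w ∈ W, h w = 0)
    (p : ℝ) (hp : p = n + q) (N : ℕ) (hN : 0 < N) :
    ∫ v, ∫ z, ex q h z ((1 / (2 * p) / N) • v) ^ q ∂μ ∂μ
      ≤ 8 * lam p q (1 / (2 * p) / N) (bb μ h) := by
  have hq1 : 1 ≤ q := by linarith
  have hq0 : 0 < q := by linarith
  have hn0 : (0 : ℝ) ≤ n := Nat.cast_nonneg n
  have hp2 : 2 ≤ p := by rw [hp]; linarith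
  have hp0 : 0 < p := by linarith
  have hN' : (0 : ℝ) < N := by exact_mod_cast hN
  set δ : ℝ := 1 / (2 * p) / N with hδ
  have hδ0 : 0 < δ := by positivity
  set Λ : ℝ := lam p q δ (bb μ h) with hΛ
  have hB0 : 0 ≤ bb μ h := bb_nonneg hh
  have hΛ0 : 0 ≤ Λ := by rw [hΛ]; unfold lam; positivity
  set I : EuclideanSpace ℝ (Fin d) → ℝ := fun v => ∫ z, ex q h z (δ • v) ^ q ∂μ with hI
  have hI0 : ∀ v, 0 ≤ I v := fun v =>
    integral_nonneg fun z => Real.rpow_nonneg (ex_nonneg hh hq1 _ _) _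
  have hhc := hh.cont
  have hjoint : Continuous fun x : EuclideanSpace ℝ (Fin d) × EuclideanSpace ℝ (Fin d) =>
      ex q h x.2 (δ • x.1) ^ q := by
    have : Continuous fun x : EuclideanSpace ℝ (Fin d) × EuclideanSpace ℝ (Fin d) =>
        ex q h x.2 (δ • x.1) :=
      ex_cont hq1 (hhc.comp (continuous_snd.add (continuous_fst.const_smul δ)))
        (hhc.comp (continuous_snd.sub (continuous_fst.const_smul δ))) (hhc.comp continuous_snd)
    exact this.rpow_const fun _ => Or.inr hq0.le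
  have hIm : StronglyMeasurable I := hjoint.stronglyMeasurable.integral_prod_right'
  set θ : ℝ := 1 / p with hθ
  have hθ0 : 0 < θ := by positivity
  have hθ1 : θ < 1 := by
    rw [hθ, div_lt_one hp0]; linarith
  have h1θ : 0 < 1 - θ := by linarith
  have hneg := S.neg θ hθ0 hθ1
  have hkm : Measurable fun v => ENNReal.ofReal (k v) ^ (-θ) := S.meas.ennreal_ofReal.pow_const _
  have hfin : ∫⁻ v, ENNReal.ofReal (k v) ^ (-θ) ∂μ ≠ ⊤ :=
    ne_top_of_le_ne_top ENNReal.ofReal_ne_top hneg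
  have hae := ae_lt_top hkm hfin
  have hle : ∫⁻ v, ENNReal.ofReal (I v) ∂μ
      ≤ ∫⁻ v, ENNReal.ofReal Λ * ENNReal.ofReal (k v) ^ (-θ) ∂μ := by
    refine lintegral_mono_ae ?_
    filter_upwards [hae] with v hv
    have hk0 : 0 < k v := by
      by_contra hcon
      rw [not_lt] at hcon
      rw [ENNReal.ofReal_of_nonpos hcon, ENNReal.zero_rpow_of_neg (by linarith)] at hv
      exact lt_irrefl _ hv
    have h1 := S.combine hid hq hh hW p hp N hN v
    rw [← hδ, ← hΛ, ← hθ] at h1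
    rw [ENNReal.ofReal_rpow_of_pos hk0, ← ENNReal.ofReal_mul hΛ0]
    apply ENNReal.ofReal_le_ofReal
    have h2 : I v = k v ^ (-θ) * (k v ^ θ * I v) := by
      rw [← mul_assoc, ← Real.rpow_add hk0, neg_add_cancel, Real.rpow_zero, one_mul]
    rw [h2, mul_comm Λ]
    exact mul_le_mul_of_nonneg_left h1 (Real.rpow_nonneg hk0.le _)
  have h8 : 2 / (1 - θ) ^ n ≤ 8 := by
    have h3 : 1 / 4 ≤ (1 - θ) ^ n := by
      refine (pow_half p hp2).trans ?_
      rw [← hθ, ← Real.rpow_natCast]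
      exact Real.rpow_le_rpow_of_exponent_ge h1θ (by linarith) (by rw [hp]; linarith)
    rw [div_le_iff₀ (by positivity)]
    linarith
  have hbound : ∫⁻ v, ENNReal.ofReal (I v) ∂μ ≤ ENNReal.ofReal (8 * Λ) := by
    refine hle.trans ?_
    rw [lintegral_const_mul' _ _ ENNReal.ofReal_ne_top]
    calc ENNReal.ofReal Λ * ∫⁻ v, ENNReal.ofReal (k v) ^ (-θ) ∂μ
        ≤ ENNReal.ofReal Λ * ENNReal.ofReal (2 / (1 - θ) ^ n) := by gcongr
      _ = ENNReal.ofReal (Λ * (2 / (1 - θ) ^ n)) := (ENNReal.ofReal_mul hΛ0).symm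
      _ ≤ ENNReal.ofReal (8 * Λ) := by
          apply ENNReal.ofReal_le_ofReal
          rw [mul_comm 8]
          exact mul_le_mul_of_nonneg_left h8 hΛ0
  show ∫ v, I v ∂μ ≤ 8 * Λ
  rw [integral_eq_lintegral_of_nonneg_ae (Eventually.of_forall hI0) hIm.aestronglyMeasurable]
  exact ENNReal.toReal_le_of_le_ofReal (by positivity) hbound

end

section
variable {g : EuclideanSpace ℝ (Fin d) → ℝ} {c : ℝ}

theorem mu_lint (f : EuclideanSpace ℝ (Fin d) → ℝ≥0∞) :
    ∫⁻ z, f z ∂(mu g) = (volume (GB g))⁻¹ * ∫⁻ z in GB g, f z := by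
  unfold mu
  rw [lintegral_smul_measure, smul_eq_mul]

theorem exists_shift (hg : IsG g) (hc : 0 < c) (hp : ∀ x, c * ‖x‖ ≤ g x)
    (W : Submodule ℝ (EuclideanSpace ℝ (Fin d))) (n : ℕ) (hn : d ≤ Module.finrank ℝ W + n) :
    ∃ k : EuclideanSpace ℝ (Fin d) → ℝ, Shift (mu g) W n k := by
  have hV0 := gb_ne0 hg
  have hVt := gb_fin hg hc hp
  obtain ⟨κ, hκm, hκ1, hS, hN⟩ := marg (GB g) (gb_convex hg) (gb_compact hg hc hp) hV0 W n (by
    rw [finrank_euclideanSpace_fin]; exact hn)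
  have hκt : ∀ v, κ v ≠ ⊤ := fun v => ne_top_of_le_ne_top ENNReal.one_ne_top (hκ1 v)
  have hκr : ∀ v, ENNReal.ofReal (κ v).toReal = κ v := fun v => ENNReal.ofReal_toReal (hκt v)
  refine ⟨fun v => (κ v).toReal, fun v => ENNReal.toReal_nonneg, fun v => ?_, hκm.ennreal_toReal,
    fun f hf => mu_int hg hc hp hf, ?_, ?_⟩
  · exact ENNReal.toReal_le_of_le_ofReal zero_le_one (by simpa using hκ1 v)
  · intro f hf hf0 hinv v s hs0 hs1
    have h1 := hS (fun x => ENNReal.ofReal (f x)) hf.measurable.ennreal_ofReal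
      (fun x w hw => by rw [hinv x w hw]) v s hs0 hs1
    have hc2 : Continuous fun z : EuclideanSpace ℝ (Fin d) => f ((1 - s) • z + s • v) := by
      fun_prop
    have h2 : ENNReal.ofReal ((1 - s) ^ n) * κ v ^ s
        * ∫⁻ z, ENNReal.ofReal (f ((1 - s) • z + s • v)) ∂(mu g)
        ≤ ∫⁻ z, ENNReal.ofReal (f z) ∂(mu g) := by
      rw [mu_lint, mu_lint]
      calc ENNReal.ofReal ((1 - s) ^ n) * κ v ^ s * ((volume (GB g))⁻¹
            * ∫⁻ z in GB g, ENNReal.ofReal (f ((1 - s) • z + s • v)))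
          = (volume (GB g))⁻¹ * (ENNReal.ofReal ((1 - s) ^ n) * κ v ^ s
            * ∫⁻ z in GB g, ENNReal.ofReal (f ((1 - s) • z + s • v))) := by ring
        _ ≤ _ := by gcongr
    have := mu_prob hg hc hp
    rw [← ofReal_integral_eq_lintegral_ofReal (mu_int hg hc hp hf)
      (Eventually.of_forall hf0), ← ofReal_integral_eq_lintegral_ofReal (mu_int hg hc hp hc2)
      (Eventually.of_forall fun z => hf0 _)] at h2
    have e : κ v ^ s = ENNReal.ofReal ((κ v).toReal ^ s) := by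
      rw [← ENNReal.ofReal_rpow_of_nonneg ENNReal.toReal_nonneg hs0, hκr]
    have h1s : 0 ≤ (1 - s) ^ n := pow_nonneg (by linarith) n
    rw [e, ← ENNReal.ofReal_mul h1s, ← ENNReal.ofReal_mul (mul_nonneg h1s
      (Real.rpow_nonneg ENNReal.toReal_nonneg _)), ENNReal.ofReal_le_ofReal_iff
      (integral_nonneg hf0)] at h2
    exact h2
  · intro θ hθ0 hθ1
    simp only [hκr]
    rw [mu_lint]
    calc (volume (GB g))⁻¹ * ∫⁻ v in GB g, κ v ^ (-θ)
        ≤ (volume (GB g))⁻¹ * (ENNReal.ofReal (2 / (1 - θ) ^ n) * volume (GB g)) := by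
          gcongr
          exact hN θ hθ0 hθ1
      _ = ENNReal.ofReal (2 / (1 - θ) ^ n) * ((volume (GB g))⁻¹ * volume (GB g)) := by ring
      _ = ENNReal.ofReal (2 / (1 - θ) ^ n) := by
          rw [ENNReal.inv_mul_cancel hV0 hVt, mul_one]

end

end Pool.Agent.Run7.h924.Sm
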