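import Mathlib
import Pool.Agent.Run7.h924.LatE
import Pool.Agent.Run7.h924.SmE

set_option autoImplicit false
set_option linter.unusedSectionVars false

/-!
# Lattice sums of sublinear functions: the average of the norm of the excess
-/

namespace Pool.Agent.Run7.h924.Sm

open MeasureTheory Set Filter
open scoped ENNReal
open Pool.Agent.TH591.Ns (IsG)
open Pool.Agent.Run7.h924.As
open Pool.Agent.Run7.h924.Lat (IsQLat root Th Th_cont Th_concave root_cont root_apply nonneg_closed)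

variable {d : ℕ} {Ω : Type*} [TopologicalSpace Ω] [CompactSpace Ω] {q : ℝ} {N : C(Ω, ℝ) → ℝ}

/-- a family of nonnegative sublinear functions, each of which vanishes on a subspace of codimension
at most `n` -/
structure IsFam (n : ℕ) (F : EuclideanSpace ℝ (Fin d) → C(Ω, ℝ)) : Prop where
  nonneg : ∀ x ω, 0 ≤ F x ω
  add : ∀ x y ω, F (x + y) ω ≤ F x ω + F y ω
  smul : ∀ c : ℝ, 0 ≤ c → ∀ x ω, F (c • x) ω = c * F x ω
  rank : ∀ ω, ∃ W : Submodule ℝ (EuclideanSpace ℝ (Fin d)), (∀ w ∈ W, F w ω = 0) ∧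
    d ≤ Module.finrank ℝ W + n

variable {n : ℕ} {F : EuclideanSpace ℝ (Fin d) → C(Ω, ℝ)}

theorem IsFam.zero (H : IsFam n F) (ω : Ω) : F 0 ω = 0 := by
  have h := H.smul 0 le_rfl 0 ω
  simpa using h

theorem IsFam.sum_le (H : IsFam n F) {ι : Type*} (S : Finset ι)
    (f : ι → EuclideanSpace ℝ (Fin d)) (ω : Ω) : F (∑ i ∈ S, f i) ω ≤ ∑ i ∈ S, F (f i) ω := by
  classical
  induction S using Finset.induction_on with
  | empty => simp [H.zero]
  | insert i S hi ih =>
    rw [Finset.sum_insert hi, Finset.sum_insert hi]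
    exact (H.add _ _ ω).trans (by linarith)

theorem IsFam.le_norm (H : IsFam n F) : ∃ C : ℝ, 0 ≤ C ∧ ∀ x ω, F x ω ≤ C * ‖x‖ := by
  set b := EuclideanSpace.basisFun (Fin d) ℝ with hb
  refine ⟨∑ i, (‖F (b i)‖ + ‖F (-b i)‖), by positivity, fun x ω => ?_⟩
  have e : x = ∑ i, (x i) • b i := by
    conv_lhs => rw [← b.sum_repr x]
    rfl
  have h1 := H.sum_le Finset.univ (fun i => (x i) • b i) ω
  rw [← e] at h1
  refine h1.trans ?_
  rw [Finset.sum_mul]
  refine Finset.sum_le_sum fun i _ => ?_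
  have h2 : |x i| ≤ ‖x‖ := by
    have := PiLp.norm_apply_le x i
    rwa [Real.norm_eq_abs] at this
  have h3 : F (b i) ω ≤ ‖F (b i)‖ := (le_abs_self _).trans ((F (b i)).norm_coe_le_norm ω)
  have h4 : F (-b i) ω ≤ ‖F (-b i)‖ := (le_abs_self _).trans ((F (-b i)).norm_coe_le_norm ω)
  have h5 := H.nonneg (b i) ω
  have h6 := H.nonneg (-b i) ω
  rcases le_total 0 (x i) with h | h
  · rw [H.smul _ h]
    rw [abs_of_nonneg h] at h2
    calc x i * F (b i) ω ≤ ‖x‖ * ‖F (b i)‖ := mul_le_mul h2 h3 h5 (norm_nonneg _)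
      _ ≤ ‖x‖ * (‖F (b i)‖ + ‖F (-b i)‖) := by
          refine mul_le_mul_of_nonneg_left ?_ (norm_nonneg _)
          linarith [norm_nonneg (F (-b i))]
      _ = _ := mul_comm _ _
  · have e2 : (x i) • b i = (-x i) • (-b i) := by rw [neg_smul_neg]
    rw [e2, H.smul _ (by linarith)]
    rw [abs_of_nonpos h] at h2
    calc -x i * F (-b i) ω ≤ ‖x‖ * ‖F (-b i)‖ := mul_le_mul h2 h4 h6 (norm_nonneg _)
      _ ≤ ‖x‖ * (‖F (b i)‖ + ‖F (-b i)‖) := by
          refine mul_le_mul_of_nonneg_left ?_ (norm_nonneg _)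
          linarith [norm_nonneg (F (b i))]
      _ = _ := mul_comm _ _

theorem IsFam.cont (H : IsFam n F) : Continuous F := by
  obtain ⟨C, hC0, hC⟩ := H.le_norm
  have hL : LipschitzWith ⟨C, hC0⟩ F := by
    refine LipschitzWith.of_dist_le_mul fun x y => ?_
    rw [dist_eq_norm, dist_eq_norm, ContinuousMap.norm_le _ (by positivity)]
    intro ω
    show ‖F x ω - F y ω‖ ≤ C * ‖x - y‖
    rw [Real.norm_eq_abs, abs_le]
    have h1 := H.add (x - y) y ω
    have h2 := H.add (y - x) x ω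
    rw [sub_add_cancel] at h1 h2
    have h3 := hC (x - y) ω
    have h4 := hC (y - x) ω
    rw [norm_sub_rev y x] at h4
    constructor <;> linarith
  exact hL.continuous

theorem IsFam.joint (H : IsFam n F) :
    Continuous fun x : EuclideanSpace ℝ (Fin d) × Ω => F x.1 x.2 :=
  ContinuousEval.continuous_eval.comp ((H.cont.comp continuous_fst).prodMk continuous_snd)

theorem IsFam.isG (H : IsFam n F) (ω : Ω) : IsG fun x => F x ω where
  nonneg x := H.nonneg x ω
  add x y := H.add x y ω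
  smul c hc x := H.smul c hc x ω
  cont := (ContinuousEvalConst.continuous_eval_const ω).comp H.cont

theorem IsFam.isG_norm (H : IsFam n F) (L : IsQLat q N) : IsG fun x => N (F x) where
  nonneg x := L.nonneg _
  add x y := by
    refine le_trans (L.mono _ (F x + F y) fun ω => ?_) (L.add _ _)
    rw [ContinuousMap.add_apply, abs_of_nonneg (H.nonneg _ _),
      abs_of_nonneg (add_nonneg (H.nonneg _ _) (H.nonneg _ _))]
    exact H.add x y ω
  smul c hc x := by
    have e : F (c • x) = c • F x := by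
      ext ω
      rw [H.smul c hc, ContinuousMap.smul_apply, smul_eq_mul]
    rw [e, L.smul, abs_of_nonneg hc]
  cont := L.cont.comp H.cont

theorem joint_z (H : IsFam n F) (s : ℝ) :
    (Continuous fun x : (EuclideanSpace ℝ (Fin d) × EuclideanSpace ℝ (Fin d)) × Ω =>
      F (x.1.2 + s • x.1.1) x.2) ∧
    (Continuous fun x : (EuclideanSpace ℝ (Fin d) × EuclideanSpace ℝ (Fin d)) × Ω =>
      F (x.1.2 - s • x.1.1) x.2) ∧
    (Continuous fun x : (EuclideanSpace ℝ (Fin d) × EuclideanSpace ℝ (Fin d)) × Ω =>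
      F x.1.2 x.2) := by
  have h1 : Continuous fun x : (EuclideanSpace ℝ (Fin d) × EuclideanSpace ℝ (Fin d)) × Ω => x.1.2 :=
    continuous_snd.comp continuous_fst
  have h2 : Continuous fun x : (EuclideanSpace ℝ (Fin d) × EuclideanSpace ℝ (Fin d)) × Ω => x.1.1 :=
    continuous_fst.comp continuous_fst
  exact ⟨H.joint.comp ((h1.add (h2.const_smul s)).prodMk continuous_snd),
    H.joint.comp ((h1.sub (h2.const_smul s)).prodMk continuous_snd),
    H.joint.comp (h1.prodMk continuous_snd)⟩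

/-- the mean of order `q` of `F (z + s v)` and `F (z - s v)` -/
noncomputable def Mf (F : EuclideanSpace ℝ (Fin d) → C(Ω, ℝ)) (q : ℝ) (hq : 1 ≤ q) (s : ℝ)
    (x : EuclideanSpace ℝ (Fin d) × EuclideanSpace ℝ (Fin d)) : C(Ω, ℝ) :=
  ⟨fun ω => mp q (F (x.2 + s • x.1) ω) (F (x.2 - s • x.1) ω),
    mp_cont q hq (F (x.2 + s • x.1)).continuous (F (x.2 - s • x.1)).continuous⟩

/-- its excess -/
noncomputable def Gf (F : EuclideanSpace ℝ (Fin d) → C(Ω, ℝ)) (q : ℝ) (hq : 1 ≤ q) (s : ℝ)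
    (x : EuclideanSpace ℝ (Fin d) × EuclideanSpace ℝ (Fin d)) : C(Ω, ℝ) :=
  ⟨fun ω => mp q (F (x.2 + s • x.1) ω) (F (x.2 - s • x.1) ω) - F x.2 ω,
    ex_cont hq (F (x.2 + s • x.1)).continuous (F (x.2 - s • x.1)).continuous (F x.2).continuous⟩

/-- the power of the excess -/
noncomputable def Hf (F : EuclideanSpace ℝ (Fin d) → C(Ω, ℝ)) (q : ℝ) (hq : 1 ≤ q) (s : ℝ)
    (x : EuclideanSpace ℝ (Fin d) × EuclideanSpace ℝ (Fin d)) : C(Ω, ℝ) :=
  ⟨fun ω => (mp q (F (x.2 + s • x.1) ω) (F (x.2 - s • x.1) ω) - F x.2 ω) ^ q,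
    (ex_cont hq (F (x.2 + s • x.1)).continuous (F (x.2 - s • x.1)).continuous
      (F x.2).continuous).rpow_const fun _ => Or.inr (by linarith)⟩

theorem Gf_apply (hq : 1 ≤ q) (s : ℝ) (x : EuclideanSpace ℝ (Fin d) × EuclideanSpace ℝ (Fin d))
    (ω : Ω) : Gf F q hq s x ω = ex q (fun y => F y ω) x.2 (s • x.1) := rfl

theorem Hf_apply (hq : 1 ≤ q) (s : ℝ) (x : EuclideanSpace ℝ (Fin d) × EuclideanSpace ℝ (Fin d))
    (ω : Ω) : Hf F q hq s x ω = ex q (fun y => F y ω) x.2 (s • x.1) ^ q := rfl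

theorem Gf_cont (H : IsFam n F) (hq : 1 ≤ q) (s : ℝ) : Continuous (Gf F q hq s) := by
  obtain ⟨h1, h2, h3⟩ := joint_z H s
  refine ContinuousMap.continuous_of_continuous_uncurry _ ?_
  exact ex_cont hq h1 h2 h3

theorem Hf_cont (H : IsFam n F) (hq : 1 ≤ q) (s : ℝ) : Continuous (Hf F q hq s) := by
  obtain ⟨h1, h2, h3⟩ := joint_z H s
  refine ContinuousMap.continuous_of_continuous_uncurry _ ?_
  exact (ex_cont hq h1 h2 h3).rpow_const fun _ => Or.inr (by linarith)

theorem root_Hf (H : IsFam n F) (hq : 1 ≤ q) (s : ℝ)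
    (x : EuclideanSpace ℝ (Fin d) × EuclideanSpace ℝ (Fin d)) :
    root q hq (Hf F q hq s x) = Gf F q hq s x := by
  ext ω
  have h0 := ex_nonneg (H.isG ω) hq x.2 (s • x.1)
  rw [root_apply, Hf_apply, Gf_apply, abs_of_nonneg (Real.rpow_nonneg h0 _), ← Real.rpow_mul h0,
    mul_one_div_cancel (by linarith), Real.rpow_one]

/-- the pointwise second difference -/
theorem second (H : IsFam n F) (L : IsQLat q N) (hq : 1 ≤ q) (s : ℝ)
    (x : EuclideanSpace ℝ (Fin d) × EuclideanSpace ℝ (Fin d)) :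
    (N (F (x.2 + s • x.1)) + N (F (x.2 - s • x.1))) / 2 - N (F x.2) ≤ N (Gf F q hq s x) := by
  have hq0 : 0 < q := by linarith
  set c2 : ℝ := (1 / 2) ^ (1 / q) with hc2
  have hc20 : 0 ≤ c2 := by positivity
  have hc2q : c2 ^ q = 1 / 2 := by
    rw [hc2, ← Real.rpow_mul (by norm_num), one_div_mul_cancel hq0.ne', Real.rpow_one]
  have h1 := L.concave (c2 • F (x.2 + s • x.1)) (c2 • F (x.2 - s • x.1)) (Mf F q hq s x) (by
    intro ω
    have a1 := H.nonneg (x.2 + s • x.1) ω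
    have a2 := H.nonneg (x.2 - s • x.1) ω
    have e3 : Mf F q hq s x ω = mp q (F (x.2 + s • x.1) ω) (F (x.2 - s • x.1) ω) := rfl
    rw [ContinuousMap.smul_apply, ContinuousMap.smul_apply, smul_eq_mul, smul_eq_mul, e3,
      abs_of_nonneg (mul_nonneg hc20 a1), abs_of_nonneg (mul_nonneg hc20 a2),
      abs_of_nonneg (mp_nonneg _ _ _ a1 a2), mp_pow _ _ _ hq a1 a2, Real.mul_rpow hc20 a1,
      Real.mul_rpow hc20 a2, hc2q]
    ring)
  rw [L.smul, L.smul, abs_of_nonneg hc20, Real.mul_rpow hc20 (L.nonneg _),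
    Real.mul_rpow hc20 (L.nonneg _), hc2q] at h1
  have h2 := mean_le_mp q _ _ hq (L.nonneg (F (x.2 + s • x.1))) (L.nonneg (F (x.2 - s • x.1)))
  have h3 := mp_le_of q _ _ (N (Mf F q hq s x)) hq (L.nonneg (F (x.2 + s • x.1)))
    (L.nonneg (F (x.2 - s • x.1))) (L.nonneg _) (by linarith)
  have h6 : N (Mf F q hq s x) ≤ N (F x.2) + N (Gf F q hq s x) := by
    have e : Mf F q hq s x = F x.2 + Gf F q hq s x := by
      ext ω
      show mp q (F (x.2 + s • x.1) ω) (F (x.2 - s • x.1) ω)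
        = F x.2 ω + (mp q (F (x.2 + s • x.1) ω) (F (x.2 - s • x.1) ω) - F x.2 ω)
      ring
    rw [e]
    exact L.add _ _
  linarith

/-- the mean plus the value at the opposite of the centroid -/
noncomputable def BB (μ : Measure (EuclideanSpace ℝ (Fin d)))
    (F : EuclideanSpace ℝ (Fin d) → C(Ω, ℝ)) : C(Ω, ℝ) := (∫ z, F z ∂μ) + F (-∫ z, z ∂μ)

/-- the average of the norm of the excess -/
theorem avg (H : IsFam n F) (L : IsQLat q N) (hq : 2 ≤ q) (c : ℝ) (hc : 0 < c)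
    (hp : ∀ x, c * ‖x‖ ≤ N (F x)) (p : ℝ) (hpn : p = n + q) (M : ℕ) (hM : 0 < M) :
    ∫ x, N (Gf F q (by linarith) (1 / (2 * p) / M) x)
        ∂((mu fun x => N (F x)).prod (mu fun x => N (F x)))
      ≤ (8 * lam p q (1 / (2 * p) / M) 1) ^ (1 / q)
        * (1 + N (F (-∫ z, z ∂(mu fun x => N (F x))))) := by
  have hq1 : 1 ≤ q := by linarith
  have hq0 : 0 < q := by linarith
  have hn0 : (0 : ℝ) ≤ n := Nat.cast_nonneg n
  have hp0 : 0 < p := by rw [hpn]; linarith
  have hM' : (0 : ℝ) < M := by exact_mod_cast hM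
  set g : EuclideanSpace ℝ (Fin d) → ℝ := fun x => N (F x) with hgdef
  have hg : IsG g := H.isG_norm L
  have hprob := mu_prob hg hc hp
  set ν := mu g with hν
  set s : ℝ := 1 / (2 * p) / M with hs
  have hs0 : 0 < s := by positivity
  have hlam : 0 ≤ 8 * lam p q s 1 := by unfold lam; positivity
  set κ : ℝ := (8 * lam p q s 1) ^ (1 / q) with hκ
  have hκ0 : 0 ≤ κ := by positivity
  have hκq : κ ^ q = 8 * lam p q s 1 := by
    rw [hκ, ← Real.rpow_mul hlam, one_div_mul_cancel hq0.ne', Real.rpow_one]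
  set x0 : EuclideanSpace ℝ (Fin d) := ∫ z, z ∂ν with hx0
  have hid : Integrable (fun z : EuclideanSpace ℝ (Fin d) => z) ν := mu_int hg hc hp continuous_id
  have hGc : Continuous fun x => N (Gf F q hq1 s x) := L.cont.comp (Gf_cont H hq1 s)
  -- the mean
  have hFi : Integrable F ν := mu_int hg hc hp H.cont
  set B : C(Ω, ℝ) := BB ν F with hB
  have hBω : ∀ ω, B ω = bb ν (fun x => F x ω) := by
    intro ω
    rw [hB]
    unfold BB bb
    rw [ContinuousMap.add_apply, ContinuousMap.integral_apply hFi]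
  have hB0 : ∀ ω, 0 ≤ B ω := fun ω => by
    rw [hBω]; exact bb_nonneg (H.isG ω)
  have hNB : N B ≤ 1 + N (F (-x0)) := by
    have h1 : N (∫ z, F z ∂ν) ≤ ∫ z, N (F z) ∂ν :=
      L.convex.map_integral_le L.cont.continuousOn isClosed_univ
        (Eventually.of_forall fun _ => mem_univ _) hFi (mu_int hg hc hp (L.cont.comp H.cont))
    have h2 : ∫ z, N (F z) ∂ν ≤ 1 := mu_mean_le hg hc hp
    rw [hB]
    unfold BB
    have h3 := L.add (∫ z, F z ∂ν) (F (-x0))
    linarith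
  -- Jensen
  have hHi : Integrable (Hf F q hq1 s) (ν.prod ν) := mu_prod_int hg hc hp (Hf_cont H hq1 s)
  set I : C(Ω, ℝ) := ∫ x, Hf F q hq1 s x ∂(ν.prod ν) with hI
  have hIω : ∀ ω, I ω ≤ 8 * lam p q s 1 * (B ω) ^ q := by
    intro ω
    have h1 : I ω = ∫ x, Hf F q hq1 s x ω ∂(ν.prod ν) := ContinuousMap.integral_apply hHi ω
    have h2 : Integrable (fun x => Hf F q hq1 s x ω) (ν.prod ν) :=
      mu_prod_int hg hc hp ((ContinuousEvalConst.continuous_eval_const ω).comp (Hf_cont H hq1 s))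
    obtain ⟨W, hW, hWn⟩ := H.rank ω
    obtain ⟨k, S⟩ := exists_shift hg hc hp W n hWn
    have h3 := S.total hid hq (H.isG ω) hW p hpn M hM
    rw [h1, integral_prod _ h2]
    refine h3.trans (le_of_eq ?_)
    rw [← hBω]
    unfold lam
    have h4 : 8 / 3 * p * q * B ω = 8 / 3 * p * q * 1 * B ω := by ring
    rw [h4, Real.mul_rpow (by positivity) (hB0 ω)]
    ring
  have hI0 : ∀ ω, 0 ≤ I ω := by
    intro ω
    have h1 : I ω = ∫ x, Hf F q hq1 s x ω ∂(ν.prod ν) := ContinuousMap.integral_apply hHi ω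
    rw [h1]
    exact integral_nonneg fun x => Real.rpow_nonneg (ex_nonneg (H.isG ω) hq1 _ _) _
  have hJ2 : ∫ x, Th N q hq1 (Hf F q hq1 s x) ∂(ν.prod ν) ≤ Th N q hq1 I := by
    refine (Th_concave L hq1).le_map_integral (Th_cont L hq1).continuousOn nonneg_closed
      (Eventually.of_forall fun x ω => ?_) hHi
      (mu_prod_int hg hc hp ((Th_cont L hq1).comp (Hf_cont H hq1 s)))
    exact Real.rpow_nonneg (ex_nonneg (H.isG ω) hq1 _ _) _
  have hTh : ∀ x, Th N q hq1 (Hf F q hq1 s x) = N (Gf F q hq1 s x) ^ q := by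
    intro x
    unfold Th
    rw [root_Hf H]
  simp only [hTh] at hJ2
  have hroot : N (root q hq1 I) ≤ κ * (1 + N (F (-x0))) := by
    have h1 : N (root q hq1 I) ≤ N (κ • B) := by
      refine L.mono _ _ fun ω => ?_
      rw [root_apply, ContinuousMap.smul_apply, smul_eq_mul, abs_of_nonneg (hI0 ω),
        abs_of_nonneg (Real.rpow_nonneg (hI0 ω) _), abs_of_nonneg (mul_nonneg hκ0 (hB0 ω))]
      have h2 := Real.rpow_le_rpow (hI0 ω) (hIω ω) (by positivity : 0 ≤ 1 / q)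
      rwa [Real.mul_rpow hlam (Real.rpow_nonneg (hB0 ω) _), ← Real.rpow_mul (hB0 ω),
        mul_one_div_cancel hq0.ne', Real.rpow_one] at h2
    refine h1.trans ?_
    rw [L.smul, abs_of_nonneg hκ0]
    exact mul_le_mul_of_nonneg_left hNB hκ0
  have hJ1 : (∫ x, N (Gf F q hq1 s x) ∂(ν.prod ν)) ^ q
      ≤ ∫ x, N (Gf F q hq1 s x) ^ q ∂(ν.prod ν) := by
    refine (convexOn_rpow hq1).map_integral_le ?_ isClosed_Ici
      (Eventually.of_forall fun x => L.nonneg _) (mu_prod_int hg hc hp hGc)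
      (mu_prod_int hg hc hp (hGc.rpow_const fun _ => Or.inr hq0.le))
    exact (continuous_id.rpow_const fun _ => Or.inr hq0.le).continuousOn
  have hN0 : 0 ≤ N (F (-x0)) := L.nonneg _
  have hR0 : 0 ≤ κ * (1 + N (F (-x0))) := by positivity
  have hfin : (∫ x, N (Gf F q hq1 s x) ∂(ν.prod ν)) ^ q ≤ (κ * (1 + N (F (-x0)))) ^ q := by
    refine hJ1.trans (hJ2.trans ?_)
    exact Real.rpow_le_rpow (L.nonneg _) hroot hq0.le
  exact (Real.rpow_le_rpow_iff (integral_nonneg fun x => L.nonneg _) hR0 hq0).1 hfin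

end Pool.Agent.Run7.h924.Sm
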