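import Mathlib
import Pool.Agent.Run7.h924.SmF

set_option autoImplicit false
set_option linter.unusedSectionVars false

/-!
# Lattice sums of sublinear functions: flatness and covering
-/

namespace Pool.Agent.Run7.h924.Sm

open MeasureTheory Set Filter
open scoped ENNReal
open Pool.Agent.TH591.Ns (IsG)
open Pool.Agent.Run7.h924.As
open Pool.Agent.Run7.h924.Lat (IsQLat)
open Pool.Agent.Results.MP_eba1ef_gt.AsymmetricThinSlabs (flatness)

section
variable {d : ℕ} {Ω : Type*} [TopologicalSpace Ω] [CompactSpace Ω] {q : ℝ} {N : C(Ω, ℝ) → ℝ}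
  {n : ℕ} {F : EuclideanSpace ℝ (Fin d) → C(Ω, ℝ)}

/-- the average second difference of the norm -/
theorem smooth (H : IsFam n F) (L : IsQLat q N) (hq : 2 ≤ q) (c : ℝ) (hc : 0 < c)
    (hp : ∀ x, c * ‖x‖ ≤ N (F x)) (p : ℝ) (hpn : p = n + q) (M : ℕ) (hM : 0 < M) (s : ℝ)
    (hs : s = 1 / (2 * p) / M) :
    ∫ x, (N (F (x.2 + s • x.1)) + N (F (x.2 - s • x.1)) - 2 * N (F x.2))
        ∂((mu fun x => N (F x)).prod (mu fun x => N (F x)))
      ≤ 2 * ((8 * lam p q s 1) ^ (1 / q)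
        * (1 + N (F (-∫ z, z ∂(mu fun x => N (F x)))))) := by
  have hq1 : 1 ≤ q := by linarith
  have hg : IsG fun x => N (F x) := H.isG_norm L
  have havg := avg H L hq c hc hp p hpn M hM
  rw [← hs] at havg
  have hgc := hg.cont
  have hc1 : Continuous fun x : EuclideanSpace ℝ (Fin d) × EuclideanSpace ℝ (Fin d) =>
      N (F (x.2 + s • x.1)) + N (F (x.2 - s • x.1)) - 2 * N (F x.2) :=
    ((hgc.comp (continuous_snd.add (continuous_fst.const_smul s))).add
      (hgc.comp (continuous_snd.sub (continuous_fst.const_smul s)))).sub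
      ((hgc.comp continuous_snd).const_mul 2)
  have hGc : Continuous fun x => N (Gf F q hq1 s x) := L.cont.comp (Gf_cont H hq1 s)
  calc ∫ x, (N (F (x.2 + s • x.1)) + N (F (x.2 - s • x.1)) - 2 * N (F x.2))
        ∂((mu fun x => N (F x)).prod (mu fun x => N (F x)))
      ≤ ∫ x, 2 * N (Gf F q hq1 s x) ∂((mu fun x => N (F x)).prod (mu fun x => N (F x))) := by
        refine integral_mono (mu_prod_int hg hc hp hc1) ((mu_prod_int hg hc hp hGc).const_mul 2)
          fun x => ?_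
        have := second H L hq1 s x
        simp only
        linarith
    _ = 2 * ∫ x, N (Gf F q hq1 s x) ∂((mu fun x => N (F x)).prod (mu fun x => N (F x))) :=
        integral_const_mul _ _
    _ ≤ _ := mul_le_mul_of_nonneg_left havg (by norm_num)

end

/-- the size of the constant -/
theorem kap_le (p q s : ℝ) (hq : 2 ≤ q) (hp : 1 ≤ p) (hs : 0 < s) :
    (8 * lam p q s 1) ^ (1 / q) ≤ 160 * p ^ (3 / 2 : ℝ) * q * s ^ (1 + 1 / q) := by
  have hq0 : 0 < q := by linarith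
  have hp0 : 0 < p := by linarith
  have h1 : q ≤ 2 ^ (q - 1) := by
    have := one_add_mul_self_le_rpow_one_add (by norm_num : (-1 : ℝ) ≤ 1) (by linarith : 1 ≤ q - 1)
    norm_num at this
    linarith
  have h2 : (200 : ℝ) ≤ 15 ^ q := by
    calc (200 : ℝ) ≤ 15 ^ (2 : ℝ) := by norm_num
      _ ≤ 15 ^ q := Real.rpow_le_rpow_of_exponent_le (by norm_num) hq
  have h3 : 800 * q ^ 2 ≤ 60 ^ q := by
    have e1 : (2 : ℝ) ^ (q - 1) * 2 ^ (q - 1) * 4 = 4 ^ q := by
      have : (4 : ℝ) ^ q = 2 ^ q * 2 ^ q := by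
        rw [← Real.mul_rpow (by norm_num) (by norm_num)]; norm_num
      rw [this, Real.rpow_sub_one (by norm_num)]
      ring
    have e2 : (60 : ℝ) ^ q = 4 ^ q * 15 ^ q := by
      rw [← Real.mul_rpow (by norm_num) (by norm_num)]; norm_num
    have h4 : q ^ 2 ≤ 2 ^ (q - 1) * 2 ^ (q - 1) := by
      rw [sq]
      exact mul_le_mul h1 h1 hq0.le (by positivity)
    rw [e2, ← e1]
    have h5 : 0 ≤ (2 : ℝ) ^ (q - 1) * 2 ^ (q - 1) := by positivity
    calc 800 * q ^ 2 ≤ 800 * (2 ^ (q - 1) * 2 ^ (q - 1)) := by linarith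
      _ = 2 ^ (q - 1) * 2 ^ (q - 1) * 4 * 200 := by ring
      _ ≤ 2 ^ (q - 1) * 2 ^ (q - 1) * 4 * 15 ^ q := by gcongr
  have h4 : p ≤ p ^ (q / 2) := by
    calc p = p ^ (1 : ℝ) := (Real.rpow_one p).symm
      _ ≤ p ^ (q / 2) := Real.rpow_le_rpow_of_exponent_le hp (by linarith)
  have key : 8 * lam p q s 1 ≤ (160 * p ^ (3 / 2 : ℝ) * q * s ^ (1 + 1 / q)) ^ q := by
    have e1 : (160 * p ^ (3 / 2 : ℝ) * q * s ^ (1 + 1 / q)) ^ q
        = 60 ^ q * p ^ (q / 2) * ((8 / 3 * p * q) ^ q * s ^ (q + 1)) := by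
      have e2 : s ^ (q + 1) = (s ^ (1 + 1 / q)) ^ q := by
        rw [← Real.rpow_mul hs.le]
        congr 1
        field_simp
      have e3 : p ^ (q / 2) = (p ^ (1 / 2 : ℝ)) ^ q := by
        rw [← Real.rpow_mul hp0.le]
        congr 1
        ring
      rw [e2, e3, ← Real.mul_rpow (by norm_num) (by positivity),
        ← Real.mul_rpow (by positivity) (by positivity),
        ← Real.mul_rpow (by positivity) (by positivity)]
      congr 1
      have e4 : p ^ (3 / 2 : ℝ) = p ^ (1 / 2 : ℝ) * p := by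
        rw [show (3 / 2 : ℝ) = 1 / 2 + 1 by norm_num, Real.rpow_add hp0, Real.rpow_one]
      rw [e4]
      ring
    rw [e1]
    unfold lam
    have h5 : 800 * q ^ 2 * p ≤ 60 ^ q * p ^ (q / 2) := mul_le_mul h3 h4 hp0.le (by positivity)
    have h6 : 0 ≤ (8 / 3 * p * q) ^ q * s ^ (q + 1) := by positivity
    calc 8 * (100 * p * q ^ 2 * s ^ (q + 1) * (8 / 3 * p * q * 1) ^ q)
        = 800 * q ^ 2 * p * ((8 / 3 * p * q) ^ q * s ^ (q + 1)) := by
          rw [mul_one]; ring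
      _ ≤ 60 ^ q * p ^ (q / 2) * ((8 / 3 * p * q) ^ q * s ^ (q + 1)) :=
          mul_le_mul_of_nonneg_right h5 h6
  have h0 : 0 ≤ 8 * lam p q s 1 := by unfold lam; positivity
  have h5 := Real.rpow_le_rpow h0 key (by positivity : 0 ≤ 1 / q)
  rwa [← Real.rpow_mul (by positivity), mul_one_div_cancel hq0.ne', Real.rpow_one] at h5

section
variable {d : ℕ} {Ω : Type*} [TopologicalSpace Ω] [CompactSpace Ω] {q : ℝ} {N : C(Ω, ℝ) → ℝ}
  {n : ℕ} {F : EuclideanSpace ℝ (Fin d) → C(Ω, ℝ)}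

/-- **The flatness of lattice sums of small bodies.** -/
theorem flat (H : IsFam n F) (L : IsQLat q N) (hd : 1 ≤ d) (hq : 2 ≤ q) (c : ℝ) (hc : 0 < c)
    (hp : ∀ x, c * ‖x‖ ≤ N (F x)) (a : ℝ) (ha0 : 0 ≤ a)
    (ha : N (F (-∫ z, z ∂(mu fun x => N (F x)))) ≤ a) :
    flatness (GB fun x => N (F x))
      ≤ 322 * (1 + a) * (n + q) ^ (3 / 2 : ℝ) * q * (d : ℝ) ^ (-(1 / (q + 1))) := by
  have hq0 : 0 < q := by linarith
  have hn0 : (0 : ℝ) ≤ n := Nat.cast_nonneg n
  set p : ℝ := n + q with hpn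
  have hp2 : 2 ≤ p := by rw [hpn]; linarith
  have hp0 : 0 < p := by linarith
  have hd0 : (0 : ℝ) < d := by exact_mod_cast (by omega : 0 < d)
  have hd1 : (1 : ℝ) ≤ d := by exact_mod_cast hd
  set y : ℝ := (d : ℝ) ^ (q / (q + 1)) with hy
  have hy1 : 1 ≤ y := Real.one_le_rpow hd1 (by positivity)
  set M : ℕ := ⌈y⌉₊ with hM
  have hMy : y ≤ M := Nat.le_ceil y
  have hMy2 : (M : ℝ) ≤ 2 * y := by
    have := Nat.ceil_lt_add_one (by linarith : 0 ≤ y)
    linarith
  have hM0 : 0 < M := by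
    have : (0 : ℝ) < M := by linarith
    exact_mod_cast this
  have hM' : (0 : ℝ) < M := by exact_mod_cast hM0
  set s : ℝ := 1 / (2 * p) / M with hs
  have hs0 : 0 < s := by positivity
  have hg : IsG fun x => N (F x) := H.isG_norm L
  have h1 := flat_crit hg hc hp s hs0
  have h2 := smooth H L hq c hc hp p hpn M hM0 s hs
  set w : ℝ := (d : ℝ) ^ (-(1 / (q + 1))) with hw
  have hw0 : 0 < w := Real.rpow_pos_of_pos hd0 _
  -- `s^(1/q) ≤ w`
  have hsw : s ^ (1 / q) ≤ w := by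
    have h3 : s ≤ y⁻¹ := by
      rw [hs]
      have h4 : 1 / (2 * p) ≤ 1 := by
        rw [div_le_one (by positivity)]; linarith
      calc 1 / (2 * p) / M ≤ 1 / M := by gcongr
        _ ≤ 1 / y := one_div_le_one_div_of_le (by linarith) hMy
        _ = y⁻¹ := one_div y
    have h5 := Real.rpow_le_rpow hs0.le h3 (by positivity : 0 ≤ 1 / q)
    refine h5.trans (le_of_eq ?_)
    rw [hy, hw, ← Real.rpow_neg hd0.le, ← Real.rpow_mul hd0.le]
    congr 1
    field_simp
  have hsd : 1 / (d + 1) / s ≤ 4 * p * w := by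
    have h3 : 1 / ((d : ℝ) + 1) / s = 2 * p * M / (d + 1) := by
      rw [hs]; field_simp
    rw [h3, div_le_iff₀ (by positivity)]
    have h4 : y = w * d := by
      rw [hy, hw]
      conv_rhs => rw [← Real.rpow_one (d : ℝ), ← Real.rpow_mul hd0.le, one_mul,
        ← Real.rpow_add hd0]
      congr 1
      field_simp
      ring
    calc 2 * p * M ≤ 2 * p * (2 * y) := by gcongr
      _ = 4 * p * w * d := by rw [h4]; ring
      _ ≤ 4 * p * w * (d + 1) := by
          refine mul_le_mul_of_nonneg_left (by linarith) (by positivity)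
  have hk := kap_le p q s hq (by linarith) hs0
  set κ : ℝ := (8 * lam p q s 1) ^ (1 / q) with hκ
  have hκ0 : 0 ≤ κ := by
    rw [hκ]
    refine Real.rpow_nonneg ?_ _
    unfold lam
    positivity
  have hκs : κ / s ≤ 160 * p ^ (3 / 2 : ℝ) * q * w := by
    rw [div_le_iff₀ hs0]
    refine hk.trans ?_
    rw [Real.rpow_add hs0, Real.rpow_one]
    calc 160 * p ^ (3 / 2 : ℝ) * q * (s * s ^ (1 / q))
        = 160 * p ^ (3 / 2 : ℝ) * q * s ^ (1 / q) * s := by ring
      _ ≤ 160 * p ^ (3 / 2 : ℝ) * q * w * s := by gcongr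
  have h3 : flatness (GB fun x => N (F x)) ≤ 2 * (1 + a) * (κ / s) + 1 / (d + 1) / s := by
    refine h1.trans ?_
    rw [add_div]
    gcongr
    rw [mul_div_assoc']
    gcongr
    refine h2.trans ?_
    have h6 : κ * (1 + N (F (-∫ z, z ∂(mu fun x => N (F x))))) ≤ κ * (1 + a) :=
      mul_le_mul_of_nonneg_left (by linarith) hκ0
    linarith
  refine h3.trans ?_
  have h7 : 2 * (1 + a) * (κ / s) ≤ 2 * (1 + a) * (160 * p ^ (3 / 2 : ℝ) * q * w) :=
    mul_le_mul_of_nonneg_left hκs (by positivity)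
  have h8 : 4 * p * w ≤ 2 * (1 + a) * p ^ (3 / 2 : ℝ) * q * w := by
    refine mul_le_mul_of_nonneg_right ?_ hw0.le
    have h9 : p ≤ p ^ (3 / 2 : ℝ) := by
      calc p = p ^ (1 : ℝ) := (Real.rpow_one p).symm
        _ ≤ p ^ (3 / 2 : ℝ) := Real.rpow_le_rpow_of_exponent_le (by linarith) (by norm_num)
    calc 4 * p = 2 * 1 * p * 2 := by ring
      _ ≤ 2 * (1 + a) * p ^ (3 / 2 : ℝ) * q := by gcongr; linarith
  calc 2 * (1 + a) * (κ / s) + 1 / (d + 1) / s
      ≤ 2 * (1 + a) * (160 * p ^ (3 / 2 : ℝ) * q * w) + 2 * (1 + a) * p ^ (3 / 2 : ℝ) * q * w := by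
        linarith
    _ = 322 * (1 + a) * p ^ (3 / 2 : ℝ) * q * w := by ring

end

/-- from the exponential bound to the strict inequality -/
theorem strict_num (d : ℕ) (hd : 2 ≤ d) (s : ℝ) (h6 : 6 ≤ s) (hlog : Real.log d ≤ s) :
    19 * d * Real.log (2 * d ^ 2 + 2 * d + 1) * Real.exp (-(2 * s)) ≤ 1 := by
  have hd' : (2 : ℝ) ≤ d := by exact_mod_cast hd
  have hd0 : (0 : ℝ) < d := by linarith
  have h1 : Real.log (2 * (d : ℝ) ^ 2 + 2 * d + 1) ≤ 2 * s + 2 := by
    have h2 : 2 * (d : ℝ) ^ 2 + 2 * d + 1 ≤ 5 * d ^ 2 := by nlinarith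
    have h3 : Real.log (2 * (d : ℝ) ^ 2 + 2 * d + 1) ≤ Real.log (5 * d ^ 2) :=
      Real.log_le_log (by positivity) h2
    have h4 : Real.log (5 * (d : ℝ) ^ 2) = Real.log 5 + 2 * Real.log d := by
      rw [Real.log_mul (by norm_num) (by positivity), Real.log_pow]
      push_cast
      ring
    have h5 : Real.log 5 ≤ 2 := by
      rw [Real.log_le_iff_le_exp (by norm_num)]
      have h := Real.exp_one_gt_d9
      have e : Real.exp 2 = Real.exp 1 * Real.exp 1 := by rw [← Real.exp_add]; norm_num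
      rw [e]
      nlinarith
    linarith
  have h2 : (d : ℝ) * Real.exp (-s) ≤ 1 := by
    have h3 : (d : ℝ) ≤ Real.exp s := by
      rw [← Real.log_le_iff_le_exp hd0]; exact hlog
    calc (d : ℝ) * Real.exp (-s) ≤ Real.exp s * Real.exp (-s) := by gcongr
      _ = 1 := by rw [← Real.exp_add, add_neg_cancel, Real.exp_zero]
  have h3 : 19 * (2 * s + 2) * Real.exp (-s) ≤ 1 := by
    have h4 : 19 * (2 * s + 2) ≤ Real.exp s := by
      have h5 : Real.exp 6 * (s - 6 + 1) ≤ Real.exp s := by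
        have h6 := Real.add_one_le_exp (s - 6)
        have h7 : Real.exp s = Real.exp 6 * Real.exp (s - 6) := by
          rw [← Real.exp_add]; congr 1; ring
        rw [h7]
        gcongr
      have h8 : (400 : ℝ) ≤ Real.exp 6 := by
        have h := Real.exp_one_gt_d9
        have e : Real.exp 6 = Real.exp 1 ^ 6 := by rw [← Real.exp_nat_mul]; norm_num
        rw [e]
        calc (400 : ℝ) ≤ 2.718 ^ 6 := by norm_num
          _ ≤ Real.exp 1 ^ 6 := pow_le_pow_left₀ (by norm_num) (by linarith) 6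
      have h9 : 400 * (s - 6 + 1) ≤ Real.exp 6 * (s - 6 + 1) :=
        mul_le_mul_of_nonneg_right h8 (by linarith)
      linarith
    calc 19 * (2 * s + 2) * Real.exp (-s) ≤ Real.exp s * Real.exp (-s) := by gcongr
      _ = 1 := by rw [← Real.exp_add, add_neg_cancel, Real.exp_zero]
  have e : Real.exp (-(2 * s)) = Real.exp (-s) * Real.exp (-s) := by
    rw [← Real.exp_add]; congr 1; ring
  rw [e]
  have hlog0 : 0 ≤ Real.log (2 * (d : ℝ) ^ 2 + 2 * d + 1) := Real.log_nonneg (by nlinarith)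
  have he0 : 0 < Real.exp (-s) := Real.exp_pos _
  calc 19 * d * Real.log (2 * (d : ℝ) ^ 2 + 2 * d + 1) * (Real.exp (-s) * Real.exp (-s))
      = (d * Real.exp (-s)) * (19 * Real.log (2 * (d : ℝ) ^ 2 + 2 * d + 1) * Real.exp (-s)) := by
        ring
    _ ≤ 1 * (19 * (2 * s + 2) * Real.exp (-s)) := by
        gcongr
    _ ≤ 1 := by rw [one_mul]; exact h3

end Pool.Agent.Run7.h924.Sm
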