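import Mathlib
import Pool.Agent.Run7.h924.LatJ
import Pool.Agent.Run7.h924.SmG

set_option autoImplicit false
set_option linter.unusedSectionVars false

/-!
# Function norms, Young families, and the final covering theorem
-/

namespace Pool.Agent.Run7.h924.Sm

open MeasureTheory Set Filter
open scoped ENNReal
open Pool.Agent.TH591.Ns (IsG)
open Pool.Agent.Run7.h924.As
open Pool.Agent.Run7.h924.Lat (IsQLat IsFunNorm IsYoung lux modu lux_isFunNorm lux_le_one lux_ne_top)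

section
variable {Ω : Type*} [MeasurableSpace Ω] {q : ℝ} {N : (Ω → ℝ) → ℝ≥0∞}
  {Θ : Type*} [TopologicalSpace Θ] [CompactSpace Θ] [MeasurableSpace Θ] [BorelSpace Θ]
  {w : Ω → ℝ} {θ : Ω → Θ}

/-- the function `w(ω) f(θ(ω))` -/
def lif (w : Ω → ℝ) (θ : Ω → Θ) (f : C(Θ, ℝ)) (ω : Ω) : ℝ := w ω * f (θ ω)

theorem lif_meas (hw : Measurable w) (hθ : Measurable θ) (f : C(Θ, ℝ)) : Measurable (lif w θ f) :=
  hw.mul (f.continuous.measurable.comp hθ)

theorem lif_fin (H : IsFunNorm q N) (hw : Measurable w) (hθ : Measurable θ) (hN : N w ≠ ⊤)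
    (f : C(Θ, ℝ)) : N (lif w θ f) ≠ ⊤ := by
  have h1 : N (lif w θ f) ≤ N (fun ω => ‖f‖ * w ω) := by
    refine H.mono _ _ (lif_meas hw hθ f) (measurable_const.mul hw) fun ω => ?_
    unfold lif
    have h2 : |f (θ ω)| ≤ ‖f‖ := by
      rw [← Real.norm_eq_abs]; exact f.norm_coe_le_norm _
    rw [abs_mul, abs_mul, abs_norm, mul_comm]
    exact mul_le_mul_of_nonneg_right h2 (abs_nonneg _)
  rw [H.smul _ _ hw] at h1
  exact ne_top_of_le_ne_top (ENNReal.mul_ne_top ENNReal.ofReal_ne_top hN) h1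

/-- the lattice norm on `C(Θ)` -/
noncomputable def NW (N : (Ω → ℝ) → ℝ≥0∞) (w : Ω → ℝ) (θ : Ω → Θ) (f : C(Θ, ℝ)) : ℝ :=
  (N (lif w θ f)).toReal

theorem NW_isQLat (H : IsFunNorm q N) (hq : 0 ≤ q) (hw : Measurable w) (hθ : Measurable θ)
    (hN : N w ≠ ⊤) : IsQLat q (NW N w θ) where
  mono := by
    intro g h hgh
    refine ENNReal.toReal_mono (lif_fin H hw hθ hN h) ?_
    refine H.mono _ _ (lif_meas hw hθ g) (lif_meas hw hθ h) fun ω => ?_
    unfold lif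
    rw [abs_mul, abs_mul]
    exact mul_le_mul_of_nonneg_left (hgh _) (abs_nonneg _)
  add := by
    intro g h
    unfold NW
    rw [← ENNReal.toReal_add (lif_fin H hw hθ hN g) (lif_fin H hw hθ hN h)]
    refine ENNReal.toReal_mono
      (ENNReal.add_ne_top.2 ⟨lif_fin H hw hθ hN g, lif_fin H hw hθ hN h⟩) ?_
    have e : lif w θ (g + h) = fun ω => lif w θ g ω + lif w θ h ω := by
      funext ω
      unfold lif
      rw [ContinuousMap.add_apply, mul_add]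
    rw [e]
    exact H.add _ _ (lif_meas hw hθ g) (lif_meas hw hθ h)
  smul := by
    intro a g
    unfold NW
    have e : lif w θ (a • g) = fun ω => a * lif w θ g ω := by
      funext ω
      unfold lif
      rw [ContinuousMap.smul_apply, smul_eq_mul]
      ring
    rw [e, H.smul _ _ (lif_meas hw hθ g), ENNReal.toReal_mul, ENNReal.toReal_ofReal (abs_nonneg _)]
  concave := by
    intro g h k hk
    unfold NW
    have h1 := H.concave (lif w θ g) (lif w θ h) (lif w θ k) (lif_meas hw hθ g) (lif_meas hw hθ h)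
      (lif_meas hw hθ k) (by
        intro ω
        unfold lif
        rw [abs_mul, abs_mul, abs_mul, Real.mul_rpow (abs_nonneg _) (abs_nonneg _),
          Real.mul_rpow (abs_nonneg _) (abs_nonneg _), Real.mul_rpow (abs_nonneg _) (abs_nonneg _),
          ← mul_add, hk])
    have h2 := ENNReal.toReal_mono
      (ENNReal.rpow_ne_top_of_nonneg hq (lif_fin H hw hθ hN k)) h1
    rw [ENNReal.toReal_add (ENNReal.rpow_ne_top_of_nonneg hq (lif_fin H hw hθ hN g))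
      (ENNReal.rpow_ne_top_of_nonneg hq (lif_fin H hw hθ hN h))] at h2
    rwa [← ENNReal.toReal_rpow, ← ENNReal.toReal_rpow, ← ENNReal.toReal_rpow] at h2

/-- the body in terms of `C(Θ)` -/
theorem eq_body {d : ℕ} (H : IsFunNorm q N) (hw : Measurable w) (hθ : Measurable θ) (hN : N w ≠ ⊤)
    (F : EuclideanSpace ℝ (Fin d) → C(Θ, ℝ)) (K : Set (EuclideanSpace ℝ (Fin d)))
    (hK : K = {x | N (fun ω => w ω * F x (θ ω)) ≤ 1}) : K = {x | NW N w θ (F x) ≤ 1} := by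
  rw [hK]
  ext x
  rw [mem_ofPred_eq, mem_ofPred_eq]
  have hfin : N (lif w θ (F x)) ≠ ⊤ := lif_fin H hw hθ hN _
  show N (lif w θ (F x)) ≤ 1 ↔ (N (lif w θ (F x))).toReal ≤ 1
  constructor
  · intro h
    have := ENNReal.toReal_mono ENNReal.one_ne_top h
    simpa using this
  · intro h
    rw [← ENNReal.ofReal_toReal hfin]
    calc ENNReal.ofReal (N (lif w θ (F x))).toReal ≤ ENNReal.ofReal 1 :=
          ENNReal.ofReal_le_ofReal h
      _ = 1 := ENNReal.ofReal_one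

/-- the body of a Young family in terms of the Luxemburg norm -/
theorem eq_young' {d : ℕ} {μ : Measure Ω} {φ : Ω → ℝ → ℝ} (Y : IsYoung q φ) (hq : 1 ≤ q)
    (f : EuclideanSpace ℝ (Fin d) → Ω → ℝ) (hf0 : ∀ x ω, 0 ≤ f x ω)
    (hint : ∀ x, Integrable (fun ω => φ ω (f x ω)) μ) (K : Set (EuclideanSpace ℝ (Fin d)))
    (hK : K = {x | ∫ ω, φ ω (f x ω) ∂μ ≤ 1}) : K = {x | lux φ μ (f x) ≤ 1} := by
  rw [hK]
  ext x
  rw [mem_ofPred_eq, mem_ofPred_eq, lux_le_one Y hq]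
  unfold modu
  have e : ∀ ω, φ ω |f x ω| = φ ω (f x ω) := fun ω => by rw [abs_of_nonneg (hf0 x ω)]
  simp only [e]
  rw [← ofReal_integral_eq_lintegral_ofReal (hint x)
    (Eventually.of_forall fun ω => Y.nonneg ω _ (hf0 x ω)), ← ENNReal.ofReal_one,
    ENNReal.ofReal_le_ofReal_iff zero_le_one]

end

section
variable {d : ℕ} {Ω : Type*} [TopologicalSpace Ω] [CompactSpace Ω] {q : ℝ} {N : C(Ω, ℝ) → ℝ}
  {n : ℕ} {F : EuclideanSpace ℝ (Fin d) → C(Ω, ℝ)}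

/-- the centroid -/
theorem centroid_eq (g : EuclideanSpace ℝ (Fin d) → ℝ) :
    ∫ z, z ∂(mu g) = ⨍ z in GB g, z := by
  unfold mu
  rw [integral_smul_measure, ENNReal.toReal_inv, setAverage_eq]
  rfl

/-- **The covering theorem.** -/
theorem cover_sum (H : IsFam n F) (L : IsQLat q N) (hd : 2 ≤ d) (hq : 2 ≤ q)
    (K : Set (EuclideanSpace ℝ (Fin d))) (hKdef : K = {x | N (F x) ≤ 1})
    (hb : Bornology.IsBounded K) (a : ℝ) (ha0 : 0 ≤ a) (ha : gauge K (-⨍ z in K, z) ≤ a)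
    (s : ℝ) (hs : s = (d : ℝ) ^ (1 / (q + 1)) / (5000000 * (1 + a) * (n + q) ^ (3 / 2 : ℝ) * q)) :
    ∃ T : Finset (EuclideanSpace ℝ (Fin d)),
      K ⊆ ⋃ t ∈ T, (fun x => t + x) '' interior K ∧
      (T.card : ℝ) ≤ 1 + 13 * d * Real.log (2 * d ^ 2 + 2 * d + 1) * 2 ^ d
        * Real.exp (-(2 * s)) ∧
      (6 ≤ s → Real.log d ≤ s → T.card < 2 ^ d) := by
  have hg : IsG fun x => N (F x) := H.isG_norm L
  have hK : K = GB fun x => N (F x) := hKdef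
  rw [hK] at hb ha ⊢
  obtain ⟨c, hc, hp⟩ := bdd_const hg hb
  have hd0 : (0 : ℝ) < d := by exact_mod_cast (by omega : 0 < d)
  have hn0 : (0 : ℝ) ≤ n := Nat.cast_nonneg n
  have hq0 : 0 < q := by linarith
  rw [gauge_gb hg, ← centroid_eq] at ha
  have hfl := flat H L (by omega) hq c hc hp a ha0 ha
  set ρ : ℝ := 322 * (1 + a) * (n + q) ^ (3 / 2 : ℝ) * q * (d : ℝ) ^ (-(1 / (q + 1))) with hρ
  have hp0 : 0 < (n + q) ^ (3 / 2 : ℝ) := by positivity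
  have hw0 : 0 < (d : ℝ) ^ (1 / (q + 1)) := by positivity
  have hρ0 : 0 < ρ := by rw [hρ]; positivity
  obtain ⟨T, h1, h2, h3⟩ := cover_gb hd hg hc hp ρ hρ0 hfl
  have hs2 : 2 * s ≤ 1 / (7680 * ρ) := by
    rw [hs, hρ, Real.rpow_neg hd0.le]
    have e : 1 / (7680 * (322 * (1 + a) * (n + q) ^ (3 / 2 : ℝ) * q * ((d : ℝ) ^ (1 / (q + 1)))⁻¹))
        = (d : ℝ) ^ (1 / (q + 1)) / (2472960 * (1 + a) * (n + q) ^ (3 / 2 : ℝ) * q) := by
      field_simp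
      ring
    rw [e]
    have e2 : 2 * ((d : ℝ) ^ (1 / (q + 1)) / (5000000 * (1 + a) * (n + q) ^ (3 / 2 : ℝ) * q))
        = (d : ℝ) ^ (1 / (q + 1)) / (2500000 * (1 + a) * (n + q) ^ (3 / 2 : ℝ) * q) := by
      field_simp
      norm_num
    rw [e2]
    refine div_le_div_of_nonneg_left hw0.le (by positivity) ?_
    have h4 : 0 ≤ (1 + a) * (n + q) ^ (3 / 2 : ℝ) * q := by positivity
    nlinarith
  have hexp : Real.exp (-(1 / (7680 * ρ))) ≤ Real.exp (-(2 * s)) := by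
    rw [Real.exp_le_exp]; linarith
  have hd' : (2 : ℝ) ≤ d := by exact_mod_cast hd
  have hlog0 : 0 ≤ Real.log (2 * (d : ℝ) ^ 2 + 2 * d + 1) := Real.log_nonneg (by nlinarith)
  refine ⟨T, h1, h2.trans ?_, fun h6 hlog => h3 ?_⟩
  · gcongr
  · refine le_trans ?_ (strict_num d hd s h6 hlog)
    gcongr

end

theorem exists_dim (n : ℕ) (q a : ℝ) (hq : 2 ≤ q) (ha : 0 ≤ a) : ∃ d₀ : ℕ, ∀ d : ℕ, d₀ ≤ d →
    6 ≤ (d : ℝ) ^ (1 / (q + 1)) / (5000000 * (1 + a) * (n + q) ^ (3 / 2 : ℝ) * q) ∧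
      Real.log d ≤ (d : ℝ) ^ (1 / (q + 1)) / (5000000 * (1 + a) * (n + q) ^ (3 / 2 : ℝ) * q) := by
  set C : ℝ := 5000000 * (1 + a) * (n + q) ^ (3 / 2 : ℝ) * q with hC
  have hn0 : (0 : ℝ) ≤ n := Nat.cast_nonneg n
  have hC0 : 0 < C := by positivity
  have ha : 0 < 1 / (q + 1) := by positivity
  have h1 : Tendsto (fun d : ℕ => (d : ℝ) ^ (1 / (q + 1))) atTop atTop :=
    (tendsto_rpow_atTop ha).comp tendsto_natCast_atTop_atTop
  have h2 : ∀ᶠ d : ℕ in atTop, 6 * C ≤ (d : ℝ) ^ (1 / (q + 1)) := h1.eventually_ge_atTop _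
  have h3 : ∀ᶠ x : ℝ in atTop, ‖Real.log x‖ ≤ C⁻¹ * ‖x ^ (1 / (q + 1))‖ :=
    (isLittleO_log_rpow_atTop ha).bound (inv_pos.2 hC0)
  have h4 : ∀ᶠ d : ℕ in atTop, ‖Real.log (d : ℝ)‖ ≤ C⁻¹ * ‖(d : ℝ) ^ (1 / (q + 1))‖ :=
    tendsto_natCast_atTop_atTop.eventually h3
  obtain ⟨d₀, hd₀⟩ := (h2.and h4).exists_forall_of_atTop
  refine ⟨d₀, fun d hd => ?_⟩
  obtain ⟨h5, h6⟩ := hd₀ d hd
  refine ⟨by rw [le_div_iff₀ hC0]; exact h5, ?_⟩
  rw [Real.norm_of_nonneg (by positivity : (0 : ℝ) ≤ (d : ℝ) ^ (1 / (q + 1)))] at h6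
  calc Real.log d ≤ ‖Real.log (d : ℝ)‖ := Real.le_norm_self _
    _ ≤ C⁻¹ * (d : ℝ) ^ (1 / (q + 1)) := h6
    _ = (d : ℝ) ^ (1 / (q + 1)) / C := by ring

end Pool.Agent.Run7.h924.Sm
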