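import Mathlib
import Pool.Agent.Results.MP_eba1ef_gt.AsymmetricThinSlabs
import Pool.Agent.Run7.h924.AsB

set_option autoImplicit false

/-!
# MP_eba1ef_gt: convex bodies with a small average modulus of smoothness

Let `K` be any convex body in `ℝ^d` with `0` in its interior and gauge `g`; no symmetry is
assumed. Its *average modulus of smoothness* `η(s)` is the average over `z, v ∈ K` of the second
difference `g(z+sv) + g(z-sv) - 2g(z)`.

We prove: for every `s > 0`, with `ρ = (η(s) + 1/(d+1)) / s`,

  `c(K) ≤ 1 + 13 d log(2d²+2d+1) 2^d exp(-1/(7680 ρ))`,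

and `c(K) < 2^d` if `19 d log(2d²+2d+1) exp(-1/(7680 ρ)) ≤ 1`. Hence a convex body with
`c(K) ≥ 2^d` (so in particular each counterexample to Hadwiger's conjecture) has, for each
position of the origin in its interior, at least a linear average modulus of smoothness:
`η(s) ≥ s / (7680 log(19 d log(2d²+2d+1))) - 1/(d+1)` for all `s > 0`.

The modulus is an average over the *volume* of `K`, for both points: `K` may have any kind of
vertices, edges and so on. This is the quantity which can be computed or estimated for concrete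
families of bodies, where the flatness of `AsymmetricThinSlabs` (an average of derivatives of the
gauge) is not accessible.

Idea of the proof. Fix `v` and let `z` be uniform in `K`. As `g(z ± sv) ≥ g(z) ± s Dg(z)[v]`, we have
`g(z) - 1 + s |Dg(z)[v]| ≤ (g(z+sv) - 1)_+ + (g(z-sv) - 1)_+`. The mean of `(g(z+sv) - 1)_+` is the
mean of `g(z+sv) - 1` plus the mean of `(1 - g(z+sv))_+`, and the latter is at most the mean of
`1 - g(z)`: the integral of `(1-g)_+` over a translate of `K` is at most its integral over the whole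
space. So `s` times the mean of `|Dg(z)[v]|` is at most the mean of the second difference plus the
mean of `1 - g(z)`, which is `1/(d+1)`: the terms of the first order cancel although `K` is not
symmetric. Now take the mean over `v`; the rest is the theorem on the flatness in
`AsymmetricThinSlabs`.
-/

namespace Pool.Agent.Run7.h924.KeptAS

open MeasureTheory
open Pool.Agent.Results.MP_eba1ef_gt.AsymmetricThinSlabs (flatness)

/-- The average modulus of smoothness of a convex body `K` with `0` in its interior: the average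
over `z, v ∈ K` of `g(z+sv) + g(z-sv) - 2g(z)`, where `g` is the gauge of `K`. -/
noncomputable def avgSmooth {d : ℕ} (K : Set (EuclideanSpace ℝ (Fin d))) (s : ℝ) : ℝ :=
  (∫ z in K, ∫ v in K, (gauge K (z + s • v) + gauge K (z - s • v) - 2 * gauge K z))
    / (volume K).toReal ^ 2

/-- **Main theorem.** -/
theorem result (d : ℕ) (hd : 2 ≤ d) (K : Set (EuclideanSpace ℝ (Fin d)))
    (hK : Convex ℝ K) (hKc : IsCompact K) (hKi : 0 ∈ interior K) (s : ℝ) (hs : 0 < s) :
    flatness K ≤ (avgSmooth K s + 1 / (d + 1)) / s ∧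
    (∃ T : Finset (EuclideanSpace ℝ (Fin d)),
      K ⊆ ⋃ t ∈ T, (fun x => t + x) '' interior K ∧
      (T.card : ℝ) ≤ 1 + 13 * d * Real.log (2 * d ^ 2 + 2 * d + 1) * 2 ^ d
        * Real.exp (-(s / (7680 * (avgSmooth K s + 1 / (d + 1))))) ∧
      (19 * d * Real.log (2 * d ^ 2 + 2 * d + 1)
        * Real.exp (-(s / (7680 * (avgSmooth K s + 1 / (d + 1))))) ≤ 1 → T.card < 2 ^ d)) ∧
    -- the modulus of smoothness of a body which needs `2^d` translates
    ((∀ T : Finset (EuclideanSpace ℝ (Fin d)),
        K ⊆ ⋃ t ∈ T, (fun x => t + x) '' interior K → 2 ^ d ≤ T.card) →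
      s / (7680 * Real.log (19 * d * Real.log (2 * d ^ 2 + 2 * d + 1))) - 1 / (d + 1)
        < avgSmooth K s) := by
  have hnhds : K ∈ nhds (0 : EuclideanSpace ℝ (Fin d)) := mem_interior_iff_mem_nhds.mp hKi
  have hV0 : volume K ≠ 0 := (Measure.measure_pos_of_mem_nhds volume hnhds).ne'
  have hVr : 0 < (volume K).toReal := ENNReal.toReal_pos hV0 hKc.measure_lt_top.ne
  have hg := Pool.Agent.TH591.Ns.isG_gauge hK hnhds
  have hnn : 0 ≤ avgSmooth K s := by
    unfold avgSmooth
    refine div_nonneg ?_ (by positivity)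
    refine integral_nonneg fun z => integral_nonneg fun v => ?_
    have h1 := hg.add (z + s • v) (z - s • v)
    have h2 := hg.smul 2 (by norm_num) z
    have e : z + s • v + (z - s • v) = (2 : ℝ) • z := by
      rw [two_smul]; abel
    rw [e, h2] at h1
    show 0 ≤ gauge K (z + s • v) + gauge K (z - s • v) - 2 * gauge K z
    linarith
  have hρ : 0 < (avgSmooth K s + 1 / ((d : ℝ) + 1)) / s := by positivity
  have hfl : flatness K ≤ (avgSmooth K s + 1 / (d + 1)) / s := by
    refine Pool.Agent.Run7.h924.As.crit_body K hK hKc hKi s (avgSmooth K s) hs (le_of_eq ?_)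
    unfold avgSmooth
    rw [div_mul_cancel₀ _ (by positivity)]
  have e1 : 1 / (7680 * ((avgSmooth K s + 1 / ((d : ℝ) + 1)) / s))
      = s / (7680 * (avgSmooth K s + 1 / (d + 1))) := by
    field_simp
  obtain ⟨T, hT1, hT2, hT3⟩ :=
    (Pool.Agent.Results.MP_eba1ef_gt.AsymmetricThinSlabs.result d hd K hK hKc hKi).2.1 _ hρ hfl
  rw [e1] at hT2 hT3
  refine ⟨hfl, ⟨T, hT1, hT2, hT3⟩, fun hall => ?_⟩
  by_contra hcon
  rw [not_lt] at hcon
  have hlt : T.card < 2 ^ d := by
    refine hT3 ?_
    set L : ℝ := 19 * d * Real.log (2 * d ^ 2 + 2 * d + 1) with hL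
    have hd' : (2 : ℝ) ≤ d := by exact_mod_cast hd
    have hL1 : 1 < L := by
      have h1 : 1 ≤ Real.log (2 * (d : ℝ) ^ 2 + 2 * d + 1) := by
        rw [Real.le_log_iff_exp_le (by positivity)]
        have := Real.exp_one_lt_d9
        nlinarith
      rw [hL]
      nlinarith
    have hlogL : 0 < Real.log L := Real.log_pos hL1
    have h1 : avgSmooth K s + 1 / ((d : ℝ) + 1) ≤ s / (7680 * Real.log L) := by linarith
    have h2 : Real.log L ≤ s / (7680 * (avgSmooth K s + 1 / (d + 1))) := by
      rw [le_div_iff₀ (by positivity)] at h1 ⊢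
      linarith
    have h3 : Real.exp (-(s / (7680 * (avgSmooth K s + 1 / (d + 1))))) ≤ L⁻¹ := by
      rw [← Real.exp_log (show 0 < L⁻¹ by positivity), Real.exp_le_exp, Real.log_inv]
      linarith
    calc L * Real.exp (-(s / (7680 * (avgSmooth K s + 1 / (d + 1))))) ≤ L * L⁻¹ := by gcongr
      _ = 1 := mul_inv_cancel₀ (by positivity)
  exact absurd (hall T hT1) (not_le.2 hlt)

end Pool.Agent.Run7.h924.KeptAS
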