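import Pool.Agent.H638.IB.T_GB
import Pool.Agent.H638.IB.T_GC
import Pool.Agent.H638.IB.T_GM
import Pool.Agent.H638.IB.T_GS
import Pool.Agent.H638.IB.T_POSN
import Pool.Agent.H638.IB.T_SEL
import Pool.Agent.H638.IB.T_CPT

/-!
# Largest determinants in symmetric convex bodies
-/

set_option autoImplicit false

open MeasureTheory Set Filter Topology Metric
open scoped Pointwise RealInnerProductSpace ENNReal

namespace Run7.h924.GM

open Pool.Agent.H638.IB

theorem hGB : S_GB := GB_ok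
theorem hGS : S_GS := GS_ok
theorem hCPT : S_CPT := CPT_ok (POSN_ok hGB) (SEL_ok hGB GC_ok (GM_ok hGB)) hGS

/-- the determinant of `n` vectors of `ℝⁿ` -/
noncomputable def dt {n : ℕ} : (E n) [⋀^Fin n]→ₗ[ℝ] ℝ :=
  (EuclideanSpace.basisFun (Fin n) ℝ).toBasis.det

theorem dt_apply {n : ℕ} (v : Fin n → E n) :
    dt v = Matrix.det (Matrix.of fun i j => v i j) := by
  unfold dt
  rw [Module.Basis.det_apply, ← Matrix.det_transpose]
  congr 1

theorem dt_comp {n : ℕ} (T : E n →ₗ[ℝ] E n) (v : Fin n → E n) :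
    dt (fun i => T (v i)) = LinearMap.det T * dt v :=
  Module.Basis.det_comp _ T v

theorem continuous_dt {n : ℕ} : Continuous fun v : Fin n → E n => dt v := by
  have h : (fun v : Fin n → E n => dt v) = fun v => Matrix.det (Matrix.of fun i j => v i j) :=
    funext dt_apply
  rw [h]
  refine Continuous.matrix_det ?_
  refine continuous_matrix fun i j => ?_
  simp only [Matrix.of_apply]
  fun_prop

/-- frames in a set -/
def Fr {n : ℕ} (K : Set (E n)) : Set (Fin n → E n) := {v | ∀ i, v i ∈ K}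

/-- the largest determinant of `n` points of `K` -/
noncomputable def DD {n : ℕ} (K : Set (E n)) : ℝ := sSup ((fun v => |dt v|) '' Fr K)

variable {n : ℕ} {K L : Set (E n)}

theorem Fr_compact (hK : IsCompact K) : IsCompact (Fr K) := by
  have : Fr K = Set.pi univ fun _ => K := by
    ext v; simp [Fr]
  rw [this]
  exact isCompact_univ_pi fun _ => hK

theorem bdd (hK : IsCompact K) : BddAbove ((fun v : Fin n → E n => |dt v|) '' Fr K) :=
  ((Fr_compact hK).image (continuous_abs.comp continuous_dt)).bddAbove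

theorem le_DD (hK : IsCompact K) {v : Fin n → E n} (hv : ∀ i, v i ∈ K) : |dt v| ≤ DD K :=
  le_csSup (bdd hK) ⟨v, hv, rfl⟩

theorem exists_DD (hK : IsCompact K) (hne : K.Nonempty) :
    ∃ v : Fin n → E n, (∀ i, v i ∈ K) ∧ |dt v| = DD K := by
  obtain ⟨x, hx⟩ := hne
  have h1 : (Fr K).Nonempty := ⟨fun _ => x, fun _ => hx⟩
  obtain ⟨v, hv, h⟩ := (Fr_compact hK).exists_sSup_image_eq h1
    ((continuous_abs.comp continuous_dt).continuousOn)
  exact ⟨v, hv, h.symm⟩

theorem DD_le (hne : K.Nonempty) {M : ℝ} (h : ∀ v : Fin n → E n, (∀ i, v i ∈ K) → |dt v| ≤ M) :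
    DD K ≤ M := by
  obtain ⟨x, hx⟩ := hne
  refine csSup_le ⟨_, ⟨fun _ => x, fun _ => hx, rfl⟩⟩ ?_
  rintro _ ⟨v, hv, rfl⟩
  exact h v hv

theorem body_ne (hK : Body K) : K.Nonempty := hK.int.mono interior_subset

theorem zero_mem (hK : Body K) : (0 : E n) ∈ K := by
  obtain ⟨⟨r, R, hr, -, hrK, -⟩, -⟩ := hGB K hK
  exact hrK (mem_closedBall_self hr.le)

theorem DD_pos (hK : Body K) : 0 < DD K := by
  obtain ⟨⟨r, R, hr, -, hrK, -⟩, -⟩ := hGB K hK
  have h1 : |dt fun i : Fin n => r • (EuclideanSpace.basisFun (Fin n) ℝ).toBasis i| ≤ DD K := by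
    refine le_DD hK.compact fun i => hrK ?_
    simp [norm_smul, abs_of_pos hr]
  have h2 : (dt fun i : Fin n => r • (EuclideanSpace.basisFun (Fin n) ℝ).toBasis i) = r ^ n := by
    have := (dt (n := n)).toMultilinearMap.map_smul_univ (fun _ : Fin n => r)
      (fun i => (EuclideanSpace.basisFun (Fin n) ℝ).toBasis i)
    simp only [Finset.prod_const, Finset.card_univ, Fintype.card_fin] at this
    have h3 : dt (n := n) (fun i => (EuclideanSpace.basisFun (Fin n) ℝ).toBasis i) = 1 :=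
      Module.Basis.det_self _
    have h4 : (dt (n := n)).toMultilinearMap (fun i => (EuclideanSpace.basisFun (Fin n) ℝ).toBasis i)
        = 1 := h3
    rw [h4] at this
    simpa using this
  rw [h2, abs_of_pos (by positivity)] at h1
  exact lt_of_lt_of_le (by positivity) h1

theorem DD_mono (hL : IsCompact L) (hne : K.Nonempty) (h : K ⊆ L) : DD K ≤ DD L :=
  DD_le hne fun _ hv => le_DD hL fun i => h (hv i)

theorem DD_smul_le (hL : IsCompact L) (hne : K.Nonempty) {c : ℝ} (hc : 0 ≤ c) (h : K ⊆ c • L) :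
    DD K ≤ c ^ n * DD L := by
  refine DD_le hne fun v hv => ?_
  have h1 : ∀ i, ∃ y ∈ L, c • y = v i := fun i => h (hv i)
  choose w hw hwv using h1
  have h2 : v = fun i => c • w i := funext fun i => (hwv i).symm
  have h3 : dt v = c ^ n * dt w := by
    rw [h2]
    have := (dt (n := n)).toMultilinearMap.map_smul_univ (fun _ : Fin n => c) w
    simpa using this
  rw [h3, abs_mul, abs_of_nonneg (by positivity : (0:ℝ) ≤ c ^ n)]
  exact mul_le_mul_of_nonneg_left (le_DD hL hw) (by positivity)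

theorem DD_image (hK : Body K) (T : E n ≃ₗ[ℝ] E n) :
    DD (T '' K) = |LinearMap.det (T : E n →ₗ[ℝ] E n)| * DD K := by
  have hT : Body (T '' K) := ((hGS K hK).2 T).1
  refine le_antisymm ?_ ?_
  · refine DD_le (body_ne hT) fun v hv => ?_
    choose w hw hwv using hv
    have h2 : v = fun i => (T : E n →ₗ[ℝ] E n) (w i) := funext fun i => (hwv i).symm
    rw [h2, dt_comp, abs_mul]
    exact mul_le_mul_of_nonneg_left (le_DD hK.compact hw) (abs_nonneg _)
  · obtain ⟨v, hv, h⟩ := exists_DD hK.compact (body_ne hK)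
    rw [← h, ← abs_mul, ← dt_comp]
    exact le_DD hT.compact fun i => ⟨v i, hv i, rfl⟩

/-- the functional -/
noncomputable def G (K : Set (E n)) : ℝ := vol K / DD K

theorem vol_pos (hK : Body K) : 0 < vol K := (hGB K hK).2.2.2.2.2.2.1

theorem G_pos (hK : Body K) : 0 < G K := div_pos (vol_pos hK) (DD_pos hK)

theorem G_image (hK : Body K) (T : E n ≃ₗ[ℝ] E n) : G (T '' K) = G K := by
  have h1 := ((hGS K hK).2 T).2.1
  have hd : |LinearMap.det (T : E n →ₗ[ℝ] E n)| ≠ 0 := by
    have := (LinearEquiv.isUnit_det' T).ne_zero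
    exact abs_ne_zero.2 this
  unfold G
  rw [h1, DD_image hK, mul_div_mul_left _ _ hd]

theorem vol_le_smul (hK : Body K) (hL : Body L) {c : ℝ} (hc : 0 < c) (h : K ⊆ c • L) :
    vol K ≤ c ^ n * vol L := by
  obtain ⟨h1, h2, -⟩ := (hGS L hL).1 c hc
  rw [← h2]
  unfold vol
  refine ENNReal.toReal_mono ?_ (measure_mono h)
  exact (hGB _ h1).2.2.2.2.2.2.2.1

theorem G_near (hK : Body K) (hL : Body L) {l : ℝ} (hl : 1 ≤ l) (h1 : K ⊆ l • L) (h2 : L ⊆ l • K) :
    G K ≤ l ^ (2 * n) * G L := by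
  have hl0 : 0 < l := by linarith
  have a1 := vol_le_smul hK hL hl0 h1
  have a2 := DD_smul_le hK.compact (body_ne hL) hl0.le h2
  unfold G
  rw [div_le_iff₀ (DD_pos hK)]
  have hDL := DD_pos hL
  calc vol K ≤ l ^ n * vol L := a1
    _ = l ^ (2 * n) * (vol L / DD L) * (DD L / l ^ n) := by
        field_simp
        ring
    _ ≤ l ^ (2 * n) * (vol L / DD L) * DD K := by
        refine mul_le_mul_of_nonneg_left ?_ (by have := vol_pos hL; positivity)
        rw [div_le_iff₀ (by positivity)]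
        linarith

theorem exists_max (n : ℕ) : ∃ L : Set (E n), Body L ∧ ∀ K : Set (E n), Body K → G K ≤ G L := by
  have hB : Body (closedBall (0 : E n) 1) := by
    refine ⟨isCompact_closedBall _ _, convex_closedBall _ _, ?_, ?_⟩
    · exact ⟨0, ball_subset_interior_closedBall (mem_ball_self one_pos)⟩
    · intro x hx; simpa using hx
  set S : Set ℝ := {g | ∃ K : Set (E n), Body K ∧ g = G K} with hS
  have hne : S.Nonempty := ⟨_, _, hB, rfl⟩
  have hbdd : BddAbove S := by
    by_contra hcon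
    have hex : ∀ j : ℕ, ∃ K : Set (E n), Body K ∧ (j : ℝ) < G K := by
      intro j
      by_contra h
      push Not at h
      exact hcon ⟨j, by rintro _ ⟨K, hK, rfl⟩; exact h K hK⟩
    choose K hKb hKG using hex
    obtain ⟨L, T, φ, hL, hφ, hclose⟩ := hCPT n K hKb
    have hev := hclose 1 one_pos
    obtain ⟨m, hm⟩ := exists_nat_gt ((1 + 1 : ℝ) ^ (2 * n) * G L)
    obtain ⟨j, hj, hjm⟩ := (hev.and (eventually_ge_atTop m)).exists
    have h1 := G_near (((hGS _ (hKb (φ j))).2 (T j)).1) hL (by norm_num) hj.1 hj.2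
    rw [G_image (hKb (φ j))] at h1
    have h2 := hKG (φ j)
    have h3 : (m : ℝ) ≤ (φ j : ℝ) := by exact_mod_cast hjm.trans (hφ.id_le j)
    linarith
  have hex : ∀ j : ℕ, ∃ K : Set (E n), Body K ∧ sSup S - 1 / ((j : ℝ) + 1) < G K := by
    intro j
    obtain ⟨_, ⟨K, hK, rfl⟩, h⟩ := exists_lt_of_lt_csSup hne
      (show sSup S - 1 / ((j : ℝ) + 1) < sSup S by
        have : (0:ℝ) < 1 / ((j : ℝ) + 1) := by positivity
        linarith)
    exact ⟨K, hK, h⟩
  choose K hKb hKG using hex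
  obtain ⟨L, T, φ, hL, hφ, hclose⟩ := hCPT n K hKb
  refine ⟨L, hL, ?_⟩
  have key : ∀ l : ℝ, 1 < l → sSup S ≤ l ^ (2 * n) * G L + (l - 1) := by
    intro l hl
    have hev := hclose (l - 1) (by linarith)
    have hev2 : ∀ᶠ j : ℕ in atTop, 1 / ((j : ℝ) + 1) ≤ l - 1 := by
      have := tendsto_one_div_add_atTop_nhds_zero_nat (𝕜 := ℝ)
      exact (this.eventually (gt_mem_nhds (show (0 : ℝ) < l - 1 by linarith))).mono
        fun j hj => le_of_lt hj
    obtain ⟨j, hj, hj2⟩ := (hev.and hev2).exists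
    rw [show (1 : ℝ) + (l - 1) = l by ring] at hj
    have h1 := G_near (((hGS _ (hKb (φ j))).2 (T j)).1) hL hl.le hj.1 hj.2
    rw [G_image (hKb (φ j))] at h1
    have h2 := hKG (φ j)
    have h3 : (1 : ℝ) / ((φ j : ℝ) + 1) ≤ 1 / ((j : ℝ) + 1) := by
      have h4 : (j : ℝ) ≤ (φ j : ℝ) := by exact_mod_cast hφ.id_le j
      apply one_div_le_one_div_of_le
      · positivity
      · linarith
    linarith
  have hlim : sSup S ≤ G L := by
    have hcont : Tendsto (fun l : ℝ => l ^ (2 * n) * G L + (l - 1)) (𝓝[>] 1)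
        (𝓝 ((1 : ℝ) ^ (2 * n) * G L + (1 - 1))) := by
      have hc : Continuous (fun l : ℝ => l ^ (2 * n) * G L + (l - 1)) := by fun_prop
      exact hc.continuousWithinAt
    have h1 : ((1 : ℝ) ^ (2 * n) * G L + (1 - 1)) = G L := by simp
    rw [h1] at hcont
    refine ge_of_tendsto hcont ?_
    filter_upwards [self_mem_nhdsWithin] with l hl
    exact key l hl
  intro K' hK'
  exact (le_csSup hbdd ⟨K', hK', rfl⟩).trans hlim

end Run7.h924.GM
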