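import Pool.Agent.Run7.h924.GMA

/-!
# Every boundary point of a maximiser lies in a maximal frame
-/

set_option autoImplicit false

open MeasureTheory Set Filter Topology Metric
open scoped Pointwise RealInnerProductSpace ENNReal

namespace Run7.h924.GM

open Pool.Agent.H638.IB

variable {n : ℕ} {K L : Set (E n)}

theorem dt_update_smul (v : Fin n → E n) (i : Fin n) (c : ℝ) (x : E n) :
    dt (Function.update v i (c • x)) = c * dt (Function.update v i x) :=
  (dt (n := n)).map_update_smul v i c x

theorem dt_update_neg (v : Fin n → E n) (i : Fin n) (x : E n) :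
    dt (Function.update v i (-x)) = -dt (Function.update v i x) := by
  have := dt_update_smul v i (-1) x
  rw [neg_one_smul, neg_one_mul] at this
  exact this

/-- the functional `x ↦ dt (update v i x)` -/
noncomputable def slot (v : Fin n → E n) (i : Fin n) : E n →ₗ[ℝ] ℝ :=
  (dt (n := n)).toMultilinearMap.toLinearMap v i

theorem slot_apply (v : Fin n → E n) (i : Fin n) (x : E n) :
    slot v i x = dt (Function.update v i x) := rfl

/-- bounds on a generating set extend to the convex hull -/
theorem hull_le {A : Set (E n)} {M : ℝ} (h : ∀ v : Fin n → E n, (∀ i, v i ∈ A) → |dt v| ≤ M)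
    (v : Fin n → E n) (hv : ∀ i, v i ∈ convexHull ℝ A) : |dt v| ≤ M := by
  have key : ∀ s : Finset (Fin n), ∀ v : Fin n → E n, (∀ i ∈ s, v i ∈ convexHull ℝ A) →
      (∀ i, i ∉ s → v i ∈ A) → |dt v| ≤ M := by
    intro s
    induction s using Finset.induction_on with
    | empty => intro v _ h2; exact h v fun i => h2 i (by simp)
    | insert i s his ih =>
      intro v h1 h2
      have hc : Convex ℝ {x : E n | |slot v i x| ≤ M} := by
        have : {x : E n | |slot v i x| ≤ M} = slot v i ⁻¹' Icc (-M) M := by
          ext x; simp [abs_le]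
        rw [this]
        exact (convex_Icc _ _).linear_preimage (slot v i)
      have hA : A ⊆ {x : E n | |slot v i x| ≤ M} := by
        intro x hx
        refine ih (Function.update v i x) ?_ ?_
        · intro j hj
          have hji : j ≠ i := fun h => his (h ▸ hj)
          rw [Function.update_of_ne hji]
          exact h1 j (Finset.mem_insert_of_mem hj)
        · intro j hj
          by_cases hji : j = i
          · subst hji; rw [Function.update_self]; exact hx
          · rw [Function.update_of_ne hji]
            exact h2 j (by simp [hji, hj])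
      have h3 := convexHull_min hA hc (h1 i (Finset.mem_insert_self _ _))
      simp only [mem_ofPred_eq, slot_apply, Function.update_eq_self] at h3
      exact h3
  exact key Finset.univ v (fun i _ => hv i) fun i hi => absurd (Finset.mem_univ i) hi

/-- bounds on a generating set extend to the closed convex hull -/
theorem hull_le' {A : Set (E n)} {M : ℝ} (h : ∀ v : Fin n → E n, (∀ i, v i ∈ A) → |dt v| ≤ M)
    (v : Fin n → E n) (hv : ∀ i, v i ∈ closure (convexHull ℝ A)) : |dt v| ≤ M := by
  have h1 : closure (Set.pi univ fun _ : Fin n => convexHull ℝ A) ⊆ {v | |dt v| ≤ M} := by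
    refine closure_minimal ?_ ?_
    · intro w hw
      exact hull_le h w fun i => hw i (mem_univ i)
    · exact isClosed_le (continuous_abs.comp continuous_dt) continuous_const
  rw [closure_pi_set] at h1
  exact h1 fun i _ => hv i

/-- bound for the frames with points in `K ∪ {p, -p}` -/
theorem union_le (hK : Body K) {p : E n} {M : ℝ}
    (h1 : ∀ v : Fin n → E n, (∀ i, v i ∈ K) → |dt v| ≤ M)
    (h2 : ∀ v : Fin n → E n, (∀ i, v i ∈ K) → ∀ i, |dt (Function.update v i p)| ≤ M)
    (v : Fin n → E n) (hv : ∀ i, v i ∈ K ∪ {p, -p}) : |dt v| ≤ M := by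
  have hM : 0 ≤ M := (abs_nonneg _).trans (h1 (fun _ => 0) fun _ => zero_mem hK)
  by_cases hall : ∀ i, v i ∈ K
  · exact h1 v hall
  push Not at hall
  obtain ⟨i, hi⟩ := hall
  have hi' : v i = p ∨ v i = -p := by
    rcases hv i with h | h
    · exact absurd h hi
    · simpa using h
  by_cases hoth : ∀ j, j ≠ i → v j ∈ K
  · have h3 : v = Function.update (Function.update v i 0) i (v i) := by
      rw [Function.update_idem, Function.update_eq_self]
    have h4 : ∀ j, Function.update v i (0 : E n) j ∈ K := by
      intro j
      by_cases hji : j = i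
      · subst hji; rw [Function.update_self]; exact zero_mem hK
      · rw [Function.update_of_ne hji]; exact hoth j hji
    have h5 := h2 _ h4 i
    rw [h3]
    rcases hi' with h | h
    · rw [h]; exact h5
    · rw [h, dt_update_neg, abs_neg]; exact h5
  · push Not at hoth
    obtain ⟨j, hji, hj⟩ := hoth
    have hj' : v j = p ∨ v j = -p := by
      rcases hv j with h | h
      · exact absurd h hj
      · simpa using h
    have h6 : dt v = 0 := by
      have h7 : v j = v i ∨ v j = -v i := by
        rcases hi' with h | h <;> rcases hj' with h' | h' <;> simp [h, h']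
      rcases h7 with h | h
      · exact (dt (n := n)).map_eq_zero_of_eq v h hji
      · have h8 : v = Function.update v j (-v i) := by
          rw [← h, Function.update_eq_self]
        rw [h8, dt_update_neg, neg_eq_zero]
        refine (dt (n := n)).map_eq_zero_of_eq (i := j) (j := i) _ ?_ hji
        rw [Function.update_self, Function.update_of_ne hji.symm]
    rw [h6, abs_zero]
    exact hM

/-- the enlarged body -/
theorem enlarge (hK : Body K) {p : E n} (hp : p ∉ K) :
    Body (closure (convexHull ℝ (K ∪ {p, -p}))) ∧
      vol K < vol (closure (convexHull ℝ (K ∪ {p, -p}))) := by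
  set S := closure (convexHull ℝ (K ∪ {p, -p})) with hS
  have hbd : Bornology.IsBounded (K ∪ {p, -p}) :=
    hK.compact.isBounded.union (Set.Finite.isBounded (by simp))
  have hKS : K ⊆ S := (subset_union_left).trans ((subset_convexHull _ _).trans subset_closure)
  have hpS : p ∈ S := subset_closure (subset_convexHull _ _ (by simp))
  have hSc : IsCompact S := by
    refine Metric.isCompact_of_isClosed_isBounded isClosed_closure ?_
    exact (isBounded_convexHull.2 hbd).closure
  have hbody : Body S := by
    refine ⟨hSc, (convex_convexHull _ _).closure, hK.int.mono (interior_mono hKS), ?_⟩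
    intro x hx
    have h1 : -(K ∪ {p, -p}) = K ∪ {p, -p} := by
      ext y
      simp only [Set.mem_neg, mem_union, mem_insert_iff, mem_singleton_iff]
      constructor
      · rintro (h | h | h)
        · left; simpa using hK.neg _ h
        · right; right; rw [← h, neg_neg]
        · right; left; rw [← neg_neg y, h, neg_neg]
      · rintro (h | h | h)
        · left; exact hK.neg _ h
        · right; right; rw [h]
        · right; left; rw [h, neg_neg]
    have h2 : -(convexHull ℝ (K ∪ {p, -p})) = convexHull ℝ (K ∪ {p, -p}) := by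
      rw [← convexHull_neg, h1]
    have h3 := image_closure_subset_closure_image (continuous_neg (G := E n))
      (mem_image_of_mem _ hx)
    rw [image_neg_eq_neg, h2] at h3
    exact h3
  refine ⟨hbody, ?_⟩
  -- a small ball of `S` near `p` outside `K`
  have hcl : IsClosed K := hK.compact.isClosed
  have hopen : IsOpen (interior S ∩ Kᶜ) := isOpen_interior.inter hcl.isOpen_compl
  have hne : (interior S ∩ Kᶜ).Nonempty := by
    have hpc : p ∈ closure (interior S) := by
      rw [hbody.convex.closure_interior_eq_closure_of_nonempty_interior hbody.int]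
      exact subset_closure hpS
    obtain ⟨x, hx1, hx2⟩ := mem_closure_iff.1 hpc Kᶜ hcl.isOpen_compl hp
    exact ⟨x, hx2, hx1⟩
  have hpos : 0 < volume (interior S ∩ Kᶜ) := hopen.measure_pos _ hne
  have hfin : volume S ≠ ⊤ := (hGB S hbody).2.2.2.2.2.2.2.1
  have hle : volume K + volume (interior S ∩ Kᶜ) ≤ volume S := by
    rw [← measure_union ?_ hopen.measurableSet]
    · refine measure_mono (union_subset hKS ?_)
      exact inter_subset_left.trans interior_subset
    · exact Set.disjoint_left.2 fun x hx hx' => hx'.2 hx
  unfold vol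
  rw [ENNReal.toReal_lt_toReal ((hGB K hK).2.2.2.2.2.2.2.1) hfin]
  refine lt_of_lt_of_le ?_ hle
  exact ENNReal.lt_add_right (hGB K hK).2.2.2.2.2.2.2.1 hpos.ne'

/-- **Every boundary point of a maximiser lies in a maximal frame.** -/
theorem bdry (hL : Body L) (hmax : ∀ K : Set (E n), Body K → G K ≤ G L) {x : E n} (hx : x ∈ L)
    (hout : ∀ c : ℝ, 1 < c → c • x ∉ L) :
    ∃ v : Fin n → E n, (∀ i, v i ∈ L) ∧ ∃ i, |dt (Function.update v i x)| = DD L := by
  by_contra hcon
  push Not at hcon
  have hle : ∀ v : Fin n → E n, (∀ i, v i ∈ L) → ∀ i, |dt (Function.update v i x)| ≤ DD L := by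
    intro v hv i
    refine le_DD hL.compact fun j => ?_
    by_cases hji : j = i
    · subst hji; rw [Function.update_self]; exact hx
    · rw [Function.update_of_ne hji]; exact hv j
  -- a uniform gap
  obtain ⟨δ, hδ0, hδ1, hδ⟩ : ∃ δ : ℝ, 0 ≤ δ ∧ δ < DD L ∧
      ∀ v : Fin n → E n, (∀ i, v i ∈ L) → ∀ i, |dt (Function.update v i x)| ≤ δ := by
    have hgap : ∀ i : Fin n, ∃ δ : ℝ, 0 ≤ δ ∧ δ < DD L ∧
        ∀ v : Fin n → E n, (∀ j, v j ∈ L) → |dt (Function.update v i x)| ≤ δ := by
      intro i
      have hc : Continuous fun v : Fin n → E n => |dt (Function.update v i x)| :=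
        continuous_abs.comp (continuous_dt.comp (continuous_id.update i continuous_const))
      have hne : (Fr L).Nonempty := ⟨fun _ => 0, fun _ => zero_mem hL⟩
      obtain ⟨v, hv, hvm⟩ := (Fr_compact hL.compact).exists_isMaxOn hne hc.continuousOn
      refine ⟨|dt (Function.update v i x)|, abs_nonneg _, ?_, fun w hw => hvm hw⟩
      exact lt_of_le_of_ne (hle v hv i) (hcon v hv i)
    choose δ h1 h2 h3 using hgap
    rcases isEmpty_or_nonempty (Fin n) with he | he
    · exact ⟨0, le_rfl, DD_pos hL, fun v _ i => he.elim i⟩
    · obtain ⟨i0, hi0⟩ := Finite.exists_max δ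
      exact ⟨δ i0, h1 i0, h2 i0, fun v hv i => (h3 i v hv).trans (hi0 i)⟩
  set ε : ℝ := (DD L - δ) / (δ + 1) with hε
  have hε0 : 0 < ε := by
    rw [hε]; apply div_pos <;> linarith
  have hεδ : (1 + ε) * δ ≤ DD L := by
    have h1 : ε * (δ + 1) = DD L - δ := by
      rw [hε]; field_simp
    nlinarith
  have hp := hout (1 + ε) (by linarith)
  obtain ⟨hb, hv⟩ := enlarge hL hp
  have hDD : DD (closure (convexHull ℝ (L ∪ {(1 + ε) • x, -((1 + ε) • x)}))) ≤ DD L := by
    refine DD_le (body_ne hb) (hull_le' (union_le hL (fun v hv => le_DD hL.compact hv) ?_))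
    intro v hv i
    rw [dt_update_smul, abs_mul, abs_of_pos (by linarith)]
    exact (mul_le_mul_of_nonneg_left (hδ v hv i) (by linarith)).trans hεδ
  have h1 := hmax _ hb
  unfold G at h1
  rw [div_le_div_iff₀ (DD_pos hb) (DD_pos hL)] at h1
  have h2 : vol L * DD (closure (convexHull ℝ (L ∪ {(1 + ε) • x, -((1 + ε) • x)}))) ≤
      vol L * DD L :=
    mul_le_mul_of_nonneg_left hDD (vol_pos hL).le
  have h3 : vol L * DD L <
      vol (closure (convexHull ℝ (L ∪ {(1 + ε) • x, -((1 + ε) • x)}))) * DD L :=
    mul_lt_mul_of_pos_right hv (DD_pos hL)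
  linarith

end Run7.h924.GM
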