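import Pool.Agent.Run7.h924.GMB
import Pool.Agent.H638.IB.T_MP
import Pool.Agent.H638.IB.T_FIB
import Pool.Agent.H638.IB.T_KTB

/-!
# The midpoints of a maximiser, in one direction
-/

set_option autoImplicit false

open MeasureTheory Set Filter Topology Metric
open scoped Pointwise RealInnerProductSpace ENNReal

namespace Run7.h924.GM

open Pool.Agent.H638.IB

theorem hFIB : S_FIB := FIB_ok hGB
theorem hKTB : S_KTB := KTB_ok hFIB MP_ok hGB

variable {N : ℕ}

/-- cofactors along the first column -/
noncomputable def cof (y : Fin (N + 1) → E N) (i : Fin (N + 1)) : ℝ :=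
  (-1) ^ (i : ℕ) * Matrix.det (Matrix.of fun (k : Fin N) (j : Fin N) => y (i.succAbove k) j)

/-- the determinant with first coordinates `a` -/
noncomputable def FF (a : Fin (N + 1) → ℝ) (y : Fin (N + 1) → E N) : ℝ :=
  dt fun i => mk (a i) (y i)

theorem FF_eq (a : Fin (N + 1) → ℝ) (y : Fin (N + 1) → E N) : FF a y = ∑ i, a i * cof y i := by
  unfold FF
  rw [dt_apply, Matrix.det_succ_column_zero]
  refine Finset.sum_congr rfl fun i _ => ?_
  unfold cof
  simp only [Matrix.of_apply, mk_zero_apply]
  have : (Matrix.submatrix (Matrix.of fun (i j : Fin (N + 1)) => (mk (a i) (y i)) j) i.succAbove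
      Fin.succ) = Matrix.of fun (k : Fin N) (j : Fin N) => y (i.succAbove k) j := by
    ext k j
    simp [mk_succ_apply]
  rw [this]
  ring

theorem FF_add (a b : Fin (N + 1) → ℝ) (y : Fin (N + 1) → E N) :
    FF (fun i => a i + b i) y = FF a y + FF b y := by
  simp only [FF_eq, add_mul, Finset.sum_add_distrib]

theorem FF_sub (a b : Fin (N + 1) → ℝ) (y : Fin (N + 1) → E N) :
    FF (fun i => a i - b i) y = FF a y - FF b y := by
  simp only [FF_eq, sub_mul, Finset.sum_sub_distrib]

variable {K : Set (E (N + 1))}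

/-- configurations in the Steiner symmetral give pairs of configurations in `K` -/
theorem pm (hK : Body K) {s : Fin (N + 1) → ℝ} {y : Fin (N + 1) → E N}
    (h : ∀ i, y i ∈ Pr K ∧ |s i| ≤ len K (y i)) :
    |FF s y + FF (fun i => mid K (y i)) y| ≤ DD K ∧
      |FF s y - FF (fun i => mid K (y i)) y| ≤ DD K := by
  obtain ⟨f1, -⟩ := hFIB K hK
  constructor
  · rw [← FF_add]
    refine le_DD hK.compact fun i => ?_
    rw [f1]
    refine ⟨(h i).1, ?_⟩
    rw [add_sub_cancel_right]
    exact (h i).2
  · rw [← FF_sub]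
    have h1 : FF (fun i => s i - mid K (y i)) y = -FF (fun i => mid K (y i) - s i) y := by
      rw [FF_sub, FF_sub]; ring
    rw [h1, abs_neg]
    refine le_DD hK.compact fun i => ?_
    rw [f1]
    refine ⟨(h i).1, ?_⟩
    rw [show mid K (y i) - s i - mid K (y i) = -s i by ring, abs_neg]
    exact (h i).2

theorem FF_le (hK : Body K) {s : Fin (N + 1) → ℝ} {y : Fin (N + 1) → E N}
    (h : ∀ i, y i ∈ Pr K ∧ |s i| ≤ len K (y i)) :
    |FF s y| + |FF (fun i => mid K (y i)) y| ≤ DD K := by
  obtain ⟨h1, h2⟩ := pm hK h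
  rw [abs_le] at h1 h2
  rcases abs_cases (FF s y) with ⟨e1, _⟩ | ⟨e1, _⟩ <;>
    rcases abs_cases (FF (fun i => mid K (y i)) y) with ⟨e2, _⟩ | ⟨e2, _⟩ <;>
    rw [e1, e2] <;> linarith [h1.1, h1.2, h2.1, h2.2]

theorem mem_St (hK : Body K) (s : ℝ) (y : E N) :
    mk s y ∈ Kt K 1 ↔ y ∈ Pr K ∧ |s| ≤ len K y := by
  obtain ⟨-, f2, -⟩ := hFIB K hK
  rw [f2 1 zero_le_one le_rfl]
  simp

theorem St_body (hK : Body K) : Body (Kt K 1) := (hKTB K hK 1 zero_le_one le_rfl).1

theorem St_DD (hK : Body K) : DD (Kt K 1) ≤ DD K := by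
  refine DD_le (body_ne (St_body hK)) fun v hv => ?_
  choose s y hsy using fun i => exists_mk (v i)
  have h1 : dt v = FF s y := by
    unfold FF; congr 1; funext i; exact hsy i
  have h2 := FF_le hK (s := s) (y := y) fun i => by
    have := hv i; rw [hsy i, mem_St hK] at this; exact this
  rw [h1]
  linarith [abs_nonneg (FF (fun i => mid K (y i)) y)]

theorem St_max (hK : Body K) (hmax : ∀ L : Set (E (N + 1)), Body L → G L ≤ G K) :
    (∀ L : Set (E (N + 1)), Body L → G L ≤ G (Kt K 1)) ∧ DD (Kt K 1) = DD K := by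
  have hv : vol (Kt K 1) = vol K := by
    unfold vol; rw [(hKTB K hK 1 zero_le_one le_rfl).2]
  have hD := St_DD hK
  have hb := St_body hK
  have h1 := hmax _ hb
  have h2 : G K ≤ G (Kt K 1) := by
    unfold G
    rw [hv]
    exact div_le_div_of_nonneg_left (vol_pos hK).le (DD_pos hb) hD
  refine ⟨fun L hL => (hmax L hL).trans h2, le_antisymm hD ?_⟩
  unfold G at h1
  rw [hv, div_le_div_iff₀ (DD_pos hb) (DD_pos hK)] at h1
  exact le_of_mul_le_mul_left h1 (vol_pos hK)

theorem len_scale (hK : Body K) {x : E N} {c : ℝ} (hc : 1 < c) :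
    mk (c * len K x) (c • x) ∉ Kt K 1 := by
  intro h
  have hb := St_body hK
  obtain ⟨f1, f2, f3, f4, f5, f6, -, -⟩ := hFIB K hK
  have h0 : (0 : E N) ∈ interior (Pr K) := by
    obtain ⟨⟨r, R, hr, -, hrK, -⟩, -⟩ := hGB (Pr K) f5
    exact interior_mono hrK (ball_subset_interior_closedBall (mem_ball_self hr))
  have hl0 := f6 0 h0
  have h1 : mk (len K 0) (0 : E N) ∈ Kt K 1 := by
    rw [mem_St hK]; exact ⟨interior_subset h0, by rw [abs_of_pos hl0]⟩
  have hc0 : 0 < c := by linarith
  have h2 := hb.convex h h1 (by positivity : (0:ℝ) ≤ 1 / c)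
    (by rw [sub_nonneg, div_le_one hc0]; linarith : (0:ℝ) ≤ 1 - 1 / c) (by ring)
  rw [smul_mk, smul_mk, mk_add, mem_St hK] at h2
  have h3 : (1 / c) • c • x + (1 - 1 / c) • (0 : E N) = x := by
    rw [smul_smul, one_div_mul_cancel hc0.ne', one_smul, smul_zero, add_zero]
  rw [h3] at h2
  have h4 : 1 / c * (c * len K x) = len K x := by
    field_simp
  rw [h4] at h2
  have h5 := (le_abs_self _).trans h2.2
  have h6 : 0 < (1 - 1 / c) * len K 0 := by
    refine mul_pos ?_ hl0
    rw [sub_pos, div_lt_one hc0]; exact hc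
  linarith

/-- the linear functional of a slot in coordinates -/
noncomputable def psi (r : Fin (N + 1) → ℝ) (y : Fin (N + 1) → E N) : E (N + 1) →ₗ[ℝ] ℝ :=
  slot (fun i => mk (r i) (y i)) 0

theorem psi_mk (r : Fin (N + 1) → ℝ) (y : Fin (N + 1) → E N) (b : ℝ) (z : E N) :
    psi r y (mk b z) = FF (Function.update r 0 b) (Function.update y 0 z) := by
  unfold psi FF
  rw [slot_apply]
  congr 1
  funext i
  by_cases hi : i = 0
  · subst hi; simp
  · simp [hi]

theorem psi_one (r r' : Fin (N + 1) → ℝ) (y : Fin (N + 1) → E N) :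
    psi r y (mk 1 0) = psi r' y (mk 1 0) := by
  have key : ∀ r : Fin (N + 1) → ℝ, psi r y (mk 1 0) =
      FF (Function.update (fun _ => 0) 0 1) (Function.update y 0 0) := by
    intro r
    rw [psi_mk]
    have h1 : Function.update r 0 (1 : ℝ) =
        fun i => Function.update (fun _ => (0:ℝ)) 0 1 i + Function.update r 0 0 i := by
      funext i
      by_cases hi : i = 0
      · subst hi; simp
      · simp [hi]
    rw [h1, FF_add]
    have h2 : FF (Function.update r 0 0) (Function.update y 0 0) = 0 := by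
      unfold FF
      refine (dt (n := N + 1)).map_coord_zero 0 ?_
      simp [mk_zero_zero]
    rw [h2, add_zero]
  rw [key r, key r']

/-- the functional `z ↦ l (mk 0 z)` -/
noncomputable def low (l : E (N + 1) →ₗ[ℝ] ℝ) : E N →ₗ[ℝ] ℝ where
  toFun z := l (mk 0 z)
  map_add' z z' := by
    rw [← map_add, mk_add, add_zero]
  map_smul' c z := by
    rw [RingHom.id_apply, ← map_smul, smul_mk, mul_zero]

theorem low_apply (l : E (N + 1) →ₗ[ℝ] ℝ) (z : E N) : low l z = l (mk 0 z) := rfl

theorem split (l : E (N + 1) →ₗ[ℝ] ℝ) (b : ℝ) (z : E N) :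
    l (mk b z) = b * l (mk 1 0) + low l z := by
  rw [low_apply, ← smul_eq_mul, ← map_smul, ← map_add, smul_mk, mk_add, mul_one, smul_zero,
    zero_add, add_zero]

/-- **The relation between midpoints and lengths of chords at a maximiser.** -/
theorem star (hK : Body K) (hmax : ∀ L : Set (E (N + 1)), Body L → G L ≤ G K) {x : E N}
    (hx : x ∈ interior (Pr K)) :
    ∃ (θ w : E N →ₗ[ℝ] ℝ) (a : ℝ), (∀ z ∈ Pr K, |mid K z - θ z| ≤ a - w z - len K z) ∧
      a - w x = len K x ∧ mid K x = θ x := by
  obtain ⟨f1, f2, f3, f4, f5, f6, -, -⟩ := hFIB K hK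
  obtain ⟨hSm, hSD⟩ := St_max hK hmax
  have hb := St_body hK
  have hxP : x ∈ Pr K := interior_subset hx
  have hlx : 0 < len K x := f6 x hx
  have hp : mk (len K x) x ∈ Kt K 1 := by
    rw [mem_St hK]; exact ⟨hxP, by rw [abs_of_pos hlx]⟩
  have hout : ∀ c : ℝ, 1 < c → c • mk (len K x) x ∉ Kt K 1 := by
    intro c hc
    rw [smul_mk]
    exact len_scale hK hc
  obtain ⟨v, hv, i, hi⟩ := bdry hb hSm hp hout
  rw [hSD] at hi
  set D := DD K with hD
  have hDpos : 0 < D := DD_pos hK
  -- move the point to the first slot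
  set u : Fin (N + 1) → E (N + 1) := Function.update v i (mk (len K x) x) with hu
  set σ : Equiv.Perm (Fin (N + 1)) := Equiv.swap 0 i with hσ
  have hu' : |dt (u ∘ σ)| = D := by
    rw [AlternatingMap.map_perm, ← hi]
    rcases Int.units_eq_one_or (Equiv.Perm.sign σ) with h | h <;> simp [h]
  have huS : ∀ j, (u ∘ σ) j ∈ Kt K 1 := by
    intro j
    simp only [Function.comp_apply, hu]
    by_cases hj : σ j = i
    · rw [hj, Function.update_self]; exact hp
    · rw [Function.update_of_ne hj]; exact hv _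
  have hu0 : (u ∘ σ) 0 = mk (len K x) x := by
    simp [hu, hσ]
  choose s y hsy using fun j => exists_mk ((u ∘ σ) j)
  obtain ⟨hs0, hy0⟩ : s 0 = len K x ∧ y 0 = x := by
    have := hsy 0
    rw [hu0] at this
    obtain ⟨h1, h2⟩ := mk_inj.1 this
    exact ⟨h1.symm, h2.symm⟩
  have hF : |FF s y| = D := by
    rw [← hu']; unfold FF; congr 2; funext j; exact (hsy j).symm
  have hsy' : ∀ j, y j ∈ Pr K ∧ |s j| ≤ len K (y j) := by
    intro j
    have := huS j; rw [hsy j, mem_St hK] at this; exact this
  set m : Fin (N + 1) → ℝ := fun j => mid K (y j) with hm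
  have hFm : FF m y = 0 := by
    have := FF_le hK hsy'
    rw [hF] at this
    exact abs_eq_zero.1 (le_antisymm (by linarith) (abs_nonneg _))
  -- the bounds
  have hbound : ∀ z ∈ Pr K, ∀ b : ℝ, |b| ≤ len K z →
      |psi s y (mk b z)| + |psi m y (mk (mid K z) z)| ≤ D := by
    intro z hz b hbz
    have h1 := FF_le hK (s := Function.update s 0 b) (y := Function.update y 0 z) (by
      intro j
      by_cases hj : j = 0
      · subst hj; simp only [Function.update_self]; exact ⟨hz, hbz⟩
      · simp only [Function.update_of_ne hj]; exact hsy' j)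
    rw [psi_mk, psi_mk]
    have h2 : (fun i => mid K (Function.update y 0 z i)) = Function.update m 0 (mid K z) := by
      funext j
      by_cases hj : j = 0
      · subst hj; simp
      · simp [hj, hm]
    rw [h2] at h1
    exact h1
  set c0 : ℝ := psi s y (mk 1 0) with hc0
  have hc0' : psi m y (mk 1 0) = c0 := psi_one m s y
  set W := low (psi s y) with hW
  set T := low (psi m y) with hT
  have hsx : psi s y (mk (len K x) x) = FF s y := by
    rw [psi_mk, ← hs0, Function.update_eq_self, ← hy0, Function.update_eq_self]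
  have hmx : psi m y (mk (mid K x) x) = FF m y := by
    have : mid K x = m 0 := by rw [hm]; simp only [hy0]
    rw [psi_mk, this, Function.update_eq_self, ← hy0, Function.update_eq_self]
  rw [split, ← hc0, ← hW] at hsx
  rw [split, hc0', ← hT, hFm] at hmx
  -- the sign
  obtain ⟨e, he, heF⟩ : ∃ e : ℝ, (e = 1 ∨ e = -1) ∧ e * FF s y = D := by
    rcases abs_cases (FF s y) with ⟨h, _⟩ | ⟨h, _⟩
    · exact ⟨1, Or.inl rfl, by rw [one_mul, ← h, hF]⟩
    · exact ⟨-1, Or.inr rfl, by rw [neg_one_mul, ← h, hF]⟩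
  have heabs : ∀ t : ℝ, e * t ≤ |t| := by
    intro t
    rcases he with h | h
    · rw [h, one_mul]; exact le_abs_self t
    · rw [h, neg_one_mul]; exact neg_le_abs t
  have hee : e * e = 1 := by rcases he with h | h <;> rw [h] <;> norm_num
  have hlin : ∀ z ∈ Pr K, ∀ b : ℝ, |b| ≤ len K z →
      b * (e * c0) + e * W z + |mid K z * c0 + T z| ≤ D := by
    intro z hz b hbz
    have h1 := hbound z hz b hbz
    rw [split (psi s y) b z, split (psi m y) (mid K z) z, ← hc0, hc0', ← hW, ← hT] at h1
    have h2 := heabs (b * c0 + W z)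
    nlinarith
  have hx1 : len K x * (e * c0) + e * W x = D := by
    rw [← heF, ← hsx]; ring
  -- positivity of the coefficient
  have hcpos : 0 < e * c0 := by
    have h1 := hlin x hxP (-len K x) (by rw [abs_neg, abs_of_pos hlx])
    have h2 : 0 ≤ e * c0 := by
      by_contra hneg
      push Not at hneg
      have h3 : 0 < -len K x * (e * c0) - len K x * (e * c0) := by nlinarith
      linarith [abs_nonneg (mid K x * c0 + T x)]
    rcases h2.lt_or_eq with h | h
    · exact h
    exfalso
    rw [← h, mul_zero, zero_add] at hx1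
    -- move a little outwards
    have hev : ∀ᶠ t : ℝ in 𝓝[>] 1, t • x ∈ Pr K := by
      have hcont : Tendsto (fun t : ℝ => t • x) (𝓝[>] 1) (𝓝 x) := by
        have h1 : Continuous fun t : ℝ => t • x := by fun_prop
        have h2 := h1.tendsto 1
        rw [one_smul] at h2
        exact h2.mono_left nhdsWithin_le_nhds
      filter_upwards [hcont.eventually (isOpen_interior.mem_nhds hx)] with t ht
      exact interior_subset ht
    obtain ⟨t, ht, ht1⟩ := (hev.and self_mem_nhdsWithin).exists
    have ht1' : (1:ℝ) < t := ht1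
    have h3 := hlin (t • x) ht 0 (by rw [abs_zero]; exact f4 _ ht)
    rw [zero_mul, zero_add, map_smul, smul_eq_mul] at h3
    have h4 : e * (t * W x) = t * D := by rw [← hx1]; ring
    rw [h4] at h3
    have h5 := abs_nonneg (mid K (t • x) * c0 + T (t • x))
    nlinarith
  set c := e * c0 with hc
  have hcc : |c0| = c := by
    have h1 : |c| = |c0| := by
      rw [hc, abs_mul]
      rcases he with h | h <;> rw [h] <;> simp
    rw [← h1, abs_of_pos hcpos]
  have hc0ne : c0 ≠ 0 := by
    intro h
    rw [h, abs_zero] at hcc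
    linarith
  refine ⟨(-(1 / c0)) • T, (e / c) • W, D / c, ?_, ?_, ?_⟩
  · intro z hz
    have h1 := hlin z hz (len K z) (by rw [abs_of_nonneg (f4 z hz)])
    simp only [LinearMap.smul_apply, smul_eq_mul]
    have h2 : mid K z - -(1 / c0) * T z = (mid K z * c0 + T z) / c0 := by
      field_simp
      ring
    rw [h2, abs_div, hcc, div_le_iff₀ hcpos]
    have h3 : (D / c - e / c * W z - len K z) * c = D - e * W z - len K z * c := by
      field_simp
    rw [h3]
    linarith
  · simp only [LinearMap.smul_apply, smul_eq_mul]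
    rw [← hx1]
    field_simp
    ring
  · simp only [LinearMap.smul_apply, smul_eq_mul]
    have h1 : T x = -(mid K x * c0) := by linarith
    rw [h1]
    field_simp

end Run7.h924.GM
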