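import Pool.Agent.Run7.h924.GMC

/-!
# The midpoints of a maximiser are linear if the body is smooth in the given direction
-/

set_option autoImplicit false

open MeasureTheory Set Filter Topology Metric
open scoped Pointwise RealInnerProductSpace ENNReal

namespace Run7.h924.GM

open Pool.Agent.H638.IB

/-- a function with `s |φ s - φ r| ≤ (β r - β s) (s - r)` on `[r0, 1]` takes the same value at the
end points -/
theorem sub_const {φ β : ℝ → ℝ} {r0 : ℝ} (h0 : 0 < r0) (h1 : r0 ≤ 1)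
    (h : ∀ r s, r0 ≤ r → r < s → s ≤ 1 → s * |φ s - φ r| ≤ (β r - β s) * (s - r)) :
    φ 1 = φ r0 := by
  rcases h1.eq_or_lt with e | h1
  · rw [e]
  have key : ∀ M : ℕ, 0 < M → |φ 1 - φ r0| ≤ (β r0 - β 1) * ((1 - r0) / M) / r0 := by
    intro M hM
    have hM' : (0:ℝ) < M := by exact_mod_cast hM
    set d : ℝ := (1 - r0) / M with hd
    have hd0 : 0 < d := by rw [hd]; apply div_pos <;> linarith
    have hMd : (M : ℝ) * d = 1 - r0 := by rw [hd]; field_simp
    have hstep : ∀ k : ℕ, k ≤ M → |φ (r0 + k * d) - φ r0| ≤ (β r0 - β (r0 + k * d)) * d / r0 := by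
      intro k
      induction k with
      | zero => intro _; simp
      | succ k ih =>
        intro hk
        have ih' := ih (by omega)
        have hk' : ((k : ℝ) + 1) ≤ M := by exact_mod_cast hk
        have e1 : (((k + 1 : ℕ) : ℝ)) = (k : ℝ) + 1 := by push_cast; ring
        rw [e1]
        have hk0 : (0:ℝ) ≤ k := Nat.cast_nonneg k
        have h2 := h (r0 + k * d) (r0 + (k + 1) * d) (by nlinarith) (by nlinarith) (by nlinarith)
        have h3 : r0 + ((k : ℝ) + 1) * d - (r0 + k * d) = d := by ring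
        rw [h3] at h2
        have h4 : |φ (r0 + (k + 1) * d) - φ (r0 + k * d)| ≤
            (β (r0 + k * d) - β (r0 + (k + 1) * d)) * d / r0 := by
          rw [le_div_iff₀ h0]
          have h5 : r0 ≤ r0 + ((k : ℝ) + 1) * d := by nlinarith
          have h6 := mul_le_mul_of_nonneg_right h5
            (abs_nonneg (φ (r0 + ((k : ℝ) + 1) * d) - φ (r0 + k * d)))
          linarith
        calc |φ (r0 + ((k : ℝ) + 1) * d) - φ r0|
            ≤ |φ (r0 + (k + 1) * d) - φ (r0 + k * d)| + |φ (r0 + k * d) - φ r0| :=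
              abs_sub_le _ _ _
          _ ≤ (β (r0 + k * d) - β (r0 + (k + 1) * d)) * d / r0 +
              (β r0 - β (r0 + k * d)) * d / r0 := add_le_add h4 ih'
          _ = (β r0 - β (r0 + (k + 1) * d)) * d / r0 := by ring
    have h2 := hstep M le_rfl
    rw [hMd, show r0 + (1 - r0) = 1 by ring] at h2
    exact h2
  have hlim : Tendsto (fun M : ℕ => (β r0 - β 1) * ((1 - r0) / M) / r0) atTop (𝓝 0) := by
    have h2 : Tendsto (fun M : ℕ => (1 - r0) / (M : ℝ)) atTop (𝓝 0) :=
      tendsto_const_div_atTop_nhds_zero_nat _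
    have h3 := (h2.const_mul (β r0 - β 1)).div_const r0
    simpa using h3
  have h5 : |φ 1 - φ r0| ≤ 0 := by
    refine ge_of_tendsto hlim ?_
    filter_upwards [eventually_gt_atTop 0] with M hM
    exact key M hM
  have h6 := abs_nonpos_iff.1 h5
  linarith

variable {N : ℕ} {K : Set (E (N + 1))}

theorem zero_int (hK : Body K) : (0 : E N) ∈ interior (Pr K) := by
  obtain ⟨-, -, -, -, f5, -, -, -⟩ := hFIB K hK
  obtain ⟨⟨r, R, hr, -, hrK, -⟩, -⟩ := hGB (Pr K) f5
  exact interior_mono hrK (ball_subset_interior_closedBall (mem_ball_self hr))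

theorem smul_int (hK : Body K) {z : E N} (hz : z ∈ interior (Pr K)) {r : ℝ} (h0 : 0 ≤ r)
    (h1 : r ≤ 1) : r • z ∈ interior (Pr K) := by
  obtain ⟨-, -, -, -, f5, -, -, -⟩ := hFIB K hK
  have := f5.convex.interior (zero_int hK) hz (sub_nonneg.2 h1) h0 (by ring)
  simpa using this

/-- the midpoints of a maximiser are homogeneous -/
theorem homog (hK : Body K) (hmax : ∀ L : Set (E (N + 1)), Body L → G L ≤ G K) {z : E N}
    (hz : z ∈ interior (Pr K)) {r0 : ℝ} (h0 : 0 < r0) (h1 : r0 ≤ 1) :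
    mid K z = mid K (r0 • z) / r0 := by
  have hst : ∀ u : ℝ, ∃ (t b a : ℝ), 0 < u → u ≤ 1 →
      (∀ s : ℝ, 0 ≤ s → s ≤ 1 → |mid K (s • z) - s * t| ≤ a + b * s - len K (s • z)) ∧
        a + b * u = len K (u • z) ∧ mid K (u • z) = u * t := by
    intro u
    by_cases hu : 0 < u ∧ u ≤ 1
    · obtain ⟨θ, w, a, h1, h2, h3⟩ := star hK hmax (smul_int hK hz hu.1.le hu.2)
      refine ⟨θ z, -w z, a, fun _ _ => ⟨?_, ?_, ?_⟩⟩
      · intro s hs0 hs1
        have h4 := h1 (s • z) (interior_subset (smul_int hK hz hs0 hs1))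
        simp only [map_smul, smul_eq_mul] at h4
        have h5 : a + -w z * s = a - s * w z := by ring
        rw [h5]; exact h4
      · rw [map_smul, smul_eq_mul] at h2
        rw [← h2]; ring
      · rw [h3, map_smul, smul_eq_mul]
    · exact ⟨0, 0, 0, fun h h' => absurd ⟨h, h'⟩ hu⟩
  choose φ β α hh using hst
  have hsub : ∀ r s, r0 ≤ r → r < s → s ≤ 1 → s * |φ s - φ r| ≤ (β r - β s) * (s - r) := by
    intro r s hr hrs hs
    have hr0 : 0 < r := by linarith
    have hs0 : 0 < s := by linarith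
    obtain ⟨a1, a2, a3⟩ := hh r hr0 (by linarith)
    obtain ⟨b1, b2, b3⟩ := hh s hs0 hs
    have c1 := a1 s hs0.le hs
    have c2 := b1 r hr0.le (by linarith)
    have c3 := (abs_nonneg _).trans c2
    rw [b3] at c1
    have c4 : s * φ s - s * φ r = s * (φ s - φ r) := by ring
    rw [c4, abs_mul, abs_of_pos hs0] at c1
    refine c1.trans ?_
    nlinarith
  have h2 := sub_const h0 h1 hsub
  have h3 := (hh 1 one_pos le_rfl).2.2
  have h4 := (hh r0 h0 h1).2.2
  rw [one_smul, one_mul] at h3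
  rw [h3, h2, h4]
  field_simp

/-- **The midpoints of a maximiser are linear if the lengths are differentiable at the origin.** -/
theorem mid_linear (hK : Body K) (hmax : ∀ L : Set (E (N + 1)), Body L → G L ≤ G K)
    (hsm : ∀ (z : E N) (η : ℝ), 0 < η → ∀ᶠ r : ℝ in 𝓝[>] 0, len K 0 - len K (r • z) ≤ η * r) :
    ∃ l : E N →ₗ[ℝ] ℝ, ∀ y ∈ interior (Pr K), mid K y = l y := by
  obtain ⟨f1, f2, f3, f4, f5, f6, -, -⟩ := hFIB K hK
  obtain ⟨θ, w, a, h1, h2, h3⟩ := star hK hmax (zero_int hK)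
  rw [map_zero, sub_zero] at h2
  have h4 : ∀ z ∈ Pr K, |mid K z - θ z| ≤ len K 0 - len K z := by
    intro z hz
    have h5 := h1 z hz
    have h6 := h1 (-z) (f5.neg z hz)
    rw [(f3 z).1, (f3 z).2, map_neg, map_neg] at h6
    have h7 : |(-mid K z - -θ z)| = |mid K z - θ z| := by
      rw [← abs_neg]; congr 1; ring
    rw [h7] at h6
    linarith
  refine ⟨θ, fun z hz => ?_⟩
  by_contra hne
  have hpos : 0 < |mid K z - θ z| := abs_pos.2 (sub_ne_zero.2 hne)
  set η := |mid K z - θ z| / 2 with hη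
  have hη0 : 0 < η := by rw [hη]; linarith
  have hev : ∀ᶠ r : ℝ in 𝓝[>] 0, r ∈ Ioo (0:ℝ) 1 := Ioo_mem_nhdsGT (by norm_num)
  obtain ⟨r, hr1, hr2⟩ := ((hsm z η hη0).and hev).exists
  have hr0 : 0 < r := hr2.1
  have h5 := homog hK hmax hz hr0 hr2.2.le
  have h6 := h4 (r • z) (interior_subset (smul_int hK hz hr0.le hr2.2.le))
  rw [map_smul, smul_eq_mul] at h6
  have h7 : mid K (r • z) = r * mid K z := by rw [h5]; field_simp
  rw [h7, ← mul_sub, abs_mul, abs_of_pos hr0] at h6
  have h8 : r * |mid K z - θ z| ≤ η * r := h6.trans hr1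
  have h9 : |mid K z - θ z| = 2 * η := by rw [hη]; ring
  rw [h9] at h8
  nlinarith

end Run7.h924.GM
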