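import Pool.Agent.Run7.h924.GMD
import Pool.Agent.H638.IB.T_ISO
import Pool.Agent.H638.IB.T_ELL
import Pool.Agent.H638.IB.T_REFL

/-!
# Maximisers are ellipsoids
-/

set_option autoImplicit false

open MeasureTheory Set Filter Topology Metric
open scoped Pointwise RealInnerProductSpace ENNReal

namespace Run7.h924.GM

open Pool.Agent.H638.IB

variable {N : ℕ} {K : Set (E (N + 1))}

theorem smooth_aux (hK : Body K) (hd : DifferentiableAt ℝ (gauge K) (mk 1 0)) (z : E N) {η : ℝ}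
    (hη : 0 < η) : ∀ᶠ r : ℝ in 𝓝[>] 0,
      mk ((1 - r * fderiv ℝ (gauge K) (mk 1 0) (mk 0 z) - gauge K (mk 1 0) * η * r) /
        gauge K (mk 1 0)) (r • z) ∈ K := by
  obtain ⟨-, g1, g2, g3, -, -, -, -, -⟩ := hGB K hK
  set e : E (N + 1) := mk 1 0 with he
  set A := fderiv ℝ (gauge K) e with hA
  set κ := gauge K e with hκ
  have hκ0 : 0 < κ := g2 e (mk_one_ne 0)
  set b := A (mk 0 z) with hb
  set C : ℝ := κ * η / (‖(mk 0 z : E (N + 1))‖ + 1) with hC
  have hC0 : 0 < C := by rw [hC]; positivity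
  have hCz : C * ‖(mk 0 z : E (N + 1))‖ ≤ κ * η := by
    rw [hC, div_mul_eq_mul_div, div_le_iff₀ (by positivity)]
    have : 0 < κ * η := by positivity
    nlinarith
  have hlo := (hasFDerivAt_iff_isLittleO_nhds_zero.1 hd.hasFDerivAt).def hC0
  -- the rescaled direction
  set s : ℝ → ℝ := fun r => (1 - r * b - κ * η * r) / κ with hs
  have hsc : Continuous s := by rw [hs]; fun_prop
  have hs0 : s 0 = 1 / κ := by rw [hs]; simp
  have hspos : ∀ᶠ r : ℝ in 𝓝[>] 0, 0 < s r := by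
    have h1 := hsc.tendsto 0
    rw [hs0] at h1
    exact (h1.mono_left nhdsWithin_le_nhds).eventually (lt_mem_nhds (by positivity))
  have hh : Tendsto (fun r : ℝ => (r / s r) • (mk 0 z : E (N + 1))) (𝓝[>] 0) (𝓝 0) := by
    have h1 : Tendsto (fun r : ℝ => r / s r) (𝓝 0) (𝓝 (0 / s 0)) := by
      refine tendsto_id.div (hsc.tendsto 0) ?_
      rw [hs0]; positivity
    have h2 := (h1.mono_left (nhdsWithin_le_nhds (s := Ioi 0))).smul_const (mk 0 z : E (N + 1))
    simpa using h2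
  filter_upwards [hspos, hh.eventually hlo, self_mem_nhdsWithin] with r hr1 hr2 hr3
  have hr0 : (0:ℝ) < r := hr3
  rw [← g1]
  have h1 : mk (s r) (r • z) = s r • (e + (r / s r) • mk 0 z) := by
    rw [smul_add, smul_smul, mul_div_cancel₀ _ hr1.ne', he, smul_mk, smul_mk, mk_add, mul_one,
      mul_zero, add_zero, smul_zero, zero_add]
  show gauge K (mk (s r) (r • z)) ≤ 1
  rw [h1, g3, abs_of_pos hr1]
  rw [Real.norm_eq_abs, norm_smul, Real.norm_eq_abs, abs_of_pos (div_pos hr0 hr1), map_smul,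
    smul_eq_mul] at hr2
  have h2 := (abs_le.1 hr2).2
  have h3 : gauge K (e + (r / s r) • mk 0 z) ≤
      κ + r / s r * b + C * (r / s r * ‖(mk 0 z : E (N + 1))‖) := by
    have : A (mk 0 z) = b := rfl
    linarith
  have h4 := mul_le_mul_of_nonneg_left h3 hr1.le
  have h5 : s r * (κ + r / s r * b + C * (r / s r * ‖(mk 0 z : E (N + 1))‖)) =
      s r * κ + r * b + r * (C * ‖(mk 0 z : E (N + 1))‖) := by
    field_simp
  have h6 : s r * κ = 1 - r * b - κ * η * r := by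
    rw [hs]; field_simp
  rw [h5, h6] at h4
  have h7 := mul_le_mul_of_nonneg_left hCz hr0.le
  linarith

theorem smooth (hK : Body K) (hd : DifferentiableAt ℝ (gauge K) (mk 1 0)) (z : E N) (η : ℝ)
    (hη : 0 < η) : ∀ᶠ r : ℝ in 𝓝[>] 0, len K 0 - len K (r • z) ≤ η * r := by
  obtain ⟨f1, f2, f3, f4, f5, f6, -, -⟩ := hFIB K hK
  obtain ⟨-, g1, g2, g3, -, -, -, -, -⟩ := hGB K hK
  set κ := gauge K (mk 1 (0 : E N)) with hκ
  have hκ0 : 0 < κ := g2 _ (mk_one_ne 0)
  have hlen0 : len K 0 ≤ 1 / κ := by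
    have h0 : mid K 0 = 0 := by
      have := (f3 0).1; rw [neg_zero] at this; linarith
    have hl0 : 0 < len K 0 := f6 0 (zero_int hK)
    have h1 : mk (len K 0) (0 : E N) ∈ K := by
      rw [f1, h0, sub_zero, abs_of_pos hl0]
      exact ⟨interior_subset (zero_int hK), le_rfl⟩
    rw [← g1] at h1
    have h2 : mk (len K 0) (0 : E N) = len K 0 • mk 1 0 := by
      rw [smul_mk, mul_one, smul_zero]
    rw [h2, g3, abs_of_pos hl0, ← hκ] at h1
    rw [le_div_iff₀ hκ0]
    exact h1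
  filter_upwards [smooth_aux hK hd z hη, smooth_aux hK hd (-z) hη] with r h1 h2
  set b := fderiv ℝ (gauge K) (mk 1 0) (mk 0 z) with hb
  have hb' : fderiv ℝ (gauge K) (mk 1 0) (mk 0 (-z)) = -b := by
    have : (mk 0 (-z) : E (N + 1)) = -mk 0 z := by rw [neg_mk, neg_zero]
    rw [this, map_neg]
  rw [hb', ← hκ] at h2
  rw [← hκ] at h1
  have h3 := hK.neg _ h2
  rw [neg_mk, smul_neg, neg_neg] at h3
  rw [f1] at h1 h3
  have h4 := (abs_le.1 h1.2).2
  have h5 := (abs_le.1 h3.2).1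
  have h6 : (1 - r * b - κ * η * r) / κ + (1 - r * -b - κ * η * r) / κ = 2 * (1 / κ) - 2 * (η * r) := by
    field_simp
    ring
  linarith

theorem refl_one (hK : Body K) (hmax : ∀ L : Set (E (N + 1)), Body L → G L ≤ G K)
    (hd : DifferentiableAt ℝ (gauge K) (mk 1 0)) :
    ∃ φ : E (N + 1) →ₗ[ℝ] ℝ, φ (mk 1 0) = 1 ∧ ∀ x ∈ K, x - (2 * φ x) • mk 1 0 ∈ K := by
  obtain ⟨l, hl⟩ := mid_linear hK hmax (smooth hK hd)
  obtain ⟨hmem, -, -, -, hPr, -, -, -⟩ := hFIB K hK
  refine ⟨REFLaux.fn l, ?_, ?_⟩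
  · rw [REFLaux.fn_mk, map_zero, sub_zero]
  have hint : ∀ (s : ℝ) (y : E N), y ∈ interior (Pr K) → mk s y ∈ K →
      mk (2 * l y - s) y ∈ K := by
    intro s y hy hs
    rw [hmem] at hs ⊢
    refine ⟨hs.1, ?_⟩
    rw [hl y hy] at hs ⊢
    have : 2 * l y - s - l y = -(s - l y) := by ring
    rw [this, abs_neg]
    exact hs.2
  have h0 : (0 : E N) ∈ interior (Pr K) := zero_int hK
  have h0K : (0 : E (N + 1)) ∈ K := zero_mem hK
  intro x hx
  obtain ⟨s, y, rfl⟩ := exists_mk x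
  have hy : y ∈ Pr K := ⟨s, hx⟩
  have hgoal : mk s y - (2 * REFLaux.fn l (mk s y)) • mk 1 (0 : E N) = mk (2 * l y - s) y := by
    rw [REFLaux.fn_mk, smul_mk, mk_sub, mk_inj]
    refine ⟨by ring, by simp⟩
  rw [hgoal]
  have hcl : IsClosed K := hK.compact.isClosed
  have htend : Tendsto (fun t : ℝ => t • mk (2 * l y - s) y) (𝓝[<] 1)
      (𝓝 (mk (2 * l y - s) y)) := by
    have h1 : Continuous fun t : ℝ => t • mk (2 * l y - s) y := by fun_prop
    have h2 := h1.tendsto 1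
    rw [one_smul] at h2
    exact h2.mono_left nhdsWithin_le_nhds
  refine hcl.mem_of_tendsto htend ?_
  have hev : ∀ᶠ t : ℝ in 𝓝[<] 1, t ∈ Ioo (0:ℝ) 1 := Ioo_mem_nhdsLT (by norm_num)
  filter_upwards [hev] with t ht
  have h3 : t • mk s y ∈ K := by
    have := hK.convex h0K hx (by linarith [ht.2] : (0:ℝ) ≤ 1 - t) ht.1.le (by ring)
    simpa using this
  have h4 : t • y ∈ interior (Pr K) := by
    have := hPr.convex.combo_interior_self_mem_interior h0 hy
      (by linarith [ht.2] : (0:ℝ) < 1 - t) ht.1.le (by ring)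
    simpa using this
  rw [smul_mk] at h3
  have h5 := hint _ _ h4 h3
  rw [smul_mk]
  have h6 : t * (2 * l y - s) = 2 * l (t • y) - t * s := by
    rw [map_smul, smul_eq_mul]; ring
  rw [h6]
  exact h5

theorem refl_diff (hK : Body K) (hmax : ∀ L : Set (E (N + 1)), Body L → G L ≤ G K)
    {e : E (N + 1)} (he : e ≠ 0) (hd : DifferentiableAt ℝ (gauge K) e) :
    ∃ φ : E (N + 1) →ₗ[ℝ] ℝ, φ e = 1 ∧ ∀ x ∈ K, x - (2 * φ x) • e ∈ K := by
  have hone : (mk 1 0 : E (N + 1)) ≠ 0 := mk_one_ne 0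
  obtain ⟨T', hT'⟩ := SeparatingDual.exists_continuousLinearEquiv_apply_eq (R := ℝ) he hone
  set T : E (N + 1) ≃ₗ[ℝ] E (N + 1) := T'.toLinearEquiv with hT
  have hTe : T e = mk 1 0 := hT'
  obtain ⟨hM, -, hg⟩ := (hGS K hK).2 T
  have hmax' : ∀ L : Set (E (N + 1)), Body L → G L ≤ G (T '' K) := by
    intro L hL
    rw [G_image hK]; exact hmax L hL
  have hgauge : gauge (T '' K) = gauge K ∘ T'.symm := by
    funext x
    have := hg (T'.symm x)
    have h1 : T (T'.symm x) = x := T'.apply_symm_apply x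
    rw [h1] at this
    exact this
  have hd' : DifferentiableAt ℝ (gauge (T '' K)) (mk 1 0) := by
    rw [hgauge]
    have h1 : T'.symm (mk 1 0) = e := by
      rw [← hTe]; exact T'.symm_apply_apply e
    refine DifferentiableAt.comp _ ?_ T'.symm.differentiableAt
    rw [h1]; exact hd
  obtain ⟨φ, hφ1, hφ2⟩ := refl_one hM hmax' hd'
  refine ⟨φ.comp (T : E (N + 1) →ₗ[ℝ] E (N + 1)), ?_, ?_⟩
  · simp only [LinearMap.comp_apply, LinearEquiv.coe_coe]
    rw [hTe, hφ1]
  · intro x hx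
    have h4 := hφ2 (T x) ⟨x, hx, rfl⟩
    rw [← hTe, ← map_smul, ← map_sub] at h4
    exact (T.injective.mem_set_image).1 h4

theorem gauge_dense (hK : Body K) : Dense {e : E (N + 1) | DifferentiableAt ℝ (gauge K) e} := by
  obtain ⟨⟨r, R, hr, -, hrK, -⟩, g1, g2, g3, g4, -, -, -, -⟩ := hGB K hK
  have hle : ∀ x, gauge K x ≤ r⁻¹ * ‖x‖ := by
    intro x
    by_cases hx : x = 0
    · subst hx
      simp
    have hx0 : 0 < ‖x‖ := norm_pos_iff.2 hx
    have h1 : (r / ‖x‖) • x ∈ K := by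
      refine hrK ?_
      rw [mem_closedBall, dist_zero_right, norm_smul, Real.norm_eq_abs, abs_of_pos (by positivity)]
      rw [div_mul_cancel₀ _ hx0.ne']
    rw [← g1, g3, abs_of_pos (by positivity)] at h1
    rw [div_mul_eq_mul_div, div_le_one hx0] at h1
    rw [inv_mul_eq_div, le_div_iff₀ hr]
    linarith
  have hlip : LipschitzWith (Real.toNNReal r⁻¹) (gauge K) := by
    refine LipschitzWith.of_dist_le_mul fun x y => ?_
    rw [Real.dist_eq, dist_eq_norm, Real.coe_toNNReal _ (by positivity), abs_le]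
    constructor
    · have h1 := g4 (y - x) x
      rw [sub_add_cancel] at h1
      have h2 := hle (y - x)
      rw [norm_sub_rev] at h2
      linarith
    · have h1 := g4 (x - y) y
      rw [sub_add_cancel] at h1
      have h2 := hle (x - y)
      linarith
  exact Measure.dense_of_ae (hlip.ae_differentiableAt (μ := volume))

/-- reflections in all directions -/
theorem refl_all (hK : Body K) (hmax : ∀ L : Set (E (N + 1)), Body L → G L ≤ G K)
    (e : E (N + 1)) (he : e ≠ 0) :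
    ∃ φ : E (N + 1) →ₗ[ℝ] ℝ, φ e = 1 ∧ ∀ x ∈ K, x - (2 * φ x) • e ∈ K := by
  obtain ⟨⟨r, R, hr, hR, hrK, hKR⟩, -⟩ := hGB K hK
  have hne : 0 < ‖e‖ := norm_pos_iff.2 he
  have hex : ∀ k : ℕ, ∃ u : E (N + 1), dist u e < (‖e‖ / 2) / ((k : ℝ) + 1) ∧
      DifferentiableAt ℝ (gauge K) u := by
    intro k
    obtain ⟨u, hu1, hu2⟩ := (gauge_dense hK).exists_dist_lt e
      (show 0 < (‖e‖ / 2) / ((k : ℝ) + 1) by positivity)
    exact ⟨u, by rw [dist_comm]; exact hu2, hu1⟩
  choose u hu hud using hex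
  have hulim : Tendsto u atTop (𝓝 e) := by
    rw [tendsto_iff_dist_tendsto_zero]
    refine squeeze_zero (fun _ => dist_nonneg) (fun k => (hu k).le) ?_
    have := (tendsto_one_div_add_atTop_nhds_zero_nat (𝕜 := ℝ)).const_mul (‖e‖ / 2)
    simpa [div_eq_mul_inv] using this
  have hun : ∀ k, ‖e‖ / 2 ≤ ‖u k‖ := by
    intro k
    have h1 := hu k
    have h2 : (‖e‖ / 2) / ((k : ℝ) + 1) ≤ ‖e‖ / 2 := by
      rw [div_le_iff₀ (by positivity)]
      have : (0:ℝ) ≤ k := Nat.cast_nonneg k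
      nlinarith
    have h3 : ‖e‖ ≤ ‖u k‖ + dist (u k) e := by
      rw [dist_eq_norm, norm_sub_rev]
      have := norm_add_le (u k) (e - u k)
      rw [add_sub_cancel] at this
      exact this
    linarith
  have hu0 : ∀ k, u k ≠ 0 := by
    intro k h
    have := hun k
    rw [h, norm_zero] at this
    linarith
  choose φ hφ1 hφ2 using fun k => refl_diff hK hmax (hu0 k) (hud k)
  -- continuity and bounds
  set ψ : ℕ → (E (N + 1) →L[ℝ] ℝ) := fun k => LinearMap.toContinuousLinearMap (φ k) with hψ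
  set C : ℝ := (R + r) / ‖e‖ / r with hC
  have hC0 : 0 ≤ C := by rw [hC]; positivity
  have hbd : ∀ k, ‖ψ k‖ ≤ C := by
    intro k
    refine ContinuousLinearMap.opNorm_le_bound _ hC0 fun x => ?_
    by_cases hx : x = 0
    · subst hx; simp
    have hx0 : 0 < ‖x‖ := norm_pos_iff.2 hx
    set y := (r / ‖x‖) • x with hy
    have hyn : ‖y‖ = r := by
      rw [hy, norm_smul, Real.norm_eq_abs, abs_of_pos (by positivity), div_mul_cancel₀ _ hx0.ne']
    have hyK : y ∈ K := hrK (by rw [mem_closedBall, dist_zero_right, hyn])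
    have h1 := hKR (hφ2 k y hyK)
    rw [mem_closedBall, dist_zero_right] at h1
    have h2 : ‖(2 * φ k y) • u k‖ ≤ R + r := by
      have h3 := norm_sub_le y (y - (2 * φ k y) • u k)
      rw [sub_sub_cancel, hyn] at h3
      linarith
    rw [norm_smul, Real.norm_eq_abs, abs_mul, abs_of_pos (by norm_num : (0:ℝ) < 2)] at h2
    have h3 : |φ k y| * ‖e‖ ≤ R + r := by
      have h4 := hun k
      have h5 := mul_le_mul_of_nonneg_left h4 (abs_nonneg (φ k y))
      linarith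
    have h4 : φ k y = r / ‖x‖ * φ k x := by rw [hy, map_smul, smul_eq_mul]
    rw [h4, abs_mul, abs_of_pos (by positivity)] at h3
    show ‖φ k x‖ ≤ C * ‖x‖
    rw [Real.norm_eq_abs, hC, div_div, div_mul_eq_mul_div, le_div_iff₀ (by positivity)]
    have h5 : r / ‖x‖ * |φ k x| * ‖e‖ * ‖x‖ = |φ k x| * (‖e‖ * r) := by
      field_simp
    rw [← h5]
    exact mul_le_mul_of_nonneg_right h3 hx0.le
  have hmem : ∀ k, ψ k ∈ closedBall (0 : E (N + 1) →L[ℝ] ℝ) C := by
    intro k; rw [mem_closedBall, dist_zero_right]; exact hbd k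
  obtain ⟨χ, -, σ, hσ, hlim⟩ := (isCompact_closedBall (0 : E (N + 1) →L[ℝ] ℝ) C).tendsto_subseq hmem
  have hulim' : Tendsto (fun k => u (σ k)) atTop (𝓝 e) := hulim.comp hσ.tendsto_atTop
  have hev : ∀ x : E (N + 1), Tendsto (fun k => φ (σ k) x) atTop (𝓝 (χ x)) := by
    intro x
    exact ((ContinuousLinearMap.apply ℝ ℝ x).continuous.tendsto χ).comp hlim
  refine ⟨(χ : E (N + 1) →ₗ[ℝ] ℝ), ?_, ?_⟩
  · have h1 : Tendsto (fun k => (ψ (σ k)) (u (σ k))) atTop (𝓝 (χ e)) :=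
      ((isBoundedBilinearMap_apply (𝕜 := ℝ) (E := E (N + 1)) (F := ℝ)).continuous.tendsto
        (χ, e)).comp (hlim.prodMk_nhds hulim')
    have h2 : (fun k => (ψ (σ k)) (u (σ k))) = fun _ => (1:ℝ) := by
      funext k; exact hφ1 (σ k)
    rw [h2] at h1
    exact (tendsto_nhds_unique h1 tendsto_const_nhds)
  · intro x hx
    have h1 : Tendsto (fun k => x - (2 * φ (σ k) x) • u (σ k)) atTop (𝓝 (x - (2 * χ x) • e)) :=
      tendsto_const_nhds.sub (((hev x).const_mul 2).smul hulim')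
    exact hK.compact.isClosed.mem_of_tendsto h1 (Eventually.of_forall fun k => hφ2 (σ k) x hx)

/-- **Maximisers are ellipsoids.** -/
theorem max_ell (hK : Body K) (hmax : ∀ L : Set (E (N + 1)), Body L → G L ≤ G K) :
    ∃ T : E (N + 1) ≃ₗ[ℝ] E (N + 1), T '' K = closedBall 0 1 :=
  ELL_ok ISO_ok hGS hGB K hK (refl_all hK hmax)

end Run7.h924.GM
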