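import Pool.Agent.Run7.h924.GME

/-!
# The sharp upper bound for the volume in terms of the largest determinant, and cross-polytopes
-/

set_option autoImplicit false

open MeasureTheory Set Filter Topology Metric
open scoped Pointwise RealInnerProductSpace ENNReal

namespace Run7.h924.GM

open Pool.Agent.H638.IB

theorem ball_body (n : ℕ) : Body (closedBall (0 : E n) 1) := by
  refine ⟨isCompact_closedBall _ _, convex_closedBall _ _, ?_, ?_⟩
  · exact ⟨0, ball_subset_interior_closedBall (mem_ball_self one_pos)⟩
  · intro x hx; simpa using hx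

theorem abs_dt_le {n : ℕ} (v : Fin n → E n) : |dt v| ≤ ∏ i, ‖v i‖ := by
  have : Fact (Module.finrank ℝ (E n) = n) := ⟨by simp⟩
  set b := EuclideanSpace.basisFun (Fin n) ℝ
  have h1 := b.toBasis.orientation.abs_volumeForm_apply_le v
  rw [b.toBasis.orientation.volumeForm_robust' b] at h1
  exact h1

theorem dt_basis {n : ℕ} : dt (fun i : Fin n => (EuclideanSpace.basisFun (Fin n) ℝ).toBasis i) = 1 :=
  Module.Basis.det_self _

theorem DD_ball (n : ℕ) : DD (closedBall (0 : E n) 1) = 1 := by
  have hb := ball_body n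
  refine le_antisymm (DD_le (body_ne hb) fun v hv => (abs_dt_le v).trans ?_) ?_
  · refine Finset.prod_le_one (fun i _ => norm_nonneg _) fun i _ => ?_
    have := hv i
    rwa [mem_closedBall, dist_zero_right] at this
  · have h1 := le_DD hb.compact
      (v := fun i : Fin n => (EuclideanSpace.basisFun (Fin n) ℝ).toBasis i) (fun i => by simp)
    rw [dt_basis, abs_one] at h1
    exact h1

theorem G_ball (n : ℕ) : G (closedBall (0 : E n) 1) = vol (closedBall (0 : E n) 1) := by
  unfold G; rw [DD_ball, div_one]

/-- **The sharp inequality.** -/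
theorem G_le {N : ℕ} {K : Set (E (N + 1))} (hK : Body K) :
    G K ≤ vol (closedBall (0 : E (N + 1)) 1) := by
  obtain ⟨L, hL, hmax⟩ := exists_max (N + 1)
  obtain ⟨T, hT⟩ := max_ell hL hmax
  have h1 := G_image hL T
  rw [hT, G_ball] at h1
  rw [h1]
  exact hmax K hK

/-- **The equality case.** -/
theorem G_eq_iff {N : ℕ} {K : Set (E (N + 1))} (hK : Body K) :
    G K = vol (closedBall (0 : E (N + 1)) 1) ↔
      ∃ T : E (N + 1) ≃ₗ[ℝ] E (N + 1), T '' closedBall 0 1 = K := by
  constructor
  · intro h
    have hmax : ∀ L : Set (E (N + 1)), Body L → G L ≤ G K := fun L hL => by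
      rw [h]; exact G_le hL
    obtain ⟨T, hT⟩ := max_ell hK hmax
    refine ⟨T.symm, ?_⟩
    rw [← hT]
    ext x
    simp
  · rintro ⟨T, rfl⟩
    rw [G_image (ball_body _), G_ball]

/-! ### cross-polytopes -/

/-- the cross-polytope with the vertices `± v i` -/
def cross {n : ℕ} (v : Fin n → E n) : Set (E n) :=
  convexHull ℝ (Set.range v ∪ Set.range fun i => -v i)

theorem cross_basis {n : ℕ} (hn : 0 < n) :
    cross (fun i : Fin n => (EuclideanSpace.basisFun (Fin n) ℝ).toBasis i) =
      WithLp.ofLp ⁻¹' {x : Fin n → ℝ | ∑ i, |x i| ≤ 1} := by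
  set e : Fin n → E n := fun i => (EuclideanSpace.basisFun (Fin n) ℝ).toBasis i with he
  have hei : ∀ i, e i = EuclideanSpace.single i 1 := by
    intro i; rw [he]; simp
  apply Subset.antisymm
  · refine convexHull_min ?_ ?_
    · rintro x (⟨i, rfl⟩ | ⟨i, rfl⟩)
      · show ∑ j, |(e i) j| ≤ 1
        rw [hei, Finset.sum_eq_single i]
        · simp
        · intro j _ hj; simp [hj]
        · simp
      · show ∑ j, |(-e i) j| ≤ 1
        rw [hei, Finset.sum_eq_single i]
        · simp
        · intro j _ hj; simp [hj]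
        · simp
    · intro x hx y hy a b ha hb hab
      show ∑ j, |(a • x + b • y) j| ≤ 1
      have hx' : ∑ j, |x j| ≤ 1 := hx
      have hy' : ∑ j, |y j| ≤ 1 := hy
      calc ∑ j, |(a • x + b • y) j| ≤ ∑ j, (a * |x j| + b * |y j|) := by
            refine Finset.sum_le_sum fun j _ => ?_
            simp only [PiLp.add_apply, PiLp.smul_apply, smul_eq_mul]
            refine (abs_add_le _ _).trans ?_
            rw [abs_mul, abs_mul, abs_of_nonneg ha, abs_of_nonneg hb]
        _ = a * ∑ j, |x j| + b * ∑ j, |y j| := by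
            rw [Finset.sum_add_distrib, Finset.mul_sum, Finset.mul_sum]
        _ ≤ a * 1 + b * 1 := add_le_add (mul_le_mul_of_nonneg_left hx' ha)
            (mul_le_mul_of_nonneg_left hy' hb)
        _ = 1 := by linarith
  · intro x hx
    have hx' : ∑ j, |x j| ≤ 1 := hx
    have hconv : Convex ℝ (cross e) := convex_convexHull _ _
    have hpos : ∀ i, e i ∈ cross e := fun i => subset_convexHull _ _ (Or.inl ⟨i, rfl⟩)
    have hneg : ∀ i, -e i ∈ cross e := fun i => subset_convexHull _ _ (Or.inr ⟨i, rfl⟩)
    have h0 : (0 : E n) ∈ cross e := by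
      have := hconv (hpos ⟨0, hn⟩) (hneg ⟨0, hn⟩) (by norm_num : (0:ℝ) ≤ 1 / 2)
        (by norm_num : (0:ℝ) ≤ 1 / 2) (by norm_num)
      simpa using this
    set s := ∑ j, |x j| with hs
    have hs0 : 0 ≤ s := Finset.sum_nonneg fun _ _ => abs_nonneg _
    rcases hs0.eq_or_lt with hs1 | hs1
    · have hz : x = 0 := by
        ext j
        have := (Finset.sum_eq_zero_iff_of_nonneg (fun j _ => abs_nonneg (x j))).1 hs1.symm j
          (Finset.mem_univ j)
        simpa using this
      rw [hz]; exact h0
    · set p : Fin n → E n := fun j => if 0 ≤ x j then e j else -e j with hp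
      have hpm : ∀ j, p j ∈ cross e := by
        intro j; rw [hp]; dsimp only; split_ifs
        · exact hpos j
        · exact hneg j
      have hsum : ∑ j, (|x j| / s) • p j ∈ cross e := by
        refine hconv.sum_mem (fun j _ => by positivity) ?_ fun j _ => hpm j
        rw [← Finset.sum_div]; exact div_self hs1.ne'
      have hfin := hconv.smul_mem_of_zero_mem h0 hsum (⟨hs0, hx'⟩ : s ∈ Icc (0:ℝ) 1)
      have hxe : s • ∑ j, (|x j| / s) • p j = x := by
        rw [Finset.smul_sum]
        have h1 : ∀ j, s • (|x j| / s) • p j = x j • e j := by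
          intro j
          rw [smul_smul, mul_div_cancel₀ _ hs1.ne', hp]
          dsimp only
          split_ifs with hj
          · rw [abs_of_nonneg hj]
          · rw [abs_of_neg (not_le.1 hj)]; simp
        simp_rw [h1]
        ext k
        have : ∀ j, (x j • e j : E n) k = if k = j then x j else 0 := by
          intro j; rw [hei]; simp
        simp only [WithLp.ofLp_sum, Finset.sum_apply]
        simp_rw [this]
        simp
      rw [hxe] at hfin
      exact hfin

theorem vol_cross_basis {n : ℕ} (hn : 0 < n) :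
    vol (cross (fun i : Fin n => (EuclideanSpace.basisFun (Fin n) ℝ).toBasis i)) =
      2 ^ n / (n.factorial : ℝ) := by
  have : Nonempty (Fin n) := ⟨⟨0, hn⟩⟩
  have hmeas : MeasurableSet {x : Fin n → ℝ | ∑ i, |x i| ≤ 1} :=
    measurableSet_le (by fun_prop) measurable_const
  unfold vol
  rw [cross_basis hn, (PiLp.volume_preserving_ofLp (Fin n)).measure_preimage
    hmeas.nullMeasurableSet]
  have h1 := volume_sum_rpow_le (ι := Fin n) (p := 1) le_rfl 1
  have h2 : {x : Fin n → ℝ | (∑ i, |x i| ^ (1:ℝ)) ^ (1 / (1:ℝ)) ≤ 1} =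
      {x : Fin n → ℝ | ∑ i, |x i| ≤ 1} := by
    ext x; simp
  rw [h2] at h1
  rw [h1]
  have h3 : Real.Gamma (1 / 1 + 1) = 1 := by
    rw [div_one, Real.Gamma_add_one one_ne_zero, Real.Gamma_one, mul_one]
  have h4 : Real.Gamma (((Fintype.card (Fin n) : ℕ) : ℝ) / 1 + 1) = n.factorial := by
    rw [div_one, Real.Gamma_nat_eq_factorial, Fintype.card_fin]
  rw [h3, h4, Fintype.card_fin]
  simp only [ENNReal.ofReal_one, one_pow, one_mul, mul_one]
  rw [ENNReal.toReal_ofReal (by positivity)]

theorem vol_cross {n : ℕ} (hn : 0 < n) (v : Fin n → E n) :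
    vol (cross v) = 2 ^ n / (n.factorial : ℝ) * |dt v| := by
  set b := (EuclideanSpace.basisFun (Fin n) ℝ).toBasis with hb
  set T : E n →ₗ[ℝ] E n := b.constr ℝ v with hT
  have hTb : ∀ i, T (b i) = v i := fun i => by rw [hT, Module.Basis.constr_basis]
  have hdet : LinearMap.det T = dt v := by
    have h1 := dt_comp T (fun i => b i)
    have h2 : dt (fun i : Fin n => b i) = 1 := dt_basis
    rw [h2, mul_one] at h1
    rw [← h1]
    congr 1
    funext i
    exact hTb i
  have himg : cross v = T '' cross (fun i => b i) := by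
    unfold cross
    rw [LinearMap.image_convexHull, image_union, ← range_comp, ← range_comp]
    congr 2
    · congr 1
      funext i
      exact (hTb i).symm
    · congr 1
      funext i
      simp [hTb]
  unfold vol
  rw [himg, Measure.addHaar_image_linearMap, hdet, ENNReal.toReal_mul,
    ENNReal.toReal_ofReal (abs_nonneg _)]
  have h3 := vol_cross_basis hn
  unfold vol at h3
  rw [h3, mul_comm]

end Run7.h924.GM
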