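import Mathlib

/-!
# The set-splitting game: player A has a winning strategy only on countable sets

Players A and B play the game `G(E)` of the problem: the player who has chosen `S_n` splits it into
two parts and the other player chooses `S_{n+1}` among them; A splits `S_0 = E`, and A wins if the
intersection of the `S_n` is empty. We prove that A has a winning strategy if and only if `E` is
countable.

Proof that there is no winning strategy `σ` if `E` is uncountable. Fix `E' ⊆ E` of cardinality `ℵ₁` and
call `X ⊆ E` small if `X ∩ E'` is countable. For `x ∈ E` let `Nx x q' q` mean that the position `q'`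
(after a choice and before the next splitting of B, with A following `σ`) comes two stages after `q`
and that `x` is still in the set; as `σ` wins there is no infinite chain of such positions. So, for
every set `T` which is not small, the relation `G ≺ F` on the functions `F` from `E` to the
positions, which says that `Nx x (G x) (F x)` holds for all `x ∈ T` up to a small set, is
well-founded. Its rank is the norm of `F` on `T` (as in the work of Galvin and Hajnal). The norm on a
countable union is the smallest of the norms on the parts.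

Choose a position `q` and a set `T`, not small, contained in the set `S` of the position, such that the
norm `β` of the constant function `q` on `T` is as small as possible. The sets `D` for which the norm on
`D ∩ T` is larger than `β`, and the ones for which `D ∩ T` is small, form a countably complete ideal.
It is not prime (Ulam; here one uses only that `E'` embeds into the Cantor space). Hence B can split `S`
into `S ∩ D` and `S \ D` in such a way that the norms of `q` on `D ∩ T` and on `T \ D` are both `β`. Then
A chooses one of the parts, and splits it; B chooses a part `S'` of it such that the norm of `q` on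
`T' = T ∩ S'` is still `β`. For the new position `q'` we have `q' ≺ q` on `T'`, so that the norm of `q'` on
`T'` is less than `β`, a contradiction.

(All the parts which B produces are nonempty, so the same is true if the players may only
split sets into nonempty parts.)
-/

set_option autoImplicit false

noncomputable section

open Set

namespace Pool.Agent.Run7.h924.KeptNWS

universe u

/-- What happens at a stage of the game: the set `D` by which the current set `S` is split into
`S ∩ D` and `S \ D`, and the part which is chosen (`true`: `S ∩ D`, `false`: `S \ D`). -/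
abbrev Move (E : Type u) : Type u := Set E × Bool

/-- the history of the first `n` stages -/
def history {E : Type u} (p : ℕ → Move E) (n : ℕ) : List (Move E) := (List.range n).map p

/-- the sets `S_n` of the play -/
def stage {E : Type u} (p : ℕ → Move E) : ℕ → Set E
  | 0 => univ
  | n + 1 => if (p n).2 = true then stage p n ∩ (p n).1 else stage p n \ (p n).1

/-- A strategy for player A: how to split `S_n` for even `n`, and how to choose a part of `S_n` after
it has been split by B (with the set `D`) for odd `n`, given the history. -/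
structure Strategy (E : Type u) : Type u where
  split : List (Move E) → Set E
  choose : List (Move E) → Set E → Bool

/-- At stage `n` of the play, player A follows the strategy. -/
def FollowsAt {E : Type u} (σ : Strategy E) (p : ℕ → Move E) (n : ℕ) : Prop :=
  (Even n → (p n).1 = σ.split (history p n)) ∧
    (Odd n → (p n).2 = σ.choose (history p n) (p n).1)

/-- Player A has a winning strategy: A wins (the intersection of the sets `S_n` is empty) every
play in which A follows the strategy. -/
def AHasWinningStrategy (E : Type u) : Prop :=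
  ∃ σ : Strategy E, ∀ p : ℕ → Move E, (∀ n, FollowsAt σ p n) → ⋂ n, stage p n = ∅

variable {E : Type u}

theorem history_congr {p q : ℕ → Move E} {n : ℕ} (h : ∀ i < n, p i = q i) :
    history p n = history q n := by
  unfold history
  apply List.map_congr_left
  intro i hi
  exact h i (List.mem_range.1 hi)

theorem stage_congr {p q : ℕ → Move E} {n : ℕ} (h : ∀ i < n, p i = q i) :
    stage p n = stage q n := by
  induction n with
  | zero => rfl
  | succ n ih =>
    simp only [stage]
    rw [ih fun i hi => h i (by omega), h n (by omega)]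

theorem followsAt_congr {σ : Strategy E} {p q : ℕ → Move E} {n : ℕ} (h : ∀ i ≤ n, p i = q i) :
    FollowsAt σ p n ↔ FollowsAt σ q n := by
  unfold FollowsAt
  rw [h n le_rfl, history_congr fun i hi => h i hi.le]

theorem stage_anti (p : ℕ → Move E) {m n : ℕ} (h : m ≤ n) : stage p n ⊆ stage p m := by
  induction n, h using Nat.le_induction with
  | base => exact Subset.rfl
  | succ n _ ih =>
    refine Subset.trans ?_ ih
    simp only [stage]
    split_ifs
    · exact inter_subset_left
    · exact sdiff_subset

/-- the finite sequences of moves, as functions whose values from `n` on do not matter -/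
abbrev Node (E : Type u) : Type u := ℕ × (ℕ → Move E)

/-- the positions which occur if A follows `σ` -/
def Cons (σ : Strategy E) (q : Node E) : Prop := ∀ i < q.1, FollowsAt σ q.2 i

/-- `q'` is a position two stages after `q`, and `x` is still in the set -/
def Nx (σ : Strategy E) (x : E) (q' q : Node E) : Prop :=
  q'.1 = q.1 + 2 ∧ (∀ i < q.1, q'.2 i = q.2 i) ∧ Cons σ q' ∧ x ∈ stage q'.2 q'.1

/-- there is no infinite chain of positions with `x` alive -/
theorem no_chain {σ : Strategy E}
    (hσ : ∀ p : ℕ → Move E, (∀ n, FollowsAt σ p n) → ⋂ n, stage p n = ∅) (x : E)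
    (q : ℕ → Node E) (h : ∀ k, Nx σ x (q (k + 1)) (q k)) : False := by
  have hlen : ∀ k, (q k).1 = (q 0).1 + 2 * k := by
    intro k
    induction k with
    | zero => simp
    | succ k ih => rw [(h k).1, ih]; ring
  have hag : ∀ k l, k ≤ l → ∀ i < (q k).1, (q l).2 i = (q k).2 i := by
    intro k l hkl
    induction l, hkl using Nat.le_induction with
    | base => intro i _; rfl
    | succ l hkl ih =>
      intro i hi
      rw [(h l).2.1 i (by rw [hlen l]; rw [hlen k] at hi; omega), ih i hi]
  let p : ℕ → Move E := fun i => (q (i + 1)).2 i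
  have hp : ∀ k, ∀ i < (q k).1, p i = (q k).2 i := by
    intro k i hi
    show (q (i + 1)).2 i = (q k).2 i
    rcases le_total k (i + 1) with h1 | h1
    · exact hag k (i + 1) h1 i hi
    · exact (hag (i + 1) k h1 i (by rw [hlen]; omega)).symm
  have hf : ∀ n, FollowsAt σ p n := by
    intro n
    have h1 := (h n).2.2.1
    have h2 : n < (q (n + 1)).1 := by rw [hlen]; omega
    rw [followsAt_congr (q := (q (n + 1)).2) (fun i hi => hp (n + 1) i (by omega))]
    exact h1 n h2
  have h1 := hσ p hf
  have h2 : x ∈ ⋂ n, stage p n := by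
    rw [mem_iInter]
    intro n
    have h3 := (h n).2.2.2
    have h4 : stage p (q (n + 1)).1 = stage (q (n + 1)).2 (q (n + 1)).1 :=
      stage_congr fun i hi => hp (n + 1) i hi
    rw [← h4] at h3
    exact stage_anti p (by rw [hlen]; omega) h3
  rw [h1] at h2
  exact h2

/-- the order modulo sets with countable trace on `E'` -/
def Prec (σ : Strategy E) (E' X : Set E) (G F : E → Node E) : Prop :=
  ((X ∩ E') ∩ {x | ¬Nx σ x (G x) (F x)}).Countable

/-- the norm of `F` on `X` is at least `β` -/
def AtLeast (σ : Strategy E) (E' X : Set E) (β : Ordinal.{u}) (F : E → Node E) : Prop :=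
  ∀ γ : Ordinal.{u}, γ < β → ∃ G : E → Node E, Prec σ E' X G F ∧ AtLeast σ E' X γ G
termination_by β

theorem prec_congr {σ : Strategy E} {E' X : Set E} {G F F' : E → Node E}
    (h : ∀ x ∈ X, F x = F' x) (hG : Prec σ E' X G F) : Prec σ E' X G F' := by
  refine Countable.mono ?_ hG
  rintro x ⟨⟨h1, h2⟩, h3⟩
  refine ⟨⟨h1, h2⟩, ?_⟩
  rw [mem_ofPred_eq] at h3 ⊢
  rwa [h x h1]

theorem atLeast_congr {σ : Strategy E} {E' X : Set E} {β : Ordinal.{u}} {F F' : E → Node E}
    (h : ∀ x ∈ X, F x = F' x) (hF : AtLeast σ E' X β F) : AtLeast σ E' X β F' := by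
  rw [AtLeast] at hF ⊢
  intro γ hγ
  obtain ⟨G, h1, h2⟩ := hF γ hγ
  exact ⟨G, prec_congr h h1, h2⟩

theorem atLeast_subset {σ : Strategy E} {E' X Y : Set E} (h : Y ⊆ X) (β : Ordinal.{u}) :
    ∀ F : E → Node E, AtLeast σ E' X β F → AtLeast σ E' Y β F := by
  induction β using WellFoundedLT.induction with
  | ind β ih =>
    intro F hF
    rw [AtLeast] at hF ⊢
    intro γ hγ
    obtain ⟨G, h1, h2⟩ := hF γ hγ
    refine ⟨G, Countable.mono ?_ h1, ih γ hγ G h2⟩
    rintro x ⟨⟨h1, h2⟩, h3⟩
    exact ⟨⟨h h1, h2⟩, h3⟩

theorem atLeast_small {σ : Strategy E} {E' X : Set E} (h : (X ∩ E').Countable)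
    (β : Ordinal.{u}) : ∀ F : E → Node E, AtLeast σ E' X β F := by
  induction β using WellFoundedLT.induction with
  | ind β ih =>
    intro F
    rw [AtLeast]
    intro γ hγ
    exact ⟨F, h.mono inter_subset_left, ih γ hγ F⟩

theorem atLeast_iUnion {σ : Strategy E} {E' : Set E} (β : Ordinal.{u}) :
    ∀ (X : ℕ → Set E) (F : E → Node E), (∀ n, AtLeast σ E' (X n) β F) →
      AtLeast σ E' (⋃ n, X n) β F := by
  classical
  induction β using WellFoundedLT.induction with
  | ind β ih =>
    intro X F hF
    rw [AtLeast]
    intro γ hγ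
    have h1 : ∀ n, ∃ G : E → Node E, Prec σ E' (X n) G F ∧ AtLeast σ E' (X n) γ G := by
      intro n
      have := hF n
      rw [AtLeast] at this
      exact this γ hγ
    choose G hG1 hG2 using h1
    let H : E → Node E := fun x => if h : ∃ n, x ∈ X n then G (Nat.find h) x else F x
    have hH : ∀ x (h : ∃ n, x ∈ X n), H x = G (Nat.find h) x := fun x h => dif_pos h
    refine ⟨H, ?_, ?_⟩
    · have h2 : (⋃ n, ((X n ∩ E') ∩ {x | ¬Nx σ x (G n x) (F x)})).Countable :=
        countable_iUnion hG1
      refine Countable.mono ?_ h2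
      rintro x ⟨⟨h3, h4⟩, h5⟩
      rw [mem_iUnion] at h3
      rw [mem_iUnion]
      refine ⟨Nat.find h3, ⟨Nat.find_spec h3, h4⟩, ?_⟩
      rw [mem_ofPred_eq, hH x h3] at h5
      exact h5
    · let Y : ℕ → Set E := fun n => {x | ∃ h : ∃ m, x ∈ X m, Nat.find h = n}
      have hYX : ∀ n, Y n ⊆ X n := by
        rintro n x ⟨h, rfl⟩
        exact Nat.find_spec h
      have hU : (⋃ n, X n) = ⋃ n, Y n := by
        apply Subset.antisymm
        · intro x hx
          rw [mem_iUnion] at hx ⊢
          exact ⟨_, hx, rfl⟩
        · exact iUnion_mono hYX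
      rw [hU]
      apply ih γ hγ
      intro n
      apply atLeast_congr (F := G n)
      · rintro x ⟨h, rfl⟩
        exact (hH x h).symm
      · exact atLeast_subset (hYX n) γ _ (hG2 n)

theorem prec_wf {σ : Strategy E}
    (hσ : ∀ p : ℕ → Move E, (∀ n, FollowsAt σ p n) → ⋂ n, stage p n = ∅) {E' X : Set E}
    (hX : ¬(X ∩ E').Countable) : WellFounded (Prec σ E' X) := by
  rw [wellFounded_iff_isEmpty_descending_chain]
  constructor
  rintro ⟨F, hF⟩
  have h1 : (⋃ n, ((X ∩ E') ∩ {x | ¬Nx σ x (F (n + 1) x) (F n x)})).Countable :=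
    countable_iUnion hF
  have h2 : ¬ (X ∩ E') ⊆ ⋃ n, ((X ∩ E') ∩ {x | ¬Nx σ x (F (n + 1) x) (F n x)}) :=
    fun h => hX (h1.mono h)
  rw [not_subset] at h2
  obtain ⟨x, hx, hx2⟩ := h2
  rw [mem_iUnion, not_exists] at hx2
  refine no_chain hσ x (fun n => F n x) fun k => ?_
  by_contra h
  exact hx2 k ⟨hx, h⟩

theorem exists_not_atLeast {σ : Strategy E}
    (hσ : ∀ p : ℕ → Move E, (∀ n, FollowsAt σ p n) → ⋂ n, stage p n = ∅) {E' X : Set E}
    (hX : ¬(X ∩ E').Countable) (F : E → Node E) : ∃ β : Ordinal.{u}, ¬AtLeast σ E' X β F := by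
  induction F using (prec_wf hσ hX).induction with
  | h F ih =>
    choose! b hb using ih
    refine ⟨(⨆ G : E → Node E, b G) + 1, ?_⟩
    intro h
    rw [AtLeast] at h
    obtain ⟨G, h1, h2⟩ := h (⨆ G : E → Node E, b G) (by simp)
    apply hb G h1
    have h3 : b G ≤ ⨆ G : E → Node E, b G := Ordinal.le_iSup b G
    rw [AtLeast] at h2 ⊢
    intro γ hγ
    exact h2 γ (hγ.trans_le h3)

theorem atLeast_union {σ : Strategy E} {E' X Y : Set E} {β : Ordinal.{u}} {F : E → Node E}
    (hX : AtLeast σ E' X β F) (hY : AtLeast σ E' Y β F) : AtLeast σ E' (X ∪ Y) β F := by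
  have h : X ∪ Y ⊆ ⋃ n : ℕ, (if n = 0 then X else Y) := by
    rintro x (hx | hx)
    · rw [mem_iUnion]; exact ⟨0, by simpa using hx⟩
    · rw [mem_iUnion]; exact ⟨1, by simpa using hx⟩
  refine atLeast_subset h β F (atLeast_iUnion β _ F fun n => ?_)
  by_cases hn : n = 0
  · simpa [hn] using hX
  · simpa [hn] using hY

/-- Ulam: a countably complete ideal which contains the sets with countable trace on `E'`, where
`E'` has at most the cardinality of the continuum, is not prime. -/
theorem ulam {E' : Set E} (φ : E → ℕ → Bool) (hφ : InjOn φ E') (J : Set E → Prop)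
    (hmono : ∀ X Y, Y ⊆ X → J X → J Y) (hU : ∀ X : ℕ → Set E, (∀ n, J (X n)) → J (⋃ n, X n))
    (hs : ∀ X, (X ∩ E').Countable → J X) (h : ∀ D, J D ∨ J Dᶜ) : J univ := by
  classical
  have h1 : ∀ n, ∃ U : Set E, J U ∧ ∃ b : Bool, ∀ x, x ∉ U → φ x n = b := by
    intro n
    rcases h {x | φ x n = true} with h1 | h1
    · exact ⟨_, h1, false, fun x hx => by simpa using hx⟩
    · exact ⟨_, h1, true, fun x hx => by simpa using hx⟩
  choose U hU1 b hb using h1
  have h2 : J (⋃ n, U n) := hU U hU1
  have h3 : J (⋃ n, U n)ᶜ := by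
    apply hs
    apply Set.Subsingleton.countable
    rintro x ⟨hx, hx'⟩ y ⟨hy, hy'⟩
    apply hφ hx' hy'
    ext n
    rw [mem_compl_iff, mem_iUnion, not_exists] at hx hy
    rw [hb n x (hx n), hb n y (hy n)]
  have h4 := hU (fun n => if n = 0 then ⋃ n, U n else (⋃ n, U n)ᶜ) (fun n => by
    by_cases hn : n = 0
    · simpa [hn] using h2
    · simpa [hn] using h3)
  refine hmono _ _ ?_ h4
  intro x _
  rw [mem_iUnion]
  by_cases hx : x ∈ ⋃ n, U n
  · exact ⟨0, by simpa using hx⟩
  · exact ⟨1, by simpa using hx⟩

theorem exists_continuum_subset (hE : ¬Countable E) :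
    ∃ (E' : Set E) (φ : E → ℕ → Bool), InjOn φ E' ∧ ¬E'.Countable := by
  classical
  have h1 : Cardinal.aleph 1 ≤ Cardinal.mk E := by
    rw [← not_lt]
    intro h
    apply hE
    rw [← Cardinal.mk_le_aleph0_iff]
    have h2 : Cardinal.aleph 1 = Order.succ Cardinal.aleph0 := Cardinal.succ_aleph0.symm
    rw [h2, Order.lt_succ_iff] at h
    exact h
  obtain ⟨E', hE'⟩ := Cardinal.le_mk_iff_exists_set.1 h1
  have h3 : Cardinal.lift.{0} (Cardinal.mk E') ≤ Cardinal.lift.{u} (Cardinal.mk (ℕ → Bool)) := by
    rw [hE']
    simp only [Cardinal.mk_pi, Cardinal.prod_const, Cardinal.mk_bool, Cardinal.lift_id]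
    simpa using Cardinal.aleph_one_le_continuum.{u}
  obtain ⟨g⟩ := Cardinal.lift_mk_le'.1 h3
  refine ⟨E', fun x => if h : x ∈ E' then g ⟨x, h⟩ else fun _ => false, ?_, ?_⟩
  · intro x hx y hy hxy
    simp only [dif_pos hx, dif_pos hy] at hxy
    exact congrArg Subtype.val (g.injective hxy)
  · intro h
    have h4 : Cardinal.mk E' ≤ Cardinal.aleph0 := Cardinal.mk_le_aleph0_iff.2 h
    rw [hE'] at h4
    exact absurd h4 (not_le.2 Cardinal.aleph0_lt_aleph_one)

theorem no_strategy (hE : ¬Countable E) : ¬AHasWinningStrategy E := by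
  classical
  rintro ⟨σ, hσ⟩
  obtain ⟨E', φ, hφ, hE'⟩ := exists_continuum_subset hE
  -- the ordinals for which the norm at some position is smaller
  let P : Ordinal.{u} → Prop := fun β => ∃ (q : Node E) (T : Set E), Cons σ q ∧ Odd q.1 ∧
    T ⊆ stage q.2 q.1 ∧ ¬AtLeast σ E' T β (fun _ => q)
  have hP : ∃ β, P β := by
    let D : Set E := σ.split []
    have h1 : ∃ b : Bool, ¬((if b = true then univ ∩ D else univ \ D) ∩ E').Countable := by
      by_contra hcon
      push Not at hcon
      apply hE'
      have h2 := (hcon true).union (hcon false)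
      refine h2.mono ?_
      intro x hx
      by_cases hxD : x ∈ D
      · left; exact ⟨by simpa using hxD, hx⟩
      · right; exact ⟨by simpa using hxD, hx⟩
    obtain ⟨b, hb⟩ := h1
    let q : Node E := (1, fun _ => (D, b))
    have hst : stage q.2 q.1 = if b = true then univ ∩ D else univ \ D := rfl
    have hc : Cons σ q := by
      intro i hi
      have hi0 : i = 0 := by
        have : i < 1 := hi
        omega
      subst hi0
      exact ⟨fun _ => rfl, fun h => by simp at h⟩
    obtain ⟨β, hβ⟩ := exists_not_atLeast hσ (hst ▸ hb) (fun _ => q)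
    exact ⟨β, q, stage q.2 q.1, hc, by simp [q], Subset.rfl, hβ⟩
  obtain ⟨β, hβ, hmin⟩ := WellFounded.has_min (wellFounded_lt (α := Ordinal.{u})) {β | P β} hP
  obtain ⟨q, T, hc, hodd, hT, hnot⟩ := hβ
  -- B splits so that both parts have norm `β`
  have h1 : ∃ D : Set E, ¬AtLeast σ E' (D ∩ T) β (fun _ => q) ∧
      ¬AtLeast σ E' (Dᶜ ∩ T) β (fun _ => q) := by
    by_contra hcon
    push Not at hcon
    apply hnot
    have h2 := ulam (E' := E') φ hφ (fun D => AtLeast σ E' (D ∩ T) β (fun _ => q))
      (fun X Y h => atLeast_subset (inter_subset_inter_left _ h) β _)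
      (fun X h => by
        show AtLeast σ E' ((⋃ n, X n) ∩ T) β _
        rw [iUnion_inter]
        exact atLeast_iUnion β _ _ h)
      (fun X h => atLeast_small (h.mono (by
        rintro x ⟨⟨h1, _⟩, h2⟩; exact ⟨h1, h2⟩)) β _)
      (fun D => by
        by_cases h : AtLeast σ E' (D ∩ T) β (fun _ => q)
        · exact Or.inl h
        · exact Or.inr (hcon D h))
    simpa using h2
  obtain ⟨D, hD1, hD2⟩ := h1
  obtain ⟨n, p⟩ := q
  simp only at hc hodd hT hnot hD1 hD2
  let b : Bool := σ.choose (history p n) D
  let T1 : Set E := if b = true then D ∩ T else Dᶜ ∩ T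
  have hT1 : ¬AtLeast σ E' T1 β (fun _ => (n, p)) := by
    show ¬AtLeast σ E' (if b = true then D ∩ T else Dᶜ ∩ T) β (fun _ => (n, p))
    split_ifs
    · exact hD1
    · exact hD2
  let p1 : ℕ → Move E := Function.update p n (D, b)
  let D' : Set E := σ.split (history p1 (n + 1))
  have hT2 : ∃ i : Bool, ¬AtLeast σ E' (if i = true then T1 ∩ D' else T1 \ D') β
      (fun _ => (n, p)) := by
    by_contra hcon
    push Not at hcon
    apply hT1
    have h2 := atLeast_union (hcon true) (hcon false)
    refine atLeast_subset ?_ β _ h2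
    intro x hx
    by_cases hxD : x ∈ D'
    · left; simpa using ⟨hx, hxD⟩
    · right; simpa using ⟨hx, hxD⟩
  obtain ⟨i, hi⟩ := hT2
  let p2 : ℕ → Move E := Function.update p1 (n + 1) (D', i)
  have hp1 : ∀ j < n, p1 j = p j := fun j hj => Function.update_of_ne (by omega) _ _
  have hp1n : p1 n = (D, b) := Function.update_self _ _ _
  have hp2 : ∀ j < n + 1, p2 j = p1 j := fun j hj => Function.update_of_ne (by omega) _ _
  have hp2n : p2 (n + 1) = (D', i) := Function.update_self _ _ _
  have hp2' : ∀ j < n, p2 j = p j := fun j hj => by rw [hp2 j (by omega), hp1 j hj]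
  have hst : stage p2 (n + 2) = if i = true then
      (if b = true then stage p n ∩ D else stage p n \ D) ∩ D' else
      (if b = true then stage p n ∩ D else stage p n \ D) \ D' := by
    have h2 : stage p2 n = stage p n := stage_congr hp2'
    simp only [stage]
    rw [hp2n, hp2 n (by omega), hp1n, h2]
  have hcons : Cons σ ((n + 2, p2) : Node E) := by
    intro j hj
    show FollowsAt σ p2 j
    have hj' : j < n + 2 := hj
    rcases lt_or_ge j n with h2 | h2
    · rw [followsAt_congr (q := p) (fun k hk => hp2' k (by omega))]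
      exact hc j h2
    rcases eq_or_lt_of_le h2 with rfl | h3
    · refine ⟨fun h => absurd hodd (Nat.not_odd_iff_even.2 h), fun _ => ?_⟩
      rw [hp2 n (by omega), hp1n, history_congr hp2']
    · have hj1 : j = n + 1 := by omega
      subst hj1
      refine ⟨fun _ => ?_, fun h => absurd hodd (by
        rw [Nat.not_odd_iff_even]
        rcases h with ⟨k, hk⟩
        exact ⟨k, by omega⟩)⟩
      rw [hp2n, history_congr hp2]
  have hsub : (if i = true then T1 ∩ D' else T1 \ D') ⊆ stage p2 (n + 2) := by
    have h2 : T1 ⊆ if b = true then stage p n ∩ D else stage p n \ D := by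
      show (if b = true then D ∩ T else Dᶜ ∩ T) ⊆ _
      split_ifs
      · exact fun x hx => ⟨hT hx.2, hx.1⟩
      · exact fun x hx => ⟨hT hx.2, hx.1⟩
    rw [hst]
    split_ifs with h3 h4 h4
    · rw [if_pos h4] at h2
      exact inter_subset_inter_left _ h2
    · rw [if_neg h4] at h2
      exact inter_subset_inter_left _ h2
    · rw [if_pos h4] at h2
      exact sdiff_subset_sdiff_left h2
    · rw [if_neg h4] at h2
      exact sdiff_subset_sdiff_left h2
  rw [AtLeast] at hi
  push Not at hi
  obtain ⟨γ, hγ, hG⟩ := hi
  have h5 := hG (fun _ => ((n + 2, p2) : Node E)) (by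
    unfold Prec
    convert countable_empty
    rw [eq_empty_iff_forall_notMem]
    rintro x ⟨⟨hx, _⟩, hx2⟩
    exact hx2 ⟨rfl, hp2', hcons, hsub hx⟩)
  exact hmin γ ⟨(n + 2, p2), _, hcons, by
    rcases hodd with ⟨k, hk⟩
    exact ⟨k + 1, by show n + 2 = _; omega⟩, hsub, h5⟩ hγ

/-- on a countable set A wins by discarding the `k`-th point at the `k`-th choice -/
theorem countable_strategy (hE : Countable E) : AHasWinningStrategy E := by
  classical
  rcases isEmpty_or_nonempty E with h0 | h0
  · exact ⟨⟨fun _ => ∅, fun _ _ => true⟩, fun p _ => Set.eq_empty_of_isEmpty _⟩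
  obtain ⟨e, he⟩ := exists_surjective_nat E
  refine ⟨⟨fun _ => ∅, fun h D => decide (e (h.length / 2) ∉ D)⟩, fun p hp => ?_⟩
  rw [eq_empty_iff_forall_notMem]
  intro x hx
  rw [mem_iInter] at hx
  obtain ⟨k, rfl⟩ := he x
  have h1 := hx (2 * k + 2)
  have h2 := (hp (2 * k + 1)).2 ⟨k, rfl⟩
  have h3 : (history p (2 * k + 1)).length / 2 = k := by
    unfold history
    rw [List.length_map, List.length_range]
    omega
  simp only at h2
  rw [h3] at h2
  simp only [stage] at h1
  by_cases h4 : e k ∈ (p (2 * k + 1)).1
  · have h5 : (p (2 * k + 1)).2 = false := by rw [h2]; simpa using h4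
    rw [h5] at h1
    exact h1.2 h4
  · have h5 : (p (2 * k + 1)).2 = true := by rw [h2]; simpa using h4
    rw [h5] at h1
    exact h4 h1.2

/-- **The set-splitting game.** Player A has a winning strategy in `G(E)` if and only if `E` is
countable. In particular A has none if `E` is uncountable, for instance if `|E| = ℵ₁` or
`|E| = 2^ℵ₀`. -/
theorem result (E : Type u) : AHasWinningStrategy E ↔ Countable E :=
  ⟨fun h => by
    by_contra hE
    exact no_strategy hE h, countable_strategy⟩

end Pool.Agent.Run7.h924.KeptNWS
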