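import Mathlib
import Pool.Agent.Run7.h924.LatJ

set_option autoImplicit false

/-!
# MP_eba1ef_gt: unit balls of all finite-dimensional subspaces of `q`-concave Banach lattices

A lattice norm `N` is `q`-concave with constant one if
`N(f)^q + N(g)^q ≤ N((|f|^q + |g|^q)^(1/q))^q`. For instance `L_q`, the Orlicz and
Musielak-Orlicz spaces of Young functions for which `φ(t^(1/q))` is concave, the mixed norm spaces
`L_(p_1)(L_(p_2)(...))`, `p_i ≤ q`, and so on; and every Banach lattice of finite cotype has an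
equivalent norm with this property for some `q` (Figiel, Johnson).

We prove that the unit ball `K ⊆ ℝ^d` of every `d`-dimensional subspace of such a lattice (with no
symmetry, no smoothness and no condition on the subspace) is covered by at most
`1 + 13 d log(4d+1) 2^d e^(-2s)` translates of its interior, where
`s = d^(1/(r+1)) / (202760 (r+1))`, `r = max(q,2)`, and by less than `2^d` translates if `s ≥ 5` and
`s ≥ log d`. So for each `q` Hadwiger's conjecture is true, with strict inequality, for all these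
bodies in all sufficiently high dimensions. (Clauses 1 and 2. In the definition the lattice is
`C(Ω)` with `Ω` compact: by Kakutani's theorem the ideal generated by finitely many elements of any
Banach lattice is of this form. Clause 3 deals with function norms on measurable spaces, and
clause 4 with the bodies `{x : ∫ φ_ω(|⟨x, v_ω⟩|) dμ(ω) ≤ 1}`.)

Such spaces may contain `ℓ_1^m` isometrically for all `m ≤ d` (for instance subspaces of `L_1(L_q)`
or of `L log L`); the only bodies of this kind for which this was known are the unit balls of the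
subspaces of `L_q` (`LqSumsOfSmallSpaces`) and those without almost isometric copies of `ℓ_1^m`,
`m ≤ C log d` (`NoAlmostEllOne`).

The proof. (a) A criterion for an arbitrary centrally symmetric body: let `η` be the
average of `‖z + s v‖ - ‖z‖` over independent uniform `z, v ∈ K`. Then the flatness of `K`, i.e. the
average of `|D‖·‖(z)[v]|`, is at most `(2η + 1/(d+1))/s`. Indeed
`∫_K (‖z + sv‖ - 1)_+ dz ≤ ∫_K (‖z + sv‖ - ‖z‖) dz` as `∫_K (1 - ‖z + sv‖)_+ dz ≤ ∫_K (1 - ‖z‖) dz`,
and `(‖z + sv‖ - 1)_+ + (‖z - sv‖ - 1)_+ ≥ ‖z‖ - 1 + s |D‖·‖(z)[v]|` by convexity. A body with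
flatness much smaller than `1 / log d` satisfies the conjecture (`ThinSlabs`). (b) Let `m(z, w)` be
the mean of order `q` of `|z + w|` and `|z - w|` (in the lattice). By `q`-concavity
`‖z + sv‖ + ‖z - sv‖ ≤ 2 ‖m(z, sv)‖ ≤ 2 ‖z‖ + 2 ‖m(z, sv) - |z|‖`, and by Jensen's inequality for
the concave function `Y ↦ N(Y^(1/q))^q` the mean of `‖m(z, sv) - |z|‖^q` is at most the `q`-th power
of the norm of the function `(E (m(z, sv) - |z|)^q)^(1/q)`. At each point of `Ω` this is an
expectation for one linear functional: as `m(z, w) - |z| ≤ min(|w|, q w^2 / |z|)`, and linear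
functionals on `K` have small ball estimates and moments by Brunn-Minkowski, it is at most
`68 (q+1) s^(1+1/q) E |z|`. Finally `‖E |z|‖ ≤ E ‖z‖ ≤ 1`. So `η ≤ 68 (q+1) s^(1+1/q)`.
-/

namespace Pool.Agent.Run7.h924.OldQConcave

open MeasureTheory
open Pool.Agent.Run7.h924.Lat

universe u v

/-- `K` is the unit ball of a `d`-dimensional subspace (with the basis `F`) of a Banach lattice
which is `q`-concave with constant one: `K = {x | N(∑ x_i F_i) ≤ 1}` is bounded, where `N` is such
a lattice seminorm on `C(Ω)`, `Ω` compact. -/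
def IsLatticeBody {d : ℕ} (q : ℝ) (K : Set (EuclideanSpace ℝ (Fin d))) : Prop :=
  Bornology.IsBounded K ∧
  ∃ (Ω : Type u) (_ : TopologicalSpace Ω) (_ : CompactSpace Ω) (N : C(Ω, ℝ) → ℝ)
    (F : Fin d → C(Ω, ℝ)), IsQLat q N ∧ K = {x | N (∑ i, x i • F i) ≤ 1}

/-- **Main theorem.** -/
theorem result :
    -- (1) the quantitative bound
    (∀ (d : ℕ) (q : ℝ), 2 ≤ d → 1 ≤ q → ∀ K : Set (EuclideanSpace ℝ (Fin d)),
      IsLatticeBody.{u} q K → ∀ r s : ℝ, r = max q 2 →
      s = (d : ℝ) ^ (1 / (r + 1)) / (202760 * (r + 1)) →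
      ∃ T : Finset (EuclideanSpace ℝ (Fin d)),
        K ⊆ ⋃ t ∈ T, (fun x => t + x) '' interior K ∧
        (T.card : ℝ) ≤ 1 + 13 * d * Real.log (4 * d + 1) * 2 ^ d * Real.exp (-(2 * s)) ∧
        (5 ≤ s → Real.log d ≤ s → T.card < 2 ^ d)) ∧
    -- (2) Hadwiger's conjecture in high dimensions
    (∀ q : ℝ, 1 ≤ q → ∃ d₀ : ℕ, ∀ d : ℕ, d₀ ≤ d →
      ∀ K : Set (EuclideanSpace ℝ (Fin d)), IsLatticeBody.{u} q K →
        ∃ T : Finset (EuclideanSpace ℝ (Fin d)),
          K ⊆ ⋃ t ∈ T, (fun x => t + x) '' interior K ∧ T.card < 2 ^ d) ∧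
    -- (3) the class contains the unit balls of the subspaces of all function spaces given by a
    -- function norm which is `q`-concave with constant one
    (∀ (d : ℕ) (q : ℝ), 1 ≤ q → ∀ (Ω : Type v) [MeasurableSpace Ω] (N : (Ω → ℝ) → ENNReal),
      IsFunNorm q N → ∀ f : Fin d → Ω → ℝ, (∀ i, Measurable (f i)) → (∀ i, N (f i) ≠ ⊤) →
      ∀ K : Set (EuclideanSpace ℝ (Fin d)), K = {x | N (fun ω => ∑ i, x i * f i ω) ≤ 1} →
        Bornology.IsBounded K → IsLatticeBody.{0} q K) ∧
    -- (4) in particular the bodies given by a measurable family of Young functions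
    (∀ (d : ℕ) (q : ℝ), 1 ≤ q → ∀ (Ω : Type v) [MeasurableSpace Ω] (μ : Measure Ω)
      (φ : Ω → ℝ → ℝ), IsYoung q φ → ∀ f : Fin d → Ω → ℝ, (∀ i, Measurable (f i)) →
      (∀ x : EuclideanSpace ℝ (Fin d), Integrable (fun ω => φ ω |∑ i, x i * f i ω|) μ) →
      ∀ K : Set (EuclideanSpace ℝ (Fin d)), K = {x | ∫ ω, φ ω |∑ i, x i * f i ω| ∂μ ≤ 1} →
        Bornology.IsBounded K → IsLatticeBody.{0} q K) := by
  have main : ∀ (d : ℕ) (q : ℝ), 2 ≤ d → 1 ≤ q → ∀ K : Set (EuclideanSpace ℝ (Fin d)),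
      IsLatticeBody.{u} q K → ∀ r s : ℝ, r = max q 2 →
      s = (d : ℝ) ^ (1 / (r + 1)) / (202760 * (r + 1)) →
      ∃ T : Finset (EuclideanSpace ℝ (Fin d)),
        K ⊆ ⋃ t ∈ T, (fun x => t + x) '' interior K ∧
        (T.card : ℝ) ≤ 1 + 13 * d * Real.log (4 * d + 1) * 2 ^ d * Real.exp (-(2 * s)) ∧
        (5 ≤ s → Real.log d ≤ s → T.card < 2 ^ d) := by
    rintro d q hd hq K ⟨hb, Ω, hΩ, hΩc, N, F, H, hK⟩ r s hr hs
    have hqr : q ≤ r := by rw [hr]; exact le_max_left _ _
    have h2r : 2 ≤ r := by rw [hr]; exact le_max_right _ _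
    exact cover_lat (H.up (by linarith) hqr) F hd h2r K hK hb s hs
  refine ⟨main, ?_, ?_, ?_⟩
  · intro q hq
    obtain ⟨d₀, hd₀⟩ := exists_dim' (max q 2) (le_max_right _ _)
    refine ⟨max d₀ 2, fun d hd K hK => ?_⟩
    obtain ⟨h5, hlog⟩ := hd₀ d (le_trans (le_max_left _ _) hd)
    obtain ⟨T, h1, -, h3⟩ := main d q (le_trans (le_max_right _ _) hd) hq K hK _ _ rfl rfl
    exact ⟨T, h1, h3 h5 hlog⟩
  · intro d q hq Ω _ N H f hf hN K hK hb
    refine ⟨hb, CB d, inferInstance, inferInstance, NC N f, crd,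
      H.isQLat (by linarith) f hf hN, ?_⟩
    exact eq_ball H f hf hN K hK
  · intro d q hq Ω _ μ φ Y f hf hint K hK hb
    have hN : ∀ i, lux φ μ (f i) ≠ ⊤ := by
      intro i
      refine lux_ne_top Y _ ?_
      have h := hint (EuclideanSpace.single i 1)
      simpa using h
    refine ⟨hb, CB d, inferInstance, inferInstance, NC (lux φ μ) f, crd,
      (lux_isFunNorm (μ := μ) Y hq).isQLat (by linarith) f hf hN, ?_⟩
    exact eq_ball (lux_isFunNorm (μ := μ) Y hq) f hf hN K (eq_young Y hq f hint K hK)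

end Pool.Agent.Run7.h924.OldQConcave
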